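import Pool.Agent.V8H15.LW.Exp
import Pool.Agent.V8H15.DN.Twi

/-!
# The archimedean term

Project LW (helper15).
-/

set_option autoImplicit false

open MeasureTheory Set Filter Topology Complex

namespace Pool.Agent.V8H15.LW

open Pool.Agent.R399.TW (pt pt_re pt_im pt_cont strip)
open W388 (GG FE2)
open H370.DL (refl analyticAt_refl logDeriv_refl eventually_im_ne)
open Pool.Agent.W820.TW (digamma_strip LX LX_ne_zero LX_analytic logDeriv_LX fe_asym)
open Pool.Agent.V8H15.DN (Gamma_diffAt)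

/-- the archimedean function -/
noncomputable def Gf (κ c : ℝ) (s : ℂ) : ℂ :=
  2 * Real.log κ + logDeriv Gamma (1 + c - s) + logDeriv Gamma (s + c)

lemma Gf_fe {k : ℤ} {N Q : ℝ} (hN : 1 ≤ N) (hQ : 1 ≤ Q) {F : ℂ → ℂ} (hF : FE2 k N Q F) {s : ℂ}
    (hs : s.im ≠ 0) (h4 : F s ≠ 0) :
    deriv F s / F s = -(Gf (Real.sqrt N * Q / (2 * Real.pi)) (((k : ℝ) - 1) / 2) s) -
      (starRingEnd ℂ) (deriv F (1 - (starRingEnd ℂ) s) / F (1 - (starRingEnd ℂ) s)) := by
  have hpi := Real.pi_pos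
  have hsq : 0 < Real.sqrt N := Real.sqrt_pos.mpr (by linarith)
  have hκ : 0 < Real.sqrt N * Q / (2 * Real.pi) := by positivity
  obtain ⟨w, hw, hfe⟩ := fe_asym hN hQ hF
  have hw0 : w ≠ 0 := by
    intro h
    rw [h, norm_zero] at hw
    exact zero_ne_one hw
  obtain ⟨c, hc⟩ : ∃ c : ℝ, c = ((k : ℝ) - 1) / 2 := ⟨_, rfl⟩
  obtain ⟨κ, hκd⟩ : ∃ κ : ℝ, κ = Real.sqrt N * Q / (2 * Real.pi) := ⟨_, rfl⟩
  rw [← hc, ← hκd] at hfe ⊢
  rw [← hκd] at hκ
  have hd : Differentiable ℂ F := hF.diff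
  have ha : AnalyticAt ℂ F (1 - (starRingEnd ℂ) s) := hd.analyticAt _
  have e1 : F =ᶠ[𝓝 s] fun z => LX w κ c z * refl F z := by
    filter_upwards [eventually_im_ne hs] with z hz
    exact hfe z hz
  have hr : refl F s ≠ 0 := by
    intro h
    apply h4
    rw [hfe s hs, h, mul_zero]
  have e2 : logDeriv F s = logDeriv (LX w κ c) s + logDeriv (refl F) s := by
    rw [(logDeriv_congr_nhds e1).eq_of_nhds]
    exact logDeriv_mul s (LX_ne_zero w hw0 κ c hκ hs) hr (LX_analytic w κ c hκ hs).differentiableAt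
      (analyticAt_refl ha).differentiableAt
  rw [logDeriv_refl ha.differentiableAt, logDeriv_LX w hw0 κ c hκ hs] at e2
  rw [logDeriv_apply, logDeriv_apply F] at e2
  rw [e2]
  unfold Gf
  ring

lemma ldG_an {s : ℂ} (hs : 0 < s.re) : AnalyticAt ℂ (logDeriv Gamma) s := by
  have hA : AnalyticAt ℂ Gamma s := by
    rw [analyticAt_iff_eventually_differentiableAt]
    have hev : ∀ᶠ z : ℂ in 𝓝 s, 0 < z.re :=
      (Complex.continuous_re.isOpen_preimage _ isOpen_Ioi).mem_nhds hs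
    filter_upwards [hev] with z hz
    exact Gamma_diffAt hz
  exact hA.deriv.div hA (Complex.Gamma_ne_zero_of_re_pos hs)

/-- bounds for the digamma function -/
lemma dig_bd (b : ℝ) (hb : 1 / 4 ≤ b) : ∃ C : ℝ, 0 ≤ C ∧ ∀ s : ℂ, 1 / 4 ≤ s.re → s.re ≤ b →
    ‖logDeriv Gamma s‖ ≤ C + Real.log (1 + |s.im|) ∧ -C ≤ (logDeriv Gamma s).re := by
  obtain ⟨C0, hC0, hC⟩ := digamma_strip b
  have hK : IsCompact (Icc (1 / 4 : ℝ) b ×ℂ Icc (-1 : ℝ) 1) := isCompact_Icc.reProdIm isCompact_Icc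
  have hcont : ContinuousOn (logDeriv Gamma) (Icc (1 / 4 : ℝ) b ×ℂ Icc (-1 : ℝ) 1) := by
    intro s hs
    rw [Complex.mem_reProdIm] at hs
    exact (ldG_an (by linarith [hs.1.1])).continuousAt.continuousWithinAt
  obtain ⟨M, hM⟩ := hK.exists_bound_of_continuousOn hcont
  refine ⟨max C0 M, le_max_of_le_left hC0, fun s h1 h2 => ?_⟩
  have hlog : 0 ≤ Real.log (1 + |s.im|) := Real.log_nonneg (by linarith [abs_nonneg s.im])
  rcases le_total |s.im| 1 with h | h
  · have h3 := hM s (by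
      rw [Complex.mem_reProdIm]
      exact ⟨⟨h1, h2⟩, abs_le.mp h⟩)
    have h4 := Complex.abs_re_le_norm (logDeriv Gamma s)
    have h5 := neg_abs_le (logDeriv Gamma s).re
    have h6 := le_max_right C0 M
    constructor <;> linarith
  · have h3 := hC s (by linarith) h2 h
    have h7 : 0 ≤ Real.log |s.im| := Real.log_nonneg h
    have h8 : Real.log |s.im| ≤ Real.log (1 + |s.im|) :=
      Real.log_le_log (by linarith) (by linarith)
    have h4 := Complex.abs_re_le_norm (logDeriv Gamma s - Real.log |s.im|)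
    have h5 := neg_abs_le (logDeriv Gamma s - Real.log |s.im|).re
    rw [Complex.sub_re, Complex.ofReal_re] at h4 h5
    have h6 := le_max_left C0 M
    have h9 : ‖logDeriv Gamma s‖ ≤ ‖logDeriv Gamma s - Real.log |s.im|‖ + Real.log |s.im| := by
      have := norm_add_le (logDeriv Gamma s - Real.log |s.im|) ((Real.log |s.im| : ℝ) : ℂ)
      rw [sub_add_cancel, Complex.norm_real, Real.norm_eq_abs, abs_of_nonneg h7] at this
      exact this
    constructor <;> linarith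

lemma Gf_diff {κ c : ℝ} (hc : 1 / 2 ≤ c) :
    DifferentiableOn ℂ (Gf κ c) {s : ℂ | -(1 / 2) < s.re ∧ s.re < 3 / 2} := by
  intro s hs
  obtain ⟨h1, h2⟩ : -(1 / 2) < s.re ∧ s.re < 3 / 2 := hs
  refine DifferentiableAt.differentiableWithinAt ?_
  unfold Gf
  have e1 : DifferentiableAt ℂ (fun s : ℂ => logDeriv Gamma (1 + c - s)) s := by
    have h3 : 0 < (1 + c - s : ℂ).re := by
      simp only [Complex.sub_re, Complex.add_re, Complex.one_re, Complex.ofReal_re]
      linarith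
    exact DifferentiableAt.comp (f := fun s : ℂ => 1 + c - s) s
      (ldG_an h3).differentiableAt (by fun_prop)
  have e2 : DifferentiableAt ℂ (fun s : ℂ => logDeriv Gamma (s + c)) s := by
    have h3 : 0 < (s + c : ℂ).re := by
      simp only [Complex.add_re, Complex.ofReal_re]
      linarith
    exact DifferentiableAt.comp (f := fun s : ℂ => s + c) s
      (ldG_an h3).differentiableAt (by fun_prop)
  exact ((differentiableAt_const _).add e1).add e2

lemma log_one_add_le (y : ℝ) : Real.log (1 + |y|) ≤ |y| := by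
  have := Real.log_le_sub_one_of_pos (show 0 < 1 + |y| by positivity)
  linarith

lemma Gf_bd {κ c : ℝ} (hc : 1 / 2 ≤ c) : ∃ K : ℝ, 0 ≤ K ∧ ∀ s : ℂ, -(1 / 4) ≤ s.re →
    s.re ≤ 1 / 2 → ‖Gf κ c s‖ ≤ K * (1 + |s.im|) := by
  obtain ⟨C, hC0, hC⟩ := dig_bd (c + 2) (by linarith)
  refine ⟨|2 * Real.log κ| + 2 * C + 2, by positivity, fun s h1 h2 => ?_⟩
  have b1 := (hC (1 + c - s) (by simp; linarith) (by simp; linarith)).1
  have b2 := (hC (s + c) (by simp; linarith) (by simp; linarith)).1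
  have i1 : (1 + c - s : ℂ).im = -s.im := by simp
  have i2 : (s + c : ℂ).im = s.im := by simp
  rw [i1, abs_neg] at b1
  rw [i2] at b2
  have h3 := log_one_add_le s.im
  have h4 : ‖(2 * Real.log κ : ℂ)‖ = |2 * Real.log κ| := by
    rw [← Real.norm_eq_abs, ← Complex.norm_real]
    push_cast
    rfl
  have h5 : ‖Gf κ c s‖ ≤ |2 * Real.log κ| + ‖logDeriv Gamma (1 + c - s)‖ +
      ‖logDeriv Gamma (s + c)‖ := by
    unfold Gf
    refine (norm_add_le _ _).trans (add_le_add ((norm_add_le _ _).trans ?_) le_rfl)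
    rw [h4]
  have h6 := abs_nonneg s.im
  have h7 : 0 ≤ |2 * Real.log κ| := abs_nonneg _
  nlinarith

/-- the archimedean function on the critical line -/
lemma Gf_line (N : ℝ) (hN : 1 ≤ N) (c : ℝ) (hc : 1 / 2 ≤ c) : ∃ C : ℝ, 0 ≤ C ∧
    ∀ Q y : ℝ, 1 ≤ Q →
      ‖Gf (Real.sqrt N * Q / (2 * Real.pi)) c (pt (1 / 2) y) - ((2 * Real.log Q : ℝ) : ℂ)‖ ≤
        C + 2 * Real.log (1 + |y|) ∧
      2 * Real.log Q - C ≤ (Gf (Real.sqrt N * Q / (2 * Real.pi)) c (pt (1 / 2) y)).re := by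
  obtain ⟨C, hC0, hC⟩ := dig_bd (c + 2) (by linarith)
  have hpi := Real.pi_pos
  have hsq : 0 < Real.sqrt N := Real.sqrt_pos.mpr (by linarith)
  refine ⟨|2 * Real.log (Real.sqrt N / (2 * Real.pi))| + 2 * C, by positivity, ?_⟩
  intro Q y hQ
  have hQ0 : 0 < Q := by linarith
  obtain ⟨s, hs⟩ : ∃ s : ℂ, s = pt (1 / 2) y := ⟨_, rfl⟩
  have hsr : s.re = 1 / 2 := by rw [hs, pt_re]
  have hsi : s.im = y := by rw [hs, pt_im]
  rw [← hs]
  have b1 := hC (1 + c - s) (by simp; linarith) (by simp; linarith)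
  have b2 := hC (s + c) (by simp; linarith) (by simp; linarith)
  have i1 : (1 + c - s : ℂ).im = -y := by simp [hsi]
  have i2 : (s + c : ℂ).im = y := by simp [hsi]
  rw [i1, abs_neg] at b1
  rw [i2] at b2
  have hlogκ : Real.log (Real.sqrt N * Q / (2 * Real.pi)) =
      Real.log (Real.sqrt N / (2 * Real.pi)) + Real.log Q := by
    rw [← Real.log_mul (by positivity) hQ0.ne']
    congr 1
    ring
  obtain ⟨l, hl⟩ : ∃ l : ℝ, l = 2 * Real.log (Real.sqrt N / (2 * Real.pi)) := ⟨_, rfl⟩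
  have e1 : Gf (Real.sqrt N * Q / (2 * Real.pi)) c s = (l : ℂ) + ((2 * Real.log Q : ℝ) : ℂ) +
      logDeriv Gamma (1 + c - s) + logDeriv Gamma (s + c) := by
    unfold Gf
    rw [hlogκ, hl]
    push_cast
    ring
  rw [← hl, e1]
  constructor
  · have e2 : (l : ℂ) + ((2 * Real.log Q : ℝ) : ℂ) + logDeriv Gamma (1 + c - s) +
        logDeriv Gamma (s + c) - ((2 * Real.log Q : ℝ) : ℂ) =
        (l : ℂ) + logDeriv Gamma (1 + c - s) + logDeriv Gamma (s + c) := by ring
    rw [e2]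
    have h1 := norm_add_le ((l : ℂ) + logDeriv Gamma (1 + c - s)) (logDeriv Gamma (s + c))
    have h2 := norm_add_le (l : ℂ) (logDeriv Gamma (1 + c - s))
    rw [Complex.norm_real, Real.norm_eq_abs] at h2
    linarith [b1.1, b2.1]
  · rw [Complex.add_re, Complex.add_re, Complex.add_re, Complex.ofReal_re, Complex.ofReal_re]
    have := neg_abs_le l
    linarith [b1.2, b2.2]

end Pool.Agent.V8H15.LW
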