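import Pool.Agent.V8H15.LW.Fin2
import Pool.Agent.V8H15.LW.Ram
import Pool.Agent.H385R2.WinE

/-!
# The theorem for the family, analytic normalisation

Project LW (helper15).
-/

set_option autoImplicit false

open Finset Filter Topology MeasureTheory Complex UpperHalfPlane MatrixGroups
  CongruenceSubgroup

namespace Pool.Agent.V8H15.LW

open W388 (IsNewf lamf heckeSeq_lamf cS)
open H385 (primSetM mem_primSetM IX Rw primFamM primFamM_eq Rw_const_d2)
open H370 (mult)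

/-- the zeros in the open critical strip with ordinate in `(t, t + V]` -/
def zo (F : ℂ → ℂ) (t V : ℝ) : Set ℂ :=
  {s : ℂ | 0 < s.re ∧ s.re < 1 ∧ t < s.im ∧ s.im ≤ t + V ∧ F s = 0}

/-- their number with multiplicity -/
noncomputable def No (F : ℂ → ℂ) (t V : ℝ) : ℕ := ∑ᶠ s ∈ zo F t V, analyticOrderNatAt F s

/-- the number of the simple zeros on the critical line -/
noncomputable def Nso (F : ℂ → ℂ) (t V : ℝ) : ℕ :=
  {s : ℂ | s ∈ zo F t V ∧ s.re = 1 / 2 ∧ analyticOrderNatAt F s = 1}.ncard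

/-- the number of distinct zeros -/
noncomputable def Ndo (F : ℂ → ℂ) (t V : ℝ) : ℕ := (zo F t V).ncard

variable {F : ℂ → ℂ} {t V : ℝ}

lemma zo_sub : zo F t V ⊆ cz F t V := fun _ ⟨a, b, c, d, e⟩ => ⟨a.le, b.le, c, d, e⟩

lemma No_le (hfin : (cz F t V).Finite) : No F t V ≤ Nb F t V := by
  unfold No Nb
  rw [finsum_mem_eq_finite_toFinset_sum _ (hfin.subset zo_sub),
    finsum_mem_eq_finite_toFinset_sum _ hfin]
  refine sum_le_sum_of_subset_of_nonneg ?_ fun _ _ _ => Nat.zero_le _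
  intro s hs
  rw [Set.Finite.mem_toFinset] at hs ⊢
  exact zo_sub hs

lemma Nso_eq : Nso F t V = (sz F t V).ncard := by
  unfold Nso
  congr 1
  ext s
  constructor
  · rintro ⟨a, b, c⟩
    exact ⟨zo_sub a, b, c⟩
  · rintro ⟨⟨_, _, a3, a4, a5⟩, b, c⟩
    refine ⟨⟨?_, ?_, a3, a4, a5⟩, b, c⟩ <;> rw [b] <;> norm_num

lemma Ndo_ge (hfin : (cz F t V).Finite)
    (hb : ∀ s ∈ cz F t V, s ∉ zo F t V → s = 0 ∨ s = 1) :
    ((cz F t V).ncard : ℝ) - 2 ≤ Ndo F t V := by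
  have h1 : cz F t V ⊆ zo F t V ∪ {0, 1} := by
    intro s hs
    by_cases h : s ∈ zo F t V
    · exact Or.inl h
    · exact Or.inr (hb s hs h)
  have hf2 : (zo F t V ∪ {0, 1}).Finite := (hfin.subset zo_sub).union (Set.toFinite _)
  have h2 := Set.ncard_le_ncard h1 hf2
  have h3 := Set.ncard_union_le (zo F t V) ({0, 1} : Set ℂ)
  have h4 : ({0, 1} : Set ℂ).ncard ≤ 2 := by
    rw [Set.ncard_pair (by norm_num)]
  have h5 : (cz F t V).ncard ≤ (zo F t V).ncard + 2 := by omega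
  unfold Ndo
  have h6 : ((cz F t V).ncard : ℝ) ≤ (zo F t V).ncard + 2 := by exact_mod_cast h5
  linarith

/-- **The theorem for the family**, analytic normalisation. -/
theorem fin1 {N : ℕ} [NeZero N] {k : ℤ} (hk : 2 ≤ k)
    {f : CuspForm (Gamma0 N : Subgroup (GL (Fin 2) ℝ)) k} {ε : ℝ} (hf : IsNewf N k f ε)
    (hgood : ∀ p : ℕ, p.Prime → ¬ p ∣ N → |lamf f p| ≤ 2)
    (hbad : ∀ p : ℕ, p.Prime → p ∣ N → |lamf f p| ≤ 1) :
    ∃ F : (q : ℕ) → DirichletCharacter ℂ q → ℂ → ℂ,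
      (∀ (q : ℕ) (χ : DirichletCharacter ℂ q), 1 ≤ q → Nat.Coprime q N → χ.IsPrimitive →
        Differentiable ℂ (F q χ) ∧ ∀ s : ℂ, 1 < s.re →
          HasProd (fun p : Nat.Primes =>
            (1 - χ ((p : ℕ) : ZMod q) * (lamf f p : ℂ) * ((p : ℕ) : ℂ) ^ (-s) +
              (if (p : ℕ) ∣ N then 0 else
                χ ((p : ℕ) : ZMod q) ^ 2 * ((p : ℕ) : ℂ) ^ (-2 * s)))⁻¹) (F q χ s)) ∧
      ∃ K η X₀ : ℝ, 1 ≤ K ∧ 0 < η ∧ 1 ≤ X₀ ∧
      ∀ (X Y : ℕ) (t V : ℝ), X₀ ≤ X → K * X ≤ Y → (Y : ℝ) ≤ (X : ℝ) ^ (1 + η) →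
        |t| ≤ (X : ℝ) ^ η → K ≤ V * Real.log X → V ≤ (X : ℝ) ^ η →
        0.6725 * primFamM N X Y (fun q χ => (No (F q χ) t V : ℝ)) ≤
          primFamM N X Y (fun q χ => (Nso (F q χ) t V : ℝ)) ∧
        0.83625 * primFamM N X Y (fun q χ => (No (F q χ) t V : ℝ)) ≤
          primFamM N X Y (fun q χ => (Ndo (F q χ) t V : ℝ)) ∧
        V * Real.log X / 6 * primFamM N X Y (fun _ _ => 1) ≤
          primFamM N X Y (fun q χ => (Nso (F q χ) t V : ℝ)) ∧
        1 ≤ primFamM N X Y (fun _ _ => 1) := by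
  have hN : 1 ≤ N := Nat.pos_of_ne_zero (NeZero.ne N)
  have hH := heckeSeq_lamf hf
  obtain ⟨A, F, hA, hF⟩ := twists2 (by omega : 1 ≤ k) hf
  refine ⟨F, fun q χ hq hqN hχ => ⟨hF.diff q χ, hF.prod q χ hq hqN hχ⟩, ?_⟩
  have hc2 : ∀ n, ArithmeticFunction.vonMangoldt n * ‖((cS N (lamf f) n : ℝ) : ℂ)‖ ≤
      2 * ArithmeticFunction.vonMangoldt n := by
    intro n
    by_cases h : IsPrimePow n
    · rw [Complex.norm_real, Real.norm_eq_abs, mul_comm]
      exact mul_le_mul_of_nonneg_right (ram_main hH hgood hbad h)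
        ArithmeticFunction.vonMangoldt_nonneg
    · rw [ArithmeticFunction.vonMangoldt_eq_zero_iff.mpr h]
      simp
  obtain ⟨K, η, X₀, hK, hη, hX₀, hmain⟩ := fin0 hk hf hA hF hc2 (γ := 1.414) (κ := 1.3275)
    (by norm_num) (by linarith [Real.pi_gt_three]) Rw_const_d2 (by norm_num)
  refine ⟨K, η, X₀, hK, hη, hX₀, ?_⟩
  intro X Y t V h1 h2 h3 h4 h5 h6
  obtain ⟨g1, g2, g3, g4, g5⟩ := hmain X Y h1 h2 h3 t V h4 h5 h6
  simp only [primFamM_eq, Nso_eq, mul_one]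
  have hle : ∑ i ∈ primSetM N X Y, (1 / (i.1 : ℝ) ^ 2) * (No (F i.1 i.2) t V : ℝ) ≤
      ∑ i ∈ primSetM N X Y, (1 / (i.1 : ℝ) ^ 2) * (Nb (F i.1 i.2) t V : ℝ) := by
    refine sum_le_sum fun i hi => mul_le_mul_of_nonneg_left ?_ (by positivity)
    exact_mod_cast No_le (g1 i hi)
  have hD : ∑ i ∈ primSetM N X Y, (1 / (i.1 : ℝ) ^ 2) *
      (((cz (F i.1 i.2) t V).ncard : ℝ) - 2) ≤
      ∑ i ∈ primSetM N X Y, (1 / (i.1 : ℝ) ^ 2) * (Ndo (F i.1 i.2) t V : ℝ) := by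
    refine sum_le_sum fun i hi => mul_le_mul_of_nonneg_left ?_ (by positivity)
    refine Ndo_ge (g1 i hi) ?_
    rw [mem_primSetM] at hi
    obtain ⟨hi1, hi2, hi3, hi4⟩ := hi
    have hiq : 1 ≤ i.1 := by omega
    intro s hs hn
    obtain ⟨a1, a2, a3, a4, a5⟩ := hs
    rcases eq_or_lt_of_le a1 with b1 | b1
    · left
      have h7 := hF.sym hk hN hiq hi3 hi4 (s := s) (by linarith) (by linarith)
      have h8 : analyticOrderAt (F i.1 i.2) s ≠ 0 :=
        ((hF.diff i.1 i.2).analyticAt s).analyticOrderAt_ne_zero.mpr a5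
      rw [← h7] at h8
      have h9 := apply_eq_zero_of_analyticOrderAt_ne_zero h8
      by_contra hs0
      have him : s.im ≠ 0 := by
        intro h
        exact hs0 (Complex.ext b1.symm h)
      refine hF.ne1 i.1 i.2 hiq hi3 hi4 (1 - (starRingEnd ℂ) s) ?_ ?_ h9
      · rw [Complex.sub_re, Complex.one_re, Complex.conj_re, ← b1, sub_zero]
      · rw [Complex.sub_im, Complex.one_im, Complex.conj_im]
        simpa using him
    · rcases eq_or_lt_of_le a2 with b2 | b2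
      · right
        by_contra hs0
        have him : s.im ≠ 0 := by
          intro h
          exact hs0 (Complex.ext b2 h)
        exact hF.ne1 i.1 i.2 hiq hi3 hi4 s b2 him a5
      · exact absurd ⟨b1, b2, a3, a4, a5⟩ hn
  have hW := mul_le_mul_of_nonneg_left g4 (by norm_num : (0 : ℝ) ≤ 0.6725)
  have hVL : 0 ≤ V * Real.log X := by linarith
  have hWV : 0 ≤ (∑ i ∈ primSetM N X Y, (1 / (i.1 : ℝ) ^ 2)) * (V * Real.log X) :=
    mul_nonneg (by linarith) hVL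
  norm_num at g2 g3 ⊢
  norm_num at hle hD hW hWV
  refine ⟨?_, ?_, ?_, ?_⟩
  · linarith
  · linarith
  · linarith
  · simpa using g5

end Pool.Agent.V8H15.LW
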