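import Pool.Agent.V8H15.LW.Exp2

/-!
# Continuity, finite sums, and the archimedean term

Project LW (helper15).
-/

set_option autoImplicit false

open MeasureTheory Set Filter Topology Complex

namespace Pool.Agent.V8H15.LW

open Pool.Agent.R399.TW (pt pt_re pt_im pt_cont strip)
open H385 (zz)

variable {w : ℂ → ℂ} {C lam t V : ℝ} {p : ℕ}
variable {F : ℂ → ℂ} {a : ℕ → ℂ} {G : ℂ → ℂ}

lemma ft_cont (hw : Wnd w C lam t V p) (hl : 0 < lam) (hp : 2 ≤ p) (hC : 0 ≤ C) :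
    Continuous (ft w) := by
  have hi := hw.integrable hl hp hC
  unfold ft
  refine continuous_of_dominated (bound := fun x : ℝ => ‖w x‖) ?_ ?_ hi.norm ?_
  · intro ξ
    have h1 : Continuous fun x : ℝ => w x * cexp (-(I * ξ * x)) := by
      refine (hw.diff.continuous.comp Complex.continuous_ofReal).mul ?_
      fun_prop
    exact h1.aestronglyMeasurable
  · intro ξ
    refine Eventually.of_forall fun x => ?_
    rw [norm_mul]
    have e : ‖cexp (-(I * ξ * x))‖ = 1 := by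
      rw [Complex.norm_exp]
      simp
    rw [e, mul_one]
  · refine Eventually.of_forall fun x => ?_
    fun_prop

lemma ft_norm_le (hw : Wnd w C lam t V p) (hl : 0 < lam) (hp : 2 ≤ p) (hC : 0 ≤ C) (hV : 0 ≤ V)
    (ξ : ℝ) : ‖ft w ξ‖ ≤ V + C * (2 * Real.pi / lam) := by
  have h1 : ‖ft w ξ‖ ≤ ∫ x : ℝ, ‖w x * cexp (-(I * ξ * x))‖ := norm_integral_le_integral_norm _
  have h2 : ∀ x : ℝ, ‖w x * cexp (-(I * ξ * x))‖ = (w x).re := by
    intro x
    rw [norm_mul]
    have e : ‖cexp (-(I * ξ * x))‖ = 1 := by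
      rw [Complex.norm_exp]
      simp
    rw [e, mul_one, hw.norm_real]
  simp_rw [h2] at h1
  have h3 := (abs_le.mp (hw.mass hl hp hC hV)).2
  linarith

/-- complex conjugation -/
lemma ft_neg (hw : Wnd w C lam t V p) (ξ : ℝ) : ft w (-ξ) = (starRingEnd ℂ) (ft w ξ) := by
  unfold ft
  rw [← integral_conj]
  refine integral_congr_ae (Eventually.of_forall fun x => ?_)
  simp only
  rw [map_mul, ← Complex.exp_conj]
  congr 1
  · rw [hw.real x, Complex.conj_ofReal]
  · congr 1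
    simp

/-- the archimedean term is continuous -/
lemma Mf_cont (hF : XF F a G) (hw : Wnd w C lam t V p) (hl : 0 < lam) (hp : 4 ≤ p)
    (hC : 0 ≤ C) : Continuous (Mf w G) := by
  obtain ⟨K, hK0, hK⟩ := hw.decay4 hl hp hC
  obtain ⟨K', hK'0, hK'⟩ := hF.Gb
  have hGc : Continuous fun y : ℝ => G (pt (1 / 2) y) :=
    hF.Gd.continuousOn.comp_continuous (pt_cont' _) fun y => by
      show -(1 / 2) < (pt (1 / 2) y).re ∧ (pt (1 / 2) y).re < 3 / 2
      rw [pt_re]
      constructor <;> norm_num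
  have hwc : Continuous fun y : ℝ => w y := hw.diff.continuous.comp Complex.continuous_ofReal
  unfold Mf
  refine continuous_const.mul ?_
  refine continuous_of_dominated (bound := fun y : ℝ => (2 * (K' * K)) * (1 + y ^ 2)⁻¹)
    ?_ ?_ (integrable_inv_one_add_sq.const_mul _) ?_
  · intro u
    have h1 : Continuous fun y : ℝ => G (pt (1 / 2) y) * (w y * cexp (I * u * y)) := by
      refine hGc.mul (hwc.mul ?_)
      fun_prop
    exact h1.aestronglyMeasurable
  · intro u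
    refine Eventually.of_forall fun y => ?_
    rw [norm_mul, norm_mul]
    have e : ‖cexp (I * u * y)‖ = 1 := by
      rw [Complex.norm_exp]
      simp
    rw [e, mul_one]
    have h1 := hK' (pt (1 / 2) y) (by rw [pt_re]; norm_num) (by rw [pt_re])
    rw [pt_im] at h1
    have h2 := hK y
    simp only [Complex.ofReal_im, abs_zero, mul_zero, Real.exp_zero, mul_one,
      Complex.ofReal_re] at h2
    calc _ ≤ (K' * (1 + |y|)) * (K * ((1 + y ^ 2)⁻¹) ^ 2) :=
          mul_le_mul h1 h2 (norm_nonneg _) (by positivity)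
      _ = (K' * K) * ((1 + |y|) * ((1 + y ^ 2)⁻¹) ^ 2) := by ring
      _ ≤ (K' * K) * (2 * (1 + y ^ 2)⁻¹) :=
          mul_le_mul_of_nonneg_left (lin_inv_sq_le _) (by positivity)
      _ = _ := by ring
  · refine Eventually.of_forall fun y => ?_
    fun_prop

/-- the length of the sums -/
noncomputable def NL (lam Λ : ℝ) : ℕ := ⌊Real.exp (Λ + lam)⌋₊

lemma NL_lt {Λ : ℝ} {n : ℕ} (hn : n ∉ Finset.range (NL lam Λ + 1)) : Λ + lam < Real.log n := by
  rw [Finset.mem_range, not_lt] at hn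
  have h1 : Real.exp (Λ + lam) < n := by
    have := Nat.lt_floor_add_one (Real.exp (Λ + lam))
    unfold NL at hn
    have h2 : ((⌊Real.exp (Λ + lam)⌋₊ + 1 : ℕ) : ℝ) ≤ n := by exact_mod_cast hn
    push_cast at h2
    linarith
  rw [Real.lt_log_iff_exp_lt (lt_trans (Real.exp_pos _) h1)]
  exact h1

lemma Pf_fin (hw : Wnd w C lam t V p) (hl : 0 < lam) (hp : 2 ≤ p) (hC : 0 ≤ C) (a : ℕ → ℂ)
    {Λ u : ℝ} (hu : u ≤ Λ) :
    Pf w a u = (1 / (2 * Real.pi) : ℝ) * ∑ n ∈ Finset.range (NL lam Λ + 1),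
      a n * ((Real.sqrt n : ℝ) : ℂ)⁻¹ * ft w (Real.log n - u) := by
  unfold Pf
  congr 1
  refine tsum_eq_sum fun n hn => ?_
  have h1 := NL_lt hn
  rw [hw.ft_zero hl hp hC, mul_zero]
  rw [lt_abs]
  left
  linarith

lemma Pt_fin (hw : Wnd w C lam t V p) (hl : 0 < lam) (hp : 2 ≤ p) (hC : 0 ≤ C) (a : ℕ → ℂ)
    {Λ u : ℝ} (hΛ : 0 ≤ Λ) (hu0 : 0 ≤ u) :
    Pt w a u = (1 / (2 * Real.pi) : ℝ) * ∑ n ∈ Finset.range (NL lam Λ + 1),
      (starRingEnd ℂ) (a n) * ((Real.sqrt n : ℝ) : ℂ)⁻¹ * ft w (-Real.log n - u) := by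
  unfold Pt
  congr 1
  refine tsum_eq_sum fun n hn => ?_
  have h1 := NL_lt hn
  rw [hw.ft_zero hl hp hC, mul_zero]
  rw [lt_abs]
  right
  linarith

/-- the dual sum vanishes beyond `lam` -/
lemma Pt_zero (hw : Wnd w C lam t V p) (hl : 0 < lam) (hp : 2 ≤ p) (hC : 0 ≤ C) (a : ℕ → ℂ)
    (ha0 : a 0 = 0) {u : ℝ} (hu : lam < u) : Pt w a u = 0 := by
  unfold Pt
  have h1 : ∀ n : ℕ, (starRingEnd ℂ) (a n) * ((Real.sqrt n : ℝ) : ℂ)⁻¹ *
      ft w (-Real.log n - u) = 0 := by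
    intro n
    rcases Nat.eq_zero_or_pos n with h0 | h0
    · subst h0
      rw [ha0]
      simp
    · have h2 : 0 ≤ Real.log n := Real.log_nonneg (by exact_mod_cast h0)
      rw [hw.ft_zero hl hp hC, mul_zero]
      rw [lt_abs]
      right
      linarith
  simp_rw [h1]
  simp

/-- the right side of the explicit formula is continuous on `[0, Λ]` -/
lemma rhs_cont (hF : XF F a G) (hw : Wnd w C lam t V p) (hl : 0 < lam) (hp : 4 ≤ p)
    (hC : 0 ≤ C) {Λ : ℝ} (hΛ : 0 ≤ Λ) :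
    ContinuousOn (fun u => Mf w G u - Pf w a u - Pt w a u) (Icc 0 Λ) := by
  have hfc := ft_cont hw hl (by omega) hC
  obtain ⟨g, hg⟩ : ∃ g : ℝ → ℂ, ∀ u, g u = Mf w G u - (1 / (2 * Real.pi) : ℝ) *
      (∑ n ∈ Finset.range (NL lam Λ + 1),
      a n * ((Real.sqrt n : ℝ) : ℂ)⁻¹ * ft w (Real.log n - u)) -
      (1 / (2 * Real.pi) : ℝ) * ∑ n ∈ Finset.range (NL lam Λ + 1),
      (starRingEnd ℂ) (a n) * ((Real.sqrt n : ℝ) : ℂ)⁻¹ * ft w (-Real.log n - u) :=
    ⟨_, fun _ => rfl⟩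
  have hgc : Continuous g := by
    have e : g = fun u => Mf w G u - (1 / (2 * Real.pi) : ℝ) *
      (∑ n ∈ Finset.range (NL lam Λ + 1),
      a n * ((Real.sqrt n : ℝ) : ℂ)⁻¹ * ft w (Real.log n - u)) -
      (1 / (2 * Real.pi) : ℝ) * ∑ n ∈ Finset.range (NL lam Λ + 1),
      (starRingEnd ℂ) (a n) * ((Real.sqrt n : ℝ) : ℂ)⁻¹ * ft w (-Real.log n - u) := funext hg
    rw [e]
    refine ((Mf_cont hF hw hl hp hC).sub (continuous_const.mul ?_)).sub (continuous_const.mul ?_)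
    · refine continuous_finsetSum _ fun n _ => continuous_const.mul (hfc.comp ?_)
      fun_prop
    · refine continuous_finsetSum _ fun n _ => continuous_const.mul (hfc.comp ?_)
      fun_prop
  refine hgc.continuousOn.congr fun u hu => ?_
  rw [hg, Pf_fin hw hl (by omega) hC a hu.2, Pt_fin hw hl (by omega) hC a hΛ hu.1]

end Pool.Agent.V8H15.LW
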