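import Pool.Agent.V8H15.DN.Lsv
import Pool.Agent.H385R2.PrimSetM

/-!
# Summation over the family by partial summation

Project LW (helper15).
-/

set_option autoImplicit false

open Finset Filter Topology MeasureTheory

namespace Pool.Agent.V8H15.LW

open Pool.Agent.V8H15.DN (idx mem_idx gv idx_block)
open H385 (primSetM mem_primSetM IX primFamM)

/-- partial summation for the weight `q⁻²` -/
theorem dyad (N X Y : ℕ) (hX : 1 ≤ X) (hXY : X ≤ Y) (f : IX → ℝ) (hf : ∀ p, 0 ≤ f p) (B : ℝ)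
    (hB : 0 ≤ B) (h : ∀ Q : ℕ, X < Q → Q ≤ Y → ∑ p ∈ idx N Q, f p ≤ B * (Q : ℝ) ^ 2) :
    ∑ p ∈ primSetM N X Y, (1 / (p.1 : ℝ) ^ 2) * f p ≤
      B * (1 + 2 * Real.log ((Y : ℝ) / X)) := by
  classical
  have hT : ∀ Q : ℕ, X < Q → Q ≤ Y → ∑ p ∈ primSetM N X Q, f p ≤ B * (Q : ℝ) ^ 2 := by
    intro Q h1 h2
    refine le_trans ?_ (h Q h1 h2)
    refine sum_le_sum_of_subset_of_nonneg ?_ fun p _ _ => hf p
    intro p hp
    rw [mem_primSetM] at hp
    exact mem_idx.mpr ⟨⟨by omega, hp.2.1⟩, hp.2.2.1, hp.2.2.2⟩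
  have hT0 : ∀ Q : ℕ, 0 ≤ ∑ p ∈ primSetM N X Q, f p := fun Q => sum_nonneg fun p _ => hf p
  have hX0 : (0 : ℝ) < X := by exact_mod_cast hX
  have key : ∀ Z : ℕ, X ≤ Z → Z ≤ Y →
      (∑ p ∈ primSetM N X Z, (1 / (p.1 : ℝ) ^ 2) * f p) -
        (∑ p ∈ primSetM N X Z, f p) / (Z : ℝ) ^ 2 ≤ 2 * B * Real.log ((Z : ℝ) / X) := by
    intro Z hZ
    induction Z, hZ using Nat.le_induction with
    | base =>
      intro _
      have he : primSetM N X X = ∅ := by
        rw [eq_empty_iff_forall_notMem]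
        intro p hp
        rw [mem_primSetM] at hp
        omega
      rw [he, div_self hX0.ne']
      simp
    | succ Z hZ ih =>
      intro hZY
      have ih' := ih (by omega)
      have hZ0 : (0 : ℝ) < Z := by
        have : 1 ≤ Z := by omega
        exact_mod_cast this
      have hfil : (primSetM N X (Z + 1)).filter (fun p => p.1 ≤ Z) = primSetM N X Z := by
        ext p
        simp only [mem_filter, mem_primSetM]
        constructor
        · rintro ⟨⟨a1, a2, a3, a4⟩, a5⟩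
          exact ⟨a1, a5, a3, a4⟩
        · rintro ⟨a1, a2, a3, a4⟩
          exact ⟨⟨a1, by omega, a3, a4⟩, a2⟩
      obtain ⟨D, hD⟩ : ∃ D : ℝ, D = ∑ p ∈ (primSetM N X (Z + 1)).filter (fun p => ¬ p.1 ≤ Z), f p :=
        ⟨_, rfl⟩
      have e1 : ∑ p ∈ primSetM N X (Z + 1), f p = ∑ p ∈ primSetM N X Z, f p + D := by
        rw [hD, ← sum_filter_add_sum_filter_not (primSetM N X (Z + 1)) (fun p => p.1 ≤ Z), hfil]
      have e2 : ∑ p ∈ primSetM N X (Z + 1), (1 / (p.1 : ℝ) ^ 2) * f p =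
          ∑ p ∈ primSetM N X Z, (1 / (p.1 : ℝ) ^ 2) * f p + D / ((Z : ℝ) + 1) ^ 2 := by
        rw [← sum_filter_add_sum_filter_not (primSetM N X (Z + 1)) (fun p => p.1 ≤ Z), hfil, hD,
          sum_div]
        congr 1
        refine sum_congr rfl fun p hp => ?_
        rw [mem_filter, mem_primSetM] at hp
        have : p.1 = Z + 1 := by omega
        rw [this]
        push_cast
        ring
      rw [e1, e2]
      push_cast
      obtain ⟨T, hTd⟩ : ∃ T : ℝ, T = ∑ p ∈ primSetM N X Z, f p := ⟨_, rfl⟩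
      obtain ⟨S, hSd⟩ : ∃ S : ℝ, S = ∑ p ∈ primSetM N X Z, (1 / (p.1 : ℝ) ^ 2) * f p := ⟨_, rfl⟩
      rw [← hTd, ← hSd] at ih' ⊢
      have hTle : T ≤ B * (Z : ℝ) ^ 2 := by
        rcases eq_or_lt_of_le hZ with h1 | h1
        · have he : primSetM N X Z = ∅ := by
            rw [eq_empty_iff_forall_notMem]
            intro p hp
            rw [mem_primSetM] at hp
            omega
          rw [hTd, he, sum_empty]
          positivity
        · rw [hTd]
          exact hT Z h1 (by omega)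
      have e3 : S + D / ((Z : ℝ) + 1) ^ 2 - (T + D) / ((Z : ℝ) + 1) ^ 2 =
          (S - T / (Z : ℝ) ^ 2) + T * (1 / (Z : ℝ) ^ 2 - 1 / ((Z : ℝ) + 1) ^ 2) := by
        field_simp
        ring
      rw [e3]
      have h4 : 0 ≤ 1 / (Z : ℝ) ^ 2 - 1 / ((Z : ℝ) + 1) ^ 2 := by
        rw [sub_nonneg]
        refine one_div_le_one_div_of_le (by positivity) ?_
        nlinarith
      have h5 : T * (1 / (Z : ℝ) ^ 2 - 1 / ((Z : ℝ) + 1) ^ 2) ≤ 2 * B * (1 / ((Z : ℝ) + 1)) := by
        calc T * (1 / (Z : ℝ) ^ 2 - 1 / ((Z : ℝ) + 1) ^ 2) ≤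
            (B * (Z : ℝ) ^ 2) * (1 / (Z : ℝ) ^ 2 - 1 / ((Z : ℝ) + 1) ^ 2) :=
              mul_le_mul_of_nonneg_right hTle h4
          _ = B * ((2 * Z + 1) / ((Z : ℝ) + 1) ^ 2) := by
              field_simp
              ring
          _ ≤ B * (2 * (1 / ((Z : ℝ) + 1))) := by
              refine mul_le_mul_of_nonneg_left ?_ hB
              rw [mul_one_div, div_le_div_iff₀ (by positivity) (by positivity)]
              nlinarith
          _ = _ := by ring
      have h6 : 1 / ((Z : ℝ) + 1) ≤ Real.log (((Z : ℝ) + 1) / Z) := by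
        have h2 : 1 - (((Z : ℝ) + 1) / Z)⁻¹ ≤ Real.log (((Z : ℝ) + 1) / Z) :=
          Real.one_sub_inv_le_log_of_pos (by positivity)
        refine le_trans (le_of_eq ?_) h2
        field_simp
        ring
      have h7 : Real.log (((Z : ℝ) + 1) / X) = Real.log ((Z : ℝ) / X) +
          Real.log (((Z : ℝ) + 1) / Z) := by
        rw [← Real.log_mul (by positivity) (by positivity)]
        congr 1
        field_simp
      rw [h7]
      have h8 := mul_le_mul_of_nonneg_left h6 (show 0 ≤ 2 * B by linarith)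
      linarith
  have hfin := key Y hXY le_rfl
  have hY0 : (0 : ℝ) < Y := by
    have : 1 ≤ Y := by omega
    exact_mod_cast this
  have hlast : (∑ p ∈ primSetM N X Y, f p) / (Y : ℝ) ^ 2 ≤ B := by
    rw [div_le_iff₀ (by positivity)]
    rcases eq_or_lt_of_le hXY with h1 | h1
    · have he : primSetM N X Y = ∅ := by
        rw [eq_empty_iff_forall_notMem]
        intro p hp
        rw [mem_primSetM] at hp
        omega
      rw [he, sum_empty]
      positivity
    · exact hT Y h1 le_rfl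
  linarith

/-- the large sieve over the family, without a sharp constant -/
theorem ls2 (N X Y K : ℕ) (hX : 1 ≤ X) (hXY : X ≤ Y) (hK : K ≤ X ^ 2) (α : ℕ → ℂ)
    (hα : α 0 = 0) :
    ∑ p ∈ primSetM N X Y, (1 / (p.1 : ℝ) ^ 2) *
        ‖∑ n ∈ range (K + 1), α n * p.2 (n : ZMod p.1)‖ ^ 2 ≤
      12 * (1 + 2 * Real.log ((Y : ℝ) / X)) * ∑ n ∈ range (K + 1), ‖α n‖ ^ 2 := by
  classical
  obtain ⟨A, hA⟩ : ∃ A : ℝ, A = ∑ n ∈ range (K + 1), ‖α n‖ ^ 2 := ⟨_, rfl⟩
  have hA0 : 0 ≤ A := by rw [hA]; exact sum_nonneg fun _ _ => by positivity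
  have hr : range (K + 1) = insert 0 (Icc 1 (0 + K)) := by
    ext n
    simp only [mem_range, mem_insert, mem_Icc]
    omega
  have h0 : (0 : ℕ) ∉ Icc 1 (0 + K) := by simp
  have hs1 : A = ∑ n ∈ Icc 1 (0 + K), ‖α n‖ ^ 2 := by
    rw [hA, hr, sum_insert h0, hα, norm_zero]
    ring
  have hs2 : ∀ p : IX, ∑ n ∈ range (K + 1), α n * p.2 (n : ZMod p.1) =
      ∑ n ∈ Icc 1 (0 + K), α n * gv p n := by
    intro p
    rw [hr, sum_insert h0, hα, zero_mul, zero_add]
    rfl
  have h1 := dyad N X Y hX hXY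
    (fun p => ‖∑ n ∈ range (K + 1), α n * p.2 (n : ZMod p.1)‖ ^ 2)
    (fun p => by positivity) (12 * A) (by positivity) (by
      intro Q hQ1 hQ2
      simp_rw [hs2]
      refine (idx_block N Q 0 K α (fun n hn => by
        have : n = 0 := by omega
        rw [this, hα])).trans ?_
      rw [← hs1]
      have h2 : (K : ℝ) ≤ (Q : ℝ) ^ 2 := by
        have h3 : (K : ℝ) ≤ (X : ℝ) ^ 2 := by exact_mod_cast hK
        have h4 : (X : ℝ) ≤ Q := by exact_mod_cast hQ1.le
        have h5 : (X : ℝ) ^ 2 ≤ (Q : ℝ) ^ 2 := pow_le_pow_left₀ (Nat.cast_nonneg _) h4 2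
        linarith
      have h6 := mul_le_mul_of_nonneg_right h2 hA0
      nlinarith)
  rw [← hA]
  calc _ ≤ 12 * A * (1 + 2 * Real.log ((Y : ℝ) / X)) := h1
    _ = _ := by ring

end Pool.Agent.V8H15.LW
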