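import Mathlib

/-!
# Prime powers which are not prime to `q`

Project LW (helper15).
-/

set_option autoImplicit false

open Finset ArithmeticFunction

namespace Pool.Agent.V8H15.LW

lemma card_pf_le {q : ℕ} (hq : 1 ≤ q) : (q.primeFactors.card : ℝ) ≤ 2 * Real.log q := by
  have h1 : 2 ^ q.primeFactors.card ≤ q := by
    calc 2 ^ q.primeFactors.card ≤ ∏ p ∈ q.primeFactors, p :=
          Finset.pow_card_le_prod _ _ _ fun p hp => (Nat.prime_of_mem_primeFactors hp).two_le
      _ ≤ q := Nat.le_of_dvd (by omega) (Nat.prod_primeFactors_dvd q)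
  have h2 : ((2 : ℝ)) ^ q.primeFactors.card ≤ q := by exact_mod_cast h1
  have h3 := Real.log_le_log (by positivity) h2
  rw [Real.log_pow] at h3
  have h4 := Real.log_two_gt_d9
  have h5 : (0 : ℝ) ≤ q.primeFactors.card := Nat.cast_nonneg _
  nlinarith

/-- prime powers which are not prime to `q` -/
theorem vm_noncop (N q : ℕ) (hq : 1 ≤ q) (hN : 1 ≤ N) :
    ∑ n ∈ (Icc 1 N).filter (fun n => ¬ Nat.Coprime n q), Λ n ≤
      2 * Real.log q * Real.log N := by
  classical
  have hlogN : 0 ≤ Real.log N := Real.log_nonneg (by exact_mod_cast hN)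
  obtain ⟨im, him⟩ : ∃ im : ℕ → Finset ℕ, ∀ p, im p = (Icc 1 (Nat.log p N)).image (fun j => p ^ j) :=
    ⟨_, fun _ => rfl⟩
  have h1 : ∀ n ∈ (Icc 1 N).filter (fun n => ¬ Nat.Coprime n q),
      Λ n ≤ ∑ p ∈ q.primeFactors, if n ∈ im p then Λ n else 0 := by
    intro n hn
    rw [mem_filter, mem_Icc] at hn
    obtain ⟨⟨hn1, hn2⟩, hn3⟩ := hn
    by_cases h0 : Λ n = 0
    · rw [h0]
      refine sum_nonneg fun p _ => ?_
      split_ifs <;> exact le_rfl
    · have hpp : IsPrimePow n := vonMangoldt_ne_zero_iff.mp h0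
      obtain ⟨p, k, hp, hk, rfl⟩ := hpp
      have hp' : p.Prime := hp.nat_prime
      have hpq : p ∣ q := by
        by_contra hcon
        exact hn3 (Nat.Coprime.pow_left k ((Nat.Prime.coprime_iff_not_dvd hp').mpr hcon))
      have hmem : p ∈ q.primeFactors := Nat.mem_primeFactors.mpr ⟨hp', hpq, by omega⟩
      have him' : p ^ k ∈ im p := by
        rw [him, mem_image]
        refine ⟨k, ?_, rfl⟩
        rw [mem_Icc]
        exact ⟨hk, (Nat.le_log_iff_pow_le hp'.one_lt (by omega)).mpr hn2⟩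
      have h2 : (if p ^ k ∈ im p then Λ (p ^ k) else 0) ≤
          ∑ p' ∈ q.primeFactors, if p ^ k ∈ im p' then Λ (p ^ k) else 0 := by
        refine single_le_sum (f := fun p' => if p ^ k ∈ im p' then Λ (p ^ k) else 0)
          (fun p' _ => ?_) hmem
        split_ifs
        · exact vonMangoldt_nonneg
        · exact le_rfl
      rw [if_pos him'] at h2
      exact h2
  refine (sum_le_sum h1).trans ?_
  rw [sum_comm]
  have h2 : ∀ p ∈ q.primeFactors, ∑ n ∈ (Icc 1 N).filter (fun n => ¬ Nat.Coprime n q),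
      (if n ∈ im p then Λ n else 0) ≤ Real.log N := by
    intro p hp
    have hp' := Nat.prime_of_mem_primeFactors hp
    rw [← sum_filter]
    have h3 : ∑ n ∈ ((Icc 1 N).filter (fun n => ¬ Nat.Coprime n q)).filter (fun n => n ∈ im p),
        Λ n ≤ ∑ n ∈ im p, Λ n := by
      refine sum_le_sum_of_subset_of_nonneg (fun n hn => (mem_filter.mp hn).2)
        fun n _ _ => vonMangoldt_nonneg
    refine h3.trans ?_
    rw [him, sum_image (fun a _ b _ h => Nat.pow_right_injective hp'.two_le h)]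
    have h4 : ∀ j ∈ Icc 1 (Nat.log p N), Λ (p ^ j) = Real.log p := by
      intro j hj
      rw [mem_Icc] at hj
      rw [vonMangoldt_apply_pow (by omega), vonMangoldt_apply_prime hp']
    rw [sum_congr rfl h4, sum_const, Nat.card_Icc, Nat.add_sub_cancel, nsmul_eq_mul]
    have h5 : p ^ (Nat.log p N) ≤ N := Nat.pow_log_le_self p (by omega)
    have h6 : ((p : ℝ)) ^ (Nat.log p N) ≤ N := by exact_mod_cast h5
    have hp0 : (0 : ℝ) < p := by exact_mod_cast hp'.pos
    have h7 := Real.log_le_log (by positivity) h6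
    rw [Real.log_pow] at h7
    exact h7
  refine (sum_le_sum h2).trans ?_
  rw [sum_const, nsmul_eq_mul]
  exact mul_le_mul_of_nonneg_right (card_pf_le hq) hlogN

end Pool.Agent.V8H15.LW
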