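import Pool.Agent.H385R2.WinE
import Pool.Agent.W388.TW.D0
import Pool.Agent.H385R2.FamBase

/-!
# The diagonal sum over prime powers

Project LW (helper15).
-/

set_option autoImplicit false

open Finset Filter Topology MeasureTheory ArithmeticFunction

namespace Pool.Agent.V8H15.LW

open H385 (Rw Rw_antitone Rw_nonneg)
open W388 (SelE)

/-- `∑_{n ≤ e^x} Λ(n) |c(n)|² / n` -/
noncomputable def fs (c : ℕ → ℂ) (x : ℝ) : ℝ :=
  ∑ n ∈ Icc 1 ⌊Real.exp x⌋₊, Λ n * ‖c n‖ ^ 2 / n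

lemma fs_lim {c : ℕ → ℂ} (h : SelE c) {δ : ℝ} (hδ : 0 < δ) :
    ∃ x₀ : ℝ, 1 ≤ x₀ ∧ ∀ x : ℝ, x₀ ≤ x → |fs c x - x| ≤ δ * x := by
  have h1 : Tendsto (fun x : ℝ => fs c x / x) atTop (𝓝 1) := by
    have h2 := h.comp Real.tendsto_exp_atTop
    refine h2.congr fun x => ?_
    simp only [Function.comp]
    rw [Real.log_exp]
    rfl
  have h3 := h1.eventually (Metric.ball_mem_nhds 1 hδ)
  obtain ⟨x₀, h4⟩ := h3.exists_forall_of_atTop
  refine ⟨max 1 x₀, le_max_left _ _, fun x hx => ?_⟩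
  have h5 := h4 x ((le_max_right _ _).trans hx)
  have hx1 : 1 ≤ x := (le_max_left _ _).trans hx
  rw [Real.dist_eq] at h5
  have h6 : fs c x - x = (fs c x / x - 1) * x := by
    field_simp
  rw [h6, abs_mul, abs_of_pos (by linarith : 0 < x)]
  exact mul_le_mul_of_nonneg_right h5.le (by linarith)

lemma fs_zero (c : ℕ → ℂ) : fs c 0 = 0 := by
  unfold fs
  rw [Real.exp_zero, Nat.floor_one]
  simp

lemma fs_mono (c : ℕ → ℂ) {x y : ℝ} (h : x ≤ y) : fs c x ≤ fs c y := by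
  unfold fs
  refine sum_le_sum_of_subset_of_nonneg ?_ fun n _ _ => ?_
  · exact Icc_subset_Icc le_rfl (Nat.floor_le_floor (Real.exp_le_exp.mpr h))
  · have := @vonMangoldt_nonneg n
    positivity

/-- the second moment is bounded by the first -/
lemma sq_le_fs (c : ℕ → ℂ) {x : ℝ} (hx : 0 ≤ x) :
    ∑ n ∈ Icc 1 ⌊Real.exp x⌋₊, Λ n ^ 2 * ‖c n‖ ^ 2 / n ≤ x * fs c x := by
  unfold fs
  rw [mul_sum]
  refine sum_le_sum fun n hn => ?_
  rw [mem_Icc] at hn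
  have hn0 : (0 : ℝ) < n := by exact_mod_cast hn.1
  have h1 : Real.log n ≤ x := by
    rw [Real.log_le_iff_le_exp hn0]
    exact (Nat.le_floor_iff (Real.exp_pos x).le).mp hn.2
  have h2 : Λ n ≤ Real.log n := vonMangoldt_le_log
  have h3 := @vonMangoldt_nonneg n
  have h4 : 0 ≤ ‖c n‖ ^ 2 / n := by positivity
  calc Λ n ^ 2 * ‖c n‖ ^ 2 / n = Λ n * (Λ n * (‖c n‖ ^ 2 / n)) := by ring
    _ ≤ x * (Λ n * (‖c n‖ ^ 2 / n)) :=
        mul_le_mul_of_nonneg_right (h2.trans h1) (mul_nonneg h3 h4)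
    _ = _ := by ring

/-- a lower Riemann sum -/
lemma riem {γ : ℝ} (h0 : 0 < γ) (hπ : γ < Real.pi) {m : ℕ} (hm : 1 ≤ m) :
    ∑ j ∈ range m, (j : ℝ) * Rw γ ((j : ℝ) / m) ≤
      (m : ℝ) ^ 2 * (∫ α in (0 : ℝ)..1, α * Rw γ α) + m * Rw γ 0 := by
  have hm0 : (0 : ℝ) < m := by exact_mod_cast hm
  have hRc := H385.fa_Rw_cont γ h0 hπ
  have hR0 := Rw_nonneg γ h0 hπ
  have hanti := Rw_antitone γ h0 hπ
  have hcont : Continuous fun α : ℝ => α * Rw γ α := continuous_id.mul hRc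
  have hint : ∀ a b : ℝ, IntervalIntegrable (fun α : ℝ => α * Rw γ α) volume a b :=
    fun a b => hcont.intervalIntegrable a b
  -- one piece
  have hpiece : ∀ j : ℕ, ((j + 1 : ℕ) : ℝ) * Rw γ (((j + 1 : ℕ) : ℝ) / m) ≤
      (m : ℝ) ^ 2 * (∫ α in ((j : ℝ) / m)..(((j + 1 : ℕ) : ℝ) / m), α * Rw γ α) + Rw γ 0 := by
    intro j
    have hj : (0 : ℝ) ≤ j := Nat.cast_nonneg _
    have hle : (j : ℝ) / m ≤ ((j + 1 : ℕ) : ℝ) / m := by
      push_cast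
      gcongr
      linarith
    have h1 : ∫ α in ((j : ℝ) / m)..(((j + 1 : ℕ) : ℝ) / m),
        α * Rw γ (((j + 1 : ℕ) : ℝ) / m) ≤
        ∫ α in ((j : ℝ) / m)..(((j + 1 : ℕ) : ℝ) / m), α * Rw γ α := by
      refine intervalIntegral.integral_mono_on hle ?_ (hint _ _) ?_
      · exact (continuous_id.mul continuous_const).intervalIntegrable _ _
      · intro α hα
        have hα0 : 0 ≤ α := le_trans (by positivity) hα.1
        exact mul_le_mul_of_nonneg_left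
          (hanti (Set.mem_Ici.mpr hα0) (Set.mem_Ici.mpr (by positivity)) hα.2) hα0
    rw [intervalIntegral.integral_mul_const, integral_id] at h1
    have h2 : ((((j + 1 : ℕ) : ℝ) / m) ^ 2 - ((j : ℝ) / m) ^ 2) / 2 =
        (2 * j + 1) / (2 * (m : ℝ) ^ 2) := by
      push_cast
      field_simp
      ring
    rw [h2] at h1
    have h3 : (m : ℝ) ^ 2 * ((2 * j + 1) / (2 * (m : ℝ) ^ 2) * Rw γ (((j + 1 : ℕ) : ℝ) / m)) =
        (j + 1 / 2) * Rw γ (((j + 1 : ℕ) : ℝ) / m) := by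
      field_simp
    have h4 := mul_le_mul_of_nonneg_left h1 (show 0 ≤ (m : ℝ) ^ 2 by positivity)
    rw [h3] at h4
    have h5 : Rw γ (((j + 1 : ℕ) : ℝ) / m) ≤ Rw γ 0 :=
      hanti (Set.mem_Ici.mpr le_rfl) (Set.mem_Ici.mpr (by positivity)) (by positivity)
    have h6 := hR0 (((j + 1 : ℕ) : ℝ) / m)
    have h7 : ((j + 1 : ℕ) : ℝ) * Rw γ (((j + 1 : ℕ) : ℝ) / m) =
        (j + 1 / 2) * Rw γ (((j + 1 : ℕ) : ℝ) / m) + 1 / 2 * Rw γ (((j + 1 : ℕ) : ℝ) / m) := by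
      push_cast
      ring
    rw [h7]
    linarith
  have hind : ∀ k : ℕ, ∑ j ∈ range (k + 1), (j : ℝ) * Rw γ ((j : ℝ) / m) ≤
      (m : ℝ) ^ 2 * (∫ α in (0 : ℝ)..((k : ℝ) / m), α * Rw γ α) + k * Rw γ 0 := by
    intro k
    induction k with
    | zero => simp
    | succ k ih =>
      rw [sum_range_succ]
      have h1 := hpiece k
      have h2 : (∫ α in (0 : ℝ)..((k : ℝ) / m), α * Rw γ α) +
          ∫ α in ((k : ℝ) / m)..(((k + 1 : ℕ) : ℝ) / m), α * Rw γ α =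
          ∫ α in (0 : ℝ)..(((k + 1 : ℕ) : ℝ) / m), α * Rw γ α :=
        intervalIntegral.integral_add_adjacent_intervals (hint _ _) (hint _ _)
      rw [← h2]
      push_cast at h1 ih ⊢
      linarith
  obtain ⟨k, rfl⟩ : ∃ k, m = k + 1 := ⟨m - 1, by omega⟩
  refine (hind k).trans ?_
  have h1 : ∫ α in (0 : ℝ)..((k : ℝ) / ((k + 1 : ℕ) : ℝ)), α * Rw γ α ≤
      ∫ α in (0 : ℝ)..1, α * Rw γ α := by
    have h2 := intervalIntegral.integral_add_adjacent_intervals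
      (hint 0 ((k : ℝ) / ((k + 1 : ℕ) : ℝ))) (hint ((k : ℝ) / ((k + 1 : ℕ) : ℝ)) 1)
    have h3 : 0 ≤ ∫ α in ((k : ℝ) / ((k + 1 : ℕ) : ℝ))..1, α * Rw γ α := by
      refine intervalIntegral.integral_nonneg ?_ fun α hα => ?_
      · rw [div_le_one (by positivity)]
        push_cast
        linarith
      · exact mul_nonneg (le_trans (by positivity) hα.1) (hR0 α)
    linarith
  have h2 : (k : ℝ) * Rw γ 0 ≤ ((k + 1 : ℕ) : ℝ) * Rw γ 0 := by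
    refine mul_le_mul_of_nonneg_right ?_ (hR0 0)
    push_cast
    linarith
  have h3 := mul_le_mul_of_nonneg_left h1 (show 0 ≤ ((k + 1 : ℕ) : ℝ) ^ 2 by positivity)
  linarith

/-- **The diagonal sum.** -/
theorem diag {c : ℕ → ℂ} (hc : SelE c) {γ : ℝ} (h0 : 0 < γ) (hπ : γ < Real.pi) {m : ℕ}
    (hm : 1 ≤ m) : ∃ Λ₀ : ℝ, 1 ≤ Λ₀ ∧ ∀ L : ℝ, Λ₀ ≤ L →
      ∑ n ∈ Icc 1 ⌊Real.exp (L + L / m)⌋₊, Λ n ^ 2 * ‖c n‖ ^ 2 / n *
        Rw γ (max (Real.log n - L / m) 0 / L) ≤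
      L ^ 2 * ((∫ α in (0 : ℝ)..1, α * Rw γ α) +
        (8 * Rw γ 0 + ∫ α in (0 : ℝ)..1, α * Rw γ α) / m) := by
  have hm0 : (0 : ℝ) < m := by exact_mod_cast hm
  have hm1 : (1 : ℝ) ≤ m := by exact_mod_cast hm
  have hR0 := Rw_nonneg γ h0 hπ
  have hanti := Rw_antitone γ h0 hπ
  obtain ⟨δ, hδ⟩ : ∃ δ : ℝ, δ = 1 / (3 * (m : ℝ) ^ 2) := ⟨_, rfl⟩
  have hδ0 : 0 < δ := by rw [hδ]; positivity
  obtain ⟨x₀, hx₀, hlim⟩ := fs_lim hc hδ0
  refine ⟨m * x₀, one_le_mul_of_one_le_of_one_le hm1 hx₀, fun L hL => ?_⟩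
  obtain ⟨l, hl⟩ : ∃ l : ℝ, l = L / m := ⟨_, rfl⟩
  have hlx : x₀ ≤ l := by
    rw [hl, le_div_iff₀ hm0]
    linarith
  have hl0 : 0 < l := by linarith
  have hLl : L = m * l := by rw [hl]; field_simp
  have hL0 : 0 < L := by rw [hLl]; positivity
  rw [← hl]
  obtain ⟨g, hg⟩ : ∃ g : ℕ → ℝ, ∀ n, g n = Λ n ^ 2 * ‖c n‖ ^ 2 / n *
        Rw γ (max (Real.log n - l) 0 / L) := ⟨_, fun _ => rfl⟩
  have hg0 : ∀ n, 0 ≤ g n := fun n => by
    rw [hg]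
    have := hR0 (max (Real.log n - l) 0 / L)
    positivity
  simp_rw [← hg]
  obtain ⟨Gs, hGs⟩ : ∃ Gs : ℕ → ℝ, ∀ i, Gs i = ∑ n ∈ Icc 1 ⌊Real.exp (i * l)⌋₊, g n :=
    ⟨_, fun _ => rfl⟩
  have hGm : ∑ n ∈ Icc 1 ⌊Real.exp (L + l)⌋₊, g n = Gs (m + 1) := by
    rw [hGs]
    congr 4
    rw [hLl]
    push_cast
    ring
  have hG0 : Gs 0 = 0 := by
    rw [hGs]
    simp only [Nat.cast_zero, zero_mul, Real.exp_zero, Nat.floor_one, Icc_self, sum_singleton]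
    rw [hg]
    simp
  -- differences
  have hsplit : ∀ (f : ℕ → ℝ) (i : ℕ), ∑ n ∈ Icc 1 ⌊Real.exp (((i + 1 : ℕ) : ℝ) * l)⌋₊, f n -
      ∑ n ∈ Icc 1 ⌊Real.exp ((i : ℝ) * l)⌋₊, f n =
      ∑ n ∈ Ioc ⌊Real.exp ((i : ℝ) * l)⌋₊ ⌊Real.exp (((i + 1 : ℕ) : ℝ) * l)⌋₊, f n := by
    intro f i
    have hle : ⌊Real.exp ((i : ℝ) * l)⌋₊ ≤ ⌊Real.exp (((i + 1 : ℕ) : ℝ) * l)⌋₊ := by
      refine Nat.floor_le_floor (Real.exp_le_exp.mpr ?_)
      push_cast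
      nlinarith
    have e : Icc 1 ⌊Real.exp (((i + 1 : ℕ) : ℝ) * l)⌋₊ =
        Icc 1 ⌊Real.exp ((i : ℝ) * l)⌋₊ ∪
        Ioc ⌊Real.exp ((i : ℝ) * l)⌋₊ ⌊Real.exp (((i + 1 : ℕ) : ℝ) * l)⌋₊ := by
      ext n
      simp only [mem_union, mem_Icc, mem_Ioc]
      omega
    have hd : Disjoint (Icc 1 ⌊Real.exp ((i : ℝ) * l)⌋₊)
        (Ioc ⌊Real.exp ((i : ℝ) * l)⌋₊ ⌊Real.exp (((i + 1 : ℕ) : ℝ) * l)⌋₊) := by
      rw [disjoint_left]
      intro n hn hn'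
      rw [mem_Icc] at hn
      rw [mem_Ioc] at hn'
      omega
    rw [e, sum_union hd]
    ring
  have hdiff : ∀ i : ℕ, i ≤ m → Gs (i + 1) - Gs i ≤
      ((i : ℝ) + 1) * l * Rw γ (((i - 1 : ℕ) : ℝ) / m) * (l * (1 + 1 / m)) := by
    intro i hi
    have hi0 : (0 : ℝ) ≤ i := Nat.cast_nonneg _
    have him : (i : ℝ) ≤ m := by exact_mod_cast hi
    rw [hGs, hGs, hsplit]
    have h1 : ∀ n ∈ Ioc ⌊Real.exp ((i : ℝ) * l)⌋₊ ⌊Real.exp (((i + 1 : ℕ) : ℝ) * l)⌋₊,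
        g n ≤ (((i : ℝ) + 1) * l * Rw γ (((i - 1 : ℕ) : ℝ) / m)) * (Λ n * ‖c n‖ ^ 2 / n) := by
      intro n hn
      rw [mem_Ioc] at hn
      have hn1 : Real.exp ((i : ℝ) * l) < n := (Nat.floor_lt (Real.exp_pos _).le).mp hn.1
      have hn0 : (0 : ℝ) < n := lt_trans (Real.exp_pos _) hn1
      have hn2 : (n : ℝ) ≤ Real.exp (((i + 1 : ℕ) : ℝ) * l) :=
        (Nat.le_floor_iff (Real.exp_pos _).le).mp hn.2
      have hlog1 : (i : ℝ) * l ≤ Real.log n := by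
        rw [Real.le_log_iff_exp_le hn0]
        exact hn1.le
      have hlog2 : Real.log n ≤ ((i : ℝ) + 1) * l := by
        rw [Real.log_le_iff_le_exp hn0]
        push_cast at hn2
        exact hn2
      have h2 : Λ n ≤ ((i : ℝ) + 1) * l := vonMangoldt_le_log.trans hlog2
      have h3 := @vonMangoldt_nonneg n
      have h4 : Rw γ (max (Real.log n - l) 0 / L) ≤ Rw γ (((i - 1 : ℕ) : ℝ) / m) := by
        refine hanti (Set.mem_Ici.mpr (by positivity)) (Set.mem_Ici.mpr (by positivity)) ?_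
        rw [hLl, div_le_div_iff₀ hm0 (by positivity)]
        have h5 : ((i - 1 : ℕ) : ℝ) * l ≤ max (Real.log n - l) 0 := by
          rcases Nat.eq_zero_or_pos i with hz | hz
          · subst hz
            simp
          · refine le_max_of_le_left ?_
            rw [Nat.cast_sub hz]
            push_cast
            linarith
        nlinarith
      rw [hg]
      have h6 := hR0 (max (Real.log n - l) 0 / L)
      have h7 : 0 ≤ ‖c n‖ ^ 2 / n := by positivity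
      have h8 := hR0 (((i - 1 : ℕ) : ℝ) / m)
      calc Λ n ^ 2 * ‖c n‖ ^ 2 / n * Rw γ (max (Real.log n - l) 0 / L) =
          Λ n * (Λ n * (‖c n‖ ^ 2 / n) * Rw γ (max (Real.log n - l) 0 / L)) := by ring
        _ ≤ (((i : ℝ) + 1) * l) * (Λ n * (‖c n‖ ^ 2 / n) * Rw γ (((i - 1 : ℕ) : ℝ) / m)) := by
            refine mul_le_mul h2 (mul_le_mul_of_nonneg_left h4 (mul_nonneg h3 h7)) ?_ ?_
            · exact mul_nonneg (mul_nonneg h3 h7) h6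
            · positivity
        _ = _ := by ring
    refine (sum_le_sum h1).trans ?_
    rw [← mul_sum, ← hsplit]
    refine mul_le_mul_of_nonneg_left ?_ (mul_nonneg (by positivity) (hR0 _))
    have e1 : ∑ n ∈ Icc 1 ⌊Real.exp (((i + 1 : ℕ) : ℝ) * l)⌋₊, Λ n * ‖c n‖ ^ 2 / n =
      fs c (((i + 1 : ℕ) : ℝ) * l) := rfl
    have e2 : ∑ n ∈ Icc 1 ⌊Real.exp ((i : ℝ) * l)⌋₊, Λ n * ‖c n‖ ^ 2 / n =
      fs c ((i : ℝ) * l) := rfl
    rw [e1, e2]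
    have h2 := (abs_le.mp (hlim (((i + 1 : ℕ) : ℝ) * l) (by push_cast; nlinarith))).2
    have h3 : (i : ℝ) * l - δ * ((i : ℝ) * l) ≤ fs c ((i : ℝ) * l) := by
      rcases Nat.eq_zero_or_pos i with hz | hz
      · subst hz
        simp [fs_zero]
      · have hi1 : (1 : ℝ) ≤ i := by exact_mod_cast hz
        have h4 := (abs_le.mp (hlim ((i : ℝ) * l) (by nlinarith))).1
        linarith
    push_cast at h2 ⊢
    have h5 : δ * ((2 * (i : ℝ) + 1) * l) ≤ l * (1 / m) := by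
      have h6 : 2 * (i : ℝ) + 1 ≤ 3 * m := by linarith
      calc δ * ((2 * (i : ℝ) + 1) * l) ≤ δ * ((3 * m) * l) := by gcongr
        _ = l * (1 / m) := by rw [hδ]; field_simp
    nlinarith
  -- telescoping
  have htel : Gs (m + 1) = ∑ i ∈ range (m + 1), (Gs (i + 1) - Gs i) := by
    rw [sum_range_sub, hG0, sub_zero]
  rw [hGm, htel]
  have h1 : ∑ i ∈ range (m + 1), (Gs (i + 1) - Gs i) ≤ ∑ i ∈ range (m + 1),
      ((i : ℝ) + 1) * l * Rw γ (((i - 1 : ℕ) : ℝ) / m) * (l * (1 + 1 / m)) :=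
    sum_le_sum fun i hi => hdiff i (by rw [mem_range] at hi; omega)
  refine h1.trans ?_
  have h2 : ∑ i ∈ range (m + 1), ((i : ℝ) + 1) * l * Rw γ (((i - 1 : ℕ) : ℝ) / m) *
      (l * (1 + 1 / m)) = l ^ 2 * (1 + 1 / m) *
      ∑ i ∈ range (m + 1), ((i : ℝ) + 1) * Rw γ (((i - 1 : ℕ) : ℝ) / m) := by
    rw [mul_sum]
    exact sum_congr rfl fun i _ => by ring
  rw [h2]
  obtain ⟨J, hJ⟩ : ∃ J : ℝ, J = ∫ α in (0 : ℝ)..1, α * Rw γ α := ⟨_, rfl⟩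
  have hJ0 : 0 ≤ J := by
    rw [hJ]
    exact intervalIntegral.integral_nonneg (by norm_num) fun α hα => mul_nonneg hα.1 (hR0 α)
  have h3 : ∑ i ∈ range (m + 1), ((i : ℝ) + 1) * Rw γ (((i - 1 : ℕ) : ℝ) / m) ≤
      (m : ℝ) ^ 2 * J + 4 * m * Rw γ 0 := by
    rw [sum_range_succ']
    simp only [Nat.cast_zero, zero_add, one_mul]
    have e0 : ((0 - 1 : ℕ) : ℝ) / m = 0 := by simp
    rw [e0]
    have h4 : ∀ i : ℕ, (((i + 1 : ℕ) : ℝ) + 1) * Rw γ (((i + 1 - 1 : ℕ) : ℝ) / m) ≤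
        (i : ℝ) * Rw γ ((i : ℝ) / m) + 2 * Rw γ 0 := by
      intro i
      rw [Nat.add_sub_cancel]
      have h5 : Rw γ ((i : ℝ) / m) ≤ Rw γ 0 :=
        hanti (Set.mem_Ici.mpr le_rfl) (Set.mem_Ici.mpr (by positivity)) (by positivity)
      push_cast
      linarith
    have h6 := riem h0 hπ hm
    rw [← hJ] at h6
    have h7 : ∑ i ∈ range m, (((i + 1 : ℕ) : ℝ) + 1) * Rw γ (((i + 1 - 1 : ℕ) : ℝ) / m) ≤
        ∑ i ∈ range m, ((i : ℝ) * Rw γ ((i : ℝ) / m) + 2 * Rw γ 0) :=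
      sum_le_sum fun i _ => h4 i
    rw [sum_add_distrib, sum_const, card_range, nsmul_eq_mul] at h7
    have h8 : Rw γ 0 ≤ m * Rw γ 0 := le_mul_of_one_le_left (hR0 0) hm1
    linarith
  rw [← hJ]
  have hR00 := hR0 0
  have e4 : L ^ 2 * (J + (8 * Rw γ 0 + J) / m) = l ^ 2 * (m * (m * J + 8 * Rw γ 0 + J)) := by
    rw [hLl]
    field_simp
    ring
  rw [e4, mul_assoc]
  refine mul_le_mul_of_nonneg_left ?_ (by positivity)
  calc (1 + 1 / (m : ℝ)) * ∑ i ∈ range (m + 1), ((i : ℝ) + 1) * Rw γ (((i - 1 : ℕ) : ℝ) / m) ≤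
      (1 + 1 / (m : ℝ)) * ((m : ℝ) ^ 2 * J + 4 * m * Rw γ 0) :=
        mul_le_mul_of_nonneg_left h3 (by positivity)
    _ = m * (m * J + 4 * Rw γ 0 + J) + 4 * Rw γ 0 := by
        field_simp
        ring
    _ ≤ m * (m * J + 8 * Rw γ 0 + J) := by
        have : 4 * Rw γ 0 ≤ m * (4 * Rw γ 0) := le_mul_of_one_le_left (by positivity) hm1
        nlinarith

end Pool.Agent.V8H15.LW
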