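import Pool.Agent.V8H15.LW.Pla
import Pool.Agent.V8H15.LW.Dya
import Pool.Agent.V8H15.LW.Rsm
import Pool.Agent.V8H15.LW.Noc
import Pool.Agent.H385R2.PrimLSM
import Pool.Agent.H385R2.PrimMassM
import Pool.Agent.H385R2.FinDA0

/-!
# The prime sums on average over the family

Project LW (helper15).
-/

set_option autoImplicit false

open MeasureTheory Filter Topology Complex Finset ArithmeticFunction

namespace Pool.Agent.V8H15.LW

open H385 (primSetM mem_primSetM IX primFamM Rw Rw_antitone Rw_nonneg)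
open W388 (SelE)

variable {w : ℂ → ℂ} {C lam t V : ℝ} {p : ℕ}

/-- the coefficients of the twist -/
noncomputable def av (c : ℕ → ℂ) (i : IX) (n : ℕ) : ℂ :=
  i.2 (n : ZMod i.1) * c n * ((Λ n : ℝ) : ℂ)

/-- the coefficients of the prime sums -/
noncomputable def bv (w : ℂ → ℂ) (c : ℕ → ℂ) (u : ℝ) (n : ℕ) : ℂ :=
  c n * ((Real.sqrt n : ℝ) : ℂ)⁻¹ * ft w (Real.log n - u)

lemma bv_sq (w : ℂ → ℂ) (c : ℕ → ℂ) (u : ℝ) (n : ℕ) :
    Λ n ^ 2 * ‖bv w c u n‖ ^ 2 = Λ n ^ 2 * ‖c n‖ ^ 2 / n * ‖ft w (Real.log n - u)‖ ^ 2 := by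
  unfold bv
  rw [norm_mul, norm_mul, norm_inv, Complex.norm_real, Real.norm_eq_abs,
    abs_of_nonneg (Real.sqrt_nonneg _), mul_pow, mul_pow, inv_pow,
    Real.sq_sqrt (Nat.cast_nonneg _)]
  rcases Nat.eq_zero_or_pos n with h | h
  · subst h; simp
  · have : (n : ℝ) ≠ 0 := by exact_mod_cast h.ne'
    field_simp

lemma Pf_term (w : ℂ → ℂ) (c : ℕ → ℂ) (i : IX) (u : ℝ) (n : ℕ) :
    av c i n * ((Real.sqrt n : ℝ) : ℂ)⁻¹ * ft w (Real.log n - u) =
      (((Λ n : ℝ) : ℂ) * bv w c u n) * i.2 (n : ZMod i.1) := by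
  unfold av bv
  ring

lemma ii_sum {ι : Type*} (s : Finset ι) {f : ι → ℝ → ℝ} {a b : ℝ}
    (h : ∀ i ∈ s, IntervalIntegrable (f i) volume a b) :
    IntervalIntegrable (fun x => ∑ i ∈ s, f i x) volume a b := by
  have h1 := IntervalIntegrable.sum s h
  rw [Finset.sum_fn] at h1
  exact h1

/-- the mean over the family of the prime sum at one point -/
lemma fam_point (hw : Wnd w C lam t V p) (hl : 0 < lam) (hp : 2 ≤ p) (hC : 0 ≤ C)
    (N X Y : ℕ) (hX : 1 ≤ X) (hXY : X ≤ Y) (c : ℕ → ℂ) {B u : ℝ} (hu : u ≤ B)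
    (hB : NL lam B ≤ X ^ 2) :
    ∑ i ∈ primSetM N X Y, (1 / (i.1 : ℝ) ^ 2) * ‖Pf w (av c i) u‖ ^ 2 ≤
      (1 / (2 * Real.pi)) ^ 2 * (12 * (1 + 2 * Real.log ((Y : ℝ) / X)) *
        ∑ n ∈ Icc 1 (NL lam B), Λ n ^ 2 * ‖c n‖ ^ 2 / n * ‖ft w (Real.log n - u)‖ ^ 2) := by
  have hpi := Real.pi_pos
  have h1 := ls2 N X Y (NL lam B) hX hXY hB (fun n => ((Λ n : ℝ) : ℂ) * bv w c u n) (by simp)
  have h2 : ∀ i : IX, ‖Pf w (av c i) u‖ ^ 2 = (1 / (2 * Real.pi)) ^ 2 *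
      ‖∑ n ∈ range (NL lam B + 1), (((Λ n : ℝ) : ℂ) * bv w c u n) * i.2 (n : ZMod i.1)‖ ^ 2 := by
    intro i
    rw [Pf_fin hw hl hp hC _ hu, norm_mul, Complex.norm_real, Real.norm_eq_abs,
      abs_of_pos (by positivity), mul_pow]
    congr 3
    exact sum_congr rfl fun n _ => Pf_term w c i u n
  have h3 : ∑ n ∈ range (NL lam B + 1), ‖((Λ n : ℝ) : ℂ) * bv w c u n‖ ^ 2 =
      ∑ n ∈ Icc 1 (NL lam B), Λ n ^ 2 * ‖c n‖ ^ 2 / n * ‖ft w (Real.log n - u)‖ ^ 2 := by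
    have hr : range (NL lam B + 1) = insert 0 (Icc 1 (NL lam B)) := by
      ext n
      simp only [mem_range, mem_insert, mem_Icc]
      omega
    have h0 : (0 : ℕ) ∉ Icc 1 (NL lam B) := by simp
    rw [hr, sum_insert h0]
    have e0 : ((Λ 0 : ℝ) : ℂ) * bv w c u 0 = 0 := by simp
    rw [e0, norm_zero, zero_pow (by norm_num), zero_add]
    refine sum_congr rfl fun n _ => ?_
    rw [norm_mul, Complex.norm_real, Real.norm_eq_abs, abs_of_nonneg vonMangoldt_nonneg, mul_pow,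
      bv_sq]
  rw [← h3]
  simp_rw [h2]
  have h4 : ∑ i ∈ primSetM N X Y, 1 / (i.1 : ℝ) ^ 2 * ((1 / (2 * Real.pi)) ^ 2 *
      ‖∑ n ∈ range (NL lam B + 1), (((Λ n : ℝ) : ℂ) * bv w c u n) * i.2 (n : ZMod i.1)‖ ^ 2) =
      (1 / (2 * Real.pi)) ^ 2 * ∑ i ∈ primSetM N X Y, 1 / (i.1 : ℝ) ^ 2 *
      ‖∑ n ∈ range (NL lam B + 1), (((Λ n : ℝ) : ℂ) * bv w c u n) * i.2 (n : ZMod i.1)‖ ^ 2 := by
    rw [mul_sum]
    exact sum_congr rfl fun i _ => by ring
  rw [h4]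
  exact mul_le_mul_of_nonneg_left h1 (by positivity)

/-- at the point `0` -/
lemma fam_zero (hw : Wnd w C lam t V p) (hl : 0 < lam) (hp : 2 ≤ p) (hC : 0 ≤ C) (hV : 0 ≤ V)
    (N X Y : ℕ) (hX : 1 ≤ X) (hXY : X ≤ Y) (c : ℕ → ℂ) (hB : NL lam 0 ≤ X ^ 2) :
    ∑ i ∈ primSetM N X Y, (1 / (i.1 : ℝ) ^ 2) * ‖Pf w (av c i) 0‖ ^ 2 ≤
      (1 + 2 * Real.log ((Y : ℝ) / X)) * (V + C * (2 * Real.pi / lam)) ^ 2 *
        (lam * fs c lam) := by
  have hpi := Real.pi_gt_three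
  have h1 := fam_point hw hl hp hC N X Y hX hXY c (le_refl (0 : ℝ)) hB
  refine h1.trans ?_
  obtain ⟨V', hV'⟩ : ∃ V' : ℝ, V' = V + C * (2 * Real.pi / lam) := ⟨_, rfl⟩
  have hlog : 0 ≤ Real.log ((Y : ℝ) / X) := by
    refine Real.log_nonneg ?_
    have : (0 : ℝ) < X := by exact_mod_cast hX
    rw [one_le_div this]
    exact_mod_cast hXY
  have h2 : ∑ n ∈ Icc 1 (NL lam 0), Λ n ^ 2 * ‖c n‖ ^ 2 / n *
      ‖ft w (Real.log n - ((0 : ℝ) : ℝ))‖ ^ 2 ≤ V' ^ 2 * (lam * fs c lam) := by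
    have h3 := sq_le_fs c hl.le
    have e : Real.exp (0 + lam) = Real.exp lam := by rw [zero_add]
    unfold NL
    rw [e]
    calc _ ≤ ∑ n ∈ Icc 1 ⌊Real.exp lam⌋₊, V' ^ 2 * (Λ n ^ 2 * ‖c n‖ ^ 2 / n) := by
          refine sum_le_sum fun n _ => ?_
          rw [mul_comm]
          refine mul_le_mul_of_nonneg_right ?_ (by positivity)
          refine pow_le_pow_left₀ (norm_nonneg _) ?_ 2
          rw [hV']
          exact ft_norm_le hw hl hp hC hV _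
      _ ≤ _ := by
          rw [← mul_sum]
          exact mul_le_mul_of_nonneg_left h3 (by positivity)
  rw [← hV']
  have h5 : (1 / (2 * Real.pi)) ^ 2 * 12 ≤ 1 := by
    rw [div_pow, one_pow, one_div_mul_eq_div, div_le_one (by positivity)]
    nlinarith
  have h6 : 0 ≤ fs c lam := by
    unfold fs
    exact sum_nonneg fun n _ => by
      have := @vonMangoldt_nonneg n
      positivity
  calc _ ≤ (1 / (2 * Real.pi)) ^ 2 * (12 * (1 + 2 * Real.log ((Y : ℝ) / X)) *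
        (V' ^ 2 * (lam * fs c lam))) := by
        refine mul_le_mul_of_nonneg_left ?_ (by positivity)
        exact mul_le_mul_of_nonneg_left h2 (by positivity)
    _ = ((1 / (2 * Real.pi)) ^ 2 * 12) * ((1 + 2 * Real.log ((Y : ℝ) / X)) * V' ^ 2 *
        (lam * fs c lam)) := by ring
    _ ≤ 1 * ((1 + 2 * Real.log ((Y : ℝ) / X)) * V' ^ 2 * (lam * fs c lam)) :=
        mul_le_mul_of_nonneg_right h5 (by positivity)
    _ = _ := one_mul _

lemma ft_shift_int (hw : Wnd w C lam t V p) (hl : 0 < lam) (hp : 2 ≤ p) (hC : 0 ≤ C) (hV : 0 ≤ V)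
    (x a b : ℝ) (hab : a ≤ b) :
    ∫ u in a..b, ‖ft w (x - u)‖ ^ 2 ≤ 2 * Real.pi * (V + C * (2 * Real.pi / lam)) := by
  obtain ⟨h1, h2⟩ := ft_sq hw hl hp hC hV
  have h3 : Integrable fun u : ℝ => ‖ft w (x - u)‖ ^ 2 := h1.comp_sub_left x
  have h4 : ∫ u : ℝ, ‖ft w (x - u)‖ ^ 2 = ∫ u : ℝ, ‖ft w u‖ ^ 2 :=
    integral_sub_left_eq_self (fun u => ‖ft w u‖ ^ 2) volume x
  rw [intervalIntegral.integral_of_le hab]
  refine (setIntegral_le_integral h3 (Eventually.of_forall fun u => by positivity)).trans ?_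
  rw [h4]
  exact h2

lemma Pf_cont (hw : Wnd w C lam t V p) (hl : 0 < lam) (hp : 2 ≤ p) (hC : 0 ≤ C) (a : ℕ → ℂ)
    (x B : ℝ) : ContinuousOn (Pf w a) (Set.Icc x B) := by
  have hfc := ft_cont hw hl hp hC
  have h1 : Continuous fun u : ℝ => ((1 / (2 * Real.pi) : ℝ) : ℂ) *
      ∑ n ∈ Finset.range (NL lam B + 1),
      a n * ((Real.sqrt n : ℝ) : ℂ)⁻¹ * ft w (Real.log n - u) := by
    refine continuous_const.mul ?_
    refine continuous_finsetSum _ fun n _ => continuous_const.mul (hfc.comp ?_)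
    fun_prop
  refine h1.continuousOn.congr fun u hu => ?_
  exact Pf_fin hw hl hp hC a hu.2

/-- the mean over the family and over small `u` -/
theorem fam_small (hw : Wnd w C lam t V p) (hl : 0 < lam) (hp : 2 ≤ p) (hC : 0 ≤ C) (hV : 0 ≤ V)
    (N X Y : ℕ) (hX : 1 ≤ X) (hXY : X ≤ Y) (c : ℕ → ℂ) (hB : NL lam (2 * lam) ≤ X ^ 2) :
    ∑ i ∈ primSetM N X Y, (1 / (i.1 : ℝ) ^ 2) *
        (∫ u in (-(2 * lam))..(2 * lam), ‖Pf w (av c i) u‖ ^ 2) ≤
      6 * (1 + 2 * Real.log ((Y : ℝ) / X)) * (V + C * (2 * Real.pi / lam)) *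
        (3 * lam * fs c (3 * lam)) := by
  have hpi := Real.pi_gt_three
  have hpi0 := Real.pi_pos
  obtain ⟨V', hV'⟩ : ∃ V' : ℝ, V' = V + C * (2 * Real.pi / lam) := ⟨_, rfl⟩
  have hV'0 : 0 ≤ V' := by rw [hV']; positivity
  rw [← hV']
  have hfc := ft_cont hw hl hp hC
  have hlog : 0 ≤ Real.log ((Y : ℝ) / X) := by
    refine Real.log_nonneg ?_
    have : (0 : ℝ) < X := by exact_mod_cast hX
    rw [one_le_div this]
    exact_mod_cast hXY
  have hle : -(2 * lam) ≤ 2 * lam := by linarith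
  have hPi : ∀ i : IX, IntervalIntegrable (fun u => ‖Pf w (av c i) u‖ ^ 2) volume
      (-(2 * lam)) (2 * lam) := by
    intro i
    refine ContinuousOn.intervalIntegrable ?_
    rw [Set.uIcc_of_le hle]
    exact (Pf_cont hw hl hp hC _ _ _).norm.pow 2
  have h1 : ∑ i ∈ primSetM N X Y, (1 / (i.1 : ℝ) ^ 2) *
        (∫ u in (-(2 * lam))..(2 * lam), ‖Pf w (av c i) u‖ ^ 2) =
      ∫ u in (-(2 * lam))..(2 * lam), ∑ i ∈ primSetM N X Y, (1 / (i.1 : ℝ) ^ 2) *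
        ‖Pf w (av c i) u‖ ^ 2 := by
    rw [intervalIntegral.integral_finsetSum (fun i _ => (hPi i).const_mul _)]
    exact sum_congr rfl fun i _ => (intervalIntegral.integral_const_mul _ _).symm
  rw [h1]
  obtain ⟨D, hD⟩ : ∃ D : ℝ, D = (1 / (2 * Real.pi)) ^ 2 *
    (12 * (1 + 2 * Real.log ((Y : ℝ) / X))) := ⟨_, rfl⟩
  have hD0 : 0 ≤ D := by rw [hD]; positivity
  have hti : ∀ n : ℕ, IntervalIntegrable (fun u => Λ n ^ 2 * ‖c n‖ ^ 2 / n *
      ‖ft w (Real.log n - u)‖ ^ 2) volume (-(2 * lam)) (2 * lam) := by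
    intro n
    refine Continuous.intervalIntegrable ?_ _ _
    have : Continuous fun u : ℝ => ft w (Real.log n - u) := hfc.comp (by fun_prop)
    exact continuous_const.mul (this.norm.pow 2)
  have h2 : ∫ u in (-(2 * lam))..(2 * lam), ∑ i ∈ primSetM N X Y, (1 / (i.1 : ℝ) ^ 2) *
        ‖Pf w (av c i) u‖ ^ 2 ≤ ∫ u in (-(2 * lam))..(2 * lam), D *
        ∑ n ∈ Icc 1 (NL lam (2 * lam)), Λ n ^ 2 * ‖c n‖ ^ 2 / n *
          ‖ft w (Real.log n - u)‖ ^ 2 := by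
    refine intervalIntegral.integral_mono_on hle ?_ ?_ ?_
    · exact ii_sum (primSetM N X Y) (fun i _ => (hPi i).const_mul (1 / (i.1 : ℝ) ^ 2))
    · exact (ii_sum _ (fun n _ => hti n)).const_mul D
    · intro u hu
      have h3 := fam_point hw hl hp hC N X Y hX hXY c hu.2 hB
      refine h3.trans (le_of_eq ?_)
      rw [hD]
      ring
  refine h2.trans ?_
  rw [intervalIntegral.integral_const_mul,
    intervalIntegral.integral_finsetSum (fun n _ => hti n)]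
  have h3 : ∑ n ∈ Icc 1 (NL lam (2 * lam)), ∫ u in (-(2 * lam))..(2 * lam),
      Λ n ^ 2 * ‖c n‖ ^ 2 / n * ‖ft w (Real.log n - u)‖ ^ 2 ≤
      2 * Real.pi * V' * (3 * lam * fs c (3 * lam)) := by
    have h4 := sq_le_fs c (show 0 ≤ 3 * lam by linarith)
    have e : Real.exp (2 * lam + lam) = Real.exp (3 * lam) := by congr 1; ring
    unfold NL
    rw [e]
    calc _ ≤ ∑ n ∈ Icc 1 ⌊Real.exp (3 * lam)⌋₊, (2 * Real.pi * V') *
          (Λ n ^ 2 * ‖c n‖ ^ 2 / n) := by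
          refine sum_le_sum fun n _ => ?_
          rw [intervalIntegral.integral_const_mul, mul_comm]
          refine mul_le_mul_of_nonneg_right ?_ (by positivity)
          rw [hV']
          exact ft_shift_int hw hl hp hC hV _ _ _ hle
      _ ≤ _ := by
          rw [← mul_sum]
          exact mul_le_mul_of_nonneg_left h4 (by positivity)
  have h6 : 0 ≤ fs c (3 * lam) := by
    unfold fs
    exact sum_nonneg fun n _ => by
      have := @vonMangoldt_nonneg n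
      positivity
  calc _ ≤ D * (2 * Real.pi * V' * (3 * lam * fs c (3 * lam))) :=
        mul_le_mul_of_nonneg_left h3 hD0
    _ = (6 / Real.pi) * ((1 + 2 * Real.log ((Y : ℝ) / X)) * V' *
        (3 * lam * fs c (3 * lam))) := by
        rw [hD]
        field_simp
        ring
    _ ≤ 6 * ((1 + 2 * Real.log ((Y : ℝ) / X)) * V' * (3 * lam * fs c (3 * lam))) := by
        refine mul_le_mul_of_nonneg_right ?_ (by positivity)
        rw [div_le_iff₀ hpi0]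
        linarith
    _ = _ := by ring

end Pool.Agent.V8H15.LW
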