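import Pool.Agent.V8H15.LW.Exp
import Pool.Agent.V8H15.LW.Arc
import Pool.Agent.V8H15.LW.Sie
import Pool.Agent.W388.TW.LocalE
import Pool.Agent.W388.TW.Final

/-!
# The twists of a newform: all the analytic data

Project LW (helper15).
-/

set_option autoImplicit false

open Complex Filter Topology MeasureTheory Set UpperHalfPlane MatrixGroups CongruenceSubgroup

namespace Pool.Agent.V8H15.LW

open Pool.Agent.R399.TW (pt pt_re pt_im pt_cont)
open W388 (GG FE2 IsNewf lamf heckeSeq_lamf exists_twist HeckeSeq cS GoodE good_height_D)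
open H370.DL (refl analyticAt_refl order_refl)
open Pool.Agent.V8H15.DN (Gamma_diffAt GrL CM cm_char fe_bound gr_bound af af_apply ex_cpow)

section symmetry

lemma GG_analytic' {k : ℤ} (hk : 2 ≤ k) {N q : ℝ} (hN : 1 ≤ N) (hq : 1 ≤ q) {s : ℂ}
    (hs : -(1 / 2) < s.re) : AnalyticAt ℂ (GG k N q) s := by
  have hk1 : (2 : ℝ) ≤ k := by exact_mod_cast hk
  have hpi := Real.pi_pos
  have hsN : 0 < Real.sqrt N := Real.sqrt_pos.mpr (by linarith)
  have hκ : 0 < Real.sqrt N * q / (2 * Real.pi) := by positivity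
  rw [analyticAt_iff_eventually_differentiableAt]
  have hev : ∀ᶠ z : ℂ in 𝓝 s, -(1 / 2) < z.re :=
    (Complex.continuous_re.isOpen_preimage _ isOpen_Ioi).mem_nhds hs
  filter_upwards [hev] with z hz
  unfold GG
  refine DifferentiableAt.mul ?_ ?_
  · exact DifferentiableAt.const_cpow (by fun_prop) (Or.inl (by exact_mod_cast hκ.ne'))
  · have h1 : 0 < (z + ((k : ℂ) - 1) / 2).re := by
      have : (((k : ℂ) - 1) / 2) = ((((k : ℝ) - 1) / 2 : ℝ) : ℂ) := by push_cast; ring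
      rw [this, Complex.add_re, Complex.ofReal_re]
      linarith
    exact (Gamma_diffAt h1).comp z (by fun_prop)

lemma GG_ne_zero' {k : ℤ} (hk : 2 ≤ k) {N q : ℝ} (hN : 1 ≤ N) (hq : 1 ≤ q) {s : ℂ}
    (hs : -(1 / 2) < s.re) : GG k N q s ≠ 0 := by
  have hk1 : (2 : ℝ) ≤ k := by exact_mod_cast hk
  have hpi := Real.pi_pos
  have hsN : 0 < Real.sqrt N := Real.sqrt_pos.mpr (by linarith)
  have hκ : 0 < Real.sqrt N * q / (2 * Real.pi) := by positivity
  have h1 : 0 < (s + ((k : ℂ) - 1) / 2).re := by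
    have : (((k : ℂ) - 1) / 2) = ((((k : ℝ) - 1) / 2 : ℝ) : ℂ) := by push_cast; ring
    rw [this, Complex.add_re, Complex.ofReal_re]
    linarith
  unfold GG
  refine mul_ne_zero ?_ (Complex.Gamma_ne_zero_of_re_pos h1)
  rw [Ne, cpow_eq_zero_iff]
  intro h
  have h2 : ((Real.sqrt N * q / (2 * Real.pi) : ℝ) : ℂ) = 0 := h.1
  exact hκ.ne' (by exact_mod_cast h2)

/-- symmetry of the zeros in the strip `-1/2 < Re s < 3/2` -/
lemma order_symm' {k : ℤ} (hk : 2 ≤ k) {N q : ℝ} (hN : 1 ≤ N) (hq : 1 ≤ q) {F : ℂ → ℂ}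
    (hF : FE2 k N q F) {s : ℂ} (h0 : -(1 / 2) < s.re) (h1 : s.re < 3 / 2) :
    analyticOrderAt F (1 - (starRingEnd ℂ) s) = analyticOrderAt F s := by
  obtain ⟨w, hw, hfe⟩ := hF.fe
  have hw0 : w ≠ 0 := by
    rintro rfl
    simp at hw
  obtain ⟨G, hG⟩ : ∃ G : ℂ → ℂ, ∀ z, G z = GG k N q z * F z := ⟨_, fun _ => rfl⟩
  have hGe : G = fun z => GG k N q z * F z := funext hG
  have hGa : ∀ z : ℂ, -(1 / 2) < z.re → AnalyticAt ℂ G z := fun z hz => by
    rw [hGe]
    exact (GG_analytic' hk hN hq hz).mul (hF.diff.analyticAt z)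
  have hrr : ∀ z : ℂ, (1 - (starRingEnd ℂ) z).re = 1 - z.re := fun z => by simp
  have hid : ∀ z : ℂ, -(1 / 2) < z.re → z.re < 3 / 2 → G z = w * refl G z := by
    intro z hz0 hz1
    have hc1 : Continuous fun t : ℝ => G (pt z.re t) := by
      rw [continuous_iff_continuousAt]
      intro t
      exact ContinuousAt.comp (f := fun t : ℝ => pt z.re t) (g := G)
        (hGa _ (by rw [pt_re]; exact hz0)).continuousAt (pt_cont _).continuousAt
    have hc2 : Continuous fun t : ℝ => w * refl G (pt z.re t) := by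
      rw [continuous_iff_continuousAt]
      intro t
      refine continuousAt_const.mul ?_
      exact ContinuousAt.comp (f := fun t : ℝ => pt z.re t) (g := refl G)
        (analyticAt_refl (hGa _ (by rw [hrr, pt_re]; linarith))).continuousAt
        (pt_cont _).continuousAt
    have heq : (fun t : ℝ => G (pt z.re t)) = fun t : ℝ => w * refl G (pt z.re t) := by
      refine Continuous.ext_on (dense_compl_singleton (0 : ℝ)) hc1 hc2 fun t ht => ?_
      have h2 := hfe (pt z.re t) (by rw [pt_im]; exact ht)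
      simp only [hG]
      unfold H370.DL.refl
      rw [hG]
      exact h2
    have h3 := congrFun heq z.im
    have h4 : pt z.re z.im = z := by
      apply Complex.ext
      · rw [pt_re]
      · rw [pt_im]
    simp only [h4] at h3
    exact h3
  have hev : G =ᶠ[𝓝 s] fun z => w * refl G z := by
    have e1 : ∀ᶠ z : ℂ in 𝓝 s, -(1 / 2) < z.re :=
      (Complex.continuous_re.isOpen_preimage _ isOpen_Ioi).mem_nhds h0
    have e2 : ∀ᶠ z : ℂ in 𝓝 s, z.re < 3 / 2 :=
      (Complex.continuous_re.isOpen_preimage _ isOpen_Iio).mem_nhds h1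
    filter_upwards [e1, e2] with z hz0 hz1
    exact hid z hz0 hz1
  have hord : ∀ z : ℂ, -(1 / 2) < z.re → analyticOrderAt G z = analyticOrderAt F z := by
    intro z hz
    have h2 := analyticOrderAt_mul (GG_analytic' hk hN hq hz) (hF.diff.analyticAt z)
    rw [(GG_analytic' hk hN hq hz).analyticOrderAt_eq_zero.mpr (GG_ne_zero' hk hN hq hz),
      zero_add] at h2
    rw [hGe]
    exact h2
  have hr : AnalyticAt ℂ (refl G) s := analyticAt_refl (hGa _ (by rw [hrr]; linarith))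
  have h5 : analyticOrderAt (fun z => w * refl G z) s = analyticOrderAt (refl G) s := by
    have h6 := analyticOrderAt_mul (f := fun _ : ℂ => w) (g := refl G) (z₀ := s)
      analyticAt_const hr
    rw [analyticAt_const.analyticOrderAt_eq_zero.mpr hw0, zero_add] at h6
    exact h6
  rw [← hord _ (by rw [hrr]; linarith), ← hord s h0, analyticOrderAt_congr hev, h5,
    order_refl (hGa _ (by rw [hrr]; linarith))]

end symmetry

/-- all the analytic data of the family of twists -/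
structure TwF (N : ℕ) (k : ℤ) (lam : ℕ → ℝ) (h0 : lam 0 = 0) (A : ℝ)
    (F : (q : ℕ) → DirichletCharacter ℂ q → ℂ → ℂ) : Prop where
  diff : ∀ (q : ℕ) (χ : DirichletCharacter ℂ q), Differentiable ℂ (F q χ)
  fe : ∀ (q : ℕ) (χ : DirichletCharacter ℂ q), 1 ≤ q → Nat.Coprime q N → χ.IsPrimitive →
    FE2 k N q (F q χ)
  ne : ∀ (q : ℕ) (χ : DirichletCharacter ℂ q), 1 ≤ q → Nat.Coprime q N → χ.IsPrimitive →
    ∀ s : ℂ, 1 < s.re → F q χ s ≠ 0
  ne1 : ∀ (q : ℕ) (χ : DirichletCharacter ℂ q), 1 ≤ q → Nat.Coprime q N → χ.IsPrimitive →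
    ∀ s : ℂ, s.re = 1 → s.im ≠ 0 → F q χ s ≠ 0
  prod : ∀ (q : ℕ) (χ : DirichletCharacter ℂ q), 1 ≤ q → Nat.Coprime q N → χ.IsPrimitive →
    ∀ s : ℂ, 1 < s.re →
      HasProd (fun p : Nat.Primes =>
        (1 - χ ((p : ℕ) : ZMod q) * (lam p : ℂ) * ((p : ℕ) : ℂ) ^ (-s) +
          (if (p : ℕ) ∣ N then 0 else
            χ ((p : ℕ) : ZMod q) ^ 2 * ((p : ℕ) : ℂ) ^ (-2 * s)))⁻¹) (F q χ s)
  ld : ∀ (q : ℕ) (χ : DirichletCharacter ℂ q), 1 ≤ q → Nat.Coprime q N → χ.IsPrimitive →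
    ∀ s : ℂ, 1 < s.re → deriv (F q χ) s / F q χ s =
      - ∑' n : ℕ, χ (n : ZMod q) * (cS N lam n : ℂ) * (ArithmeticFunction.vonMangoldt n : ℂ) *
        (n : ℂ) ^ (-s)
  gr : ∀ (q : ℕ) (χ : DirichletCharacter ℂ q), 1 ≤ q → Nat.Coprime q N → χ.IsPrimitive →
    ∀ Q T : ℝ, q ≤ Q → 1 ≤ T →
      GrL A T (2 * Real.log (Q * T)) 2 (af lam h0) (fun n => χ (n : ZMod q)) (F q χ)
  good : ∀ (q : ℕ) (χ : DirichletCharacter ℂ q), 1 ≤ q → Nat.Coprime q N → χ.IsPrimitive →
    GoodE 2 A q (F q χ) (fun n => χ (n : ZMod q) * (cS N lam n : ℂ) *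
      (ArithmeticFunction.vonMangoldt n : ℂ))
  cj : ∀ (q : ℕ) (χ : DirichletCharacter ℂ q), 1 ≤ q → Nat.Coprime q N → χ.IsPrimitive →
    ∀ s : ℂ, F q χ s = (starRingEnd ℂ) (F q χ⁻¹ ((starRingEnd ℂ) s))

lemma prim_inv {q : ℕ} {χ : DirichletCharacter ℂ q} (h : χ.IsPrimitive) : χ⁻¹.IsPrimitive := by
  unfold DirichletCharacter.IsPrimitive at h ⊢
  rw [DirichletCharacter.conductor_inv]
  exact h

lemma inv_conj {q : ℕ} [NeZero q] (χ : DirichletCharacter ℂ q) (a : ZMod q) :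
    χ⁻¹ a = (starRingEnd ℂ) (χ a) := by
  rw [← MulChar.star_apply']
  rfl

lemma conj_natCast_cpow (n : ℕ) (s : ℂ) :
    (starRingEnd ℂ) ((n : ℂ) ^ s) = (n : ℂ) ^ ((starRingEnd ℂ) s) := by
  rcases Nat.eq_zero_or_pos n with h | h
  · subst h
    rcases eq_or_ne s 0 with h0 | h0
    · subst h0; simp
    · have h1 : (starRingEnd ℂ) s ≠ 0 := by simpa using h0
      rw [Nat.cast_zero, Complex.zero_cpow h0, Complex.zero_cpow h1, map_zero]
  · have hn0 : (0 : ℝ) < n := by exact_mod_cast h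
    have h1 := Pool.Agent.W820.TW.conj_real_cpow hn0 s
    rw [Complex.ofReal_natCast] at h1
    exact h1

/-- **Everything about the twists of a newform** -/
theorem twists2 {N : ℕ} [NeZero N] {k : ℤ} (hk : 1 ≤ k)
    {f : CuspForm (Gamma0 N : Subgroup (GL (Fin 2) ℝ)) k} {ε : ℝ} (hf : IsNewf N k f ε) :
    ∃ (A : ℝ) (F : (q : ℕ) → DirichletCharacter ℂ q → ℂ → ℂ), 1 ≤ A ∧
      TwF N k (lamf f) (heckeSeq_lamf hf).zero A F := by
  have hN : 0 < N := Nat.pos_of_ne_zero (NeZero.ne N)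
  have hN1 : (1 : ℝ) ≤ N := by exact_mod_cast hN
  have hH := heckeSeq_lamf hf
  have hRS := W388.p_rs N k hk f ε hf
  obtain ⟨A1, hA1, d1, d2, d3⟩ := W388.p_dir N hN (lamf f) hH hRS
  obtain ⟨A2, hA2, hfe⟩ := fe_bound hk hN1
  obtain ⟨A3, hA3, hgr⟩ := gr_bound hk hN1 hA1
  obtain ⟨A4, hA4, hA4'⟩ := Pool.Agent.W820.TW.t_fe k hk N hN1 A1 hA1
  have hsum : ∀ (q : ℕ) [NeZero q] (χ : DirichletCharacter ℂ q) (s : ℂ), 1 < s.re →
      Summable (fun n : ℕ => ‖χ (n : ZMod q) * (lamf f n : ℂ) * (n : ℂ) ^ (-s)‖) := by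
    intro q _ χ s hs
    exact (d3 q χ (fun s => ∑' n : ℕ, χ (n : ZMod q) * (lamf f n : ℂ) * (n : ℂ) ^ (-s))
      (fun _ _ => rfl)).1 s hs
  classical
  have hex : ∀ (q : ℕ) (χ : DirichletCharacter ℂ q), ∃ F : ℂ → ℂ, Differentiable ℂ F ∧
      (1 ≤ q → Nat.Coprime q N → χ.IsPrimitive → FE2 k N q F ∧ ∀ s : ℂ, 1 < s.re →
      F s = ∑' n : ℕ, χ (n : ZMod q) * (lamf f n : ℂ) * (n : ℂ) ^ (-s)) := by
    intro q χ
    by_cases h : 1 ≤ q ∧ Nat.Coprime q N ∧ χ.IsPrimitive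
    · obtain ⟨h1, h2, h3⟩ := h
      have : NeZero q := ⟨by omega⟩
      obtain ⟨F, hF⟩ := exists_twist Pool.Agent.W440.TW.t_twist Pool.Agent.W108.TW.t_mellin
        hk hf hsum q χ h3 h2
      exact ⟨F, hF.1.diff, fun _ _ _ => hF⟩
    · exact ⟨fun _ => 0, differentiable_const _, fun h1 h2 h3 => absurd ⟨h1, h2, h3⟩ h⟩
  choose F hFd hF using hex
  obtain ⟨A, hA⟩ : ∃ A : ℝ, A = max (max A1 A2) (max A3 A4) := ⟨_, rfl⟩
  have hAA1 : A1 ≤ A := by rw [hA]; exact le_max_of_le_left (le_max_left _ _)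
  have hAA2 : A2 ≤ A := by rw [hA]; exact le_max_of_le_left (le_max_right _ _)
  have hAA3 : A3 ≤ A := by rw [hA]; exact le_max_of_le_right (le_max_left _ _)
  have hAA4 : A4 ≤ A := by rw [hA]; exact le_max_of_le_right (le_max_right _ _)
  have hA1' : 1 ≤ A := hA1.trans hAA1
  have hnz1 : ∀ (q : ℕ) (χ : DirichletCharacter ℂ q), 1 ≤ q → Nat.Coprime q N →
      χ.IsPrimitive → ∀ s : ℂ, s.re = 1 → s.im ≠ 0 → F q χ s ≠ 0 := by
    intro q χ hq hqN hχ
    have : NeZero q := ⟨by omega⟩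
    obtain ⟨hfe2, hser⟩ := hF q χ hq hqN hχ
    exact W388.p_nzr N hN (lamf f) hH hRS q χ (F q χ) hfe2.diff hser
  have hne : ∀ (q : ℕ) (χ : DirichletCharacter ℂ q), 1 ≤ q → Nat.Coprime q N →
      χ.IsPrimitive → ∀ s : ℂ, 1 < s.re → F q χ s ≠ 0 := by
    intro q χ hq hqN hχ
    have : NeZero q := ⟨by omega⟩
    obtain ⟨hfe2, hser⟩ := hF q χ hq hqN hχ
    exact (d3 q χ (F q χ) hser).2.1
  refine ⟨A, F, hA1', hFd, fun q χ h1 h2 h3 => (hF q χ h1 h2 h3).1, hne, hnz1, ?_, ?_, ?_, ?_, ?_⟩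
  · intro q χ hq hqN hχ
    have : NeZero q := ⟨by omega⟩
    obtain ⟨hfe2, hser⟩ := hF q χ hq hqN hχ
    exact (d3 q χ (F q χ) hser).2.2.2.2.2
  · intro q χ hq hqN hχ
    have : NeZero q := ⟨by omega⟩
    obtain ⟨hfe2, hser⟩ := hF q χ hq hqN hχ
    exact (d3 q χ (F q χ) hser).2.2.1
  · intro q χ hq hqN hχ Q T hQ hT
    have : NeZero q := ⟨by omega⟩
    have hq1 : (1 : ℝ) ≤ q := by exact_mod_cast hq
    obtain ⟨hfe2, hser⟩ := hF q χ hq hqN hχ
    obtain ⟨e1, e2, e3, e4, e5, e6⟩ := d3 q χ (F q χ) hser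
    have hQ0 : 0 < Q := by linarith
    have hT0 : 0 < T := by linarith
    have hQT : 0 < Q * T := by positivity
    have hexp : Real.exp (2 * Real.log (Q * T)) = (Q * T) ^ 2 := by
      rw [mul_comm, Real.exp_mul, Real.exp_log hQT]
      norm_num
    have hyT : ∀ y : ℝ, 1 + |y| ≤ T * (1 + |y| / T) := by
      intro y
      rw [mul_add, mul_one, mul_div_cancel₀ _ hT0.ne']
      linarith
    have hqT : ∀ y : ℝ, q * (1 + |y|) ≤ (Q * T) * (1 + |y| / T) := by
      intro y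
      calc q * (1 + |y|) ≤ Q * (T * (1 + |y| / T)) :=
            mul_le_mul hQ (hyT y) (by positivity) hQ0.le
        _ = _ := by ring
    have hA0 : 0 < A := by linarith
    refine ⟨hfe2.diff, ?_, cm_char χ, ?_, ?_, ?_⟩
    · intro s hs
      rw [hser s (by linarith)]
      refine tsum_congr fun n => ?_
      rw [af_apply]
      rcases Nat.eq_zero_or_pos n with h0 | h0
      · subst h0
        rw [hH.zero]
        simp
      · rw [ex_cpow s h0.ne']
        ring
    · intro s hs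
      refine (hgr q (F q χ) hq1 hfe2 e4 s hs).trans ?_
      rw [hexp, mul_assoc, ← mul_pow]
      have h3 : (q * (1 + |s.im|)) ^ 2 ≤ (Q * T * (1 + |s.im| / T)) ^ 2 :=
        pow_le_pow_left₀ (by positivity) (hqT _) 2
      exact mul_le_mul hAA3 h3 (by positivity) hA0.le
    · intro s hs
      exact (inv_anti₀ (by linarith) hAA1).trans (e5 s hs)
    · intro δ hδ0 hδ1 τ
      refine (hfe q (F q χ) hq1 hfe2 δ hδ0 hδ1 τ).trans ?_
      refine mul_le_mul_of_nonneg_right ?_ (norm_nonneg _)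
      have h3 : Real.exp (2 * Real.log (Q * T) * δ) = (Q * T) ^ (2 * δ) := by
        rw [Real.rpow_def_of_pos hQT]
        congr 1
        ring
      have h4 : (q : ℝ) ^ (2 * δ) * (1 + |τ|) ^ (2 * δ) ≤
          (Q * T) ^ (2 * δ) * (1 + |τ| / T) ^ (2 * δ) := by
        rw [← Real.mul_rpow (by linarith) (by positivity),
          ← Real.mul_rpow hQT.le (by positivity)]
        exact Real.rpow_le_rpow (by positivity) (hqT τ) (by linarith)
      rw [h3, mul_assoc, mul_assoc]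
      push_cast
      exact mul_le_mul hAA2 h4 (by positivity) hA0.le
  · intro q χ hq hqN hχ
    have : NeZero q := ⟨by omega⟩
    have hq1 : (1 : ℝ) ≤ q := by exact_mod_cast hq
    obtain ⟨hfe2, hser⟩ := hF q χ hq hqN hχ
    obtain ⟨e1, e2, e3, e4, e5, e6⟩ := d3 q χ (F q χ) hser
    have hz2 : ∀ s : ℂ, 1 ≤ s.re → 1 ≤ |s.im| → F q χ s ≠ 0 := by
      intro s h1 h2
      rcases eq_or_lt_of_le h1 with h | h
      · refine hnz1 q χ hq hqN hχ s h.symm ?_
        intro h0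
        rw [h0, abs_zero] at h2
        linarith
      · exact e2 s h
    obtain ⟨g1, g2, g3, g4⟩ := hA4' q hq1 (F q χ) hfe2 e4 hz2
    have hAmax : 0 < A := by linarith
    have hnn : ∀ n : ℕ, ‖χ (n : ZMod q) * (cS N (lamf f) n : ℂ) *
        (ArithmeticFunction.vonMangoldt n : ℂ)‖ * (n : ℝ) ^ (-(3 / 2) : ℝ) ≤
        ArithmeticFunction.vonMangoldt n * |cS N (lamf f) n| * (n : ℝ) ^ (-(3 / 2) : ℝ) := by
      intro n
      have h1 := χ.norm_le_one (n : ZMod q)
      have h2 : (0 : ℝ) ≤ ArithmeticFunction.vonMangoldt n := ArithmeticFunction.vonMangoldt_nonneg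
      rw [norm_mul, norm_mul, Complex.norm_real, Complex.norm_real, Real.norm_eq_abs,
        Real.norm_of_nonneg h2]
      refine mul_le_mul_of_nonneg_right ?_ (by positivity)
      calc ‖χ (n : ZMod q)‖ * |cS N (lamf f) n| * ArithmeticFunction.vonMangoldt n ≤
          1 * |cS N (lamf f) n| * ArithmeticFunction.vonMangoldt n := by gcongr
        _ = _ := by ring
    refine ⟨fun s _ => hfe2.diff.analyticAt s, ?_, ?_, ?_, g2, g3, ?_, ?_, ?_, ?_, ?_⟩
    · intro s h1 h2 h3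
      refine (g1 s h1 h2 h3).trans ?_
      have hb : 1 ≤ (q : ℝ) * s.im := by
        calc (1 : ℝ) = 1 * 1 := (mul_one 1).symm
          _ ≤ _ := mul_le_mul hq1 h3 zero_le_one (by linarith)
      exact mul_le_mul hAA4
        (Real.rpow_le_rpow_of_exponent_le hb hAA4) (by positivity) hAmax.le
    · intro t _
      refine le_trans ?_ (e5 (⟨2, t⟩ : ℂ) (le_refl _))
      exact inv_anti₀ (by linarith) hAA1
    · intro s h1 h2
      exact hz2 s h1 (h2.trans (le_abs_self _))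
    · intro n hn
      interval_cases n <;> simp
    · exact Summable.of_nonneg_of_le (fun n => by positivity) hnn d1
    · exact le_trans (Summable.tsum_le_tsum hnn
        (Summable.of_nonneg_of_le (fun n => by positivity) hnn d1) d1) (d2.trans hAA1)
    · intro s h1 _
      exact e3 s h1
    · intro s h1 h2 h3 h4
      exact (g4 s h1 h2 h3 h4).trans hAA4
  · intro q χ hq hqN hχ
    have : NeZero q := ⟨by omega⟩
    obtain ⟨hfe2, hser⟩ := hF q χ hq hqN hχ
    obtain ⟨hfe2', hser'⟩ := hF q χ⁻¹ hq hqN (prim_inv hχ)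
    obtain ⟨G, hG⟩ : ∃ G : ℂ → ℂ, ∀ s, G s = (starRingEnd ℂ) (F q χ⁻¹ ((starRingEnd ℂ) s)) :=
      ⟨_, fun _ => rfl⟩
    have hGd : Differentiable ℂ G := by
      intro s
      have h1 : DifferentiableAt ℂ (F q χ⁻¹) ((starRingEnd ℂ) s) := hFd q χ⁻¹ _
      have h2 := h1.star_star
      have e : (star ∘ (F q χ⁻¹) ∘ star) = G := by
        funext z
        rw [hG]
        rfl
      rw [Complex.star_def] at h2
      simp only [Complex.conj_conj] at h2
      rw [← e]
      exact h2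
    have hEq : ∀ s : ℂ, 1 < s.re → F q χ s = G s := by
      intro s hs
      rw [hG, hser s hs, hser' _ (by rw [Complex.conj_re]; exact hs), Complex.conj_tsum]
      refine tsum_congr fun n => ?_
      rw [map_mul, map_mul, Complex.conj_ofReal, inv_conj, Complex.conj_conj,
        conj_natCast_cpow, map_neg, Complex.conj_conj]
    intro s
    rw [← hG]
    have h1 : AnalyticOnNhd ℂ (F q χ) Set.univ := fun z _ => (hFd q χ).analyticAt z
    have h2 : AnalyticOnNhd ℂ G Set.univ := fun z _ => hGd.analyticAt z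
    have h3 : F q χ =ᶠ[𝓝 2] G := by
      have h4 : ∀ᶠ z : ℂ in 𝓝 2, 1 < z.re :=
        (Complex.continuous_re.isOpen_preimage _ isOpen_Ioi).mem_nhds (by simp)
      filter_upwards [h4] with z hz
      exact hEq z hz
    exact congrFun (h1.eq_of_eventuallyEq h2 h3) s

end Pool.Agent.V8H15.LW
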