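import Pool.Agent.V8H15.DN.Fam
import Pool.Agent.V8H15.LW.Dya
import Pool.Agent.V8H15.LW.Twi

/-!
# The density of zeros in windows of length `1 / log X`, on average over the family

Project LW (helper15).
-/

set_option autoImplicit false

open Finset Filter Topology MeasureTheory ArithmeticFunction Complex UpperHalfPlane MatrixGroups
  CongruenceSubgroup

namespace Pool.Agent.V8H15.LW

open Pool.Agent.N786.D (Cutf cut_exists)
open Pool.Agent.V8H15.DN (idx mem_idx gv LSP LSP.mono lsp_short idx_card dens_loc hb_of_sel ac_of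
  ac_inv_of ld_of)
open W388 (IsNewf lamf heckeSeq_lamf cS)
open H385 (primSetM mem_primSetM IX)

/-- **Zeros in short windows on average over the family.** -/
theorem den2 {N : ℕ} [NeZero N] {k : ℤ} (hk : 1 ≤ k)
    {f : CuspForm (Gamma0 N : Subgroup (GL (Fin 2) ℝ)) k} {ε : ℝ} (hf : IsNewf N k f ε)
    {A : ℝ} (hA : 1 ≤ A) {F : (q : ℕ) → DirichletCharacter ℂ q → ℂ → ℂ}
    (hF : TwF N k (lamf f) (heckeSeq_lamf hf).zero A F) {b : ℝ} (hb0 : 0 < b) (hb : b < 2) :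
    ∃ η₁ B X₀ : ℝ, 0 < η₁ ∧ η₁ ≤ 1 ∧ 0 ≤ B ∧ 1 ≤ X₀ ∧ ∀ X Y : ℕ, X₀ ≤ X → X ≤ Y →
      (Y : ℝ) ≤ (X : ℝ) ^ 2 → ∀ t' : ℝ, |t'| ≤ (X : ℝ) ^ η₁ → ∀ Zs : IX → Finset ℂ,
      (∀ i, ∀ z ∈ Zs i, 1 / 2 ≤ z.re ∧ z.re ≤ 1 ∧ t' ≤ z.im ∧ z.im ≤ t' + 1 / Real.log X) →
      ∑ i ∈ primSetM N X Y, (1 / (i.1 : ℝ) ^ 2) * (∑ z ∈ Zs i,
        (analyticOrderNatAt (F i.1 i.2) z : ℝ) *
          Real.exp (b * Real.log X * (z.re - 1 / 2))) ≤
      B * (1 + 2 * Real.log ((Y : ℝ) / X)) := by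
  classical
  have hN : 0 < N := Nat.pos_of_ne_zero (NeZero.ne N)
  have hH := heckeSeq_lamf hf
  have hRS := W388.p_rs N k hk f ε hf
  obtain ⟨C, hC⟩ := hb_of_sel (W388.p_sel N hN (lamf f) hH hRS).1
  obtain ⟨Z, hZ⟩ := ac_of hN hH hRS
  obtain ⟨Z', hZ'⟩ := ac_inv_of hN hH hRS
  obtain ⟨c, hc⟩ : ∃ c : ℝ, c = (1 + b / 2) / 2 := ⟨_, rfl⟩
  have hc1 : c < 1 := by rw [hc]; linarith
  have hcb : b < 2 * c := by rw [hc]; linarith
  have hc0 : 0 < c := by rw [hc]; linarith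
  obtain ⟨e, he⟩ : ∃ e : ℝ, e = (1 - c) / 24 := ⟨_, rfl⟩
  have he0 : 0 < e := by rw [he]; linarith
  obtain ⟨φ, hφ⟩ := cut_exists (a := 1 / 2 + 2 * e) (b := 1 / 2 + 3 * e) (by linarith) (by linarith)
  obtain ⟨θ, hθ⟩ := cut_exists (a := c / 2 + 2 * e) (b := c / 2 + 3 * e) (by linarith) (by linarith)
  obtain ⟨D, R₀, hD, hR₀, hdens⟩ := dens_loc (α' := 1 / 2 + e) (β' := c / 2 + e) (ld_of hH) hC hZ hZ'
    hφ hθ (by linarith) (by linarith) (by linarith) (by linarith) (by linarith) (by linarith)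
    (by linarith) hA 2 (by norm_num)
  obtain ⟨h', hh'⟩ : ∃ h' : ℝ, h' = (3 + c) / 4 := ⟨_, rfl⟩
  have hh'1 : h' < 1 := by rw [hh']; linarith
  have hh'0 : 0 < h' := by rw [hh']; linarith
  obtain ⟨r, hr⟩ : ∃ r : ℝ, r = Real.exp (-(2 * c - b)) := ⟨_, rfl⟩
  have hr0 : 0 ≤ r := by rw [hr]; positivity
  have hr1 : r < 1 := by
    rw [hr, Real.exp_lt_one_iff]
    linarith
  obtain ⟨B, hB⟩ : ∃ B : ℝ, B = 72 * D * Real.exp b * (1 - r)⁻¹ := ⟨_, rfl⟩
  have hB0 : 0 ≤ B := by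
    rw [hB]
    have : 0 < 1 - r := by linarith
    positivity
  refine ⟨1 - h', B, Real.exp (max 1 R₀), by linarith, by linarith, hB0,
    Real.one_le_exp (le_max_of_le_left zero_le_one), ?_⟩
  intro X Y hX hXY hYX t' ht' Zs hZs
  have hXpos : (0 : ℝ) < X := lt_of_lt_of_le (Real.exp_pos _) hX
  have hX1 : 1 ≤ X := by exact_mod_cast hXpos
  have hX1r : (1 : ℝ) ≤ X := by exact_mod_cast hX1
  obtain ⟨L, hL⟩ : ∃ L : ℝ, L = Real.log X := ⟨_, rfl⟩
  have hLm : max 1 R₀ ≤ L := by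
    rw [hL, Real.le_log_iff_exp_le hXpos]
    exact hX
  have hL1 : 1 ≤ L := (le_max_left _ _).trans hLm
  have hLR : R₀ ≤ L := (le_max_right _ _).trans hLm
  have hL0 : 0 < L := by linarith
  obtain ⟨T, hT⟩ : ∃ T : ℝ, T = (X : ℝ) ^ (1 - h') := ⟨_, rfl⟩
  have hT1 : 1 ≤ T := by
    rw [hT]
    exact Real.one_le_rpow hX1r (by linarith)
  have hT0 : 0 < T := by linarith
  have hlogT : Real.log T = (1 - h') * L := by rw [hT, Real.log_rpow hXpos, hL]
  rw [← hT] at ht'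
  rw [← hL] at hZs ⊢
  refine dyad N X Y hX1 hXY (fun i => ∑ z ∈ Zs i,
        (analyticOrderNatAt (F i.1 i.2) z : ℝ) * Real.exp (b * L * (z.re - 1 / 2)))
    (fun i => sum_nonneg fun z _ => by positivity) B hB0 ?_
  intro Q hQ1 hQ2
  have hQX : (X : ℝ) ≤ Q := by exact_mod_cast hQ1.le
  have hQ0 : (0 : ℝ) < Q := by linarith
  have hQ1' : (1 : ℝ) ≤ Q := by linarith
  have hlogQ1 : L ≤ Real.log Q := by
    rw [hL]
    exact Real.log_le_log hXpos hQX
  have hlogQ2 : Real.log Q ≤ 2 * L := by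
    have h1 : (Q : ℝ) ≤ (X : ℝ) ^ 2 := le_trans (by exact_mod_cast hQ2) hYX
    have h2 := Real.log_le_log hQ0 h1
    rw [Real.log_pow] at h2
    push_cast at h2
    rw [hL]
    exact h2
  obtain ⟨R, hR⟩ : ∃ R : ℝ, R = 2 * Real.log (Q * T) := ⟨_, rfl⟩
  have hRe : R = 2 * (Real.log Q + (1 - h') * L) := by
    rw [hR, Real.log_mul hQ0.ne' hT0.ne', hlogT]
  have hRlow : 2 * L ≤ R := by
    rw [hRe]
    have : 0 ≤ (1 - h') * L := mul_nonneg (by linarith) hL0.le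
    linarith
  have hRup : R ≤ 6 * L := by
    rw [hRe]
    have : (1 - h') * L ≤ 1 * L := mul_le_mul_of_nonneg_right (by linarith) hL0.le
    linarith
  have hR0 : 0 < R := by linarith
  have hQ2pos : 0 < (Q : ℝ) ^ 2 := by positivity
  have hexpR : Real.exp (h' * R) ≤ (Q : ℝ) ^ 2 := by
    have h1 : (Q : ℝ) ^ 2 = Real.exp (2 * Real.log Q) := by
      rw [mul_comm, Real.exp_mul, Real.exp_log hQ0]
      norm_num
    rw [h1]
    refine Real.exp_le_exp.mpr ?_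
    rw [hRe]
    have h2 : h' * ((1 - h') * L) ≤ 1 * ((1 - h') * L) :=
      mul_le_mul_of_nonneg_right hh'1.le (mul_nonneg (by linarith) hL0.le)
    have h3 : (1 - h') * L ≤ (1 - h') * Real.log Q :=
      mul_le_mul_of_nonneg_left hlogQ1 (by linarith)
    nlinarith
  -- the length
  obtain ⟨M, hM⟩ : ∃ M : ℕ, M = ⌊Real.exp ((1 / 2 + 3 * e) * R)⌋₊ *
    ⌊Real.exp ((c / 2 + 3 * e) * R)⌋₊ := ⟨_, rfl⟩
  have hM1 : (M : ℝ) ≤ (Q : ℝ) ^ 2 := by
    rw [hM]
    push_cast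
    have h1 := Nat.floor_le (Real.exp_pos ((1 / 2 + 3 * e) * R)).le
    have h2 := Nat.floor_le (Real.exp_pos ((c / 2 + 3 * e) * R)).le
    refine (mul_le_mul h1 h2 (Nat.cast_nonneg _) (Real.exp_pos _).le).trans ?_
    rw [← Real.exp_add]
    have h3 : (1 / 2 + 3 * e) * R + (c / 2 + 3 * e) * R = h' * R := by
      rw [he, hh']; ring
    rw [h3]
    exact hexpR
  have hH0 : 0 < 1 / L := by positivity
  have hls : LSP (idx N Q) gv (1 / L) (12 * ((Q : ℝ) ^ 2 * (1 / L))) M := by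
    refine (lsp_short N Q M hH0.le).mono ?_
    have h2 : 6 * ((M : ℝ) + (Q : ℝ) ^ 2) ≤ 12 * (Q : ℝ) ^ 2 := by linarith
    calc 6 * ((M : ℝ) + (Q : ℝ) ^ 2) * (1 / L) ≤ 12 * (Q : ℝ) ^ 2 * (1 / L) :=
          mul_le_mul_of_nonneg_right h2 hH0.le
      _ = _ := by ring
  -- one level
  have hlev : ∀ j : ℕ, ∑ i ∈ idx N Q, ∑ z ∈ (Zs i).filter (fun z => 1 / 2 + (j : ℝ) / L ≤ z.re),
      (analyticOrderNatAt (F i.1 i.2) z : ℝ) ≤ 72 * D * (Q : ℝ) ^ 2 * Real.exp (-(2 * c * j)) := by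
    intro j
    have h1 := hdens R T (1 / L) (12 * ((Q : ℝ) ^ 2 * (1 / L))) (idx N Q) gv
      (fun i => F i.1 i.2) (by linarith) hT1 (by
        refine one_div_le_one_div_of_le hL0 ?_
        linarith) (by
        rw [div_le_iff₀ hL0]
        nlinarith) (by
        have h1 := idx_card N Q
        have h2 : ((idx N Q).card : ℝ) * (1 / L) ≤ (Q : ℝ) ^ 2 * (1 / L) :=
          mul_le_mul_of_nonneg_right h1 hH0.le
        have h3 : 0 ≤ (Q : ℝ) ^ 2 * (1 / L) := by positivity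
        linarith) (by rw [← hM]; exact hls) (fun i => hF.diff i.1 i.2) (by
        intro i hi
        obtain ⟨a1, a2, a3⟩ := mem_idx.mp hi
        rw [hR]
        exact hF.gr i.1 i.2 a1.1 a2 a3 Q T (by exact_mod_cast a1.2) hT1) (by
        intro i hi
        obtain ⟨a1, a2, a3⟩ := mem_idx.mp hi
        exact hF.ne i.1 i.2 a1.1 a2 a3) t' ht' ((j : ℝ) / L) (by positivity)
        (fun i => (Zs i).filter (fun z => 1 / 2 + (j : ℝ) / L ≤ z.re)) (by
        intro i _ z hz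
        rw [mem_filter] at hz
        obtain ⟨_, _, b3, b4⟩ := hZs i z hz.1
        exact ⟨hz.2, b3, b4⟩)
    refine h1.trans ?_
    have h2 : Real.exp (-(2 * (c / 2 + e) * R * ((j : ℝ) / L))) ≤ Real.exp (-(2 * c * j)) := by
      refine Real.exp_le_exp.mpr ?_
      have h3 : 2 * L * ((j : ℝ) / L) ≤ R * ((j : ℝ) / L) :=
        mul_le_mul_of_nonneg_right hRlow (by positivity)
      have h4 : 2 * L * ((j : ℝ) / L) = 2 * j := by field_simp
      rw [h4] at h3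
      have h5 : (c / 2 + e) * (2 * j) ≤ (c / 2 + e) * (R * ((j : ℝ) / L)) :=
        mul_le_mul_of_nonneg_left h3 (by linarith)
      have h6 : 0 ≤ e * (2 * (j : ℝ)) := by positivity
      nlinarith
    calc D * (12 * ((Q : ℝ) ^ 2 * (1 / L)) * R *
          Real.exp (-(2 * (c / 2 + e) * R * ((j : ℝ) / L)))) ≤
        D * (12 * ((Q : ℝ) ^ 2 * (1 / L)) * (6 * L) * Real.exp (-(2 * c * j))) := by gcongr
      _ = _ := by field_simp; ring
  -- discretisation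
  obtain ⟨J, hJ⟩ : ∃ J : ℕ, J = ⌊L⌋₊ + 1 := ⟨_, rfl⟩
  have hdis : ∀ i ∈ idx N Q, ∑ z ∈ Zs i, (analyticOrderNatAt (F i.1 i.2) z : ℝ) *
      Real.exp (b * L * (z.re - 1 / 2)) ≤ ∑ j ∈ range J, Real.exp (b * (j + 1)) *
      ∑ z ∈ (Zs i).filter (fun z => 1 / 2 + (j : ℝ) / L ≤ z.re),
        (analyticOrderNatAt (F i.1 i.2) z : ℝ) := by
    intro i _
    have h1 : ∀ z ∈ Zs i, (analyticOrderNatAt (F i.1 i.2) z : ℝ) *
        Real.exp (b * L * (z.re - 1 / 2)) ≤ ∑ j ∈ range J,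
        if 1 / 2 + (j : ℝ) / L ≤ z.re then Real.exp (b * (j + 1)) *
          (analyticOrderNatAt (F i.1 i.2) z : ℝ) else 0 := by
      intro z hz
      obtain ⟨b1, b2, _, _⟩ := hZs i z hz
      obtain ⟨j, hj⟩ : ∃ j : ℕ, j = ⌊(z.re - 1 / 2) * L⌋₊ := ⟨_, rfl⟩
      have hx0 : 0 ≤ (z.re - 1 / 2) * L := mul_nonneg (by linarith) hL0.le
      have hj1 : (j : ℝ) ≤ (z.re - 1 / 2) * L := by rw [hj]; exact Nat.floor_le hx0
      have hj2 : (z.re - 1 / 2) * L < j + 1 := by rw [hj]; exact Nat.lt_floor_add_one _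
      have hjJ : j ∈ range J := by
        rw [mem_range, hJ, hj]
        have : ⌊(z.re - 1 / 2) * L⌋₊ ≤ ⌊L⌋₊ := by
          refine Nat.floor_le_floor ?_
          nlinarith
        omega
      have hcond : 1 / 2 + (j : ℝ) / L ≤ z.re := by
        have : (j : ℝ) / L ≤ z.re - 1 / 2 := by
          rw [div_le_iff₀ hL0]
          exact hj1
        linarith
      have h2 := single_le_sum (f := fun j : ℕ => if 1 / 2 + (j : ℝ) / L ≤ z.re then
        Real.exp (b * (j + 1)) * (analyticOrderNatAt (F i.1 i.2) z : ℝ) else 0)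
        (fun j _ => by
          split_ifs
          · positivity
          · exact le_rfl) hjJ
      simp only [if_pos hcond] at h2
      refine le_trans ?_ h2
      rw [mul_comm]
      refine mul_le_mul_of_nonneg_right ?_ (Nat.cast_nonneg _)
      refine Real.exp_le_exp.mpr ?_
      nlinarith
    refine (sum_le_sum h1).trans (le_of_eq ?_)
    rw [sum_comm]
    refine sum_congr rfl fun j _ => ?_
    rw [mul_sum, ← sum_filter]
  refine (sum_le_sum hdis).trans ?_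
  rw [sum_comm]
  have h3 : ∀ j ∈ range J, ∑ i ∈ idx N Q, Real.exp (b * (j + 1)) *
      ∑ z ∈ (Zs i).filter (fun z => 1 / 2 + (j : ℝ) / L ≤ z.re),
        (analyticOrderNatAt (F i.1 i.2) z : ℝ) ≤
      (72 * D * Real.exp b * (Q : ℝ) ^ 2) * r ^ j := by
    intro j _
    rw [← mul_sum]
    refine (mul_le_mul_of_nonneg_left (hlev j) (Real.exp_pos _).le).trans (le_of_eq ?_)
    have e1 : r ^ j = Real.exp (b * j) * Real.exp (-(2 * c * j)) := by
      rw [hr, ← Real.exp_nat_mul, ← Real.exp_add]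
      congr 1
      ring
    have e2 : Real.exp (b * (j + 1)) = Real.exp (b * j) * Real.exp b := by
      rw [← Real.exp_add]
      congr 1
      ring
    rw [e1, e2]
    ring
  refine (sum_le_sum h3).trans ?_
  rw [← mul_sum]
  have h4 : ∑ j ∈ range J, r ^ j ≤ (1 - r)⁻¹ := by
    have h5 := (summable_geometric_of_lt_one hr0 hr1).sum_le_tsum (range J)
      (fun j _ => by positivity)
    rw [tsum_geometric_of_lt_one hr0 hr1] at h5
    exact h5
  calc (72 * D * Real.exp b * (Q : ℝ) ^ 2) * ∑ j ∈ range J, r ^ j ≤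
      (72 * D * Real.exp b * (Q : ℝ) ^ 2) * (1 - r)⁻¹ :=
        mul_le_mul_of_nonneg_left h4 (by positivity)
    _ = B * (Q : ℝ) ^ 2 := by rw [hB]; ring

end Pool.Agent.V8H15.LW
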