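import Pool.Agent.N786.D.Jen2

/-!
# The trivial bound for the number of zeros

Copied from `Pool.Agent.N786.D.Tri` (helper786), so as not to import number fields.
Project LW (helper15).
-/

set_option autoImplicit false
set_option linter.unusedSectionVars false

open MeasureTheory Complex Filter Topology Set

namespace Pool.Agent.V8H15.LW

open Pool.Agent.N786.D (jensen_fin)
open Pool.Agent.R399.TW (pt pt_re pt_im pt_cont)

/-- the order at a point where the function does not vanish -/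
lemma ord_zero {F : ℂ → ℂ} (hF : Differentiable ℂ F) {z : ℂ} (h : F z ≠ 0) :
    analyticOrderNatAt F z = 0 := by
  unfold analyticOrderNatAt
  rw [(hF.analyticAt z).analyticOrderAt_eq_zero.mpr h]
  rfl

/-- one disc -/
lemma disc_count {F : ℂ → ℂ} (hF : Differentiable ℂ F) {A B τ : ℝ} (hA : 1 ≤ A) (hB : 1 ≤ B)
    (hlow : ∀ s : ℂ, 2 ≤ s.re → A⁻¹ ≤ ‖F s‖)
    (hup : ∀ s : ℂ, 1 / 16 ≤ s.re → |s.im - τ| ≤ 2 → ‖F s‖ ≤ B) (Z : Finset ℂ)
    (hZ : ∀ z ∈ Z, 1 / 2 ≤ z.re ∧ |z.im - τ| ≤ 1 / 2) :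
    ∑ z ∈ Z, (analyticOrderNatAt F z : ℝ) ≤ 6 * (Real.log B + Real.log A) := by
  classical
  have hA0 : 0 < A := by linarith
  obtain ⟨ρ, hρ⟩ : ∃ ρ : ℝ, ρ = 31 / 16 := ⟨_, rfl⟩
  have hρ0 : 0 < ρ := by rw [hρ]; norm_num
  have hc : F (pt 2 τ) ≠ 0 := by
    intro h
    have := hlow (pt 2 τ) (by rw [pt_re])
    rw [h, norm_zero] at this
    have h2 : 0 < A⁻¹ := by positivity
    linarith
  have hdist : ∀ z ∈ Z.filter (fun z => z.re ≤ 2), ‖pt 2 τ - z‖ ^ 2 ≤ 5 / 2 := by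
    intro z hz
    obtain ⟨h1, h2⟩ := Finset.mem_filter.mp hz
    obtain ⟨h3, h4⟩ := hZ z h1
    rw [← Complex.normSq_eq_norm_sq, Complex.normSq_apply, Complex.sub_re, Complex.sub_im,
      pt_re, pt_im]
    obtain ⟨h5, h6⟩ := abs_le.mp h4
    nlinarith
  have hred : ∑ z ∈ Z, (analyticOrderNatAt F z : ℝ) =
      ∑ z ∈ Z.filter (fun z => z.re ≤ 2), (analyticOrderNatAt F z : ℝ) := by
    refine (Finset.sum_subset (Finset.filter_subset _ _) fun z hz hz2 => ?_).symm
    have h3 : ¬ z.re ≤ 2 := fun h => hz2 (Finset.mem_filter.mpr ⟨hz, h⟩)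
    have h4 := hlow z (by linarith)
    have h5 : F z ≠ 0 := by
      intro h
      rw [h, norm_zero] at h4
      have h2 : 0 < A⁻¹ := by positivity
      linarith
    rw [ord_zero hF h5, Nat.cast_zero]
  rw [hred]
  have h1 := jensen_fin hF hρ0 hc (Z := Z.filter (fun z => z.re ≤ 2)) (fun z hz => by
    refine le_of_sq_le_sq ((hdist z hz).trans ?_) hρ0.le
    rw [hρ]; norm_num)
  have h2 : ∑ z ∈ Z.filter (fun z => z.re ≤ 2), (analyticOrderNatAt F z : ℝ) * (1 / 6) ≤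
      ∑ z ∈ Z.filter (fun z => z.re ≤ 2), (analyticOrderNatAt F z : ℝ) *
        Real.log (ρ * ‖pt 2 τ - z‖⁻¹) := by
    refine Finset.sum_le_sum fun z hz => ?_
    by_cases hcz : pt 2 τ = z
    · rw [← hcz, ord_zero hF hc]
      simp
    · refine mul_le_mul_of_nonneg_left ?_ (Nat.cast_nonneg _)
      have hd : 0 < ‖pt 2 τ - z‖ := norm_pos_iff.mpr (sub_ne_zero.mpr hcz)
      have h3 := Real.one_sub_inv_le_log_of_pos (x := (ρ / ‖pt 2 τ - z‖) ^ 2) (by positivity)
      rw [Real.log_pow, div_pow, inv_div] at h3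
      have h4 : ‖pt 2 τ - z‖ ^ 2 / ρ ^ 2 ≤ 2 / 3 := by
        rw [div_le_iff₀ (by positivity)]
        refine (hdist z hz).trans ?_
        rw [hρ]; norm_num
      rw [← div_eq_mul_inv]
      push_cast at h3
      linarith
  have h3 : Real.circleAverage (fun z => Real.log ‖F z‖) (pt 2 τ) ρ ≤ Real.log B := by
    refine Real.circleAverage_mono_on_of_le_circle ?_ ?_
    · have hm : MeromorphicOn F (Metric.sphere (pt 2 τ) |ρ|) :=
        fun z _ => (hF.analyticAt z).meromorphicAt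
      exact hm.circleIntegrable_log_norm
    · intro z hz
      rw [mem_sphere_iff_norm, abs_of_pos hρ0] at hz
      have h4 : |(z - pt 2 τ).re| ≤ ρ := (Complex.abs_re_le_norm _).trans hz.le
      have h5 : |(z - pt 2 τ).im| ≤ ρ := (Complex.abs_im_le_norm _).trans hz.le
      rw [Complex.sub_re, pt_re] at h4
      rw [Complex.sub_im, pt_im] at h5
      have h6 := hup z (by have := (abs_le.mp h4).1; rw [hρ] at this; linarith)
        (h5.trans (by rw [hρ]; norm_num))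
      rcases eq_or_ne (F z) 0 with h0 | h0
      · rw [h0, norm_zero, Real.log_zero]
        exact Real.log_nonneg hB
      · exact Real.log_le_log (norm_pos_iff.mpr h0) h6
  have h4 : -Real.log ‖F (pt 2 τ)‖ ≤ Real.log A := by
    have h5 := Real.log_le_log (by positivity) (hlow (pt 2 τ) (by rw [pt_re]))
    rw [Real.log_inv] at h5
    linarith
  rw [← Finset.sum_mul] at h2
  linarith

/-- **the trivial bound for the number of zeros** -/
theorem triv_count {F : ℂ → ℂ} (hF : Differentiable ℂ F) {A T R H t₁ : ℝ} {n : ℕ} (hA : 1 ≤ A)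
    (hR : 1 ≤ R) (hH : 1 ≤ H) (hHT : H ≤ T) (ht₁ : |t₁| ≤ T)
    (hlow : ∀ s : ℂ, 2 ≤ s.re → A⁻¹ ≤ ‖F s‖)
    (hgr : ∀ s : ℂ, 1 / 16 ≤ s.re → ‖F s‖ ≤ A * Real.exp R * (1 + |s.im| / T) ^ n) (Z : Finset ℂ)
    (hZ : ∀ z ∈ Z, 1 / 2 ≤ z.re ∧ t₁ ≤ z.im ∧ z.im ≤ t₁ + H) :
    ∑ z ∈ Z, (analyticOrderNatAt F z : ℝ) ≤
      12 * (2 * Real.log A + 1 + n * Real.log 6) * (H * R) := by
  classical
  have hT : 1 ≤ T := hH.trans hHT
  have hT0 : 0 < T := by linarith
  have hA0 : 0 < A := by linarith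
  have hlA : 0 ≤ Real.log A := Real.log_nonneg hA
  have hl6 : 0 ≤ Real.log 6 := Real.log_nonneg (by norm_num)
  obtain ⟨J, hJ⟩ : ∃ J : ℕ, J = ⌊H⌋₊ + 1 := ⟨_, rfl⟩
  have hmaps : ∀ z ∈ Z, ⌊z.im - t₁⌋₊ ∈ Finset.range J := by
    intro z hz
    obtain ⟨h1, h2, h3⟩ := hZ z hz
    rw [Finset.mem_range, hJ]
    have : ⌊z.im - t₁⌋₊ ≤ ⌊H⌋₊ := Nat.floor_le_floor (by linarith)
    omega
  rw [← Finset.sum_fiberwise_of_maps_to hmaps]
  obtain ⟨B, hB⟩ : ∃ B : ℝ, B = A * Real.exp R * 6 ^ n := ⟨_, rfl⟩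
  have hB1 : 1 ≤ B := by
    rw [hB]
    have h1 : 1 ≤ Real.exp R := Real.one_le_exp (by linarith)
    have h2 : (1 : ℝ) ≤ 6 ^ n := one_le_pow₀ (by norm_num)
    exact one_le_mul_of_one_le_of_one_le (one_le_mul_of_one_le_of_one_le hA h1) h2
  have hlogB : Real.log B = Real.log A + R + n * Real.log 6 := by
    rw [hB, Real.log_mul (by positivity) (by positivity), Real.log_mul hA0.ne'
      (Real.exp_pos _).ne', Real.log_exp, Real.log_pow]
  have hone : ∀ j ∈ Finset.range J, ∑ z ∈ Z.filter (fun z => ⌊z.im - t₁⌋₊ = j),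
      (analyticOrderNatAt F z : ℝ) ≤ 6 * (Real.log B + Real.log A) := by
    intro j hj
    refine disc_count hF (τ := t₁ + j + 1 / 2) hA hB1 hlow ?_ _ ?_
    · intro s h1 h2
      refine (hgr s h1).trans ?_
      rw [hB]
      have hj1 : (j : ℝ) ≤ H := by
        rw [Finset.mem_range, hJ] at hj
        have h3 : (j : ℝ) ≤ ⌊H⌋₊ := by exact_mod_cast (by omega : j ≤ ⌊H⌋₊)
        exact h3.trans (Nat.floor_le (by linarith))
      have hj0 : (0 : ℝ) ≤ j := Nat.cast_nonneg j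
      have h4 : |s.im| ≤ 5 * T := by
        obtain ⟨a1, a2⟩ := abs_le.mp h2
        obtain ⟨b1, b2⟩ := abs_le.mp ht₁
        rw [abs_le]
        constructor <;> linarith
      have h5 : 1 + |s.im| / T ≤ 6 := by
        have := (div_le_iff₀ hT0).mpr h4
        linarith
      gcongr
    · intro z hz
      obtain ⟨h1, h2⟩ := Finset.mem_filter.mp hz
      obtain ⟨h3, h4, h5⟩ := hZ z h1
      refine ⟨h3, ?_⟩
      have h6 := Nat.floor_le (show 0 ≤ z.im - t₁ by linarith)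
      have h7 := Nat.lt_floor_add_one (z.im - t₁)
      rw [h2] at h6 h7
      rw [abs_le]
      constructor <;> linarith
  refine (Finset.sum_le_sum hone).trans ?_
  rw [Finset.sum_const, Finset.card_range, nsmul_eq_mul]
  have hJH : (J : ℝ) ≤ 2 * H := by
    rw [hJ]
    push_cast
    have := Nat.floor_le (show 0 ≤ H by linarith)
    linarith
  have h8 : 6 * (Real.log B + Real.log A) ≤ 6 * ((2 * Real.log A + 1 + n * Real.log 6) * R) := by
    rw [hlogB]
    have h9 : 2 * Real.log A ≤ 2 * Real.log A * R := le_mul_of_one_le_right (by positivity) hR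
    have h10 : n * Real.log 6 ≤ n * Real.log 6 * R := le_mul_of_one_le_right (by positivity) hR
    linarith
  calc (J : ℝ) * (6 * (Real.log B + Real.log A)) ≤
      (2 * H) * (6 * ((2 * Real.log A + 1 + n * Real.log 6) * R)) := by
        have : 0 ≤ Real.log B := Real.log_nonneg hB1
        gcongr
    _ = _ := by ring

end Pool.Agent.V8H15.LW
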