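import Pool.Agent.V8H15.LW.Twi

/-!
# The analytic data of one twist

Project LW (helper15).
-/

set_option autoImplicit false

open Complex Filter Topology MeasureTheory Set

namespace Pool.Agent.V8H15.LW

open Pool.Agent.R399.TW (pt pt_re pt_im pt_cont)
open W388 (FE2 cS GoodE good_height_D)
open H385 (IX)

/-- good heights -/
lemma heights {A : ℝ} (hA : 1 ≤ A) {Q : ℝ} (hQ : 1 ≤ Q) {F : ℂ → ℂ} {a : ℕ → ℂ}
    (hF : GoodE 2 A Q F a) {e : ℝ} (he : 0 < e) (R : ℝ) : ∃ U : ℝ, R ≤ U ∧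
      ∀ σ ∈ Icc (-(1 / 4) : ℝ) (5 / 4), F (⟨σ, U⟩ : ℂ) ≠ 0 ∧
        ‖deriv F (⟨σ, U⟩ : ℂ) / F (⟨σ, U⟩ : ℂ)‖ ≤ e * (1 + U ^ 2) := by
  obtain ⟨C, hC, hgh⟩ := good_height_D 2 A (by norm_num) hA
  obtain ⟨δ, hδ⟩ : ∃ δ : ℝ, δ = Real.sqrt (e / C) / Q := ⟨_, rfl⟩
  have hQ0 : 0 < Q := by linarith
  have hδ0 : 0 < δ := by
    rw [hδ]
    have : 0 < e / C := by positivity
    positivity
  have h1 := Real.isLittleO_log_id_atTop.def hδ0
  obtain ⟨R1, h2⟩ := h1.exists_forall_of_atTop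
  obtain ⟨T, hT⟩ : ∃ T : ℝ, T = max (max R R1) 3 := ⟨_, rfl⟩
  have hTR : R ≤ T := by rw [hT]; exact le_max_of_le_left (le_max_left _ _)
  have hTR1 : R1 ≤ T := by rw [hT]; exact le_max_of_le_left (le_max_right _ _)
  have hT3 : 3 ≤ T := by rw [hT]; exact le_max_right _ _
  obtain ⟨U, hU, hUs⟩ := hgh Q F a hQ hF T hT3
  refine ⟨U, hTR.trans hU.1, fun σ hσ => ?_⟩
  obtain ⟨h3, h4⟩ := hUs σ ⟨by linarith [hσ.1], by linarith [hσ.2]⟩
  refine ⟨h3, h4.trans ?_⟩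
  have hQT : T ≤ Q * T := le_mul_of_one_le_left (by linarith) hQ
  have h5 := h2 (Q * T) (hTR1.trans hQT)
  have hlog : 0 ≤ Real.log (Q * T) := Real.log_nonneg (by linarith)
  rw [Real.norm_of_nonneg hlog, id, Real.norm_of_nonneg (by positivity)] at h5
  have h6 : Real.log (Q * T) ^ 2 ≤ (δ * (Q * T)) ^ 2 := pow_le_pow_left₀ hlog h5 2
  have h7 : (δ * (Q * T)) ^ 2 = e / C * T ^ 2 := by
    rw [hδ]
    have h8 : Real.sqrt (e / C) ^ 2 = e / C := Real.sq_sqrt (by positivity)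
    have : (Real.sqrt (e / C) / Q * (Q * T)) ^ 2 = Real.sqrt (e / C) ^ 2 * T ^ 2 := by
      field_simp
    rw [this, h8]
  rw [h7] at h6
  have h9 : T ^ 2 ≤ U ^ 2 := pow_le_pow_left₀ (by linarith) hU.1 2
  calc C * Real.log (Q * T) ^ 2 ≤ C * (e / C * T ^ 2) := mul_le_mul_of_nonneg_left h6 hC.le
    _ = e * T ^ 2 := by field_simp
    _ ≤ e * (1 + U ^ 2) := mul_le_mul_of_nonneg_left (by linarith) he.le

variable {N : ℕ} {k : ℤ} {lam : ℕ → ℝ} {h0 : lam 0 = 0} {A : ℝ}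
  {F : (q : ℕ) → DirichletCharacter ℂ q → ℂ → ℂ}

/-- symmetry -/
lemma TwF.sym (h : TwF N k lam h0 A F) (hk : 2 ≤ k) (hN : 1 ≤ N) {q : ℕ}
    {χ : DirichletCharacter ℂ q} (hq : 1 ≤ q) (hqN : Nat.Coprime q N) (hχ : χ.IsPrimitive)
    {s : ℂ} (h1 : -(1 / 2) < s.re) (h2 : s.re < 3 / 2) :
    analyticOrderAt (F q χ) (1 - (starRingEnd ℂ) s) = analyticOrderAt (F q χ) s :=
  order_symm' hk (by exact_mod_cast hN) (by exact_mod_cast hq) (h.fe q χ hq hqN hχ) h1 h2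

/-- derivative of the conjugate function -/
lemma ld_conj {F G : ℂ → ℂ} (h : ∀ s, F s = (starRingEnd ℂ) (G ((starRingEnd ℂ) s)))
    (s : ℂ) : deriv F s = (starRingEnd ℂ) (deriv G ((starRingEnd ℂ) s)) := by
  have e : F = (starRingEnd ℂ) ∘ G ∘ (starRingEnd ℂ) := funext h
  rw [e, deriv_conj_conj]
  rfl

theorem TwF.xf (h : TwF N k lam h0 A F) (hk : 2 ≤ k) (hN : 1 ≤ N) (hA : 1 ≤ A)
    (hc2 : ∀ n, ArithmeticFunction.vonMangoldt n * ‖((cS N lam n : ℝ) : ℂ)‖ ≤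
      2 * ArithmeticFunction.vonMangoldt n) {q : ℕ}
    {χ : DirichletCharacter ℂ q} (hq : 1 ≤ q) (hqN : Nat.Coprime q N) (hχ : χ.IsPrimitive) :
    XF (F q χ) (av (fun n => ((cS N lam n : ℝ) : ℂ)) ⟨q, χ⟩)
      (Gf (Real.sqrt N * q / (2 * Real.pi)) (((k : ℝ) - 1) / 2)) := by
  have hNr : (1 : ℝ) ≤ N := by exact_mod_cast hN
  have hqr : (1 : ℝ) ≤ q := by exact_mod_cast hq
  have hk2 : (2 : ℝ) ≤ k := by exact_mod_cast hk
  have hc : 1 / 2 ≤ ((k : ℝ) - 1) / 2 := by linarith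
  have : NeZero q := ⟨by omega⟩
  have hnel : ∀ s : ℂ, -(1 / 2) < s.re → s.re < 0 → F q χ s ≠ 0 := by
    intro s h1 h2 h3
    have h4 := h.sym hk hN hq hqN hχ h1 (by linarith : s.re < 3 / 2)
    have h5 : analyticOrderAt (F q χ) s ≠ 0 :=
      ((h.diff q χ).analyticAt s).analyticOrderAt_ne_zero.mpr h3
    rw [← h4] at h5
    have h6 := apply_eq_zero_of_analyticOrderAt_ne_zero h5
    exact h.ne q χ hq hqN hχ _ (by
      rw [Complex.sub_re, Complex.one_re, Complex.conj_re]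
      linarith) h6
  refine ⟨h.diff q χ, h.ne q χ hq hqN hχ, hnel, ?_, ?_, ?_, ?_, Gf_diff hc, Gf_bd hc, ?_, ?_⟩
  · unfold av
    simp
  · -- summability
    have h1 : LSeriesSummable (fun n => ((ArithmeticFunction.vonMangoldt n : ℝ) : ℂ))
        ((5 / 4 : ℝ) : ℂ) :=
      ArithmeticFunction.LSeriesSummable_vonMangoldt (by
        rw [Complex.ofReal_re]; norm_num)
    have h2 := h1.norm.mul_left 2
    refine Summable.of_nonneg_of_le (fun n => by positivity) (fun n => ?_) h2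
    unfold av
    have h3 := hc2 n
    have h4 := χ.norm_le_one (n : ZMod q)
    have h5 := @ArithmeticFunction.vonMangoldt_nonneg n
    have h7 : ‖((ArithmeticFunction.vonMangoldt n : ℝ) : ℂ)‖ =
        ArithmeticFunction.vonMangoldt n := by
      rw [Complex.norm_real, Real.norm_of_nonneg h5]
    simp only
    rw [norm_mul, norm_mul, h7]
    rcases Nat.eq_zero_or_pos n with hn | hn
    · subst hn
      simp
    · rw [LSeries.norm_term_eq, if_neg hn.ne', h7, Complex.ofReal_re]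
      have hn0 : (0 : ℝ) < n := by exact_mod_cast hn
      have h6 : (n : ℝ) ^ (-(5 / 4) : ℝ) = ((n : ℝ) ^ (5 / 4 : ℝ))⁻¹ := Real.rpow_neg hn0.le _
      obtain ⟨x, hx⟩ : ∃ x : ℝ, x = (n : ℝ) ^ (5 / 4 : ℝ) := ⟨_, rfl⟩
      have hx0 : 0 < x := by rw [hx]; positivity
      rw [h6, ← hx, ← mul_div_assoc, ← div_eq_mul_inv]
      refine div_le_div_of_nonneg_right ?_ hx0.le
      calc ‖χ (n : ZMod q)‖ * ‖((cS N lam n : ℝ) : ℂ)‖ * ArithmeticFunction.vonMangoldt n ≤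
          1 * ‖((cS N lam n : ℝ) : ℂ)‖ * ArithmeticFunction.vonMangoldt n := by gcongr
        _ = ArithmeticFunction.vonMangoldt n * ‖((cS N lam n : ℝ) : ℂ)‖ := by ring
        _ ≤ _ := h3
  · intro s hs
    exact h.ld q χ hq hqN hχ s hs
  · intro s hs hs0
    exact Gf_fe hNr hqr (h.fe q χ hq hqN hχ) hs0 (hnel s (by linarith) (by linarith))
  · intro e he R
    exact heights hA hqr (h.good q χ hq hqN hχ) he R
  · intro e he R
    obtain ⟨U, hU1, hU2⟩ := heights hA hqr (h.good q χ⁻¹ hq hqN (prim_inv hχ)) he R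
    refine ⟨U, hU1, fun σ hσ => ?_⟩
    obtain ⟨h3, h4⟩ := hU2 σ hσ
    have hcj := h.cj q χ hq hqN hχ
    have e1 : (starRingEnd ℂ) (⟨σ, -U⟩ : ℂ) = ⟨σ, U⟩ := by
      apply Complex.ext
      · rfl
      · simp
    have e2 : F q χ (⟨σ, -U⟩ : ℂ) = (starRingEnd ℂ) (F q χ⁻¹ (⟨σ, U⟩ : ℂ)) := by
      rw [hcj, e1]
    have e3 : deriv (F q χ) (⟨σ, -U⟩ : ℂ) = (starRingEnd ℂ) (deriv (F q χ⁻¹) (⟨σ, U⟩ : ℂ)) := by
      rw [ld_conj hcj, e1]
    constructor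
    · rw [e2]
      simpa using h3
    · rw [e2, e3, ← map_div₀, RCLike.norm_conj]
      exact h4

end Pool.Agent.V8H15.LW
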