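import Pool.Agent.V8H15.LW.Den2
import Pool.Agent.V8H15.LW.Xfo
import Pool.Agent.V8H15.LW.Tri

/-!
# The sum over the zeros with the error weight, on average over the family

Project LW (helper15).
-/

set_option autoImplicit false

open Finset Filter Topology MeasureTheory ArithmeticFunction Complex UpperHalfPlane MatrixGroups
  CongruenceSubgroup

namespace Pool.Agent.V8H15.LW


open Pool.Agent.V8H15.DN (idx mem_idx idx_card)
open W388 (IsNewf lamf heckeSeq_lamf cS)
open H385 (primSetM mem_primSetM IX)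

lemma sum_nat_sq (M : ℕ) : ∑ n ∈ range M, (((1 : ℝ) + n) ^ 2)⁻¹ ≤ 2 := by
  have h : ∀ M : ℕ, 1 ≤ M → ∑ n ∈ range M, (((1 : ℝ) + n) ^ 2)⁻¹ ≤ 2 - 1 / M := by
    intro M hM
    induction M, hM using Nat.le_induction with
    | base => norm_num
    | succ M hM ih =>
      rw [sum_range_succ]
      have h0 : (0 : ℝ) < M := by exact_mod_cast hM
      have : (((1 : ℝ) + M) ^ 2)⁻¹ ≤ 1 / M - 1 / (M + 1) := by
        rw [div_sub_div _ _ h0.ne' (by positivity), inv_eq_one_div,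
          div_le_div_iff₀ (by positivity) (by positivity)]
        nlinarith
      push_cast
      linarith
  rcases Nat.eq_zero_or_pos M with h0 | h0
  · subst h0; simp
  · have := h M h0
    have h1 : (0 : ℝ) ≤ 1 / M := by positivity
    linarith

lemma sum_int_sq (S : Finset ℤ) : ∑ j ∈ S, (((1 : ℝ) + |(j : ℝ)|) ^ 2)⁻¹ ≤ 4 := by
  classical
  obtain ⟨M, hM⟩ : ∃ M : ℕ, ∀ j ∈ S, j.natAbs ∈ range M := by
    refine ⟨S.sup Int.natAbs + 1, fun j hj => ?_⟩
    rw [mem_range]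
    exact Nat.lt_succ_of_le (le_sup hj)
  have e : ∀ j : ℤ, |(j : ℝ)| = ((j.natAbs : ℕ) : ℝ) := fun j => by
    rw [Nat.cast_natAbs, Int.cast_abs]
  rw [← sum_fiberwise_of_maps_to hM]
  have h1 : ∀ n ∈ range M, ∑ j ∈ S.filter (fun j => j.natAbs = n),
      (((1 : ℝ) + |(j : ℝ)|) ^ 2)⁻¹ ≤ 2 * (((1 : ℝ) + n) ^ 2)⁻¹ := by
    intro n _
    have h2 : ∀ j ∈ S.filter (fun j => j.natAbs = n),
        (((1 : ℝ) + |(j : ℝ)|) ^ 2)⁻¹ = (((1 : ℝ) + n) ^ 2)⁻¹ := by
      intro j hj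
      rw [e, (mem_filter.mp hj).2]
    rw [sum_congr rfl h2, sum_const, nsmul_eq_mul]
    refine mul_le_mul_of_nonneg_right ?_ (by positivity)
    have h3 : S.filter (fun j => j.natAbs = n) ⊆ {(n : ℤ), -(n : ℤ)} := by
      intro j hj
      have := (mem_filter.mp hj).2
      rw [mem_insert, mem_singleton]
      omega
    have h4 := (card_le_card h3).trans card_le_two
    exact_mod_cast h4
  refine (sum_le_sum h1).trans ?_
  rw [← mul_sum]
  have := sum_nat_sq M
  linarith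

section
variable {N : ℕ} {k : ℤ} {lam : ℕ → ℝ} {h0 : lam 0 = 0} {A : ℝ}
  {F : (q : ℕ) → DirichletCharacter ℂ q → ℂ → ℂ}

/-- the trivial count for one twist -/
lemma TwF.triv (h : TwF N k lam h0 A F) (hA : 1 ≤ A) {q : ℕ} {χ : DirichletCharacter ℂ q}
    (hq : 2 ≤ q) (hqN : Nat.Coprime q N) (hχ : χ.IsPrimitive) (t₁ : ℝ) (Z : Finset ℂ)
    (hZ : ∀ z ∈ Z, 1 / 2 ≤ z.re ∧ t₁ ≤ z.im ∧ z.im ≤ t₁ + 1) :
    ∑ z ∈ Z, (analyticOrderNatAt (F q χ) z : ℝ) ≤
      12 * (2 * Real.log A + 1 + 2 * Real.log 6) * (2 * Real.log (q * (|t₁| + 1))) := by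
  have hq2 : (2 : ℝ) ≤ q := by exact_mod_cast hq
  have hT : 1 ≤ |t₁| + 1 := by
    have := abs_nonneg t₁
    linarith
  have hg := h.gr q χ (by omega) hqN hχ q (|t₁| + 1) le_rfl hT
  have hR : 1 ≤ 2 * Real.log (q * (|t₁| + 1)) := by
    have h1 : Real.log 2 ≤ Real.log (q * (|t₁| + 1)) := by
      refine Real.log_le_log (by norm_num) ?_
      nlinarith
    have := Real.log_two_gt_d9
    linarith
  have h2 := triv_count (h.diff q χ) hA hR le_rfl hT (by linarith) hg.low hg.gr Z hZ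
  push_cast at h2
  linarith

end

/-- **The error sum over zeros in the right half of the strip.** -/
theorem errs_half {N : ℕ} [NeZero N] {k : ℤ} (hk : 1 ≤ k)
    {f : CuspForm (Gamma0 N : Subgroup (GL (Fin 2) ℝ)) k} {ε : ℝ} (hf : IsNewf N k f ε)
    {A : ℝ} (hA : 1 ≤ A) {F : (q : ℕ) → DirichletCharacter ℂ q → ℂ → ℂ}
    (hF : TwF N k (lamf f) (heckeSeq_lamf hf).zero A F) {a b : ℝ} (ha0 : 0 < a) (ha1 : a ≤ 1)
    (hb0 : 0 < b) (hb : b < 2) :
    ∃ (η₁ B X₀ : ℝ) (p₀ : ℕ), 0 < η₁ ∧ η₁ ≤ 1 ∧ 0 ≤ B ∧ 1 ≤ X₀ ∧ ∀ p : ℕ, p₀ ≤ p →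
      ∀ X Y : ℕ, X₀ ≤ X → X ≤ Y → (Y : ℝ) ≤ (X : ℝ) ^ 2 → ∀ c : ℝ, |c| ≤ (X : ℝ) ^ η₁ →
      ∀ Zs : IX → Finset ℂ, (∀ i, ∀ z ∈ Zs i, 1 / 2 ≤ z.re ∧ z.re ≤ 1) →
      ∑ i ∈ primSetM N X Y, (1 / (i.1 : ℝ) ^ 2) * (∑ z ∈ Zs i,
        (analyticOrderNatAt (F i.1 i.2) z : ℝ) *
          (((1 + |a * Real.log X * (z.im - c)|) ^ p)⁻¹ *
            Real.exp (b * Real.log X * (z.re - 1 / 2)))) ≤
      B * (1 + 2 * Real.log ((Y : ℝ) / X)) := by
  classical
  obtain ⟨η, B1, X1, hη0, hη1, hB1, hX1, hden⟩ := den2 hk hf hA hF hb0 hb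
  obtain ⟨C0, hC0⟩ : ∃ C0 : ℝ, C0 = 12 * (2 * Real.log A + 1 + 2 * Real.log 6) := ⟨_, rfl⟩
  have hC00 : 0 ≤ C0 := by
    have h1 := Real.log_nonneg hA
    have h2 : 0 ≤ Real.log 6 := Real.log_nonneg (by norm_num)
    rw [hC0]
    positivity
  obtain ⟨p₁, hp₁⟩ : ∃ p₁ : ℕ, p₁ = ⌈4 / η⌉₊ := ⟨_, rfl⟩
  have hp₁' : 4 ≤ η * p₁ := by
    have h1 := Nat.le_ceil (4 / η)
    rw [← hp₁, div_le_iff₀ hη0] at h1
    linarith
  refine ⟨η / 2, 16 / a ^ 2 * B1 + 256 * C0, max (max X1 (Real.exp (1 / a))) (4 ^ (2 / η)), 3 + p₁,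
    by linarith, by linarith, by positivity, hX1.trans ((le_max_left _ _).trans (le_max_left _ _)),
    ?_⟩
  intro p hp X Y hX hXY hYX c hc Zs hZs
  have hXX1 : X1 ≤ X := ((le_max_left _ _).trans (le_max_left _ _)).trans hX
  have hXa : Real.exp (1 / a) ≤ X := ((le_max_right _ _).trans (le_max_left _ _)).trans hX
  have hXe : Real.exp 1 ≤ X := by
    refine le_trans (Real.exp_le_exp.mpr ?_) hXa
    rw [le_div_iff₀ ha0]
    linarith
  have hX4 : (4 : ℝ) ^ (2 / η) ≤ X := (le_max_right _ _).trans hX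
  have hX0 : (0 : ℝ) < X := lt_of_lt_of_le (Real.exp_pos _) hXe
  have hX1r : (1 : ℝ) ≤ X := hX1.trans hXX1
  have hX2r : (2 : ℝ) ≤ X := by
    have := Real.add_one_le_exp (1 : ℝ)
    linarith
  obtain ⟨L, hL⟩ : ∃ L : ℝ, L = Real.log X := ⟨_, rfl⟩
  have hL1 : 1 ≤ L := by
    rw [hL, Real.le_log_iff_exp_le hX0]
    exact hXe
  have hL0 : 0 < L := by linarith
  have haL : 1 ≤ a * L := by
    have h1 : 1 / a ≤ L := by
      rw [hL, Real.le_log_iff_exp_le hX0]
      exact hXa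
    rw [div_le_iff₀ ha0] at h1
    linarith
  have hexpL : Real.exp L = X := by rw [hL, Real.exp_log hX0]
  obtain ⟨y, hy⟩ : ∃ y : ℝ, y = (X : ℝ) ^ (η / 2) := ⟨_, rfl⟩
  have hy4 : 4 ≤ y := by
    rw [hy]
    have h1 : ((4 : ℝ) ^ (2 / η)) ^ (η / 2) ≤ (X : ℝ) ^ (η / 2) :=
      Real.rpow_le_rpow (by positivity) hX4 (by linarith)
    rw [← Real.rpow_mul (by norm_num)] at h1
    have h2 : 2 / η * (η / 2) = 1 := by field_simp
    rwa [h2, Real.rpow_one] at h1
  have hyy : y * y = (X : ℝ) ^ η := by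
    rw [hy, ← Real.rpow_add hX0]
    congr 1
    ring
  have hyX : y ≤ X := by
    rw [hy]
    have := Real.rpow_le_rpow_of_exponent_le hX1r (by linarith : η / 2 ≤ 1)
    rwa [Real.rpow_one] at this
  rw [← hy] at hc
  obtain ⟨T1, hT1⟩ : ∃ T1 : ℝ, T1 = y * y / 2 := ⟨_, rfl⟩
  have hT1y : 2 * y ≤ T1 := by rw [hT1]; nlinarith
  have hT1pos : 0 < T1 := by linarith
  have hT1p : (X : ℝ) ^ 2 ≤ T1 ^ p₁ := by
    have h1 : y ^ p₁ ≤ T1 ^ p₁ := pow_le_pow_left₀ (by linarith) (by linarith) _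
    refine le_trans ?_ h1
    have h2 : y ^ p₁ = (X : ℝ) ^ (η / 2 * (p₁ : ℝ)) := by
      rw [hy, Real.rpow_mul hX0.le, Real.rpow_natCast]
    rw [h2, ← Real.rpow_two]
    exact Real.rpow_le_rpow_of_exponent_le hX1r (by linarith)
  rw [← hL]
  obtain ⟨wt, hwt⟩ : ∃ wt : ℂ → ℝ, ∀ z, wt z = ((1 + |a * L * (z.im - c)|) ^ p)⁻¹ :=
    ⟨_, fun _ => rfl⟩
  obtain ⟨Ex, hEx⟩ : ∃ Ex : ℂ → ℝ, ∀ z, Ex z = Real.exp (b * L * (z.re - 1 / 2)) :=
    ⟨_, fun _ => rfl⟩
  have hEx0 : ∀ z, 0 ≤ Ex z := fun z => by rw [hEx]; positivity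
  have hwt0 : ∀ z, 0 ≤ wt z := fun z => by rw [hwt]; positivity
  simp_rw [← hwt, ← hEx]
  have hbase : ∀ z : ℂ, 1 ≤ 1 + |a * L * (z.im - c)| := fun z => by
    have := abs_nonneg (a * L * (z.im - c))
    linarith
  have habs : ∀ z : ℂ, |a * L * (z.im - c)| = a * |(z.im - c) * L| := fun z => by
    rw [show a * L * (z.im - c) = a * ((z.im - c) * L) by ring, abs_mul, abs_of_pos ha0]
  -- splitting
  obtain ⟨P, hP⟩ : ∃ P : ℂ → Prop, ∀ z, P z ↔ |z.im - c| ≤ T1 := ⟨_, fun _ => Iff.rfl⟩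
  have hsplit : ∀ i : IX, ∑ z ∈ Zs i, (analyticOrderNatAt (F i.1 i.2) z : ℝ) * (wt z * Ex z) =
      ∑ z ∈ (Zs i).filter P, (analyticOrderNatAt (F i.1 i.2) z : ℝ) * (wt z * Ex z) +
      ∑ z ∈ (Zs i).filter (fun z => ¬ P z),
        (analyticOrderNatAt (F i.1 i.2) z : ℝ) * (wt z * Ex z) := fun i =>
    (sum_filter_add_sum_filter_not _ _ _).symm
  have hsum : ∑ i ∈ primSetM N X Y, (1 / (i.1 : ℝ) ^ 2) *
      (∑ z ∈ Zs i, (analyticOrderNatAt (F i.1 i.2) z : ℝ) * (wt z * Ex z)) =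
      ∑ i ∈ primSetM N X Y, (1 / (i.1 : ℝ) ^ 2) *
        (∑ z ∈ (Zs i).filter P, (analyticOrderNatAt (F i.1 i.2) z : ℝ) * (wt z * Ex z)) +
      ∑ i ∈ primSetM N X Y, (1 / (i.1 : ℝ) ^ 2) *
        (∑ z ∈ (Zs i).filter (fun z => ¬ P z),
          (analyticOrderNatAt (F i.1 i.2) z : ℝ) * (wt z * Ex z)) := by
    rw [← sum_add_distrib]
    refine sum_congr rfl fun i _ => ?_
    rw [hsplit, mul_add]
  rw [hsum, add_mul (16 / a ^ 2 * B1)]
  have hlogYX : 0 ≤ Real.log ((Y : ℝ) / X) := by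
    refine Real.log_nonneg ?_
    rw [le_div_iff₀ hX0]
    have : (X : ℝ) ≤ Y := by exact_mod_cast hXY
    linarith
  refine add_le_add ?_ ?_
  · -- the near part
    obtain ⟨fl, hfl⟩ : ∃ fl : ℂ → ℤ, ∀ z, fl z = ⌊(z.im - c) * L⌋ := ⟨_, fun _ => rfl⟩
    have hfl1 : ∀ z, (fl z : ℝ) ≤ (z.im - c) * L := fun z => by rw [hfl]; exact Int.floor_le _
    have hfl2 : ∀ z, (z.im - c) * L < fl z + 1 := fun z => by
      rw [hfl]; exact Int.lt_floor_add_one _
    obtain ⟨S, hS⟩ : ∃ S : Finset ℤ, S = (primSetM N X Y).biUnion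
        (fun i => ((Zs i).filter P).image fl) := ⟨_, rfl⟩
    have hSj : ∀ j ∈ S, |(j : ℝ)| ≤ T1 * L + 1 := by
      intro j hj
      rw [hS, mem_biUnion] at hj
      obtain ⟨i, _, hj⟩ := hj
      rw [mem_image] at hj
      obtain ⟨z, hz, rfl⟩ := hj
      rw [mem_filter, hP] at hz
      have h1 : |(z.im - c) * L| ≤ T1 * L := by
        rw [abs_mul, abs_of_pos hL0]
        exact mul_le_mul_of_nonneg_right hz.2 hL0.le
      rw [abs_le] at h1 ⊢
      have h2 := hfl1 z
      have h3 := hfl2 z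
      constructor <;> linarith
    have hnear : ∀ i ∈ primSetM N X Y,
        ∑ z ∈ (Zs i).filter P, (analyticOrderNatAt (F i.1 i.2) z : ℝ) * (wt z * Ex z) ≤
        ∑ j ∈ S, (4 / a ^ 2 * ((1 + |(j : ℝ)|) ^ 2)⁻¹) *
          ∑ z ∈ ((Zs i).filter P).filter (fun z => fl z = j),
            (analyticOrderNatAt (F i.1 i.2) z : ℝ) * Ex z := by
      intro i hi
      have hmaps : ∀ z ∈ (Zs i).filter P, fl z ∈ S := by
        intro z hz
        rw [hS, mem_biUnion]
        exact ⟨i, hi, mem_image_of_mem _ hz⟩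
      rw [← sum_fiberwise_of_maps_to hmaps]
      refine sum_le_sum fun j _ => ?_
      rw [mul_sum]
      refine sum_le_sum fun z hz => ?_
      have hzj : fl z = j := (mem_filter.mp hz).2
      have h1 : a / 2 * (1 + |(j : ℝ)|) ≤ 1 + |a * L * (z.im - c)| := by
        have h2 : |(j : ℝ)| ≤ |(z.im - c) * L| + 1 := by
          rw [← hzj]
          have h3 := hfl1 z
          have h4 := hfl2 z
          have h5 := le_abs_self ((z.im - c) * L)
          have h6 := neg_abs_le ((z.im - c) * L)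
          rw [abs_le]
          constructor <;> linarith
        rw [habs]
        have h7 : a / 2 * (1 + |(j : ℝ)|) ≤ a / 2 * (1 + (|(z.im - c) * L| + 1)) :=
          mul_le_mul_of_nonneg_left (by linarith) (by linarith)
        have h8 : 0 ≤ a * |(z.im - c) * L| := by positivity
        nlinarith
      have h2 : wt z ≤ 4 / a ^ 2 * ((1 + |(j : ℝ)|) ^ 2)⁻¹ := by
        rw [hwt]
        have h3 : (a / 2 * (1 + |(j : ℝ)|)) ^ 2 ≤ (1 + |a * L * (z.im - c)|) ^ p :=
          (pow_le_pow_left₀ (by positivity) h1 2).trans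
            (pow_le_pow_right₀ (hbase z) (by omega))
        have h4 : 0 < (a / 2 * (1 + |(j : ℝ)|)) ^ 2 := by positivity
        refine (inv_anti₀ h4 h3).trans (le_of_eq ?_)
        field_simp
        norm_num
      have h3 : 0 ≤ (analyticOrderNatAt (F i.1 i.2) z : ℝ) * Ex z :=
        mul_nonneg (Nat.cast_nonneg _) (hEx0 z)
      calc (analyticOrderNatAt (F i.1 i.2) z : ℝ) * (wt z * Ex z) =
          wt z * ((analyticOrderNatAt (F i.1 i.2) z : ℝ) * Ex z) := by ring
        _ ≤ _ := mul_le_mul_of_nonneg_right h2 h3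
    have h1 : ∑ i ∈ primSetM N X Y, (1 / (i.1 : ℝ) ^ 2) *
        ∑ z ∈ (Zs i).filter P, (analyticOrderNatAt (F i.1 i.2) z : ℝ) * (wt z * Ex z) ≤
        ∑ i ∈ primSetM N X Y, (1 / (i.1 : ℝ) ^ 2) *
        ∑ j ∈ S, (4 / a ^ 2 * ((1 + |(j : ℝ)|) ^ 2)⁻¹) *
          ∑ z ∈ ((Zs i).filter P).filter (fun z => fl z = j),
            (analyticOrderNatAt (F i.1 i.2) z : ℝ) * Ex z :=
      sum_le_sum fun i hi => mul_le_mul_of_nonneg_left (hnear i hi) (by positivity)
    refine h1.trans ?_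
    simp_rw [mul_sum (s := S)]
    rw [sum_comm]
    have h2 : ∀ j ∈ S, ∑ i ∈ primSetM N X Y, (1 / (i.1 : ℝ) ^ 2) *
        ((4 / a ^ 2 * ((1 + |(j : ℝ)|) ^ 2)⁻¹) *
          ∑ z ∈ ((Zs i).filter P).filter (fun z => fl z = j),
            (analyticOrderNatAt (F i.1 i.2) z : ℝ) * Ex z) ≤
        (4 / a ^ 2 * ((1 + |(j : ℝ)|) ^ 2)⁻¹) * (B1 * (1 + 2 * Real.log ((Y : ℝ) / X))) := by
      intro j hj
      have h3 : ∀ i : IX, (1 / (i.1 : ℝ) ^ 2) *
        ((4 / a ^ 2 * ((1 + |(j : ℝ)|) ^ 2)⁻¹) *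
          ∑ z ∈ ((Zs i).filter P).filter (fun z => fl z = j),
            (analyticOrderNatAt (F i.1 i.2) z : ℝ) * Ex z) =
        (4 / a ^ 2 * ((1 + |(j : ℝ)|) ^ 2)⁻¹) * ((1 / (i.1 : ℝ) ^ 2) *
          ∑ z ∈ ((Zs i).filter P).filter (fun z => fl z = j),
            (analyticOrderNatAt (F i.1 i.2) z : ℝ) * Ex z) := fun i => by ring
      simp_rw [h3]
      rw [← mul_sum]
      refine mul_le_mul_of_nonneg_left ?_ (by positivity)
      have h4 := hden X Y hXX1 hXY hYX (c + j / L) (by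
        rw [← hyy]
        have h5 := hSj j hj
        have h6 : |(j : ℝ) / L| ≤ T1 + 1 := by
          rw [abs_div, abs_of_pos hL0, div_le_iff₀ hL0]
          nlinarith
        have h7 := abs_add_le c ((j : ℝ) / L)
        have h8 : y + 1 ≤ y * y / 2 := by nlinarith
        rw [hT1] at h6
        linarith) (fun i => ((Zs i).filter P).filter (fun z => fl z = j)) (by
        intro i z hz
        rw [mem_filter, mem_filter] at hz
        obtain ⟨⟨a1, _⟩, a2⟩ := hz
        obtain ⟨b1, b2⟩ := hZs i z a1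
        have h5 := hfl1 z
        have h6 := hfl2 z
        rw [a2] at h5 h6
        refine ⟨b1, b2, ?_, ?_⟩
        · have : (j : ℝ) / L ≤ z.im - c := by
            rw [div_le_iff₀ hL0]
            exact h5
          linarith
        · have : z.im - c ≤ ((j : ℝ) + 1) / L := by
            rw [le_div_iff₀ hL0]
            exact h6.le
          rw [← hL]
          rw [add_div] at this
          linarith)
      simp_rw [← hL, ← hEx] at h4
      exact h4
    refine (sum_le_sum h2).trans ?_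
    rw [← sum_mul, ← mul_sum]
    have h3 := sum_int_sq S
    have h4 : 4 / a ^ 2 * ∑ j ∈ S, ((1 + |(j : ℝ)|) ^ 2)⁻¹ ≤ 4 / a ^ 2 * 4 :=
      mul_le_mul_of_nonneg_left h3 (by positivity)
    have h5 : 0 ≤ B1 * (1 + 2 * Real.log ((Y : ℝ) / X)) := by positivity
    calc _ ≤ 4 / a ^ 2 * 4 * (B1 * (1 + 2 * Real.log ((Y : ℝ) / X))) :=
          mul_le_mul_of_nonneg_right h4 h5
      _ = _ := by ring
  · -- the far part
    have hfar : ∀ i ∈ primSetM N X Y, ∑ z ∈ (Zs i).filter (fun z => ¬ P z),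
        (analyticOrderNatAt (F i.1 i.2) z : ℝ) * (wt z * Ex z) ≤ 256 * C0 := by
      intro i hi
      rw [mem_primSetM] at hi
      obtain ⟨hi1, hi2, hi3, hi4⟩ := hi
      have hiX : (X : ℝ) < i.1 := by exact_mod_cast hi1
      have hiY : (i.1 : ℝ) ≤ Y := by exact_mod_cast hi2
      have hi0 : (0 : ℝ) < i.1 := by linarith
      have hlogi : Real.log i.1 ≤ 2 * L := by
        have h1 : Real.log i.1 ≤ Real.log ((X : ℝ) ^ 2) :=
          Real.log_le_log hi0 (hiY.trans hYX)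
        rw [Real.log_pow] at h1
        push_cast at h1
        rw [hL]
        exact h1
      have hiq2 : 2 ≤ i.1 := by
        have : (2 : ℝ) ≤ i.1 := by linarith
        exact_mod_cast this
      obtain ⟨kf, hkf⟩ : ∃ kf : ℂ → ℤ, ∀ z, kf z = ⌊z.im - c⌋ := ⟨_, fun _ => rfl⟩
      have hk1 : ∀ z, (kf z : ℝ) ≤ z.im - c := fun z => by rw [hkf]; exact Int.floor_le _
      have hk2 : ∀ z, z.im - c < kf z + 1 := fun z => by
        rw [hkf]; exact Int.lt_floor_add_one _
      obtain ⟨Z', hZ'⟩ : ∃ Z' : Finset ℂ, Z' = (Zs i).filter (fun z => ¬ P z) := ⟨_, rfl⟩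
      rw [← hZ']
      have hmaps : ∀ z ∈ Z', kf z ∈ Z'.image kf := fun z hz => mem_image_of_mem _ hz
      rw [← sum_fiberwise_of_maps_to hmaps]
      have hblock : ∀ j ∈ Z'.image kf, ∑ z ∈ Z'.filter (fun z => kf z = j),
          (analyticOrderNatAt (F i.1 i.2) z : ℝ) * (wt z * Ex z) ≤
          64 * C0 * ((1 + |(j : ℝ)|) ^ 2)⁻¹ := by
        intro j _
        obtain ⟨g, hg⟩ : ∃ g : ℝ, g = 1 + |(j : ℝ)| := ⟨_, rfl⟩
        have hg1 : 1 ≤ g := by
          rw [hg]
          have := abs_nonneg (j : ℝ)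
          linarith
        have hg0 : 0 < g := by linarith
        have h1 : ∀ z ∈ Z'.filter (fun z => kf z = j),
            (analyticOrderNatAt (F i.1 i.2) z : ℝ) * (wt z * Ex z) ≤
            (analyticOrderNatAt (F i.1 i.2) z : ℝ) * (8 * (g ^ 3)⁻¹ * (X : ℝ)⁻¹) := by
          intro z hz
          rw [mem_filter, hZ', mem_filter, hP, not_le] at hz
          obtain ⟨⟨a1, a2⟩, a3⟩ := hz
          obtain ⟨b1, b2⟩ := hZs i z a1
          refine mul_le_mul_of_nonneg_left ?_ (Nat.cast_nonneg _)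
          obtain ⟨x, hx⟩ : ∃ x : ℝ, x = |z.im - c| := ⟨_, rfl⟩
          rw [← hx] at a2
          have hx2 : 8 ≤ x := by linarith
          have hgx : g / 2 ≤ x := by
            have h2 := hk1 z
            have h3 := hk2 z
            rw [a3] at h2 h3
            have h4 := le_abs_self (z.im - c)
            have h5 := neg_abs_le (z.im - c)
            rw [← hx] at h4 h5
            have h6 : |(j : ℝ)| ≤ x + 1 := by
              rw [abs_le]
              constructor <;> linarith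
            rw [hg]
            linarith
          have h2 : Ex z ≤ X := by
            rw [hEx, ← hexpL]
            refine Real.exp_le_exp.mpr ?_
            have h3 : b * L * (z.re - 1 / 2) ≤ 2 * L * (1 / 2) := by
              have h4 : b * L ≤ 2 * L := mul_le_mul_of_nonneg_right hb.le hL0.le
              have h5 : 0 ≤ b * L := by positivity
              calc b * L * (z.re - 1 / 2) ≤ b * L * (1 / 2) :=
                    mul_le_mul_of_nonneg_left (by linarith) h5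
                _ ≤ 2 * L * (1 / 2) := mul_le_mul_of_nonneg_right h4 (by norm_num)
            linarith
          have h3 : x ≤ 1 + |a * L * (z.im - c)| := by
            rw [abs_mul, ← hx, abs_of_pos (by positivity)]
            have : 1 * x ≤ a * L * x := mul_le_mul_of_nonneg_right haL (by linarith)
            linarith
          have h4 : (g / 2) ^ 3 * (X : ℝ) ^ 2 ≤ (1 + |a * L * (z.im - c)|) ^ p := by
            have h5 : (g / 2) ^ 3 ≤ x ^ 3 := pow_le_pow_left₀ (by linarith) hgx 3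
            have h6 : (X : ℝ) ^ 2 ≤ x ^ p₁ :=
              hT1p.trans (pow_le_pow_left₀ hT1pos.le a2.le _)
            calc (g / 2) ^ 3 * (X : ℝ) ^ 2 ≤ x ^ 3 * x ^ p₁ :=
                  mul_le_mul h5 h6 (by positivity) (by positivity)
              _ = x ^ (3 + p₁) := (pow_add _ _ _).symm
              _ ≤ (1 + |a * L * (z.im - c)|) ^ (3 + p₁) := pow_le_pow_left₀ (by linarith) h3 _
              _ ≤ _ := pow_le_pow_right₀ (hbase z) hp
          have h5 : wt z ≤ ((g / 2) ^ 3 * (X : ℝ) ^ 2)⁻¹ := by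
            rw [hwt]
            exact inv_anti₀ (by positivity) h4
          calc wt z * Ex z ≤ ((g / 2) ^ 3 * (X : ℝ) ^ 2)⁻¹ * X :=
                mul_le_mul h5 h2 (hEx0 z) (by positivity)
            _ = _ := by
              field_simp
              norm_num
        refine (sum_le_sum h1).trans ?_
        rw [← sum_mul]
        have h2 := hF.triv hA hiq2 hi3 hi4 (c + j) (Z'.filter (fun z => kf z = j)) (by
          intro z hz
          rw [mem_filter, hZ', mem_filter] at hz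
          obtain ⟨⟨a1, a2⟩, a3⟩ := hz
          obtain ⟨b1, b2⟩ := hZs i z a1
          have h2 := hk1 z
          have h3 := hk2 z
          rw [a3] at h2 h3
          exact ⟨b1, by linarith, by linarith⟩)
        rw [← hC0] at h2
        have h3 : 2 * Real.log (i.1 * (|c + j| + 1)) ≤ 8 * L * g := by
          have h4 : 0 < |c + j| + 1 := by positivity
          rw [Real.log_mul hi0.ne' h4.ne']
          have h5 : |c + j| + 1 ≤ (X : ℝ) ^ 2 * g := by
            have h6 := abs_add_le c (j : ℝ)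
            have h7 : |(j : ℝ)| = g - 1 := by rw [hg]; ring
            rw [h7] at h6
            nlinarith
          have h6 : Real.log (|c + j| + 1) ≤ 2 * L + Real.log g := by
            refine (Real.log_le_log h4 h5).trans (le_of_eq ?_)
            rw [Real.log_mul (by positivity) hg0.ne', Real.log_pow, hL]
            push_cast
            ring
          have h7 : Real.log g ≤ g - 1 := Real.log_le_sub_one_of_pos hg0
          nlinarith
        have h4 : L ≤ X := by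
          have := Real.add_one_le_exp L
          rw [hexpL] at this
          linarith
        have h5 : 0 ≤ 8 * (g ^ 3)⁻¹ * (X : ℝ)⁻¹ := by positivity
        calc (∑ z ∈ Z'.filter (fun z => kf z = j), (analyticOrderNatAt (F i.1 i.2) z : ℝ)) *
              (8 * (g ^ 3)⁻¹ * (X : ℝ)⁻¹) ≤ (C0 * (8 * L * g)) * (8 * (g ^ 3)⁻¹ * (X : ℝ)⁻¹) := by
              refine mul_le_mul_of_nonneg_right (h2.trans ?_) h5
              exact mul_le_mul_of_nonneg_left h3 hC00
          _ = 64 * C0 * (g ^ 2)⁻¹ * (L / X) := by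
              field_simp
              ring
          _ ≤ 64 * C0 * (g ^ 2)⁻¹ * 1 := by
              refine mul_le_mul_of_nonneg_left ?_ (by positivity)
              rw [div_le_one hX0]
              exact h4
          _ = 64 * C0 * ((1 + |(j : ℝ)|) ^ 2)⁻¹ := by rw [hg, mul_one]
      refine (sum_le_sum hblock).trans ?_
      rw [← mul_sum]
      have h1 := sum_int_sq (Z'.image kf)
      have h2 : 64 * C0 * ∑ j ∈ Z'.image kf, ((1 + |(j : ℝ)|) ^ 2)⁻¹ ≤ 64 * C0 * 4 :=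
        mul_le_mul_of_nonneg_left h1 (by positivity)
      linarith
    have hX1n : 1 ≤ X := by exact_mod_cast hX1r
    have h1 := dyad N X Y hX1n hXY (fun _ => 256 * C0) (fun _ => by positivity) (256 * C0)
      (by positivity) (fun Q _ _ => by
        rw [sum_const, nsmul_eq_mul]
        have := idx_card N Q
        nlinarith)
    refine le_trans (sum_le_sum fun i hi => ?_) h1
    exact mul_le_mul_of_nonneg_left (hfar i hi) (by positivity)

end Pool.Agent.V8H15.LW
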