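import Pool.Agent.V8H15.LW.Tra
import Pool.Agent.H385R2.FamBase

/-!
# The quadratic form of the zeros

Project LW (helper15).
-/

set_option autoImplicit false

open Complex Filter Topology Set MeasureTheory
open scoped BigOperators ComplexConjugate

namespace Pool.Agent.V8H15.LW

open H385 (gw kapw Rw kapw_sq kapw_zero Rw_even Rw_nonneg)

lemma gw_cont (γ : ℝ) : Continuous (gw γ) := by
  unfold gw
  fun_prop

lemma gw_nonneg {γ : ℝ} (h0 : 0 < γ) (hπ : γ < Real.pi) {x : ℝ} (hx : x ∈ Icc (-1 / 2 : ℝ) (1 / 2)) :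
    0 ≤ gw γ x := by
  unfold gw
  have h1 : 0 < Real.sin (γ / 2) := Real.sin_pos_of_pos_of_lt_pi (by linarith) (by linarith)
  have h2 : 0 ≤ Real.cos (γ * x) := by
    refine Real.cos_nonneg_of_mem_Icc ⟨?_, ?_⟩
    · nlinarith [hx.1]
    · nlinarith [hx.2]
  positivity

/-- the kernel without damping -/
noncomputable def phk (γ Λ : ℝ) (z : ℂ) : ℂ := kapw γ (Λ * z)

lemma phk_zero {γ : ℝ} (h0 : 0 < γ) (hπ : γ < Real.pi) (Λ : ℝ) : phk γ Λ 0 = 1 := by
  unfold phk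
  rw [mul_zero, kapw_zero γ h0 hπ]

lemma kapw_even (γ : ℝ) (z : ℂ) : kapw γ (-z) = kapw γ z := by
  unfold kapw
  have h1 := intervalIntegral.integral_comp_neg (a := (-1 / 2 : ℝ)) (b := 1 / 2)
    (fun x : ℝ => (gw γ x : ℂ) * cexp (I * z * x))
  rw [show -(1 / 2 : ℝ) = -1 / 2 by norm_num, show -(-1 / 2 : ℝ) = 1 / 2 by norm_num] at h1
  rw [← h1]
  refine intervalIntegral.integral_congr fun x _ => ?_
  have e1 : gw γ (-x) = gw γ x := by
    unfold gw
    rw [mul_neg, Real.cos_neg]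
  rw [e1]
  congr 2
  push_cast
  ring

lemma phk_even (γ Λ : ℝ) (z : ℂ) : phk γ Λ (-z) = phk γ Λ z := by
  unfold phk
  rw [mul_neg, kapw_even]

lemma phk_bound {γ : ℝ} (h0 : 0 < γ) (hπ : γ < Real.pi) {Λ : ℝ} (hΛ : 0 ≤ Λ) (z : ℂ) :
    ‖phk γ Λ (z - conj z)‖ ≤ Real.exp (Λ * |z.im|) := by
  unfold phk kapw
  have hg : ∫ x in (-1 / 2 : ℝ)..(1 / 2), (gw γ x : ℝ) = 1 := by
    have h1 := kapw_zero γ h0 hπ
    unfold kapw at h1
    have h2 : ∀ x : ℝ, (gw γ x : ℂ) * cexp (I * 0 * x) = ((gw γ x : ℝ) : ℂ) := by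
      intro x; simp
    simp_rw [h2] at h1
    rw [intervalIntegral.integral_ofReal] at h1
    exact_mod_cast h1
  have h3 : ‖∫ x in (-1 / 2 : ℝ)..(1 / 2), (gw γ x : ℂ) * cexp (I * (Λ * (z - conj z)) * x)‖ ≤
      ∫ x in (-1 / 2 : ℝ)..(1 / 2), gw γ x * Real.exp (Λ * |z.im|) := by
    refine intervalIntegral.norm_integral_le_of_norm_le (by norm_num) ?_ ?_
    · refine Eventually.of_forall fun x hx => ?_
      have hx' : x ∈ Icc (-1 / 2 : ℝ) (1 / 2) := ⟨hx.1.le, hx.2⟩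
      rw [norm_mul, Complex.norm_real, Real.norm_eq_abs, abs_of_nonneg (gw_nonneg h0 hπ hx')]
      refine mul_le_mul_of_nonneg_left ?_ (gw_nonneg h0 hπ hx')
      rw [Complex.norm_exp]
      refine Real.exp_le_exp.mpr ?_
      have e1 : (I * (Λ * (z - conj z)) * x).re = -(2 * (Λ * (z.im * x))) := by
        simp
        ring
      rw [e1]
      have h4 : |x| ≤ 1 / 2 := by
        rw [abs_le]
        constructor <;> linarith [hx'.1, hx'.2]
      have h5 : -(z.im * x) ≤ |z.im| * (1 / 2) := by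
        refine (neg_le_abs _).trans ?_
        rw [abs_mul]
        exact mul_le_mul_of_nonneg_left h4 (abs_nonneg _)
      nlinarith
    · exact ((gw_cont γ).mul continuous_const).intervalIntegrable _ _
  refine h3.trans (le_of_eq ?_)
  rw [intervalIntegral.integral_mul_const, hg, one_mul]

/-- the feature functions -/
noncomputable def ff (γ Λ : ℝ) (z : ℂ) (x : ℝ) : ℂ :=
  ((Real.sqrt (gw γ x) : ℝ) : ℂ) * cexp (I * (Λ * z) * x)

lemma ff_cont (γ Λ : ℝ) (z : ℂ) : Continuous (ff γ Λ z) := by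
  unfold ff
  have := gw_cont γ
  fun_prop

lemma ff_memLp (γ Λ : ℝ) (z : ℂ) :
    MemLp (ff γ Λ z) 2 (volume.restrict (Icc (-1 / 2 : ℝ) (1 / 2))) := by
  obtain ⟨M, hM⟩ := (isCompact_Icc (a := (-1 / 2 : ℝ)) (b := 1 / 2)).exists_bound_of_continuousOn
    (ff_cont γ Λ z).continuousOn
  refine MemLp.of_bound (ff_cont γ Λ z).aestronglyMeasurable M ?_
  exact (ae_restrict_iff' measurableSet_Icc).mpr (Eventually.of_forall fun x hx => hM x hx)

theorem gram_k {γ : ℝ} (h0 : 0 < γ) (hπ : γ < Real.pi) (Λ : ℝ) :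
    ∃ (E : Type) (_ : NormedAddCommGroup E) (_ : InnerProductSpace ℂ E)
    (k : ℂ → E), ∀ z w, inner ℂ (k z) (k w) = phk γ Λ (w - conj z) := by
  refine ⟨Lp ℂ 2 (volume.restrict (Icc (-1 / 2 : ℝ) (1 / 2))), inferInstance, inferInstance,
    fun z => (ff_memLp γ Λ z).toLp _, fun z w => ?_⟩
  rw [L2.inner_def]
  unfold phk kapw
  rw [intervalIntegral.integral_of_le (by norm_num), ← integral_Icc_eq_integral_Ioc]
  refine integral_congr_ae ?_
  filter_upwards [(ff_memLp γ Λ z).coeFn_toLp, (ff_memLp γ Λ w).coeFn_toLp,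
    ae_restrict_mem measurableSet_Icc] with x h1 h2 hx
  rw [h1, h2, RCLike.inner_apply]
  unfold ff
  rw [map_mul, Complex.conj_ofReal, ← Complex.exp_conj]
  have hs : ((Real.sqrt (gw γ x) : ℝ) : ℂ) * ((Real.sqrt (gw γ x) : ℝ) : ℂ) = (gw γ x : ℂ) := by
    rw [← Complex.ofReal_mul, Real.mul_self_sqrt (gw_nonneg h0 hπ hx)]
  have he : cexp (I * (Λ * (w - conj z)) * x) = cexp (I * (Λ * w) * x) *
      cexp (conj (I * (Λ * z) * x)) := by
    rw [← Complex.exp_add]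
    congr 1
    simp only [map_mul, conj_I, Complex.conj_ofReal]
    ring
  rw [he, ← hs]
  ring

section

variable (Z : Finset ℂ) (hZ : ∀ z ∈ Z, conj z ∈ Z) (a : ℂ → ℂ)
    (hac : ∀ z ∈ Z, a (conj z) = conj (a z))

/-- the exponential sum over the zeros -/
noncomputable def Bz (u : ℝ) : ℂ := ∑ z ∈ Z, a z * cexp (I * u * z)

lemma Bz_cont : Continuous (Bz Z a) := by
  unfold Bz
  fun_prop

include hZ hac in
lemma Bz_conj (u : ℝ) : conj (Bz Z a u) = Bz Z a (-u) := by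
  unfold Bz
  rw [map_sum]
  refine Finset.sum_nbij' (fun s => conj s) (fun s => conj s) ?_ ?_ ?_ ?_ ?_
  · intro s hs; exact hZ s hs
  · intro s hs; exact hZ s hs
  · intro s _; simp
  · intro s _; simp
  · intro s hs
    rw [map_mul, hac s hs, ← Complex.exp_conj]
    congr 2
    simp

include hZ hac in
theorem quad {γ : ℝ} (h0 : 0 < γ) (hπ : γ < Real.pi) {Λ : ℝ} (hΛ : 0 < Λ) :
    (∑ z ∈ Z, ∑ w ∈ Z, a z * a w * (phk γ Λ (z - w)) ^ 2).re =
      2 / Λ * ∫ u in (0 : ℝ)..Λ, Rw γ (u / Λ) * ‖Bz Z a u‖ ^ 2 := by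
  have hRc := H385.fa_Rw_cont γ h0 hπ
  have h1 : ∑ z ∈ Z, ∑ w ∈ Z, a z * a w * (phk γ Λ (z - w)) ^ 2 =
      ∫ α in (-1 : ℝ)..1, ((Rw γ α * ‖Bz Z a (Λ * α)‖ ^ 2 : ℝ) : ℂ) := by
    have h2 : ∀ z w : ℂ, a z * a w * (phk γ Λ (z - w)) ^ 2 =
        ∫ α in (-1 : ℝ)..1, a z * a w * ((Rw γ α : ℂ) * cexp (I * (Λ * (z - w)) * α)) := by
      intro z w
      unfold phk
      rw [kapw_sq γ h0 hπ, intervalIntegral.integral_const_mul]
    have hc : ∀ z w : ℂ, Continuous fun α : ℝ =>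
        a z * a w * ((Rw γ α : ℂ) * cexp (I * (Λ * (z - w)) * α)) := by
      intro z w
      fun_prop
    simp_rw [h2]
    have h3 : ∀ z ∈ Z, ∑ w ∈ Z, ∫ α in (-1 : ℝ)..1,
        a z * a w * ((Rw γ α : ℂ) * cexp (I * (Λ * (z - w)) * α)) =
        ∫ α in (-1 : ℝ)..1, ∑ w ∈ Z, a z * a w * ((Rw γ α : ℂ) * cexp (I * (Λ * (z - w)) * α)) := by
      intro z _
      rw [intervalIntegral.integral_finsetSum]
      intro w _
      exact (hc z w).intervalIntegrable _ _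
    rw [Finset.sum_congr rfl h3, ← intervalIntegral.integral_finsetSum]
    · refine intervalIntegral.integral_congr fun α _ => ?_
      have h4 : ((‖Bz Z a (Λ * α)‖ ^ 2 : ℝ) : ℂ) = Bz Z a (Λ * α) * Bz Z a (-(Λ * α)) := by
        rw [← Bz_conj Z hZ a hac, Complex.mul_conj, Complex.normSq_eq_norm_sq]
      rw [Complex.ofReal_mul, h4]
      unfold Bz
      rw [Finset.sum_mul_sum, Finset.mul_sum]
      refine Finset.sum_congr rfl fun z _ => ?_
      rw [Finset.mul_sum]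
      refine Finset.sum_congr rfl fun w _ => ?_
      have e : cexp (I * (Λ * (z - w)) * α) = cexp (I * ((Λ * α : ℝ) : ℂ) * z) *
          cexp (I * ((-(Λ * α) : ℝ) : ℂ) * w) := by
        rw [← Complex.exp_add]
        congr 1
        push_cast
        ring
      rw [e]
      ring
    · intro z _
      exact (continuous_finsetSum _ fun w _ => hc z w).intervalIntegrable _ _
  rw [h1, intervalIntegral.integral_ofReal, Complex.ofReal_re]
  obtain ⟨g, hg⟩ : ∃ g : ℝ → ℝ, ∀ α, g α = Rw γ α * ‖Bz Z a (Λ * α)‖ ^ 2 := ⟨_, fun _ => rfl⟩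
  have hgc : Continuous g := by
    have : g = fun α => Rw γ α * ‖Bz Z a (Λ * α)‖ ^ 2 := funext hg
    rw [this]
    exact hRc.mul (((Bz_cont Z a).comp (by fun_prop)).norm.pow 2)
  have hge : ∀ α, g (-α) = g α := by
    intro α
    rw [hg, hg, Rw_even, mul_neg, ← Bz_conj Z hZ a hac, RCLike.norm_conj]
  have h5 : ∫ α in (-1 : ℝ)..1, Rw γ α * ‖Bz Z a (Λ * α)‖ ^ 2 = 2 * ∫ α in (0 : ℝ)..1, g α := by
    simp_rw [← hg]
    rw [← intervalIntegral.integral_add_adjacent_intervals (b := 0)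
      (hgc.intervalIntegrable _ _) (hgc.intervalIntegrable _ _)]
    have h6 := intervalIntegral.integral_comp_neg (a := (0 : ℝ)) (b := 1) g
    rw [neg_zero] at h6
    rw [← h6]
    simp_rw [hge]
    ring
  rw [h5]
  have h7 : ∫ u in (0 : ℝ)..Λ, Rw γ (u / Λ) * ‖Bz Z a u‖ ^ 2 = Λ * ∫ α in (0 : ℝ)..1, g α := by
    have h8 := intervalIntegral.integral_comp_div (a := 0) (b := Λ) (c := Λ) g hΛ.ne'
    rw [zero_div, div_self hΛ.ne', smul_eq_mul] at h8
    rw [← h8]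
    refine intervalIntegral.integral_congr fun u _ => ?_
    rw [hg, mul_div_cancel₀ _ hΛ.ne']
  rw [h7]
  field_simp

end

end Pool.Agent.V8H15.LW
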