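import Pool.Agent.V8H15.LW.Exp3
import Pool.Agent.V8H15.LW.Cty
import Pool.Agent.V8H15.LW.Qf

/-!
# The inequality for one `L`-function

Project LW (helper15).
-/

set_option autoImplicit false

open MeasureTheory Set Filter Topology Complex

namespace Pool.Agent.V8H15.LW

open H385 (zz Rw Rw_nonneg)
open H370 (mult)

variable {w : ℂ → ℂ} {C lam t V : ℝ} {p : ℕ}
variable {F : ℂ → ℂ} {a : ℕ → ℂ} {G : ℂ → ℂ}

/-- the zeros in the closed critical strip with ordinate in `(t, t + V]` -/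
def cz (F : ℂ → ℂ) (t V : ℝ) : Set ℂ :=
  {s : ℂ | 0 ≤ s.re ∧ s.re ≤ 1 ∧ t < s.im ∧ s.im ≤ t + V ∧ F s = 0}

/-- the simple zeros on the critical line with ordinate in `(t, t + V]` -/
def sz (F : ℂ → ℂ) (t V : ℝ) : Set ℂ :=
  {s : ℂ | s ∈ cz F t V ∧ s.re = 1 / 2 ∧ mult F s = 1}

/-- the number of zeros in the closed strip -/
noncomputable def Nb (F : ℂ → ℂ) (t V : ℝ) : ℕ := ∑ᶠ s ∈ cz F t V, mult F s

/-- the error sum over a finite set of zeros -/
noncomputable def EZ (F : ℂ → ℂ) (p : ℕ) (lam Λ t V : ℝ) (Z : Finset ℂ) : ℝ :=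
  ∑ s ∈ Z, (mult F s : ℝ) * (Er p lam t V s.im * Real.exp ((Λ + lam) * |s.re - 1 / 2|))

lemma zz_inv (s : ℂ) : 1 / 2 + I * zz s = s := by
  unfold zz
  linear_combination (-(s - 1 / 2)) * Complex.I_sq

lemma zz_inj : Function.Injective zz := fun s s' h => by
  rw [← zz_inv s, ← zz_inv s', h]

lemma zz_conj (s : ℂ) : zz (1 - (starRingEnd ℂ) s) = (starRingEnd ℂ) (zz s) := by
  unfold zz
  simp only [map_mul, map_neg, Complex.conj_I, map_sub, map_div₀, map_one, map_ofNat]
  ring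

/-- multiplicities are positive -/
lemma mult_one_le (hF : XF F a G) {s : ℂ} (hs : F s = 0) : 1 ≤ mult F s := by
  unfold H370.mult analyticOrderNatAt
  have h1 : analyticOrderAt F s ≠ 0 := (hF.diff.analyticAt s).analyticOrderAt_ne_zero.mpr hs
  have h2 : analyticOrderAt F s ≠ ⊤ := by
    intro h
    have h3 : ∀ᶠ z in 𝓝 s, F z = 0 := analyticOrderAt_eq_top.mp h
    have h4 : AnalyticOnNhd ℂ F Set.univ := fun z _ => hF.diff.analyticAt z
    have h5 := h4.eqOn_zero_of_preconnected_of_eventuallyEq_zero isPreconnected_univ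
      (Set.mem_univ s) h3 (Set.mem_univ 2)
    exact hF.ne 2 (by norm_num) h5
  rw [Nat.one_le_iff_ne_zero]
  intro h
  rcases ENat.toNat_eq_zero.mp h with h | h
  · exact h1 h
  · exact h2 h

open Classical in
/-- **The inequality for one `L`-function.** -/
theorem per (hF : XF F a G)
    (hsym : ∀ s : ℂ, 0 ≤ s.re → s.re ≤ 1 →
      analyticOrderAt F (1 - (starRingEnd ℂ) s) = analyticOrderAt F s)
    (hw : Wnd w C lam t V p) (hl : 0 < lam) (hp : 4 ≤ p) (hC : 0 ≤ C) (hV : 0 ≤ V)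
    {γ Λ : ℝ} (hγ0 : 0 < γ) (hγπ : γ < Real.pi) (hΛ : 0 < Λ) {δ : ℝ} (hδ : 0 < δ) :
    (cz F t V).Finite ∧
    ∃ Z : Finset ℂ, (∀ s ∈ Z, 0 ≤ s.re ∧ s.re ≤ 1 ∧ F s = 0) ∧
      (2 * (Nb F t V : ℝ) - ((sz F t V).ncard : ℝ) ≤
        2 / Λ * (∫ u in (0 : ℝ)..Λ, Rw γ (u / Λ) *
          ((1 + δ) * ‖Mf w G u - Pf w a u - Pt w a u‖ ^ 2 + 1)) +
        8 * C * EZ F p lam Λ t V Z) ∧
      (3 * (Nb F t V : ℝ) - 2 * ((cz F t V).ncard : ℝ) ≤
        2 / Λ * (∫ u in (0 : ℝ)..Λ, Rw γ (u / Λ) *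
          ((1 + δ) * ‖Mf w G u - Pf w a u - Pt w a u‖ ^ 2 + 1)) +
        8 * C * EZ F p lam Λ t V Z) ∧
      (Mf w G 0 - Pf w a 0 - Pt w a 0).re ≤ 1 + (Nb F t V : ℝ) + C * EZ F p lam Λ t V Z := by
  -- the size of the error in the explicit formula
  obtain ⟨e, he0, he1, heδ⟩ : ∃ e : ℝ, 0 < e ∧ e ≤ 1 ∧ (1 + 1 / δ) * e ^ 2 ≤ 1 := by
    refine ⟨1 / (1 + 1 / δ), by positivity, ?_, ?_⟩
    · rw [div_le_one (by positivity)]
      have : 0 < 1 / δ := by positivity
      linarith
    · have h1 : 1 ≤ 1 + 1 / δ := by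
        have : 0 < 1 / δ := by positivity
        linarith
      rw [div_pow, one_pow, mul_one_div, div_le_one (by positivity)]
      nlinarith
  obtain ⟨V1, V2, hV1, hV2, hfin, hex⟩ := explicit hF hw hl hp hC Λ he0 (|t| + |t + V| + 1)
  obtain ⟨Zs, hZs⟩ : ∃ Zs : Finset ℂ, Zs = hfin.toFinset := ⟨_, rfl⟩
  have hmZs : ∀ s, s ∈ Zs ↔ s ∈ zst F V1 V2 := fun s => by
    rw [hZs, Set.Finite.mem_toFinset]
  have hstrip : ∀ s ∈ Zs, 0 ≤ s.re ∧ s.re ≤ 1 ∧ F s = 0 := by
    intro s hs
    obtain ⟨h1, h2⟩ := (hmZs s).mp hs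
    rw [Complex.mem_reProdIm] at h1
    refine ⟨?_, ?_, h2⟩
    · by_contra hcon
      push Not at hcon
      exact hF.nel s (by linarith [h1.1.1]) hcon h2
    · by_contra hcon
      push Not at hcon
      exact hF.ne s hcon h2
  have hcz : ∀ s, s ∈ cz F t V ↔ s ∈ Zs ∧ t < s.im ∧ s.im ≤ t + V := by
    intro s
    constructor
    · rintro ⟨a1, a2, a3, a4, a5⟩
      refine ⟨(hmZs s).mpr ⟨?_, a5⟩, a3, a4⟩
      rw [Complex.mem_reProdIm]
      have b1 := neg_abs_le t
      have b2 := le_abs_self (t + V)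
      have b3 := abs_nonneg t
      have b4 := abs_nonneg (t + V)
      exact ⟨⟨by linarith, by linarith⟩, ⟨by linarith, by linarith⟩⟩
    · rintro ⟨a1, a2, a3⟩
      obtain ⟨b1, b2, b3⟩ := hstrip s a1
      exact ⟨b1, b2, a2, a3, b3⟩
  have hczfin : (cz F t V).Finite := (Zs.finite_toSet).subset fun s hs => ((hcz s).mp hs).1
  refine ⟨hczfin, Zs, hstrip, ?_⟩
  -- the set of parameters
  obtain ⟨Z, hZ⟩ : ∃ Z : Finset ℂ, Z = Zs.image zz := ⟨_, rfl⟩
  obtain ⟨av, hav⟩ : ∃ av : ℂ → ℂ, ∀ z, av z = (mult F (1 / 2 + I * z) : ℂ) * w z :=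
    ⟨_, fun _ => rfl⟩
  have havz : ∀ s, av (zz s) = (mult F s : ℂ) * w (zz s) := fun s => by rw [hav, zz_inv]
  have hZsum : ∀ g : ℂ → ℝ, ∑ z ∈ Z, g z = ∑ s ∈ Zs, g (zz s) := by
    intro g
    rw [hZ, Finset.sum_image (fun s _ s' _ h => zz_inj h)]
  have hZsumC : ∀ g : ℂ → ℂ, ∑ z ∈ Z, g z = ∑ s ∈ Zs, g (zz s) := by
    intro g
    rw [hZ, Finset.sum_image (fun s _ s' _ h => zz_inj h)]
  have hrefl : ∀ s ∈ Zs, 1 - (starRingEnd ℂ) s ∈ Zs ∧
      mult F (1 - (starRingEnd ℂ) s) = mult F s := by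
    intro s hs
    obtain ⟨b1, b2, b3⟩ := hstrip s hs
    have h1 := hsym s b1 b2
    obtain ⟨h2, _⟩ := (hmZs s).mp hs
    rw [Complex.mem_reProdIm] at h2
    constructor
    · refine (hmZs _).mpr ⟨?_, ?_⟩
      · rw [Complex.mem_reProdIm]
        simp only [Complex.sub_re, Complex.one_re, Complex.conj_re, Complex.sub_im,
          Complex.one_im, Complex.conj_im, zero_sub, neg_neg]
        exact ⟨⟨by linarith, by linarith⟩, h2.2⟩
      · have h6 : analyticOrderAt F s ≠ 0 :=
          (hF.diff.analyticAt s).analyticOrderAt_ne_zero.mpr b3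
        rw [← h1] at h6
        exact apply_eq_zero_of_analyticOrderAt_ne_zero h6
    · unfold H370.mult analyticOrderNatAt
      rw [h1]
  have hZc : ∀ z ∈ Z, (starRingEnd ℂ) z ∈ Z := by
    intro z hz
    rw [hZ, Finset.mem_image] at hz ⊢
    obtain ⟨s, hs, rfl⟩ := hz
    exact ⟨_, (hrefl s hs).1, zz_conj s⟩
  have hac : ∀ z ∈ Z, av ((starRingEnd ℂ) z) = (starRingEnd ℂ) (av z) := by
    intro z hz
    rw [hZ, Finset.mem_image] at hz
    obtain ⟨s, hs, rfl⟩ := hz
    rw [← zz_conj, havz, havz, (hrefl s hs).2, map_mul, Complex.conj_natCast, zz_conj, hw.conj]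
  -- explicit formula for `Bz`
  have hB : ∀ u ∈ Icc 0 Λ, ‖Bz Z av u - (Mf w G u - Pf w a u - Pt w a u)‖ ≤ e := by
    intro u hu
    have h1 := hex u hu
    have h2 : Bz Z av u = ∑ s ∈ hfin.toFinset, (mult F s : ℂ) *
        (w (zz s) * cexp (I * u * zz s)) := by
      unfold Bz
      rw [hZsumC, hZs]
      refine Finset.sum_congr rfl fun s _ => ?_
      rw [havz]
      ring
    rw [h2]
    exact h1
  -- the window
  obtain ⟨In, hIn⟩ : ∃ In : ℂ → Prop, ∀ z, In z ↔ (t < z.re ∧ z.re ≤ t + V) :=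
    ⟨_, fun _ => Iff.rfl⟩
  have hInz : ∀ s, In (zz s) ↔ (t < s.im ∧ s.im ≤ t + V) := fun s => by rw [hIn, zz_re]
  obtain ⟨S, hS⟩ : ∃ S : Finset ℂ, S = Z.filter
      (fun z => z.im = 0 ∧ In z ∧ mult F (1 / 2 + I * z) = 1) := ⟨_, rfl⟩
  obtain ⟨E, iE1, iE2, k, hk⟩ := gram_k hγ0 hγπ Λ
  have htr := trace_v (phk γ Λ) k hk (phk_even γ Λ) (phk_zero hγ0 hγπ Λ) Z hZc av hac In
    (fun z => by rw [hIn, hIn, Complex.conj_re]) (fun z => Real.exp (Λ * |z.im|))
    (fun z => Real.one_le_exp (by positivity)) (fun z => phk_bound hγ0 hγπ hΛ.le z)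
    (by
      intro z hz h0
      have hzr : z = ((z.re : ℝ) : ℂ) := by
        apply Complex.ext
        · simp
        · simpa using h0
      rw [hav]
      have h1 : w z = (((w z).re : ℝ) : ℂ) := by
        rw [hzr]
        exact hw.real _
      rw [h1, ← Complex.ofReal_natCast, ← Complex.ofReal_mul, Complex.ofReal_re]
      refine mul_nonneg (Nat.cast_nonneg _) ?_
      rw [hzr]
      exact hw.lo _) S (by rw [hS]; exact Finset.filter_subset _ _) (by
      intro z hz
      rw [hS, Finset.mem_filter] at hz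
      obtain ⟨_, h0, h1, h2⟩ := hz
      refine ⟨h0, h1, ?_⟩
      have hzr : z = ((z.re : ℝ) : ℂ) := by
        apply Complex.ext
        · simp
        · simpa using h0
      rw [hav, h2, Nat.cast_one, one_mul, hzr]
      exact hw.hi _)
  rw [quad Z hZc av hac hγ0 hγπ hΛ] at htr
  -- the integral
  have hBc := rhs_cont hF hw hl hp hC hΛ.le
  have hRc := H385.fa_Rw_cont γ hγ0 hγπ
  have hint : ∫ u in (0 : ℝ)..Λ, Rw γ (u / Λ) * ‖Bz Z av u‖ ^ 2 ≤
      ∫ u in (0 : ℝ)..Λ, Rw γ (u / Λ) *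
          ((1 + δ) * ‖Mf w G u - Pf w a u - Pt w a u‖ ^ 2 + 1) := by
    refine intervalIntegral.integral_mono_on hΛ.le ?_ ?_ ?_
    · refine Continuous.intervalIntegrable ?_ _ _
      exact (hRc.comp (by fun_prop)).mul ((Bz_cont Z av).norm.pow 2)
    · refine ContinuousOn.intervalIntegrable ?_
      rw [uIcc_of_le hΛ.le]
      refine ContinuousOn.mul (hRc.comp (by fun_prop)).continuousOn ?_
      exact (continuousOn_const.mul (hBc.norm.pow 2)).add continuousOn_const
    · intro u hu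
      refine mul_le_mul_of_nonneg_left ?_ (Rw_nonneg γ hγ0 hγπ _)
      obtain ⟨x, hx⟩ : ∃ x : ℝ, x = ‖Mf w G u - Pf w a u - Pt w a u‖ := ⟨_, rfl⟩
      rw [← hx]
      have h1 : ‖Bz Z av u‖ ≤ x + e := by
        have h2 := norm_sub_norm_le (Bz Z av u) (Mf w G u - Pf w a u - Pt w a u)
        have h3 := hB u hu
        rw [hx]
        linarith
      have hx0 : 0 ≤ x := by rw [hx]; exact norm_nonneg _
      have h4 : ‖Bz Z av u‖ ^ 2 ≤ (x + e) ^ 2 := pow_le_pow_left₀ (norm_nonneg _) h1 2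
      have h5 : 2 * x * e ≤ δ * x ^ 2 + 1 / δ * e ^ 2 := by
        have h6 : 0 ≤ (δ * x - e) ^ 2 / δ := by positivity
        have h7 : (δ * x - e) ^ 2 / δ = δ * x ^ 2 - 2 * x * e + 1 / δ * e ^ 2 := by
          field_simp
          ring
        linarith
      nlinarith
  have hint2 : 2 / Λ * ∫ u in (0 : ℝ)..Λ, Rw γ (u / Λ) * ‖Bz Z av u‖ ^ 2 ≤
      2 / Λ * ∫ u in (0 : ℝ)..Λ, Rw γ (u / Λ) *
          ((1 + δ) * ‖Mf w G u - Pf w a u - Pt w a u‖ ^ 2 + 1) :=
    mul_le_mul_of_nonneg_left hint (by positivity)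
  obtain ⟨J, hJ⟩ : ∃ J : ℝ, J = 2 / Λ * ∫ u in (0 : ℝ)..Λ, Rw γ (u / Λ) *
          ((1 + δ) * ‖Mf w G u - Pf w a u - Pt w a u‖ ^ 2 + 1) := ⟨_, rfl⟩
  rw [← hJ] at hint2 ⊢
  -- numbers of zeros
  have hNb : (Nb F t V : ℝ) = ∑ s ∈ Zs, if In (zz s) then (mult F s : ℝ) else 0 := by
    unfold Nb
    rw [finsum_mem_eq_finite_toFinset_sum _ hczfin]
    push_cast
    rw [← Finset.sum_filter]
    refine Finset.sum_congr ?_ fun _ _ => rfl
    ext s
    rw [Set.Finite.mem_toFinset, Finset.mem_filter, hcz, hInz]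
  have hDs : ((cz F t V).ncard : ℝ) = ∑ s ∈ Zs, if In (zz s) then (1 : ℝ) else 0 := by
    rw [Set.ncard_eq_toFinset_card _ hczfin, ← Finset.sum_filter, Finset.sum_const,
      nsmul_eq_mul, mul_one]
    congr 2
    ext s
    rw [Set.Finite.mem_toFinset, Finset.mem_filter, hcz, hInz]
  have hszfin : (sz F t V).Finite := hczfin.subset fun s hs => hs.1
  have hsz : ((sz F t V).ncard : ℝ) = ∑ s ∈ Zs, if zz s ∈ S then (1 : ℝ) else 0 := by
    rw [Set.ncard_eq_toFinset_card _ hszfin, ← Finset.sum_filter, Finset.sum_const,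
      nsmul_eq_mul, mul_one]
    congr 2
    ext s
    rw [Set.Finite.mem_toFinset, Finset.mem_filter, hS, Finset.mem_filter, zz_inv, hInz, zz_im]
    unfold sz
    rw [Set.mem_setOf_eq, hcz]
    constructor
    · rintro ⟨⟨a1, a2, a3⟩, a4, a5⟩
      refine ⟨a1, ?_, by rw [a4]; norm_num, ⟨a2, a3⟩, a5⟩
      rw [hZ]
      exact Finset.mem_image_of_mem _ a1
    · rintro ⟨a1, _, a2, a3, a4⟩
      exact ⟨⟨a1, a3⟩, by linarith, a4⟩
  -- pointwise
  have hEr0 : ∀ x, 0 ≤ Er p lam t V x := Er_nonneg p lam t V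
  obtain ⟨er, her⟩ : ∃ er : ℂ → ℝ, ∀ s, er s = (mult F s : ℝ) *
      (Er p lam t V s.im * Real.exp ((Λ + lam) * |s.re - 1 / 2|)) := ⟨_, fun _ => rfl⟩
  have her0 : ∀ s, 0 ≤ er s := fun s => by
    rw [her]
    have := hEr0 s.im
    positivity
  have hEZ : EZ F p lam Λ t V Zs = ∑ s ∈ Zs, er s := by
    unfold EZ
    exact Finset.sum_congr rfl fun s _ => (her s).symm
  have hexpl : ∀ s : ℂ, Real.exp (lam * |s.re - 1 / 2|) ≤
      Real.exp ((Λ + lam) * |s.re - 1 / 2|) := by
    intro s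
    refine Real.exp_le_exp.mpr ?_
    have := abs_nonneg (s.re - 1 / 2)
    nlinarith [hΛ.le]
  have himabs : ∀ s : ℂ, |(zz s).im| = |s.re - 1 / 2| := fun s => by
    rw [zz_im, abs_sub_comm]
  have hnear : ∀ s ∈ Zs, In (zz s) → (mult F s : ℝ) * ‖1 - w (zz s)‖ ≤ C * er s := by
    intro s hs h1
    have h2 := (hInz s).mp h1
    have h3 := hw.near (zz s) (by rw [zz_re]; exact h2.1.le) (by rw [zz_re]; exact h2.2)
    rw [zz_re, himabs] at h3
    have h4 : ‖1 - w (zz s)‖ ≤ C * (Er p lam t V s.im *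
        Real.exp ((Λ + lam) * |s.re - 1 / 2|)) := by
      refine h3.trans ?_
      have h5 := mul_le_mul_of_nonneg_left (hexpl s) hC
      have h6 := mul_le_mul_of_nonneg_right h5 (hEr0 s.im)
      linarith
    calc _ ≤ (mult F s : ℝ) * (C * (Er p lam t V s.im *
        Real.exp ((Λ + lam) * |s.re - 1 / 2|))) :=
          mul_le_mul_of_nonneg_left h4 (Nat.cast_nonneg _)
      _ = _ := by rw [her]; ring
  have hfar : ∀ s ∈ Zs, ¬ In (zz s) →
      (mult F s : ℝ) * (‖w (zz s)‖ * Real.exp (Λ * |s.re - 1 / 2|)) ≤ C * er s := by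
    intro s hs h1
    rw [hInz, not_and_or, not_lt, not_le] at h1
    have h3 := hw.far (zz s) (by
      rw [zz_re]
      rcases h1 with h | h
      · exact Or.inl h
      · exact Or.inr h.le)
    rw [zz_re, himabs] at h3
    have h4 : ‖w (zz s)‖ * Real.exp (Λ * |s.re - 1 / 2|) ≤ C * (Er p lam t V s.im *
        Real.exp ((Λ + lam) * |s.re - 1 / 2|)) := by
      refine (mul_le_mul_of_nonneg_right h3 (Real.exp_pos _).le).trans (le_of_eq ?_)
      rw [add_mul Λ lam, Real.exp_add]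
      ring
    calc _ ≤ (mult F s : ℝ) * (C * (Er p lam t V s.im *
        Real.exp ((Λ + lam) * |s.re - 1 / 2|))) :=
          mul_le_mul_of_nonneg_left h4 (Nat.cast_nonneg _)
      _ = _ := by rw [her]; ring
  -- the left side
  have hnav : ∀ s, ‖av (zz s)‖ = (mult F s : ℝ) * ‖w (zz s)‖ := by
    intro s
    rw [havz, norm_mul, Complex.norm_natCast]
  have hrav : ∀ s, (av (zz s)).re = (mult F s : ℝ) * (w (zz s)).re := by
    intro s
    rw [havz, ← Complex.ofReal_natCast, Complex.re_ofReal_mul]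
  have hreal : ∀ s, 1 - ‖1 - w (zz s)‖ ≤ (w (zz s)).re := by
    intro s
    have h1 := Complex.re_le_norm (1 - w (zz s))
    rw [Complex.sub_re, Complex.one_re] at h1
    linarith
  rw [Finset.sum_filter, Finset.sum_filter, hZsum, hZsum] at htr
  -- a uniform lower bound
  have hlow : ∀ f : ℂ → ℝ, (∀ s ∈ Zs, (if In (zz s) then f s else 0) ≤
      if In (zz s) then 4 * (mult F s : ℝ) - kz S (zz s) else 0) →
      (∑ s ∈ Zs, if In (zz s) then f s else 0) ≤ J + 8 * C * EZ F p lam Λ t V Zs := by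
    intro f hf
    have h1 : (∑ s ∈ Zs, if In (zz s) then f s else 0) ≤
        (∑ s ∈ Zs, if In (zz s) then 4 * (av (zz s)).re - kz S (zz s) else 0) -
        8 * (∑ s ∈ Zs, if ¬ In (zz s) then ‖av (zz s)‖ * Real.exp (Λ * |(zz s).im|) else 0) +
        8 * C * ∑ s ∈ Zs, er s := by
      rw [Finset.mul_sum, Finset.mul_sum, ← Finset.sum_sub_distrib, ← Finset.sum_add_distrib]
      refine Finset.sum_le_sum fun s hs => (hf s hs).trans ?_
      by_cases h : In (zz s)
      · rw [if_pos h, if_pos h, if_neg (not_not.mpr h), hrav]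
        have h2 := hnear s hs h
        have h3 := hreal s
        have h4 := her0 s
        have h5 : (mult F s : ℝ) * (1 - ‖1 - w (zz s)‖) ≤ (mult F s : ℝ) * (w (zz s)).re :=
          mul_le_mul_of_nonneg_left h3 (Nat.cast_nonneg _)
        have h6 : 0 ≤ C * er s := mul_nonneg hC h4
        linarith
      · rw [if_neg h, if_neg h, if_pos h, hnav, himabs]
        have h2 := hfar s hs h
        have : (mult F s : ℝ) * ‖w (zz s)‖ * Real.exp (Λ * |s.re - 1 / 2|) =
          (mult F s : ℝ) * (‖w (zz s)‖ * Real.exp (Λ * |s.re - 1 / 2|)) := by ring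
        rw [this]
        linarith
    rw [hEZ]
    linarith
  refine ⟨?_, ?_, ?_⟩
  · have h1 := hlow (fun s => 2 * (mult F s : ℝ) - if zz s ∈ S then 1 else 0) (by
      intro s hs
      by_cases h : In (zz s)
      · rw [if_pos h, if_pos h]
        have hm := mult_one_le hF (hstrip s hs).2.2
        have hm' : (1 : ℝ) ≤ mult F s := by exact_mod_cast hm
        unfold kz
        by_cases h0 : (zz s).im = 0
        · rw [if_pos h0]
          by_cases h2 : zz s ∈ S
          · rw [if_pos h2, if_pos h2]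
            linarith
          · rw [if_neg h2, if_neg h2]
            have h3 : mult F s ≠ 1 := by
              intro h4
              apply h2
              rw [hS, Finset.mem_filter, zz_inv, hZ]
              exact ⟨Finset.mem_image_of_mem _ hs, h0, h, h4⟩
            have h5 : (2 : ℝ) ≤ mult F s := by
              have : 2 ≤ mult F s := by omega
              exact_mod_cast this
            linarith
        · have h2 : zz s ∉ S := by
            rw [hS, Finset.mem_filter]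
            rintro ⟨_, h3, _⟩
            exact h0 h3
          rw [if_neg h0, if_neg h2]
          linarith
      · rw [if_neg h, if_neg h])
    have h2 : (∑ s ∈ Zs, if In (zz s) then (2 * (mult F s : ℝ) - if zz s ∈ S then 1 else 0)
        else 0) = 2 * (Nb F t V : ℝ) - ((sz F t V).ncard : ℝ) := by
      rw [hNb, hsz, Finset.mul_sum, ← Finset.sum_sub_distrib]
      refine Finset.sum_congr rfl fun s _ => ?_
      by_cases h : In (zz s)
      · rw [if_pos h, if_pos h]
      · have h3 : zz s ∉ S := by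
          rw [hS, Finset.mem_filter]
          rintro ⟨_, _, h4, _⟩
          exact h h4
        rw [if_neg h, if_neg h, if_neg h3]
        ring
    rw [h2] at h1
    exact h1
  · have h1 := hlow (fun s => 3 * (mult F s : ℝ) - 2) (by
      intro s hs
      by_cases h : In (zz s)
      · rw [if_pos h, if_pos h]
        have hm := mult_one_le hF (hstrip s hs).2.2
        have hm' : (1 : ℝ) ≤ mult F s := by exact_mod_cast hm
        unfold kz
        by_cases h0 : (zz s).im = 0
        · rw [if_pos h0]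
          by_cases h2 : zz s ∈ S
          · rw [if_pos h2]
            linarith
          · rw [if_neg h2]
            have h3 : mult F s ≠ 1 := by
              intro h4
              apply h2
              rw [hS, Finset.mem_filter, zz_inv, hZ]
              exact ⟨Finset.mem_image_of_mem _ hs, h0, h, h4⟩
            have h5 : (2 : ℝ) ≤ mult F s := by
              have : 2 ≤ mult F s := by omega
              exact_mod_cast this
            linarith
        · rw [if_neg h0]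
          linarith
      · rw [if_neg h, if_neg h])
    have h2 : (∑ s ∈ Zs, if In (zz s) then (3 * (mult F s : ℝ) - 2) else 0) =
        3 * (Nb F t V : ℝ) - 2 * ((cz F t V).ncard : ℝ) := by
      rw [hNb, hDs, Finset.mul_sum, Finset.mul_sum, ← Finset.sum_sub_distrib]
      refine Finset.sum_congr rfl fun s _ => ?_
      by_cases h : In (zz s)
      · rw [if_pos h, if_pos h, if_pos h]
        ring
      · rw [if_neg h, if_neg h, if_neg h]
        ring
    rw [h2] at h1
    exact h1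
  · have h0 := hB 0 ⟨le_rfl, hΛ.le⟩
    have h1 := Complex.abs_re_le_norm (Bz Z av 0 - (Mf w G 0 - Pf w a 0 - Pt w a 0))
    have h2 := neg_abs_le (Bz Z av 0 - (Mf w G 0 - Pf w a 0 - Pt w a 0)).re
    rw [Complex.sub_re] at h1 h2
    have h3 : (Bz Z av 0).re ≤ (Nb F t V : ℝ) + C * EZ F p lam Λ t V Zs := by
      unfold Bz
      rw [Complex.re_sum, hZsum, hNb, hEZ, Finset.mul_sum, ← Finset.sum_add_distrib]
      refine Finset.sum_le_sum fun s hs => ?_
      have e1 : cexp (I * ((0 : ℝ) : ℂ) * zz s) = 1 := by simp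
      rw [e1, mul_one, hrav]
      by_cases h : In (zz s)
      · rw [if_pos h]
        have h4 := hnear s hs h
        have h5 : (w (zz s)).re ≤ 1 + ‖1 - w (zz s)‖ := by
          have h6 := Complex.abs_re_le_norm (1 - w (zz s))
          have h7 := neg_abs_le (1 - w (zz s)).re
          rw [Complex.sub_re, Complex.one_re] at h6 h7
          linarith
        have h8 : (mult F s : ℝ) * (w (zz s)).re ≤ (mult F s : ℝ) * (1 + ‖1 - w (zz s)‖) :=
          mul_le_mul_of_nonneg_left h5 (Nat.cast_nonneg _)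
        linarith
      · rw [if_neg h, zero_add]
        refine le_trans ?_ (hfar s hs h)
        refine mul_le_mul_of_nonneg_left ?_ (Nat.cast_nonneg _)
        refine (Complex.re_le_norm _).trans ?_
        exact le_mul_of_one_le_right (norm_nonneg _) (Real.one_le_exp (by positivity))
    linarith

end Pool.Agent.V8H15.LW
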