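import Pool.Agent.V8H15.LW.Err
import Pool.Agent.V8H15.LW.Per

/-!
# The error sums of the family

Project LW (helper15).
-/

set_option autoImplicit false

open Finset Filter Topology MeasureTheory Complex UpperHalfPlane MatrixGroups
  CongruenceSubgroup

namespace Pool.Agent.V8H15.LW

open W388 (IsNewf lamf heckeSeq_lamf cS)
open H385 (primSetM mem_primSetM IX)
open H370 (mult)

/-- the reflection in the critical line -/
noncomputable def rfl' (s : ℂ) : ℂ := 1 - (starRingEnd ℂ) s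

lemma rfl'_inj : Function.Injective rfl' := by
  intro s s' h
  unfold rfl' at h
  have h1 : (starRingEnd ℂ) s = (starRingEnd ℂ) s' := sub_right_injective h
  exact (starRingEnd ℂ).injective h1

lemma rfl'_re (s : ℂ) : (rfl' s).re = 1 - s.re := by
  unfold rfl'
  rw [Complex.sub_re, Complex.one_re, Complex.conj_re]

lemma rfl'_im (s : ℂ) : (rfl' s).im = s.im := by
  unfold rfl'
  rw [Complex.sub_im, Complex.one_im, Complex.conj_im]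
  ring

/-- **The error sums on average over the family.** -/
theorem fam_EZ {N : ℕ} [NeZero N] {k : ℤ} (hk : 2 ≤ k)
    {f : CuspForm (Gamma0 N : Subgroup (GL (Fin 2) ℝ)) k} {ε : ℝ} (hf : IsNewf N k f ε)
    {A : ℝ} (hA : 1 ≤ A) {F : (q : ℕ) → DirichletCharacter ℂ q → ℂ → ℂ}
    (hF : TwF N k (lamf f) (heckeSeq_lamf hf).zero A F) {a b : ℝ} (ha0 : 0 < a) (ha1 : a ≤ 1)
    (hb0 : 0 < b) (hb : b < 2) :
    ∃ (η₁ B X₀ : ℝ) (p₀ : ℕ), 0 < η₁ ∧ η₁ ≤ 1 ∧ 0 ≤ B ∧ 1 ≤ X₀ ∧ ∀ p : ℕ, p₀ ≤ p →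
      ∀ X Y : ℕ, X₀ ≤ X → X ≤ Y → (Y : ℝ) ≤ (X : ℝ) ^ 2 → ∀ t V : ℝ, |t| ≤ (X : ℝ) ^ η₁ →
      |t + V| ≤ (X : ℝ) ^ η₁ → ∀ lam Λ : ℝ, lam = a * Real.log X → Λ + lam = b * Real.log X →
      ∀ Zs : IX → Finset ℂ, (∀ i ∈ primSetM N X Y, ∀ z ∈ Zs i, 0 ≤ z.re ∧ z.re ≤ 1) →
      ∑ i ∈ primSetM N X Y, (1 / (i.1 : ℝ) ^ 2) * EZ (F i.1 i.2) p lam Λ t V (Zs i) ≤
      B * (1 + 2 * Real.log ((Y : ℝ) / X)) := by
  classical
  have hN : 1 ≤ N := Nat.pos_of_ne_zero (NeZero.ne N)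
  obtain ⟨η₁, B, X₀, p₀, hη0, hη1, hB, hX₀, hmain⟩ :=
    errs_half (by omega : 1 ≤ k) hf hA hF ha0 ha1 hb0 hb
  refine ⟨η₁, 4 * B, X₀, p₀, hη0, hη1, by positivity, hX₀, ?_⟩
  intro p hp X Y hX hXY hYX t V ht htV lam Λ hlam hΛ Zs hZs
  obtain ⟨P, hP⟩ : ∃ P : ℂ → Prop, ∀ z, P z ↔ 1 / 2 ≤ z.re := ⟨_, fun _ => Iff.rfl⟩
  obtain ⟨Z1, hZ1⟩ : ∃ Z1 : IX → Finset ℂ, ∀ i, Z1 i =
    if i ∈ primSetM N X Y then (Zs i).filter P else ∅ := ⟨_, fun _ => rfl⟩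
  obtain ⟨Z2, hZ2⟩ : ∃ Z2 : IX → Finset ℂ, ∀ i, Z2 i =
    if i ∈ primSetM N X Y then ((Zs i).filter (fun z => ¬ P z)).image rfl' else ∅ :=
    ⟨_, fun _ => rfl⟩
  have hZ1' : ∀ i, ∀ z ∈ Z1 i, 1 / 2 ≤ z.re ∧ z.re ≤ 1 := by
    intro i z hz
    rw [hZ1] at hz
    split_ifs at hz with hi
    · rw [mem_filter, hP] at hz
      exact ⟨hz.2, (hZs i hi z hz.1).2⟩
    · exact absurd hz (notMem_empty _)
  have hZ2' : ∀ i, ∀ z ∈ Z2 i, 1 / 2 ≤ z.re ∧ z.re ≤ 1 := by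
    intro i z hz
    rw [hZ2] at hz
    split_ifs at hz with hi
    · rw [mem_image] at hz
      obtain ⟨s, hs, rfl⟩ := hz
      rw [mem_filter, hP, not_le] at hs
      rw [rfl'_re]
      have := (hZs i hi s hs.1).1
      constructor <;> linarith [hs.2]
    · exact absurd hz (notMem_empty _)
  obtain ⟨g, hg⟩ : ∃ g : ℝ → ℂ → ℝ, ∀ c z, g c z = ((1 + |a * Real.log X * (z.im - c)|) ^ p)⁻¹ *
      Real.exp (b * Real.log X * (z.re - 1 / 2)) := ⟨_, fun _ _ => rfl⟩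
  have key : ∀ i ∈ primSetM N X Y, EZ (F i.1 i.2) p lam Λ t V (Zs i) =
      ∑ z ∈ Z1 i, (analyticOrderNatAt (F i.1 i.2) z : ℝ) * g t z +
      ∑ z ∈ Z1 i, (analyticOrderNatAt (F i.1 i.2) z : ℝ) * g (t + V) z +
      (∑ z ∈ Z2 i, (analyticOrderNatAt (F i.1 i.2) z : ℝ) * g t z +
      ∑ z ∈ Z2 i, (analyticOrderNatAt (F i.1 i.2) z : ℝ) * g (t + V) z) := by
    intro i hi
    have hi' := hi
    rw [mem_primSetM] at hi'
    obtain ⟨hi1, hi2, hi3, hi4⟩ := hi'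
    unfold EZ
    rw [hZ1, hZ2, if_pos hi, if_pos hi, sum_image (fun s _ s' _ h => rfl'_inj h),
      sum_image (fun s _ s' _ h => rfl'_inj h), ← sum_add_distrib, ← sum_add_distrib,
      ← sum_filter_add_sum_filter_not (Zs i) P]
    congr 1
    · refine sum_congr rfl fun z hz => ?_
      rw [mem_filter, hP] at hz
      rw [hg, hg, hΛ, abs_of_nonneg (by linarith [hz.2] : 0 ≤ z.re - 1 / 2)]
      unfold H370.mult Er
      rw [hlam]
      ring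
    · refine sum_congr rfl fun z hz => ?_
      rw [mem_filter, hP, not_le] at hz
      obtain ⟨b1, b2⟩ := hZs i hi z hz.1
      have h1 : analyticOrderNatAt (F i.1 i.2) (rfl' z) = analyticOrderNatAt (F i.1 i.2) z := by
        unfold analyticOrderNatAt rfl'
        rw [hF.sym hk hN (by omega) hi3 hi4 (by linarith) (by linarith)]
      rw [hg, hg, hΛ, h1, rfl'_re, rfl'_im,
        abs_of_nonpos (by linarith [hz.2] : z.re - 1 / 2 ≤ 0)]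
      unfold H370.mult Er
      rw [hlam]
      have e : -(z.re - 1 / 2) = 1 - z.re - 1 / 2 := by ring
      rw [e]
      ring
  have h1 := hmain p hp X Y hX hXY hYX t ht Z1 hZ1'
  have h2 := hmain p hp X Y hX hXY hYX (t + V) htV Z1 hZ1'
  have h3 := hmain p hp X Y hX hXY hYX t ht Z2 hZ2'
  have h4 := hmain p hp X Y hX hXY hYX (t + V) htV Z2 hZ2'
  simp_rw [← hg] at h1 h2 h3 h4
  have hsum : ∑ i ∈ primSetM N X Y, (1 / (i.1 : ℝ) ^ 2) * EZ (F i.1 i.2) p lam Λ t V (Zs i) =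
      ∑ i ∈ primSetM N X Y, (1 / (i.1 : ℝ) ^ 2) *
        ∑ z ∈ Z1 i, (analyticOrderNatAt (F i.1 i.2) z : ℝ) * g t z +
      ∑ i ∈ primSetM N X Y, (1 / (i.1 : ℝ) ^ 2) *
        ∑ z ∈ Z1 i, (analyticOrderNatAt (F i.1 i.2) z : ℝ) * g (t + V) z +
      (∑ i ∈ primSetM N X Y, (1 / (i.1 : ℝ) ^ 2) *
        ∑ z ∈ Z2 i, (analyticOrderNatAt (F i.1 i.2) z : ℝ) * g t z +
      ∑ i ∈ primSetM N X Y, (1 / (i.1 : ℝ) ^ 2) *
        ∑ z ∈ Z2 i, (analyticOrderNatAt (F i.1 i.2) z : ℝ) * g (t + V) z) := by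
    rw [← sum_add_distrib, ← sum_add_distrib, ← sum_add_distrib]
    refine sum_congr rfl fun i hi => ?_
    rw [key i hi]
    ring
  rw [hsum]
  linarith

end Pool.Agent.V8H15.LW
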