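import Pool.Agent.V8H15.LW.Wnd
import Pool.Agent.H370R2.Rect
import Pool.Agent.H385R2.Defs

/-!
# The explicit formula with an entire window

Project LW (helper15).
-/

set_option autoImplicit false

open MeasureTheory Set Filter Topology Complex

namespace Pool.Agent.V8H15.LW

open Pool.Agent.R399.TW (pt pt_re pt_im pt_cont strip)
open Pool.Agent.N786.D (vshift2)
open H385 (zz)
open H370 (mult)

variable {w : ℂ → ℂ} {C lam t V : ℝ} {p : ℕ}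

/-- decay of order four -/
lemma Wnd.decay4 (h : Wnd w C lam t V p) (hl : 0 < lam) (hp : 4 ≤ p) (hC : 0 ≤ C) :
    ∃ K : ℝ, 0 ≤ K ∧ ∀ z : ℂ, ‖w z‖ ≤ K * Real.exp (lam * |z.im|) * ((1 + z.re ^ 2)⁻¹) ^ 2 := by
  have hsq : ∀ c x : ℝ, ((1 + |lam * (x - c)|) ^ p)⁻¹ ≤
      (2 * (1 + c ^ 2) * (1 + (lam⁻¹) ^ 2)) ^ 2 * ((1 + x ^ 2)⁻¹) ^ 2 := by
    intro c x
    have h1 := inv_sq_shift hl c (le_refl 2) x
    have h2 : ((1 + |lam * (x - c)|) ^ p)⁻¹ ≤ (((1 + |lam * (x - c)|) ^ 2)⁻¹) ^ 2 := by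
      rw [← inv_pow, ← inv_pow, ← pow_mul]
      exact pow_le_pow_of_le_one (by positivity)
        (inv_le_one_of_one_le₀ (by linarith [abs_nonneg (lam * (x - c))])) hp
    rw [← mul_pow]
    exact h2.trans (pow_le_pow_left₀ (by positivity) h1 2)
  obtain ⟨A, hA⟩ : ∃ A : ℝ, A = C * ((2 * (1 + t ^ 2) * (1 + (lam⁻¹) ^ 2)) ^ 2 +
    (2 * (1 + (t + V) ^ 2) * (1 + (lam⁻¹) ^ 2)) ^ 2) := ⟨_, rfl⟩
  have hA0 : 0 ≤ A := by rw [hA]; positivity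
  have hEr : ∀ x : ℝ, C * Er p lam t V x ≤ A * ((1 + x ^ 2)⁻¹) ^ 2 := by
    intro x
    rw [hA]
    unfold Er
    have h1 := hsq t x
    have h2 := hsq (t + V) x
    calc C * (((1 + |lam * (x - t)|) ^ p)⁻¹ + ((1 + |lam * (x - (t + V))|) ^ p)⁻¹) ≤
        C * ((2 * (1 + t ^ 2) * (1 + (lam⁻¹) ^ 2)) ^ 2 * ((1 + x ^ 2)⁻¹) ^ 2 +
          (2 * (1 + (t + V) ^ 2) * (1 + (lam⁻¹) ^ 2)) ^ 2 * ((1 + x ^ 2)⁻¹) ^ 2) :=
          mul_le_mul_of_nonneg_left (add_le_add h1 h2) hC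
      _ = _ := by ring
  refine ⟨A + (1 + (|t| + |t + V|) ^ 2) ^ 2, by positivity, fun z => ?_⟩
  have he : 1 ≤ Real.exp (lam * |z.im|) := Real.one_le_exp (by positivity)
  have hEz := mul_le_mul_of_nonneg_right (hEr z.re) (Real.exp_pos (lam * |z.im|)).le
  have hB : 0 ≤ (1 + (|t| + |t + V|) ^ 2) ^ 2 * Real.exp (lam * |z.im|) *
      ((1 + z.re ^ 2)⁻¹) ^ 2 := by
    positivity
  by_cases h1 : z.re ≤ t ∨ t + V ≤ z.re
  · have h2 := h.far z h1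
    calc ‖w z‖ ≤ C * Real.exp (lam * |z.im|) * Er p lam t V z.re := h2
      _ = C * Er p lam t V z.re * Real.exp (lam * |z.im|) := by ring
      _ ≤ A * ((1 + z.re ^ 2)⁻¹) ^ 2 * Real.exp (lam * |z.im|) := hEz
      _ ≤ _ := by linarith [hB]
  · push Not at h1
    have h2 := h.near z h1.1.le h1.2.le
    have h3 : ‖w z‖ ≤ 1 + ‖1 - w z‖ := by
      have := norm_sub_le (1 : ℂ) (1 - w z)
      rw [sub_sub_cancel, norm_one] at this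
      exact this
    have h4 : |z.re| ≤ |t| + |t + V| := by
      rw [abs_le]
      constructor
      · have := neg_abs_le t
        have := abs_nonneg (t + V)
        linarith [h1.1]
      · have := le_abs_self (t + V)
        have := abs_nonneg t
        linarith [h1.2]
    have h5 : z.re ^ 2 ≤ (|t| + |t + V|) ^ 2 := by
      rw [← sq_abs z.re]
      exact pow_le_pow_left₀ (abs_nonneg _) h4 2
    have h6 : 1 ≤ (1 + (|t| + |t + V|) ^ 2) ^ 2 * ((1 + z.re ^ 2)⁻¹) ^ 2 := by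
      rw [← mul_pow]
      refine one_le_pow₀ ?_
      rw [← div_eq_mul_inv, le_div_iff₀ (by positivity)]
      linarith
    calc ‖w z‖ ≤ 1 + C * Real.exp (lam * |z.im|) * Er p lam t V z.re := by linarith
      _ = 1 + C * Er p lam t V z.re * Real.exp (lam * |z.im|) := by ring
      _ ≤ ((1 + (|t| + |t + V|) ^ 2) ^ 2 * ((1 + z.re ^ 2)⁻¹) ^ 2) * Real.exp (lam * |z.im|) +
          A * ((1 + z.re ^ 2)⁻¹) ^ 2 * Real.exp (lam * |z.im|) := by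
          refine add_le_add ?_ hEz
          exact one_le_mul_of_one_le_of_one_le h6 he
      _ = _ := by ring

/-- the analytic data of one `L`-function -/
structure XF (F : ℂ → ℂ) (a : ℕ → ℂ) (G : ℂ → ℂ) : Prop where
  diff : Differentiable ℂ F
  ne : ∀ s : ℂ, 1 < s.re → F s ≠ 0
  nel : ∀ s : ℂ, -(1 / 2) < s.re → s.re < 0 → F s ≠ 0
  a0 : a 0 = 0
  sm : Summable (fun n : ℕ => ‖a n‖ * (n : ℝ) ^ (-(5 / 4) : ℝ))
  ld : ∀ s : ℂ, 1 < s.re → deriv F s / F s = - ∑' n : ℕ, a n * (n : ℂ) ^ (-s)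
  fe : ∀ s : ℂ, s.re = -(1 / 4) → s.im ≠ 0 → deriv F s / F s = -(G s) -
    (starRingEnd ℂ) (deriv F (1 - (starRingEnd ℂ) s) / F (1 - (starRingEnd ℂ) s))
  Gd : DifferentiableOn ℂ G {s : ℂ | -(1 / 2) < s.re ∧ s.re < 3 / 2}
  Gb : ∃ K : ℝ, 0 ≤ K ∧ ∀ s : ℂ, -(1 / 4) ≤ s.re → s.re ≤ 1 / 2 → ‖G s‖ ≤ K * (1 + |s.im|)
  up : ∀ e : ℝ, 0 < e → ∀ R : ℝ, ∃ U : ℝ, R ≤ U ∧ ∀ σ ∈ Icc (-(1 / 4) : ℝ) (5 / 4),
    F (⟨σ, U⟩ : ℂ) ≠ 0 ∧ ‖deriv F (⟨σ, U⟩ : ℂ) / F (⟨σ, U⟩ : ℂ)‖ ≤ e * (1 + U ^ 2)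
  dn : ∀ e : ℝ, 0 < e → ∀ R : ℝ, ∃ U : ℝ, R ≤ U ∧ ∀ σ ∈ Icc (-(1 / 4) : ℝ) (5 / 4),
    F (⟨σ, -U⟩ : ℂ) ≠ 0 ∧ ‖deriv F (⟨σ, -U⟩ : ℂ) / F (⟨σ, -U⟩ : ℂ)‖ ≤ e * (1 + U ^ 2)

/-- the prime sums -/
noncomputable def Pf (w : ℂ → ℂ) (a : ℕ → ℂ) (u : ℝ) : ℂ :=
  (1 / (2 * Real.pi) : ℝ) * ∑' n : ℕ, a n * ((Real.sqrt n : ℝ) : ℂ)⁻¹ * ft w (Real.log n - u)

/-- the dual prime sums -/
noncomputable def Pt (w : ℂ → ℂ) (a : ℕ → ℂ) (u : ℝ) : ℂ :=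
  (1 / (2 * Real.pi) : ℝ) * ∑' n : ℕ, (starRingEnd ℂ) (a n) * ((Real.sqrt n : ℝ) : ℂ)⁻¹ *
    ft w (-Real.log n - u)

/-- the archimedean term -/
noncomputable def Mf (w : ℂ → ℂ) (G : ℂ → ℂ) (u : ℝ) : ℂ :=
  (1 / (2 * Real.pi) : ℝ) * ∫ y : ℝ, G (pt (1 / 2) y) * (w y * cexp (I * u * y))

/-- the zeros between two heights -/
def zst (F : ℂ → ℂ) (V1 V2 : ℝ) : Set ℂ :=
  {s | s ∈ Ioo (-(1 / 4) : ℝ) (5 / 4) ×ℂ Ioo (-V1) V2 ∧ F s = 0}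

/-- tails -/
lemma tail_bd {f : ℝ → ℂ} (hf : AEStronglyMeasurable f) {K : ℝ}
    (hK : ∀ y, ‖f y‖ ≤ K * (1 + y ^ 2)⁻¹) {a b : ℝ} (hab : a ≤ b) :
    ‖(∫ y : ℝ, f y) - ∫ y in a..b, f y‖ ≤ K * (Real.pi - (Real.arctan b - Real.arctan a)) := by
  have hg : Integrable fun y : ℝ => K * (1 + y ^ 2)⁻¹ := integrable_inv_one_add_sq.const_mul K
  have hfi : Integrable f := hg.mono' hf (Eventually.of_forall hK)
  have h1 := integral_add_compl (μ := volume) (measurableSet_Ioc (a := a) (b := b)) hfi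
  have h2 := integral_add_compl (μ := volume) (measurableSet_Ioc (a := a) (b := b)) hg
  rw [intervalIntegral.integral_of_le hab, ← h1, add_sub_cancel_left]
  have h3 : ∫ y in a..b, K * (1 + y ^ 2)⁻¹ = K * (Real.arctan b - Real.arctan a) := by
    rw [intervalIntegral.integral_const_mul, integral_inv_one_add_sq]
  rw [intervalIntegral.integral_of_le hab] at h3
  have h4 : ∫ y : ℝ, K * (1 + y ^ 2)⁻¹ = K * Real.pi := by
    rw [integral_const_mul, integral_univ_inv_one_add_sq]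
  rw [h3, h4] at h2
  calc ‖∫ y in (Ioc a b)ᶜ, f y‖ ≤ ∫ y in (Ioc a b)ᶜ, K * (1 + y ^ 2)⁻¹ :=
        norm_integral_le_of_norm_le hg.integrableOn (Eventually.of_forall hK)
    _ = _ := by linarith

/-- exchange of sum and integral -/
lemma exch {b : ℕ → ℂ} (hb : Summable fun n : ℕ => ‖b n‖ * (n : ℝ) ^ (-(5 / 4) : ℝ))
    {g : ℕ → ℝ → ℂ} (hg : ∀ n, Continuous (g n)) {H : ℝ}
    (hH : ∀ n y, ‖g n y‖ ≤ (‖b n‖ * (n : ℝ) ^ (-(5 / 4) : ℝ)) * (H * (1 + y ^ 2)⁻¹)) :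
    ∑' n, ∫ y : ℝ, g n y = ∫ y : ℝ, ∑' n, g n y := by
  have hi : ∀ n, Integrable fun y : ℝ => (‖b n‖ * (n : ℝ) ^ (-(5 / 4) : ℝ)) *
      (H * (1 + y ^ 2)⁻¹) := fun n => (integrable_inv_one_add_sq.const_mul H).const_mul _
  refine integral_tsum_of_summable_integral_norm (fun n => ?_) ?_
  · exact (hi n).mono' (hg n).aestronglyMeasurable (Eventually.of_forall (hH n))
  · refine Summable.of_nonneg_of_le (fun n => integral_nonneg fun y => norm_nonneg _)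
      (fun n => ?_) (hb.mul_right (H * Real.pi))
    have h1 := integral_mono_of_nonneg (Eventually.of_forall fun y => norm_nonneg (g n y)) (hi n)
      (Eventually.of_forall (hH n))
    rw [integral_const_mul, integral_const_mul, integral_univ_inv_one_add_sq] at h1
    exact h1

lemma zz_pt (c y : ℝ) : zz (pt c y) = -I * pt (c - 1 / 2) y := by
  unfold zz Pool.Agent.R399.TW.pt
  push_cast
  ring

lemma zz_re (s : ℂ) : (zz s).re = s.im := by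
  unfold zz; simp

lemma zz_im (s : ℂ) : (zz s).im = 1 / 2 - s.re := by
  unfold zz
  simp

/-- powers of `n` on vertical lines -/
lemma cpow_pt {n : ℕ} (hn : n ≠ 0) (s : ℂ) :
    (n : ℂ) ^ (-(s + 1 / 2)) = ((Real.sqrt n : ℝ) : ℂ)⁻¹ * cexp (-(Real.log n * s)) := by
  have hn0 : (0 : ℝ) < n := by exact_mod_cast Nat.pos_of_ne_zero hn
  have hnc : (n : ℂ) ≠ 0 := by exact_mod_cast hn
  have e1 : -(s + 1 / 2) = -(1 / 2 : ℂ) + -s := by ring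
  rw [e1, Complex.cpow_add _ _ hnc]
  congr 1
  · rw [Real.sqrt_eq_rpow, Complex.cpow_neg]
    congr 1
    have : ((n : ℝ) : ℂ) ^ ((1 / 2 : ℝ) : ℂ) = (((n : ℝ) ^ (1 / 2 : ℝ) : ℝ) : ℂ) :=
      (Complex.ofReal_cpow hn0.le _).symm
    rw [← this]
    push_cast
    norm_num
  · rw [Complex.cpow_def_of_ne_zero hnc]
    congr 1
    rw [Complex.natCast_log]
    ring

/-- the size of the weight on vertical lines -/
lemma h_bd {K : ℝ} (hK0 : 0 ≤ K) (hl : 0 < lam)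
    (hK : ∀ z : ℂ, ‖w z‖ ≤ K * Real.exp (lam * |z.im|) * ((1 + z.re ^ 2)⁻¹) ^ 2)
    {Λ u : ℝ} (hu0 : 0 ≤ u) (hu : u ≤ Λ) (s : ℂ) (h1 : -(1 / 4) ≤ s.re) (h2 : s.re ≤ 5 / 4) :
    ‖w (zz s) * cexp (I * u * zz s)‖ ≤
      K * Real.exp (lam + Λ) * ((1 + s.im ^ 2)⁻¹) ^ 2 := by
  rw [norm_mul, Complex.norm_exp]
  have h3 := hK (zz s)
  rw [zz_re, zz_im] at h3
  have h4 : |1 / 2 - s.re| ≤ 1 := by
    rw [abs_le]
    constructor <;> linarith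
  have e1 : (I * u * zz s).re = u * (s.re - 1 / 2) := by
    unfold zz
    simp
  have h5 : u * (s.re - 1 / 2) ≤ Λ := by
    have : u * (s.re - 1 / 2) ≤ u * 1 := mul_le_mul_of_nonneg_left (by linarith) hu0
    linarith
  rw [e1]
  calc ‖w (zz s)‖ * Real.exp (u * (s.re - 1 / 2)) ≤
      (K * Real.exp (lam * |1 / 2 - s.re|) * ((1 + s.im ^ 2)⁻¹) ^ 2) * Real.exp Λ :=
        mul_le_mul h3 (Real.exp_le_exp.mpr h5) (Real.exp_pos _).le (by positivity)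
    _ ≤ (K * Real.exp lam * ((1 + s.im ^ 2)⁻¹) ^ 2) * Real.exp Λ := by
        refine mul_le_mul_of_nonneg_right (mul_le_mul_of_nonneg_right
          (mul_le_mul_of_nonneg_left ?_ hK0) (by positivity)) (Real.exp_pos _).le
        refine Real.exp_le_exp.mpr ?_
        calc lam * |1 / 2 - s.re| ≤ lam * 1 := mul_le_mul_of_nonneg_left h4 hl.le
          _ = lam := mul_one _
    _ = _ := by rw [Real.exp_add]; ring

lemma inv_sq_le (y : ℝ) : ((1 + y ^ 2)⁻¹) ^ 2 ≤ (1 + y ^ 2)⁻¹ := by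
  have h1 : (1 + y ^ 2)⁻¹ ≤ 1 := inv_le_one_of_one_le₀ (by nlinarith [sq_nonneg y])
  have h2 : 0 ≤ (1 + y ^ 2)⁻¹ := by positivity
  nlinarith

lemma lin_inv_sq_le (y : ℝ) : (1 + |y|) * ((1 + y ^ 2)⁻¹) ^ 2 ≤ 2 * (1 + y ^ 2)⁻¹ := by
  have h1 : 1 + |y| ≤ 2 * (1 + y ^ 2) := by
    have := sq_abs y
    nlinarith [sq_nonneg (|y| - 1)]
  have h2 : 0 < 1 + y ^ 2 := by positivity
  have h3 : ((1 + y ^ 2)⁻¹) ^ 2 = (1 + y ^ 2)⁻¹ * (1 + y ^ 2)⁻¹ := sq _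
  rw [h3, ← mul_assoc]
  have h4 : (1 + |y|) * (1 + y ^ 2)⁻¹ ≤ 2 := by
    rw [← div_eq_mul_inv, div_le_iff₀ h2]
    exact h1
  exact mul_le_mul_of_nonneg_right h4 (by positivity)

end Pool.Agent.V8H15.LW
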