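import Pool.Agent.V8H15.LW.Exp

/-!
# The explicit formula with an entire window, continued

Project LW (helper15).
-/

set_option autoImplicit false

open MeasureTheory Set Filter Topology Complex

namespace Pool.Agent.V8H15.LW

open Pool.Agent.R399.TW (pt pt_re pt_im pt_cont strip)
open Pool.Agent.N786.D (vshift2)
open H385 (zz)
open H370 (mult)

variable {w : ℂ → ℂ} {C lam t V : ℝ} {p : ℕ}
variable {F : ℂ → ℂ} {a : ℕ → ℂ} {G : ℂ → ℂ}

/-- the weight on vertical lines -/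
noncomputable def hh (w : ℂ → ℂ) (u : ℝ) (s : ℂ) : ℂ := w (zz s) * cexp (I * u * zz s)

lemma hh_diff (hw : Wnd w C lam t V p) (u : ℝ) : Differentiable ℂ (hh w u) := by
  have h1 : Differentiable ℂ zz := by unfold zz; fun_prop
  unfold hh
  exact (hw.diff.comp h1).mul ((h1.const_mul _).cexp)

lemma pt_cont' (c : ℝ) : Continuous fun y : ℝ => pt c y := pt_cont c

/-- the integral over the right line -/
theorem right_line (hF : XF F a G) (hw : Wnd w C lam t V p) (hl : 0 < lam) (hp : 4 ≤ p)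
    (hC : 0 ≤ C) {u : ℝ} (hu0 : 0 ≤ u) :
    ∫ y : ℝ, deriv F (pt (5 / 4) y) / F (pt (5 / 4) y) * hh w u (pt (5 / 4) y) =
      - ∑' n : ℕ, a n * ((Real.sqrt n : ℝ) : ℂ)⁻¹ * ft w (Real.log n - u) := by
  obtain ⟨K, hK0, hK⟩ := hw.decay4 hl hp hC
  have hb := h_bd hK0 hl hK hu0 le_rfl
  obtain ⟨H, hH⟩ : ∃ H : ℝ, H = K * Real.exp (lam + u) := ⟨_, rfl⟩
  have hH0 : 0 ≤ H := by rw [hH]; positivity
  obtain ⟨g, hg⟩ : ∃ g : ℕ → ℝ → ℂ, ∀ n y, g n y = a n * (n : ℂ) ^ (-(pt (5 / 4) y)) *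
    hh w u (pt (5 / 4) y) := ⟨_, fun _ _ => rfl⟩
  have hgc : ∀ n, Continuous (g n) := by
    intro n
    have e : g n = fun y => a n * (n : ℂ) ^ (-(pt (5 / 4) y)) * hh w u (pt (5 / 4) y) :=
      funext (hg n)
    rw [e]
    refine Continuous.mul ?_ ((hh_diff hw u).continuous.comp (pt_cont' _))
    rcases Nat.eq_zero_or_pos n with h0 | h0
    · subst h0
      rw [hF.a0]
      simp only [zero_mul]
      exact continuous_const
    · refine continuous_const.mul ?_
      refine Continuous.const_cpow (pt_cont' _).neg (Or.inl ?_)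
      exact_mod_cast h0.ne'
  have hgb : ∀ n y, ‖g n y‖ ≤ (‖a n‖ * (n : ℝ) ^ (-(5 / 4) : ℝ)) * (H * (1 + y ^ 2)⁻¹) := by
    intro n y
    rw [hg]
    rcases Nat.eq_zero_or_pos n with h0 | h0
    · subst h0
      rw [hF.a0]
      simp
    · rw [norm_mul, norm_mul, Complex.norm_natCast_cpow_of_pos h0]
      have e1 : (-(pt (5 / 4) y)).re = -(5 / 4) := by rw [Complex.neg_re, pt_re]
      rw [e1]
      refine mul_le_mul_of_nonneg_left ?_ (by positivity)
      have h2 := hb (pt (5 / 4) y) (by rw [pt_re]; norm_num) (by rw [pt_re])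
      rw [pt_im, ← hH] at h2
      exact h2.trans (mul_le_mul_of_nonneg_left (inv_sq_le y) hH0)
  have h1 := exch hF.sm hgc hgb
  have h2 : ∀ y : ℝ, deriv F (pt (5 / 4) y) / F (pt (5 / 4) y) * hh w u (pt (5 / 4) y) =
      -∑' n, g n y := by
    intro y
    rw [hF.ld _ (by rw [pt_re]; norm_num), neg_mul, ← tsum_mul_right]
    congr 1
    exact tsum_congr fun n => (hg n y).symm
  simp_rw [h2]
  rw [integral_neg, ← h1]
  congr 1
  refine tsum_congr fun n => ?_
  rcases Nat.eq_zero_or_pos n with h0 | h0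
  · subst h0
    have : ∀ y, g 0 y = 0 := fun y => by rw [hg, hF.a0, zero_mul, zero_mul]
    simp_rw [this]
    rw [integral_zero, hF.a0]
    ring
  · rw [hw.shift hl (by omega) hC (Real.log n - u) (3 / 4), ← integral_const_mul]
    refine integral_congr_ae (Eventually.of_forall fun y => ?_)
    simp only
    rw [hg]
    unfold hh
    rw [zz_pt]
    have e1 : (5 / 4 - 1 / 2 : ℝ) = 3 / 4 := by norm_num
    have e2 : pt (5 / 4) y = pt (3 / 4) y + 1 / 2 := by
      unfold Pool.Agent.R399.TW.pt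
      push_cast
      ring
    rw [e1, e2, cpow_pt h0.ne']
    have e3 : cexp (-(Real.log n * pt (3 / 4) y)) * cexp (I * u * (-I * pt (3 / 4) y)) =
        cexp (-(((Real.log n - u : ℝ) : ℂ) * pt (3 / 4) y)) := by
      rw [← Complex.exp_add]
      congr 1
      push_cast
      linear_combination (-(u : ℂ) * pt (3 / 4) y) * Complex.I_sq
    rw [← e3]
    ring

/-- the dual integral -/
theorem dual_line (hF : XF F a G) (hw : Wnd w C lam t V p) (hl : 0 < lam) (hp : 4 ≤ p)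
    (hC : 0 ≤ C) {u : ℝ} (hu0 : 0 ≤ u) :
    ∫ y : ℝ, (starRingEnd ℂ) (deriv F (pt (5 / 4) y) / F (pt (5 / 4) y)) *
      hh w u (pt (-(1 / 4)) y) =
      - ∑' n : ℕ, (starRingEnd ℂ) (a n) * ((Real.sqrt n : ℝ) : ℂ)⁻¹ *
        ft w (-Real.log n - u) := by
  obtain ⟨K, hK0, hK⟩ := hw.decay4 hl hp hC
  have hb := h_bd hK0 hl hK hu0 le_rfl
  obtain ⟨H, hH⟩ : ∃ H : ℝ, H = K * Real.exp (lam + u) := ⟨_, rfl⟩
  have hH0 : 0 ≤ H := by rw [hH]; positivity
  obtain ⟨g, hg⟩ : ∃ g : ℕ → ℝ → ℂ, ∀ n y, g n y =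
    (starRingEnd ℂ) (a n * (n : ℂ) ^ (-(pt (5 / 4) y))) *
    hh w u (pt (-(1 / 4)) y) := ⟨_, fun _ _ => rfl⟩
  have hgc : ∀ n, Continuous (g n) := by
    intro n
    have e : g n = fun y => (starRingEnd ℂ) (a n * (n : ℂ) ^ (-(pt (5 / 4) y))) *
      hh w u (pt (-(1 / 4)) y) := funext (hg n)
    rw [e]
    refine Continuous.mul ?_ ((hh_diff hw u).continuous.comp (pt_cont' _))
    refine Complex.continuous_conj.comp ?_
    rcases Nat.eq_zero_or_pos n with h0 | h0
    · subst h0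
      rw [hF.a0]
      simp only [zero_mul]
      exact continuous_const
    · refine continuous_const.mul ?_
      refine Continuous.const_cpow (pt_cont' _).neg (Or.inl ?_)
      exact_mod_cast h0.ne'
  have hgb : ∀ n y, ‖g n y‖ ≤ (‖a n‖ * (n : ℝ) ^ (-(5 / 4) : ℝ)) * (H * (1 + y ^ 2)⁻¹) := by
    intro n y
    rw [hg]
    rcases Nat.eq_zero_or_pos n with h0 | h0
    · subst h0
      rw [hF.a0]
      simp
    · rw [norm_mul, RCLike.norm_conj, norm_mul, Complex.norm_natCast_cpow_of_pos h0]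
      have e1 : (-(pt (5 / 4) y)).re = -(5 / 4) := by rw [Complex.neg_re, pt_re]
      rw [e1]
      refine mul_le_mul_of_nonneg_left ?_ (by positivity)
      have h2 := hb (pt (-(1 / 4)) y) (by rw [pt_re]) (by rw [pt_re]; norm_num)
      rw [pt_im, ← hH] at h2
      exact h2.trans (mul_le_mul_of_nonneg_left (inv_sq_le y) hH0)
  have h1 := exch hF.sm hgc hgb
  have h2 : ∀ y : ℝ, (starRingEnd ℂ) (deriv F (pt (5 / 4) y) / F (pt (5 / 4) y)) *
      hh w u (pt (-(1 / 4)) y) = -∑' n, g n y := by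
    intro y
    rw [hF.ld _ (by rw [pt_re]; norm_num), map_neg, Complex.conj_tsum, neg_mul, ← tsum_mul_right]
    congr 1
    exact tsum_congr fun n => (hg n y).symm
  simp_rw [h2]
  rw [integral_neg, ← h1]
  congr 1
  refine tsum_congr fun n => ?_
  rcases Nat.eq_zero_or_pos n with h0 | h0
  · subst h0
    have : ∀ y, g 0 y = 0 := fun y => by rw [hg, hF.a0, zero_mul, map_zero, zero_mul]
    simp_rw [this]
    rw [integral_zero, hF.a0, map_zero]
    ring
  · rw [hw.shift hl (by omega) hC (-Real.log n - u) (-(3 / 4)), ← integral_const_mul]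
    refine integral_congr_ae (Eventually.of_forall fun y => ?_)
    simp only
    rw [hg]
    unfold hh
    rw [zz_pt]
    have e1 : (-(1 / 4) - 1 / 2 : ℝ) = -(3 / 4) := by norm_num
    have e2 : pt (5 / 4) y = pt (3 / 4) y + 1 / 2 := by
      unfold Pool.Agent.R399.TW.pt
      push_cast
      ring
    rw [e1, e2, cpow_pt h0.ne', map_mul, map_mul, map_inv₀, Complex.conj_ofReal,
      ← Complex.exp_conj]
    have e4 : (starRingEnd ℂ) (-(Real.log n * pt (3 / 4) y)) =
        Real.log n * pt (-(3 / 4)) y := by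
      unfold Pool.Agent.R399.TW.pt
      simp only [map_neg, map_mul, map_add, Complex.conj_ofReal, Complex.conj_I]
      push_cast
      ring
    have e3 : cexp (Real.log n * pt (-(3 / 4)) y) * cexp (I * u * (-I * pt (-(3 / 4)) y)) =
        cexp (-(((-Real.log n - u : ℝ) : ℂ) * pt (-(3 / 4)) y)) := by
      rw [← Complex.exp_add]
      congr 1
      push_cast
      linear_combination (-(u : ℂ) * pt (-(3 / 4)) y) * Complex.I_sq
    rw [e4, ← e3]
    ring

/-- the archimedean integral -/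
theorem arch_line (hF : XF F a G) (hw : Wnd w C lam t V p) (hl : 0 < lam) (hp : 4 ≤ p)
    (hC : 0 ≤ C) {u : ℝ} (hu0 : 0 ≤ u) :
    ∫ y : ℝ, G (pt (-(1 / 4)) y) * hh w u (pt (-(1 / 4)) y) =
      ∫ y : ℝ, G (pt (1 / 2) y) * (w y * cexp (I * u * y)) := by
  obtain ⟨K, hK0, hK⟩ := hw.decay4 hl hp hC
  have hb := h_bd hK0 hl hK hu0 le_rfl
  obtain ⟨H, hH⟩ : ∃ H : ℝ, H = K * Real.exp (lam + u) := ⟨_, rfl⟩
  have hH0 : 0 ≤ H := by rw [hH]; positivity
  obtain ⟨K', hK'0, hK'⟩ := hF.Gb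
  obtain ⟨f, hf⟩ : ∃ f : ℂ → ℂ, ∀ s, f s = G s * hh w u s := ⟨_, fun _ => rfl⟩
  have hfe : f = fun s => G s * hh w u s := funext hf
  have hfd : DifferentiableOn ℂ f {s : ℂ | -(1 / 2) < s.re ∧ s.re < 3 / 2} := by
    rw [hfe]
    exact hF.Gd.mul (hh_diff hw u).differentiableOn
  have hbd : ∀ z ∈ strip (-(1 / 4)) (1 / 2), ‖f z‖ ≤ (2 * (K' * H)) * (1 + z.im ^ 2)⁻¹ := by
    intro z hz
    rw [hf, norm_mul]
    have h1 := hK' z hz.1 hz.2
    have h2 := hb z hz.1 (by linarith [hz.2])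
    rw [← hH] at h2
    calc ‖G z‖ * ‖hh w u z‖ ≤ (K' * (1 + |z.im|)) * (H * ((1 + z.im ^ 2)⁻¹) ^ 2) :=
          mul_le_mul h1 h2 (norm_nonneg _) (by positivity)
      _ = (K' * H) * ((1 + |z.im|) * ((1 + z.im ^ 2)⁻¹) ^ 2) := by ring
      _ ≤ (K' * H) * (2 * (1 + z.im ^ 2)⁻¹) :=
          mul_le_mul_of_nonneg_left (lin_inv_sq_le _) (by positivity)
      _ = _ := by ring
  have h1 := vshift2 (f := f) (a := -(1 / 4)) (b := 1 / 2) (by norm_num)
    (hfd.continuousOn.mono fun z hz => ⟨by linarith [hz.1], by linarith [hz.2]⟩)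
    (hfd.mono fun z hz => ⟨by linarith [hz.1], by linarith [hz.2]⟩) hbd
  simp_rw [hf] at h1
  rw [h1]
  refine integral_congr_ae (Eventually.of_forall fun y => ?_)
  simp only
  unfold hh
  rw [zz_pt]
  have e1 : -I * pt (1 / 2 - 1 / 2) y = (y : ℂ) := by
    unfold Pool.Agent.R399.TW.pt
    push_cast
    linear_combination (-(y : ℂ)) * Complex.I_sq
  rw [e1]

end Pool.Agent.V8H15.LW
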