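import Pool.Agent.V8H15.LW.Exp2

/-!
# The explicit formula with an entire window, conclusion

Project LW (helper15).
-/

set_option autoImplicit false

open MeasureTheory Set Filter Topology Complex

namespace Pool.Agent.V8H15.LW

open Pool.Agent.R399.TW (pt pt_re pt_im pt_cont strip)
open H385 (zz)
open H370 (mult rect_residue)

variable {w : ℂ → ℂ} {C lam t V : ℝ} {p : ℕ}
variable {F : ℂ → ℂ} {a : ℕ → ℂ} {G : ℂ → ℂ}

lemma mk_pt (c y : ℝ) : (⟨c, y⟩ : ℂ) = pt c y := by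
  apply Complex.ext
  · rw [pt_re]
  · rw [pt_im]

/-- the logarithmic derivative on the right line -/
lemma ld_bd (hF : XF F a G) (y : ℝ) : ‖deriv F (pt (5 / 4) y) / F (pt (5 / 4) y)‖ ≤
    ∑' n : ℕ, ‖a n‖ * (n : ℝ) ^ (-(5 / 4) : ℝ) := by
  rw [hF.ld _ (by rw [pt_re]; norm_num), norm_neg]
  have h1 : ∀ n : ℕ, ‖a n * (n : ℂ) ^ (-(pt (5 / 4) y))‖ = ‖a n‖ * (n : ℝ) ^ (-(5 / 4) : ℝ) := by
    intro n
    rcases Nat.eq_zero_or_pos n with h0 | h0
    · subst h0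
      rw [hF.a0]
      simp
    · rw [norm_mul, Complex.norm_natCast_cpow_of_pos h0]
      have e1 : (-(pt (5 / 4) y)).re = -(5 / 4) := by rw [Complex.neg_re, pt_re]
      rw [e1]
  have h2 : Summable fun n : ℕ => ‖a n * (n : ℂ) ^ (-(pt (5 / 4) y))‖ := by
    simp_rw [h1]
    exact hF.sm
  refine (norm_tsum_le_tsum_norm h2).trans (le_of_eq ?_)
  exact tsum_congr h1

lemma ld_cont (hF : XF F a G) :
    Continuous fun y : ℝ => deriv F (pt (5 / 4) y) / F (pt (5 / 4) y) := by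
  have h1 : Continuous (deriv F) := hF.diff.contDiff.continuous_deriv (n := 2) (by norm_num)
  exact (h1.comp (pt_cont' _)).div (hF.diff.continuous.comp (pt_cont' _))
    fun y => hF.ne _ (by rw [pt_re]; norm_num)

/-- **The explicit formula.** -/
theorem explicit (hF : XF F a G) (hw : Wnd w C lam t V p) (hl : 0 < lam) (hp : 4 ≤ p)
    (hC : 0 ≤ C) (Λ : ℝ) {e : ℝ} (he : 0 < e) (R : ℝ) :
    ∃ V1 V2 : ℝ, R ≤ V1 ∧ R ≤ V2 ∧ ∃ hfin : (zst F V1 V2).Finite, ∀ u ∈ Icc 0 Λ,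
      ‖(∑ s ∈ hfin.toFinset, (mult F s : ℂ) * (w (zz s) * cexp (I * u * zz s))) -
        (Mf w G u - Pf w a u - Pt w a u)‖ ≤ e := by
  obtain ⟨K, hK0, hK⟩ := hw.decay4 hl hp hC
  obtain ⟨H, hH⟩ : ∃ H : ℝ, H = K * Real.exp (lam + |Λ|) := ⟨_, rfl⟩
  have hH0 : 0 ≤ H := by rw [hH]; positivity
  obtain ⟨K', hK'0, hK'⟩ := hF.Gb
  obtain ⟨A1, hA1⟩ : ∃ A1 : ℝ, A1 = ∑' n : ℕ, ‖a n‖ * (n : ℝ) ^ (-(5 / 4) : ℝ) := ⟨_, rfl⟩
  have hA10 : 0 ≤ A1 := by rw [hA1]; exact tsum_nonneg fun n => by positivity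
  have hpi := Real.pi_pos
  have hpi3 := Real.pi_gt_three
  -- total constant of the three lines
  obtain ⟨D, hD⟩ : ∃ D : ℝ, D = 2 * (A1 * H) + 2 * (K' * H) := ⟨_, rfl⟩
  have hD0 : 0 ≤ D := by rw [hD]; positivity
  -- choice of the heights
  obtain ⟨R1, hR1⟩ : ∃ R1 : ℝ, ∀ x : ℝ, R1 ≤ x → D * (Real.pi / 2 - Real.arctan x) ≤ e := by
    have h1 : Tendsto (fun x : ℝ => D * (Real.pi / 2 - Real.arctan x)) atTop
        (𝓝 (D * (Real.pi / 2 - Real.pi / 2))) :=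
      ((tendsto_nhds_of_tendsto_nhdsWithin Real.tendsto_arctan_atTop).const_sub _).const_mul D
    rw [sub_self, mul_zero] at h1
    obtain ⟨R1, h2⟩ := (h1.eventually (Iio_mem_nhds he)).exists_forall_of_atTop
    exact ⟨R1, fun x hx => (Set.mem_Iio.mp (h2 x hx)).le⟩
  obtain ⟨e', he'⟩ : ∃ e' : ℝ, e' = e / (2 * (H + 1)) := ⟨_, rfl⟩
  have he'0 : 0 < e' := by rw [he']; positivity
  have he'H : e' * H ≤ e / 2 := by
    rw [he', div_mul_eq_mul_div, div_le_div_iff₀ (by positivity) (by norm_num)]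
    nlinarith
  obtain ⟨V2, hV2, hup⟩ := hF.up e' he'0 (max (max R R1) 1)
  obtain ⟨V1, hV1, hdn⟩ := hF.dn e' he'0 (max (max R R1) 1)
  have hV1R : R ≤ V1 := (le_max_left _ _).trans ((le_max_left _ _).trans hV1)
  have hV2R : R ≤ V2 := (le_max_left _ _).trans ((le_max_left _ _).trans hV2)
  have hV1R1 : R1 ≤ V1 := (le_max_right _ _).trans ((le_max_left _ _).trans hV1)
  have hV2R1 : R1 ≤ V2 := (le_max_right _ _).trans ((le_max_left _ _).trans hV2)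
  have hV1' : 1 ≤ V1 := (le_max_right _ _).trans hV1
  have hV2' : 1 ≤ V2 := (le_max_right _ _).trans hV2
  have hVV : -V1 < V2 := by linarith
  have harc : D * (Real.pi - (Real.arctan V2 - Real.arctan (-V1))) ≤ 2 * e := by
    have h1 := hR1 V1 hV1R1
    have h2 := hR1 V2 hV2R1
    rw [Real.arctan_neg]
    nlinarith
  have hbd : ∀ s ∈ Icc (-(1 / 4) : ℝ) (5 / 4) ×ℂ Icc (-V1) V2, F s = 0 →
      s ∈ Ioo (-(1 / 4) : ℝ) (5 / 4) ×ℂ Ioo (-V1) V2 := by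
    intro s hs h0
    rw [Complex.mem_reProdIm] at hs ⊢
    obtain ⟨⟨a1, a2⟩, ⟨a3, a4⟩⟩ := hs
    have b1 : s.re ≤ 1 := by
      by_contra hcon
      push Not at hcon
      exact hF.ne s hcon h0
    have b2 : 0 ≤ s.re := by
      by_contra hcon
      push Not at hcon
      exact hF.nel s (by linarith) hcon h0
    refine ⟨⟨by linarith, by linarith⟩, ⟨lt_of_le_of_ne a3 ?_, lt_of_le_of_ne a4 ?_⟩⟩
    · intro h
      refine (hdn s.re ⟨a1, a2⟩).1 ?_
      have : (⟨s.re, -V1⟩ : ℂ) = s := by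
        apply Complex.ext
        · rfl
        · exact h
      rw [this, h0]
    · intro h
      refine (hup s.re ⟨a1, a2⟩).1 ?_
      have : (⟨s.re, V2⟩ : ℂ) = s := by
        apply Complex.ext
        · rfl
        · exact h.symm
      rw [this, h0]
  have hfin : (zst F V1 V2).Finite :=
    (rect_residue F (fun _ => 1) (-(1 / 4)) (5 / 4) (-V1) V2 (by norm_num) hVV
      (fun z _ => hF.diff.analyticAt z) (differentiable_const _) hbd).1
  refine ⟨V1, V2, hV1R, hV2R, hfin, ?_⟩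
  intro u hu
  have hu0 := hu.1
  have huΛ : u ≤ |Λ| := hu.2.trans (le_abs_self _)
  have hb := h_bd hK0 hl hK hu0 huΛ
  rw [← hH] at hb
  have hb' : ∀ s : ℂ, -(1 / 4) ≤ s.re → s.re ≤ 5 / 4 → ‖hh w u s‖ ≤
      H * ((1 + s.im ^ 2)⁻¹) ^ 2 := hb
  have hres := (rect_residue F (hh w u) (-(1 / 4)) (5 / 4) (-V1) V2 (by norm_num) hVV
      (fun z _ => hF.diff.analyticAt z) (hh_diff hw u) hbd).2
  have hsum : ∑ᶠ s ∈ {s | s ∈ Ioo (-(1 / 4) : ℝ) (5 / 4) ×ℂ Ioo (-V1) V2 ∧ F s = 0},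
      (mult F s : ℂ) * hh w u s =
      ∑ s ∈ hfin.toFinset, (mult F s : ℂ) * (w (zz s) * cexp (I * u * zz s)) :=
    finsum_mem_eq_finite_toFinset_sum _ hfin
  rw [hsum] at hres
  obtain ⟨S, hS⟩ : ∃ S : ℂ, S = ∑ s ∈ hfin.toFinset, (mult F s : ℂ) *
    (w (zz s) * cexp (I * u * zz s)) := ⟨_, rfl⟩
  rw [← hS] at hres ⊢
  -- horizontal integrals
  have hhor : ∀ U : ℝ, (∀ σ ∈ Icc (-(1 / 4) : ℝ) (5 / 4), ‖deriv F (⟨σ, U⟩ : ℂ) /
      F (⟨σ, U⟩ : ℂ)‖ ≤ e' * (1 + U ^ 2)) →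
      ‖∫ x in (-(1 / 4) : ℝ)..(5 / 4), deriv F (⟨x, U⟩ : ℂ) / F (⟨x, U⟩ : ℂ) *
        hh w u (⟨x, U⟩ : ℂ)‖ ≤ 3 / 4 * e := by
    intro U hU
    have h1 : ∀ x ∈ uIoc (-(1 / 4) : ℝ) (5 / 4), ‖deriv F (⟨x, U⟩ : ℂ) / F (⟨x, U⟩ : ℂ) *
        hh w u (⟨x, U⟩ : ℂ)‖ ≤ e / 2 := by
      intro x hx
      rw [uIoc_of_le (by norm_num)] at hx
      rw [norm_mul]
      have h2 := hU x ⟨hx.1.le, hx.2⟩
      have h3 := hb' (⟨x, U⟩ : ℂ) hx.1.le hx.2
      simp only at h3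
      have h4 : 0 < 1 + U ^ 2 := by positivity
      calc _ ≤ (e' * (1 + U ^ 2)) * (H * ((1 + U ^ 2)⁻¹) ^ 2) :=
            mul_le_mul h2 h3 (norm_nonneg _) (by positivity)
        _ = (e' * H) * (1 + U ^ 2)⁻¹ := by field_simp
        _ ≤ (e' * H) * 1 := by
            refine mul_le_mul_of_nonneg_left ?_ (by positivity)
            exact inv_le_one_of_one_le₀ (by nlinarith [sq_nonneg U])
        _ ≤ e / 2 := by rw [mul_one]; exact he'H
    have h5 := intervalIntegral.norm_integral_le_of_norm_le_const h1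
    refine h5.trans (le_of_eq ?_)
    rw [abs_of_pos (by norm_num)]
    ring
  have hbot := hhor (-V1) (fun σ hσ => by
    have := (hdn σ hσ).2
    rwa [neg_sq])
  have htop := hhor V2 (fun σ hσ => (hup σ hσ).2)
  -- right line
  have hr := right_line hF hw hl hp hC hu0
  have hrc : Continuous fun y : ℝ => deriv F (pt (5 / 4) y) / F (pt (5 / 4) y) *
      hh w u (pt (5 / 4) y) := (ld_cont hF).mul ((hh_diff hw u).continuous.comp (pt_cont' _))
  have hrt := tail_bd hrc.aestronglyMeasurable (K := A1 * H) (fun y => by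
    rw [norm_mul]
    have h1 := ld_bd hF y
    rw [← hA1] at h1
    have h2 := hb' (pt (5 / 4) y) (by rw [pt_re]; norm_num) (by rw [pt_re])
    rw [pt_im] at h2
    calc _ ≤ A1 * (H * ((1 + y ^ 2)⁻¹) ^ 2) := mul_le_mul h1 h2 (norm_nonneg _) hA10
      _ ≤ A1 * (H * (1 + y ^ 2)⁻¹) := by
          have := inv_sq_le y
          gcongr
      _ = _ := by ring) hVV.le
  rw [hr] at hrt
  -- left line
  have hd := dual_line hF hw hl hp hC hu0
  have hdc : Continuous fun y : ℝ => (starRingEnd ℂ) (deriv F (pt (5 / 4) y) /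
      F (pt (5 / 4) y)) * hh w u (pt (-(1 / 4)) y) :=
    (Complex.continuous_conj.comp (ld_cont hF)).mul
      ((hh_diff hw u).continuous.comp (pt_cont' _))
  have hdb : ∀ y : ℝ, ‖(starRingEnd ℂ) (deriv F (pt (5 / 4) y) /
      F (pt (5 / 4) y)) * hh w u (pt (-(1 / 4)) y)‖ ≤ (A1 * H) * (1 + y ^ 2)⁻¹ := by
    intro y
    rw [norm_mul, RCLike.norm_conj]
    have h1 := ld_bd hF y
    rw [← hA1] at h1
    have h2 := hb' (pt (-(1 / 4)) y) (by rw [pt_re]) (by rw [pt_re]; norm_num)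
    rw [pt_im] at h2
    calc _ ≤ A1 * (H * ((1 + y ^ 2)⁻¹) ^ 2) := mul_le_mul h1 h2 (norm_nonneg _) hA10
      _ ≤ A1 * (H * (1 + y ^ 2)⁻¹) := by
          have := inv_sq_le y
          gcongr
      _ = _ := by ring
  have hdt := tail_bd hdc.aestronglyMeasurable hdb hVV.le
  rw [hd] at hdt
  have hg := arch_line hF hw hl hp hC hu0
  have hgc : Continuous fun y : ℝ => G (pt (-(1 / 4)) y) * hh w u (pt (-(1 / 4)) y) := by
    refine Continuous.mul ?_ ((hh_diff hw u).continuous.comp (pt_cont' _))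
    exact hF.Gd.continuousOn.comp_continuous (pt_cont' _) fun y => by
      rw [Set.mem_setOf_eq, pt_re]
      constructor <;> norm_num
  have hgt := tail_bd hgc.aestronglyMeasurable (K := 2 * (K' * H)) (fun y => by
    rw [norm_mul]
    have h1 := hK' (pt (-(1 / 4)) y) (by rw [pt_re]) (by rw [pt_re]; norm_num)
    have h2 := hb' (pt (-(1 / 4)) y) (by rw [pt_re]) (by rw [pt_re]; norm_num)
    rw [pt_im] at h1 h2
    calc _ ≤ (K' * (1 + |y|)) * (H * ((1 + y ^ 2)⁻¹) ^ 2) :=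
          mul_le_mul h1 h2 (norm_nonneg _) (by positivity)
      _ = (K' * H) * ((1 + |y|) * ((1 + y ^ 2)⁻¹) ^ 2) := by ring
      _ ≤ (K' * H) * (2 * (1 + y ^ 2)⁻¹) :=
          mul_le_mul_of_nonneg_left (lin_inv_sq_le _) (by positivity)
      _ = _ := by ring) hVV.le
  rw [hg] at hgt
  have hleft : ∫ y in (-V1)..V2, deriv F (⟨-(1 / 4), y⟩ : ℂ) / F (⟨-(1 / 4), y⟩ : ℂ) *
      hh w u (⟨-(1 / 4), y⟩ : ℂ) =
      -(∫ y in (-V1)..V2, G (pt (-(1 / 4)) y) * hh w u (pt (-(1 / 4)) y)) -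
      ∫ y in (-V1)..V2, (starRingEnd ℂ) (deriv F (pt (5 / 4) y) /
        F (pt (5 / 4) y)) * hh w u (pt (-(1 / 4)) y) := by
    rw [← intervalIntegral.integral_neg, ← intervalIntegral.integral_sub]
    · refine intervalIntegral.integral_congr_ae ?_
      have h0 : ∀ᵐ y : ℝ, y ≠ 0 := by
        rw [ae_iff]
        simp
      filter_upwards [h0] with y hy _
      rw [mk_pt, hF.fe _ (by rw [pt_re]) (by rw [pt_im]; exact hy)]
      have e1 : 1 - (starRingEnd ℂ) (pt (-(1 / 4)) y) = pt (5 / 4) y := by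
        apply Complex.ext
        · simp
          norm_num
        · simp
      rw [e1]
      ring
    · exact hgc.neg.intervalIntegrable _ _
    · exact hdc.intervalIntegrable _ _
  rw [hleft] at hres
  have hright : ∫ y in (-V1)..V2, deriv F (⟨5 / 4, y⟩ : ℂ) / F (⟨5 / 4, y⟩ : ℂ) *
      hh w u (⟨5 / 4, y⟩ : ℂ) = ∫ y in (-V1)..V2, deriv F (pt (5 / 4) y) / F (pt (5 / 4) y) *
      hh w u (pt (5 / 4) y) := by
    simp_rw [mk_pt]
  rw [hright] at hres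
  -- conclusion
  obtain ⟨π', hπ'⟩ : ∃ π' : ℂ, π' = ((Real.pi : ℝ) : ℂ) := ⟨_, rfl⟩
  have hπ0 : π' ≠ 0 := by rw [hπ']; exact_mod_cast hpi.ne'
  unfold Mf Pf Pt
  push_cast at hres ⊢
  rw [← hπ'] at hres ⊢
  generalize (∫ x in (-(1 / 4) : ℝ)..(5 / 4), deriv F (⟨x, -V1⟩ : ℂ) / F (⟨x, -V1⟩ : ℂ) *
        hh w u (⟨x, -V1⟩ : ℂ)) = B1 at *
  generalize (∫ x in (-(1 / 4) : ℝ)..(5 / 4), deriv F (⟨x, V2⟩ : ℂ) / F (⟨x, V2⟩ : ℂ) *
        hh w u (⟨x, V2⟩ : ℂ)) = B2 at *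
  generalize (∫ y in (-V1)..V2, deriv F (pt (5 / 4) y) / F (pt (5 / 4) y) *
      hh w u (pt (5 / 4) y)) = I1 at *
  generalize (∫ y in (-V1)..V2, G (pt (-(1 / 4)) y) * hh w u (pt (-(1 / 4)) y)) = I2 at *
  generalize (∫ y in (-V1)..V2, (starRingEnd ℂ) (deriv F (pt (5 / 4) y) /
        F (pt (5 / 4) y)) * hh w u (pt (-(1 / 4)) y)) = I3 at *
  generalize (∑' n : ℕ, a n * ((Real.sqrt n : ℝ) : ℂ)⁻¹ * ft w (Real.log n - u)) = T1 at *
  generalize (∑' n : ℕ, (starRingEnd ℂ) (a n) * ((Real.sqrt n : ℝ) : ℂ)⁻¹ *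
        ft w (-Real.log n - u)) = T2 at *
  generalize (∫ y : ℝ, G (pt (1 / 2) y) * (w y * cexp (I * u * y))) = T3 at *
  have hS2 : S - (1 / (2 * π') * T3 - 1 / (2 * π') * T1 - 1 / (2 * π') * T2) =
      1 / (2 * π') * (-I * (B1 - B2) - (-T1 - I1) - (T3 - I2) - (-T2 - I3)) := by
    have h1 : 2 * π' * S = -I * (B1 - B2) + I1 + I2 + I3 := by
      linear_combination (I : ℂ) * hres + (2 * π' * S - I1 - I2 - I3) * Complex.I_sq
    field_simp
    linear_combination h1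
  rw [hS2, norm_mul]
  have hn1 : ‖(1 / (2 * π') : ℂ)‖ = 1 / (2 * Real.pi) := by
    rw [hπ', norm_div, norm_mul, norm_one, Complex.norm_real, Real.norm_eq_abs,
      abs_of_pos hpi]
    norm_num
  have hn2 : ‖-I * (B1 - B2) - (-T1 - I1) - (T3 - I2) - (-T2 - I3)‖ ≤ 7 / 2 * e := by
    have c1 : ‖-I * (B1 - B2)‖ ≤ 3 / 2 * e := by
      rw [norm_mul, norm_neg, Complex.norm_I, one_mul]
      refine (norm_sub_le _ _).trans ?_
      linarith
    have c2 := norm_sub_le (-I * (B1 - B2) - (-T1 - I1) - (T3 - I2)) (-T2 - I3)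
    have c3 := norm_sub_le (-I * (B1 - B2) - (-T1 - I1)) (T3 - I2)
    have c4 := norm_sub_le (-I * (B1 - B2)) (-T1 - I1)
    have c5 : (A1 * H + A1 * H + 2 * (K' * H)) *
        (Real.pi - (Real.arctan V2 - Real.arctan (-V1))) ≤ 2 * e := by
      have : A1 * H + A1 * H + 2 * (K' * H) = D := by rw [hD]; ring
      rw [this]
      exact harc
    linarith
  rw [hn1]
  calc 1 / (2 * Real.pi) * ‖-I * (B1 - B2) - (-T1 - I1) - (T3 - I2) - (-T2 - I3)‖ ≤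
      1 / (2 * Real.pi) * (7 / 2 * e) := mul_le_mul_of_nonneg_left hn2 (by positivity)
    _ ≤ e := by
      rw [one_div, inv_mul_le_iff₀ (by positivity)]
      nlinarith

end Pool.Agent.V8H15.LW
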