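import Mathlib

/-!
# The numerical part of the last step

Project LW (helper15).
-/

set_option autoImplicit false

namespace Pool.Agent.V8H15.LW

/-- the upper bound for the family -/
lemma up_num {W V' L Λ lam R0 J β δ m E c3 κ C B SP SS SE Bs η : ℝ} (hW : 0 ≤ W) (hV' : 0 ≤ V')
    (hL : 1 ≤ L) (hΛ : Λ = β * L) (hlam : lam = Λ / m) (hm : 1 ≤ m) (hlam1 : 1 ≤ lam)
    (hβ1 : 1 ≤ β) (hβ2 : β ≤ 2) (hc3 : 0 ≤ c3) (hC : 0 ≤ C)
    (hκ : 0 ≤ κ) (hη : 0 < η) (hBs0 : 0 ≤ Bs) (hBs : Bs ≤ 7 * η * L)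
    (hSP : SP ≤ V' / (2 * Real.pi) * W * Λ ^ 2 * (J + E))
    (hSS : SS ≤ 6 * (κ * W) * V' * (3 * lam * (6 * lam)))
    (hSE : SE ≤ B * (κ * W)) :
    2 / Λ * (R0 * (1 + δ) ^ 2 * (L ^ 2 / Real.pi) * V' * W + (1 + δ) ^ 2 * SP +
      c3 * (1 / (2 * Real.pi) * (2 * Bs ^ 2 * V' + 8 * C * (2 * Real.pi / lam)) * W + SS) +
      R0 * Λ * W) + 8 * C * SE ≤
    V' * L / Real.pi * W * ((1 + δ) ^ 2 * (2 * R0 / β + β * (J + E)) + c3 * (98 * η ^ 2) +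
      c3 * (1728 * κ) / m ^ 2) + W * (16 * c3 * C + 2 * R0 + 8 * C * B * κ) := by
  have hpi := Real.pi_pos
  have hpi4 : Real.pi ≤ 4 := Real.pi_le_four
  have hL0 : 0 < L := by linarith
  have hβ0 : 0 < β := by linarith
  have hm0 : 0 < m := by linarith
  have hlam0 : 0 < lam := by linarith
  have hΛ0 : 0 < Λ := by rw [hΛ]; positivity
  have hΛ1 : 1 ≤ Λ := by rw [hΛ]; nlinarith
  have e1 : 2 / Λ * (R0 * (1 + δ) ^ 2 * (L ^ 2 / Real.pi) * V' * W) =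
      V' * L / Real.pi * W * ((1 + δ) ^ 2 * (2 * R0 / β)) := by
    rw [hΛ]
    field_simp
  have e2 : 2 / Λ * ((1 + δ) ^ 2 * SP) ≤
      V' * L / Real.pi * W * ((1 + δ) ^ 2 * (β * (J + E))) := by
    have h1 : 2 / Λ * ((1 + δ) ^ 2 * SP) ≤
        2 / Λ * ((1 + δ) ^ 2 * (V' / (2 * Real.pi) * W * Λ ^ 2 * (J + E))) := by gcongr
    refine h1.trans (le_of_eq ?_)
    rw [hΛ]
    field_simp
  have e3 : 2 / Λ * (c3 * (1 / (2 * Real.pi) * (2 * Bs ^ 2 * V') * W)) ≤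
      V' * L / Real.pi * W * (c3 * (98 * η ^ 2)) := by
    have h1 : Bs ^ 2 ≤ (7 * η * L) ^ 2 := pow_le_pow_left₀ hBs0 hBs 2
    have h2 : 2 / Λ * (c3 * (1 / (2 * Real.pi) * (2 * Bs ^ 2 * V') * W)) ≤
        2 / Λ * (c3 * (1 / (2 * Real.pi) * (2 * (7 * η * L) ^ 2 * V') * W)) := by gcongr
    refine h2.trans ?_
    have h3 : 2 / Λ * (c3 * (1 / (2 * Real.pi) * (2 * (7 * η * L) ^ 2 * V') * W)) =
        V' * L / Real.pi * W * (c3 * (98 * η ^ 2)) * (1 / β) := by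
      rw [hΛ]
      field_simp
      ring
    rw [h3]
    refine mul_le_of_le_one_right (by positivity) ?_
    rw [div_le_one hβ0]
    exact hβ1
  have e4 : 2 / Λ * (c3 * (1 / (2 * Real.pi) * (8 * C * (2 * Real.pi / lam)) * W)) ≤
      W * (16 * c3 * C) := by
    have h3 : 2 / Λ * (c3 * (1 / (2 * Real.pi) * (8 * C * (2 * Real.pi / lam)) * W)) =
        W * (16 * c3 * C) * (1 / (Λ * lam)) := by
      field_simp
      ring
    rw [h3]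
    refine mul_le_of_le_one_right (by positivity) ?_
    rw [div_le_one (by positivity)]
    nlinarith
  have e5 : 2 / Λ * (c3 * SS) ≤ V' * L / Real.pi * W * (c3 * (1728 * κ) / m ^ 2) := by
    have h1 : 2 / Λ * (c3 * SS) ≤ 2 / Λ * (c3 * (6 * (κ * W) * V' * (3 * lam * (6 * lam)))) := by
      gcongr
    refine h1.trans ?_
    have h2 : 2 / Λ * (c3 * (6 * (κ * W) * V' * (3 * lam * (6 * lam)))) =
        V' * L / Real.pi * W * (c3 * κ / m ^ 2) * (216 * (β * Real.pi)) := by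
      rw [hlam, hΛ]
      field_simp
      ring
    rw [h2]
    have h3 : β * Real.pi ≤ 8 := by nlinarith
    have h4 : 0 ≤ V' * L / Real.pi * W * (c3 * κ / m ^ 2) := by positivity
    calc V' * L / Real.pi * W * (c3 * κ / m ^ 2) * (216 * (β * Real.pi)) ≤
        V' * L / Real.pi * W * (c3 * κ / m ^ 2) * (216 * 8) := by gcongr
      _ = _ := by ring
  have e6 : 2 / Λ * (R0 * Λ * W) = W * (2 * R0) := by
    field_simp
  have e7 : 8 * C * SE ≤ W * (8 * C * B * κ) := by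
    have h1 : 8 * C * SE ≤ 8 * C * (B * (κ * W)) := by gcongr
    refine h1.trans (le_of_eq ?_)
    ring
  have e8 : 2 / Λ * (R0 * (1 + δ) ^ 2 * (L ^ 2 / Real.pi) * V' * W + (1 + δ) ^ 2 * SP +
      c3 * (1 / (2 * Real.pi) * (2 * Bs ^ 2 * V' + 8 * C * (2 * Real.pi / lam)) * W + SS) +
      R0 * Λ * W) = 2 / Λ * (R0 * (1 + δ) ^ 2 * (L ^ 2 / Real.pi) * V' * W) +
      2 / Λ * ((1 + δ) ^ 2 * SP) +
      2 / Λ * (c3 * (1 / (2 * Real.pi) * (2 * Bs ^ 2 * V') * W)) +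
      2 / Λ * (c3 * (1 / (2 * Real.pi) * (8 * C * (2 * Real.pi / lam)) * W)) +
      2 / Λ * (c3 * SS) + 2 / Λ * (R0 * Λ * W) := by ring
  rw [e8, e1, e6]
  linarith

/-- the final comparison -/
lemma fin_num {W Q ρ R1 κ T Nn V V' L m C' c3 η κ₀ C B R0 δ J E β s1 : ℝ}
    (hW : 0 < W) (hρ0 : 0 < ρ) (hκ : κ = R1 + ρ) (hκ2 : κ ≤ 3 / 2) (hR1 : 0 ≤ R1)
    (hQ : Q = V * L / Real.pi) (hQ0 : 0 < Q)
    (hs1 : 0 ≤ s1) (hs1' : s1 ≤ ρ / 32) (hV' : V' = V * (1 + s1))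
    (hbr : (1 + δ) ^ 2 * (2 * R0 / β + β * (J + E)) + c3 * (98 * η ^ 2) +
      c3 * (1728 * κ₀) / m ^ 2 ≤ R1 + 3 * ρ / 8)
    (hW1 : 16 * c3 * C + 2 * R0 + 8 * C * B * κ₀ ≤ ρ / 16 * Q)
    (hT : T ≤ V' * L / Real.pi * W * ((1 + δ) ^ 2 * (2 * R0 / β + β * (J + E)) +
      c3 * (98 * η ^ 2) + c3 * (1728 * κ₀) / m ^ 2) +
      W * (16 * c3 * C + 2 * R0 + 8 * C * B * κ₀))
    (hV1 : C' / (2 * L) ≤ ρ / 32) (hL : 0 < L)
    (hm : 16 * (1 + κ₀) / m ≤ ρ / 64) (hm0 : 0 < m) (hκ₀ : 0 ≤ κ₀)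
    (hW2 : 1 + C * B * κ₀ ≤ ρ / 32 * Q)
    (hN : W * (1 / (2 * Real.pi) * (2 * L - C') * (V * (1 - s1))) -
      W * (V' * L / Real.pi * (16 * (1 + κ₀) / m)) - W * (1 + C * B * κ₀) ≤ Nn)
    (hQ4 : 16 ≤ ρ * Q) :
    T + 4 * W ≤ κ * Nn ∧ W * (V * L / 4) ≤ Nn := by
  have hpi := Real.pi_pos
  have hρ1 : ρ ≤ 3 / 2 := by linarith
  have hV'Q : V' * L / Real.pi = Q * (1 + s1) := by
    rw [hQ, hV']
    ring
  have hVL : V * L = Q * Real.pi := by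
    rw [hQ]
    field_simp
  rw [hV'Q] at hT hN
  have hs2 : s1 ≤ 1 := by linarith
  -- upper bound
  have h1 : T ≤ W * Q * (R1 + ρ / 2) := by
    have h2 : Q * (1 + s1) * W * ((1 + δ) ^ 2 * (2 * R0 / β + β * (J + E)) +
      c3 * (98 * η ^ 2) + c3 * (1728 * κ₀) / m ^ 2) ≤ Q * (1 + s1) * W * (R1 + 3 * ρ / 8) := by
      gcongr
    have h3 : W * (16 * c3 * C + 2 * R0 + 8 * C * B * κ₀) ≤ W * (ρ / 16 * Q) := by gcongr
    have h4 : (1 + s1) * (R1 + 3 * ρ / 8) ≤ R1 + 7 * ρ / 16 := by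
      have h6 : s1 * (R1 + 3 * ρ / 8) ≤ ρ / 32 * (3 / 2) :=
        mul_le_mul hs1' (by linarith) (by linarith) (by linarith)
      linarith
    have h5 : Q * W * ((1 + s1) * (R1 + 3 * ρ / 8)) ≤ Q * W * (R1 + 7 * ρ / 16) := by gcongr
    linarith
  -- lower bound
  have h2 : W * Q * (1 - ρ / 8) ≤ Nn := by
    have h3 : 1 / (2 * Real.pi) * (2 * L - C') * (V * (1 - s1)) =
        Q * (1 - C' / (2 * L)) * (1 - s1) := by
      rw [hQ]
      field_simp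
    have h4 : Q * (1 - ρ / 32) * (1 - ρ / 32) ≤ Q * (1 - C' / (2 * L)) * (1 - s1) := by
      have h5 : 0 ≤ 1 - ρ / 32 := by linarith
      have h6 : 0 ≤ 1 - C' / (2 * L) := by linarith
      have h7 : Q * (1 - ρ / 32) ≤ Q * (1 - C' / (2 * L)) :=
        mul_le_mul_of_nonneg_left (by linarith) hQ0.le
      exact mul_le_mul h7 (by linarith) h5 (by positivity)
    have h5 : Q * (1 + s1) * (16 * (1 + κ₀) / m) ≤ Q * 2 * (ρ / 64) := by
      have h6 : 0 ≤ 16 * (1 + κ₀) / m := by positivity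
      gcongr
      linarith
    have h6 : W * (Q * (1 - ρ / 32) * (1 - ρ / 32)) ≤
        W * (1 / (2 * Real.pi) * (2 * L - C') * (V * (1 - s1))) := by
      rw [h3]
      gcongr
    have h7 : W * (Q * (1 + s1) * (16 * (1 + κ₀) / m)) ≤ W * (Q * 2 * (ρ / 64)) := by gcongr
    have h8 : W * (1 + C * B * κ₀) ≤ W * (ρ / 32 * Q) := by gcongr
    have h9 : 0 ≤ W * Q * ρ ^ 2 := by positivity
    linarith
  have h3 : 4 * W ≤ W * Q * (ρ / 4) := by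
    have : W * 16 ≤ W * (ρ * Q) := mul_le_mul_of_nonneg_left hQ4 hW.le
    linarith
  have hκ0 : 0 ≤ κ := by linarith
  have h4 : κ * (W * Q * (1 - ρ / 8)) ≤ κ * Nn := mul_le_mul_of_nonneg_left h2 hκ0
  have hWQ : 0 < W * Q := by positivity
  have h5 : R1 + ρ / 2 + ρ / 4 ≤ κ * (1 - ρ / 8) := by
    have h6 : κ * (ρ / 8) ≤ 3 / 2 * (ρ / 8) := mul_le_mul_of_nonneg_right hκ2 (by linarith)
    linarith
  have h6 : W * Q * (R1 + ρ / 2 + ρ / 4) ≤ W * Q * (κ * (1 - ρ / 8)) := by gcongr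
  refine ⟨by linarith, ?_⟩
  have h7 : V * L / 4 ≤ Q * (13 / 16) := by
    rw [hVL]
    have : Q * Real.pi ≤ Q * 3.15 := mul_le_mul_of_nonneg_left Real.pi_lt_d2.le hQ0.le
    linarith
  have h8 : Q * (13 / 16) ≤ Q * (1 - ρ / 8) := mul_le_mul_of_nonneg_left (by linarith) hQ0.le
  have h9 : W * (V * L / 4) ≤ W * (Q * (1 - ρ / 8)) :=
    mul_le_mul_of_nonneg_left (h7.trans h8) hW.le
  linarith

end Pool.Agent.V8H15.LW
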