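import Pool.Agent.V8H15.LW.Sie2

/-!
# The prime sums on average over the family: the main term

Project LW (helper15).
-/

set_option autoImplicit false

open MeasureTheory Filter Topology Complex Finset ArithmeticFunction

namespace Pool.Agent.V8H15.LW

open H385 (primSetM mem_primSetM IX primFamM primFamM_eq Rw Rw_antitone Rw_nonneg WM cM
  prim_ls_M prim_mass_M cM_pos primFamM_nonneg)
open W388 (SelE)

variable {w : ℂ → ℂ} {C lam t V : ℝ} {p : ℕ}

/-- the weighted mean square of one term -/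
lemma ft_Rw_int (hw : Wnd w C lam t V p) (hl : 0 < lam) (hp : 2 ≤ p) (hC : 0 ≤ C) (hV : 0 ≤ V)
    {γ : ℝ} (h0 : 0 < γ) (hπ : γ < Real.pi) {Lb : ℝ} (hLb : 2 * lam ≤ Lb) (x : ℝ) :
    ∫ u in (2 * lam)..Lb, Rw γ (u / Lb) * ‖ft w (x - u)‖ ^ 2 ≤
      Rw γ (max (x - lam) 0 / Lb) * (2 * Real.pi * (V + C * (2 * Real.pi / lam))) := by
  have hfc := ft_cont hw hl hp hC
  have hRc := H385.fa_Rw_cont γ h0 hπ
  have hLb0 : 0 < Lb := by linarith
  have hc1 : Continuous fun u : ℝ => ft w (x - u) := hfc.comp (by fun_prop)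
  have h1 : ∫ u in (2 * lam)..Lb, Rw γ (u / Lb) * ‖ft w (x - u)‖ ^ 2 ≤
      ∫ u in (2 * lam)..Lb, Rw γ (max (x - lam) 0 / Lb) * ‖ft w (x - u)‖ ^ 2 := by
    refine intervalIntegral.integral_mono_on hLb ?_ ?_ ?_
    · exact ((hRc.comp (by fun_prop)).mul (hc1.norm.pow 2)).intervalIntegrable _ _
    · exact (continuous_const.mul (hc1.norm.pow 2)).intervalIntegrable _ _
    · intro u hu
      by_cases h : lam < |x - u|
      · rw [hw.ft_zero hl hp hC h]
        simp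
      · push Not at h
        refine mul_le_mul_of_nonneg_right ?_ (by positivity)
        have hu0 : 0 ≤ u := by linarith [hu.1]
        have h2 : max (x - lam) 0 ≤ u := max_le (by linarith [(abs_le.mp h).2]) hu0
        refine Rw_antitone γ h0 hπ (Set.mem_Ici.mpr (by positivity))
          (Set.mem_Ici.mpr (by positivity)) ?_
        gcongr
  refine h1.trans ?_
  rw [intervalIntegral.integral_const_mul]
  exact mul_le_mul_of_nonneg_left (ft_shift_int hw hl hp hC hV x _ _ hLb)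
    (Rw_nonneg γ h0 hπ _)

/-- **The main term of the prime sums.** -/
theorem fam_main {M : ℕ} (hM : Squarefree M) {c : ℕ → ℂ} (hc : SelE c)
    (hc2 : ∀ n, Λ n * ‖c n‖ ≤ 2 * Λ n) {γ : ℝ} (h0 : 0 < γ) (hπ : γ < Real.pi) {m : ℕ}
    (hm : 2 ≤ m) {β : ℝ} (hβ : 0 < β) (hβm : β + β / m < 2) {ε₁ : ℝ} (hε₁ : 0 < ε₁) :
    ∃ K X₀ : ℝ, 1 ≤ K ∧ 1 ≤ X₀ ∧ ∀ (X Y : ℕ), X₀ ≤ X → K * X ≤ Y → (Y : ℝ) ≤ (X : ℝ) ^ 2 →
      1 ≤ WM M X Y ∧ 1 + 2 * Real.log ((Y : ℝ) / X) ≤ 4 / cM M * WM M X Y ∧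
      ∀ (lam Lb : ℝ), Lb = β * Real.log X → lam = Lb / m →
      ∀ (C t V : ℝ) (p : ℕ) (w : ℂ → ℂ), Wnd w C lam t V p → 2 ≤ p → 0 ≤ C → 0 ≤ V →
        V + C * (2 * Real.pi / lam) ≤ Real.exp (lam / 2) →
        ∑ i ∈ primSetM M X Y, (1 / (i.1 : ℝ) ^ 2) *
          (∫ u in (2 * lam)..Lb, Rw γ (u / Lb) * ‖Pf w (av c i) u‖ ^ 2) ≤
        (V + C * (2 * Real.pi / lam)) / (2 * Real.pi) * WM M X Y * Lb ^ 2 *
          ((∫ α in (0 : ℝ)..1, α * Rw γ α) +
            (8 * Rw γ 0 + ∫ α in (0 : ℝ)..1, α * Rw γ α) / m + ε₁) := by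
  classical
  have hpi := Real.pi_pos
  have hpi3 := Real.pi_gt_three
  have hR0 := Rw_nonneg γ h0 hπ
  have hRc := H385.fa_Rw_cont γ h0 hπ
  have hm0 : (0 : ℝ) < m := by
    have : 0 < m := by omega
    exact_mod_cast this
  have hm2 : (2 : ℝ) ≤ m := by exact_mod_cast hm
  obtain ⟨J, hJ⟩ : ∃ J : ℝ, J = ∫ α in (0 : ℝ)..1, α * Rw γ α := ⟨_, rfl⟩
  have hJ0 : 0 ≤ J := by
    rw [hJ]
    exact intervalIntegral.integral_nonneg (by norm_num) fun α hα => mul_nonneg hα.1 (hR0 α)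
  obtain ⟨J', hJ'⟩ : ∃ J' : ℝ, J' = J + (8 * Rw γ 0 + J) / m := ⟨_, rfl⟩
  have hJ'0 : 0 ≤ J' := by
    rw [hJ']
    have := hR0 0
    positivity
  rw [← hJ, ← hJ']
  -- parameters
  obtain ⟨e, he0, he1, heJ⟩ : ∃ e : ℝ, 0 < e ∧ e ≤ 1 ∧ 11 * e * J' ≤ ε₁ / 2 := by
    refine ⟨min 1 (ε₁ / (22 * (J' + 1))), by positivity, min_le_left _ _, ?_⟩
    have h1 : min 1 (ε₁ / (22 * (J' + 1))) ≤ ε₁ / (22 * (J' + 1)) := min_le_right _ _
    rw [le_div_iff₀ (by positivity)] at h1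
    have h2 : 0 < min 1 (ε₁ / (22 * (J' + 1))) := by positivity
    nlinarith
  obtain ⟨C₀, P, hC₀, hP, hls⟩ := prim_ls_M M hM e he0 he1
  obtain ⟨C4, hC4, hmass⟩ := prim_mass_M M hM
  have hc0 := cM_pos M hM
  obtain ⟨Λ₀, hΛ₀, hdiag⟩ := diag hc h0 hπ (show 1 ≤ m by omega)
  -- thresholds in `L = log X`
  obtain ⟨b, hb⟩ : ∃ b : ℝ, b = β / (2 * m) := ⟨_, rfl⟩
  have hb0 : 0 < b := by rw [hb]; positivity
  obtain ⟨L1, hL1⟩ : ∃ L1 : ℝ, ∀ L : ℝ, L1 ≤ L →
      5184 * C₀ * Rw γ 0 * (L ^ 4 * Real.exp (-(b * L))) ≤ 3 * β * ε₁ := by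
    have h1 : Tendsto (fun L : ℝ => 5184 * C₀ * Rw γ 0 * (L ^ 4 * Real.exp (-(b * L)))) atTop
        (𝓝 (5184 * C₀ * Rw γ 0 * ((1 / b ^ 4) * 0))) := by
      refine Tendsto.const_mul _ ?_
      have h2 : Tendsto (fun L : ℝ => (b * L) ^ 4 * Real.exp (-(b * L))) atTop (𝓝 0) :=
        (Real.tendsto_pow_mul_exp_neg_atTop_nhds_zero 4).comp (tendsto_id.const_mul_atTop hb0)
      refine (h2.const_mul (1 / b ^ 4)).congr fun L => ?_
      field_simp
    rw [mul_zero, mul_zero] at h1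
    obtain ⟨L1, h2⟩ := (h1.eventually (Iio_mem_nhds
      (show (0 : ℝ) < 3 * β * ε₁ by positivity))).exists_forall_of_atTop
    exact ⟨L1, fun L hL => (Set.mem_Iio.mp (h2 L hL)).le⟩
  obtain ⟨L2, hL2⟩ : ∃ L2 : ℝ, L2 = Real.log (8 / e) / (2 - (β + β / m)) := ⟨_, rfl⟩
  obtain ⟨Lm, hLm⟩ : ∃ Lm : ℝ, Lm = max (max L1 L2) (max (max (Λ₀ / β) (Real.log P)) 1) :=
    ⟨_, rfl⟩
  refine ⟨Real.exp (max ((3 * C4 + C₀) / (e * cM M)) ((2 * C4 + 1) / cM M)), Real.exp Lm,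
    Real.one_le_exp (le_max_of_le_left (by positivity)), Real.one_le_exp ?_, ?_⟩
  · rw [hLm]
    exact le_max_of_le_right (le_max_of_le_right zero_le_one)
  intro X Y hX hKX hYX
  have hXpos : (0 : ℝ) < X := lt_of_lt_of_le (Real.exp_pos _) hX
  have hX1 : 1 ≤ X := by exact_mod_cast hXpos
  have hLl : Lm ≤ Real.log X := by
    rw [Real.le_log_iff_exp_le hXpos]
    exact hX
  obtain ⟨L, hL⟩ : ∃ L : ℝ, L = Real.log X := ⟨_, rfl⟩
  rw [← hL] at hLl
  rw [hLm] at hLl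
  have c1 : L1 ≤ L := ((le_max_left _ _).trans (le_max_left _ _)).trans hLl
  have c2 : L2 ≤ L := ((le_max_right _ _).trans (le_max_left _ _)).trans hLl
  have c3 : Λ₀ / β ≤ L := ((le_max_left _ _).trans ((le_max_left _ _).trans
    (le_max_right _ _))).trans hLl
  have c4 : Real.log P ≤ L := ((le_max_right _ _).trans ((le_max_left _ _).trans
    (le_max_right _ _))).trans hLl
  have c5 : 1 ≤ L := ((le_max_right _ _).trans (le_max_right _ _)).trans hLl
  have hK1 : Real.exp ((3 * C4 + C₀) / (e * cM M)) * X ≤ Y := by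
    refine le_trans (mul_le_mul_of_nonneg_right (Real.exp_le_exp.mpr (le_max_left _ _))
      hXpos.le) hKX
  have hK2 : Real.exp ((2 * C4 + 1) / cM M) * X ≤ Y := by
    refine le_trans (mul_le_mul_of_nonneg_right (Real.exp_le_exp.mpr (le_max_right _ _))
      hXpos.le) hKX
  have hXYr : (X : ℝ) ≤ Y := by
    refine le_trans ?_ hK1
    exact le_mul_of_one_le_left hXpos.le (Real.one_le_exp (by positivity))
  have hXY : X ≤ Y := by exact_mod_cast hXYr
  have hYpos : (0 : ℝ) < Y := by linarith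
  obtain ⟨ll, hll⟩ : ∃ ll : ℝ, ll = Real.log ((Y : ℝ) / X) := ⟨_, rfl⟩
  have hll1 : (3 * C4 + C₀) / (e * cM M) ≤ ll := by
    rw [hll, Real.le_log_iff_exp_le (by positivity), le_div_iff₀ hXpos]
    exact hK1
  have hll2 : (2 * C4 + 1) / cM M ≤ ll := by
    rw [hll, Real.le_log_iff_exp_le (by positivity), le_div_iff₀ hXpos]
    exact hK2
  have hll0 : 0 ≤ ll := le_trans (by positivity) hll2
  obtain ⟨W, hW⟩ : ∃ W : ℝ, W = WM M X Y := ⟨_, rfl⟩
  have hWlow : cM M * ll - C4 ≤ W := by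
    have h1 := (abs_le.mp (hmass X Y hX1 hXY)).1
    have h2 : primFamM M X Y (fun _ _ => 1) = WM M X Y := rfl
    rw [h2] at h1
    rw [hll, hW]
    linarith
  have hW1 : 1 ≤ W := by
    rw [div_le_iff₀ hc0] at hll2
    linarith
  have hcM1 : cM M ≤ 1 := by
    have h1 : H385.c0 ≤ 1 := H385.Farey.c0_le_one
    have h2 : 0 < H385.c0 := by unfold H385.c0; positivity
    have h3 : (∏ p ∈ M.primeFactors, ((p : ℝ) ^ 3 / (((p : ℝ) - 1) * ((p : ℝ) + 1) ^ 2))) ≤ 1 := by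
      refine Finset.prod_le_one (fun p hp => ?_) fun p hp => ?_
      · have hp2 : (2 : ℝ) ≤ p := by exact_mod_cast (Nat.prime_of_mem_primeFactors hp).two_le
        have : 0 ≤ (p : ℝ) - 1 := by linarith
        positivity
      · have hp2 : (2 : ℝ) ≤ p := by exact_mod_cast (Nat.prime_of_mem_primeFactors hp).two_le
        have h4 : 0 < (p : ℝ) - 1 := by linarith
        rw [div_le_one (by positivity)]
        nlinarith [sq_nonneg ((p : ℝ) - 1), mul_pos h4 h4]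
    unfold H385.cM
    have h5 : H385.c0 ^ 2 ≤ 1 := pow_le_one₀ h2.le h1
    calc _ ≤ H385.c0 ^ 2 * 1 := mul_le_mul_of_nonneg_left h3 (by positivity)
      _ ≤ 1 := by linarith
  rw [← hW, ← hll]
  refine ⟨hW1, ?_, ?_⟩
  · -- the mass
    rw [div_mul_eq_mul_div, le_div_iff₀ hc0]
    rw [div_le_iff₀ hc0] at hll2
    have h1 : (1 + 2 * ll) * cM M = cM M + 2 * (cM M * ll) := by ring
    rw [h1]
    linarith
  intro lam Lb hLb hlam C t V p w hw hp hC hV hVe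
  rw [← hL] at hLb
  have hLb0 : 0 < Lb := by rw [hLb]; positivity
  have hl0 : 0 < lam := by rw [hlam]; positivity
  have hlamb : lam = 2 * (b * L) := by
    rw [hlam, hLb, hb]
    field_simp
  have h2lam : 2 * lam ≤ Lb := by
    rw [hlam, mul_div_assoc', div_le_iff₀ hm0]
    nlinarith
  obtain ⟨V', hV'⟩ : ∃ V' : ℝ, V' = V + C * (2 * Real.pi / lam) := ⟨_, rfl⟩
  have hV'0 : 0 ≤ V' := by rw [hV']; positivity
  rw [← hV'] at hVe ⊢
  have hfc := ft_cont hw hl0 hp hC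
  -- the length
  obtain ⟨N, hN⟩ : ∃ N : ℕ, N = NL lam Lb := ⟨_, rfl⟩
  have hLsum : Lb + lam ≤ 2 * L := by
    rw [hlam, hLb]
    have : β * L + β * L / m = (β + β / m) * L := by ring
    rw [this]
    exact mul_le_mul_of_nonneg_right hβm.le (by linarith)
  have hNX : (N : ℝ) ≤ e / 8 * (X : ℝ) ^ 2 := by
    have h1 : (N : ℝ) ≤ Real.exp (Lb + lam) := by
      rw [hN]
      exact Nat.floor_le (Real.exp_pos _).le
    refine h1.trans ?_
    have h2 : (X : ℝ) ^ 2 = Real.exp (2 * L) := by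
      rw [hL, mul_comm, Real.exp_mul, Real.exp_log hXpos]
      norm_num
    have h3 : e / 8 = Real.exp (-(Real.log (8 / e))) := by
      rw [Real.exp_neg, Real.exp_log (by positivity), inv_div]
    rw [h2, h3, ← Real.exp_add]
    refine Real.exp_le_exp.mpr ?_
    rw [hL2, div_le_iff₀ (by linarith)] at c2
    have h4 : Lb + lam = (β + β / m) * L := by
      rw [hlam, hLb]
      ring
    rw [h4]
    nlinarith
  have hexp : Real.exp (Real.pi * N / (X : ℝ) ^ 2) ≤ 1 + e := by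
    have h2 : Real.pi * N / (X : ℝ) ^ 2 ≤ e / 2 := by
      rw [div_le_iff₀ (by positivity)]
      have h3 : Real.pi * N ≤ 4 * (e / 8 * (X : ℝ) ^ 2) :=
        mul_le_mul Real.pi_lt_four.le hNX (by positivity) (by norm_num)
      linarith
    refine (Real.exp_le_exp.mpr h2).trans ?_
    have h4 := Real.exp_bound_div_one_sub_of_interval (x := e / 2) (by positivity) (by linarith)
    refine h4.trans ?_
    rw [div_le_iff₀ (by linarith)]
    nlinarith
  obtain ⟨D1, hD1⟩ : ∃ D1 : ℝ, D1 = (1 + e) * Real.exp (Real.pi * N / (X : ℝ) ^ 2) *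
        (cM M * (1 + e) * ll + C₀) := ⟨_, rfl⟩
  have hD1n : 0 ≤ D1 := by rw [hD1]; positivity
  have hD1W : D1 ≤ (1 + 11 * e) * W := by
    have h1 : cM M * (1 + e) * ll + C₀ ≤ (1 + 2 * e) * W := by
      have h2 : 3 * C4 + C₀ ≤ e * cM M * ll := by
        rw [div_le_iff₀ (by positivity)] at hll1
        linarith
      have h3 : (1 + 2 * e) * (cM M * ll - C4) ≤ (1 + 2 * e) * W :=
        mul_le_mul_of_nonneg_left hWlow (by linarith)
      have h4 : (1 + 2 * e) * (cM M * ll - C4) = cM M * (1 + e) * ll + e * cM M * ll -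
        (1 + 2 * e) * C4 := by ring
      have h5 : (1 + 2 * e) * C4 ≤ 3 * C4 := mul_le_mul_of_nonneg_right (by linarith) hC4.le
      linarith
    have h6 : D1 ≤ (1 + e) * (1 + e) * ((1 + 2 * e) * W) := by
      rw [hD1]
      refine mul_le_mul ?_ h1 (by positivity) (by positivity)
      exact mul_le_mul_of_nonneg_left hexp (by linarith)
    refine h6.trans ?_
    have h7 : (1 + e) * (1 + e) * (1 + 2 * e) ≤ 1 + 11 * e := by
      have g1 : e ^ 2 ≤ e := pow_le_of_le_one he0.le he1 two_ne_zero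
      have g2 : e ^ 3 ≤ e := pow_le_of_le_one he0.le he1 three_ne_zero
      have g3 : (1 + e) * (1 + e) * (1 + 2 * e) = 1 + 4 * e + 5 * e ^ 2 + 2 * e ^ 3 := by ring
      rw [g3]; linarith
    calc _ = ((1 + e) * (1 + e) * (1 + 2 * e)) * W := by ring
      _ ≤ _ := mul_le_mul_of_nonneg_right h7 (by linarith)
  -- the error
  have hlP : Real.log ((P : ℝ) * Y) ≤ 3 * L := by
    have hP0 : (0 : ℝ) < P := by exact_mod_cast hP
    rw [Real.log_mul hP0.ne' hYpos.ne']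
    have h1 : Real.log Y ≤ 2 * L := by
      rw [hL]
      have h2 := Real.log_le_log hYpos hYX
      rw [Real.log_pow] at h2
      push_cast at h2
      exact h2
    linarith
  obtain ⟨E0, hE0⟩ : ∃ E0 : ℝ, E0 = 3 * C₀ * (3 * L) * (4 * V' * Real.exp (-(lam / 2)) *
    (3 * L) * (Lb + lam)) ^ 2 := ⟨_, rfl⟩
  have hE0n : 0 ≤ E0 := by rw [hE0]; positivity
  have hE0le : E0 ≤ 5184 * C₀ * V' * Real.exp (-(lam / 2)) * L ^ 5 := by
    have h1 : V' ^ 2 * Real.exp (-(lam / 2)) ^ 2 ≤ V' * Real.exp (-(lam / 2)) := by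
      have h2 : V' * Real.exp (-(lam / 2)) ≤ 1 := by
        rw [Real.exp_neg]
        rw [← div_eq_mul_inv, div_le_one (Real.exp_pos _)]
        exact hVe
      have h3 : 0 ≤ V' * Real.exp (-(lam / 2)) := by positivity
      calc _ = (V' * Real.exp (-(lam / 2))) * (V' * Real.exp (-(lam / 2))) := by ring
        _ ≤ (V' * Real.exp (-(lam / 2))) * 1 := mul_le_mul_of_nonneg_left h2 h3
        _ = _ := mul_one _
    have h4 : (Lb + lam) ^ 2 ≤ (2 * L) ^ 2 := pow_le_pow_left₀ (by positivity) hLsum 2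
    calc E0 = 1296 * C₀ * L ^ 3 * (V' ^ 2 * Real.exp (-(lam / 2)) ^ 2) * (Lb + lam) ^ 2 := by
          rw [hE0]; ring
      _ ≤ 1296 * C₀ * L ^ 3 * (V' * Real.exp (-(lam / 2))) * (2 * L) ^ 2 := by
          gcongr
      _ = _ := by ring
  have hE0fin : (1 / (2 * Real.pi)) ^ 2 * (E0 * (Rw γ 0 * Lb)) ≤
      V' / (2 * Real.pi) * Lb ^ 2 * (ε₁ / 2) := by
    have h1 : E0 * Rw γ 0 ≤ 3 * Lb * ε₁ * V' := by
      have h2 := hL1 L c1
      have h3 : lam / 2 = b * L := by rw [hlamb]; ring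
      calc E0 * Rw γ 0 ≤ (5184 * C₀ * V' * Real.exp (-(lam / 2)) * L ^ 5) * Rw γ 0 :=
            mul_le_mul_of_nonneg_right hE0le (hR0 0)
        _ = (5184 * C₀ * Rw γ 0 * (L ^ 4 * Real.exp (-(b * L)))) * (L * V') := by
            rw [h3]; ring
        _ ≤ (3 * β * ε₁) * (L * V') := mul_le_mul_of_nonneg_right h2 (by positivity)
        _ = _ := by rw [hLb]; ring
    calc (1 / (2 * Real.pi)) ^ 2 * (E0 * (Rw γ 0 * Lb)) =
        (1 / (2 * Real.pi)) ^ 2 * ((E0 * Rw γ 0) * Lb) := by ring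
      _ ≤ (1 / (2 * Real.pi)) ^ 2 * ((3 * Lb * ε₁ * V') * Lb) := by
          gcongr
      _ = (3 / Real.pi) * (V' / (2 * Real.pi) * Lb ^ 2 * (ε₁ / 2)) := by
          field_simp
      _ ≤ 1 * (V' / (2 * Real.pi) * Lb ^ 2 * (ε₁ / 2)) := by
          refine mul_le_mul_of_nonneg_right ?_ (by positivity)
          rw [div_le_one hpi]
          linarith
      _ = _ := one_mul _
  -- the integral
  have hPi : ∀ i : IX, IntervalIntegrable (fun u => Rw γ (u / Lb) * ‖Pf w (av c i) u‖ ^ 2) volume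
      (2 * lam) Lb := by
    intro i
    refine ContinuousOn.intervalIntegrable ?_
    rw [Set.uIcc_of_le h2lam]
    exact (hRc.comp (by fun_prop)).continuousOn.mul
      ((Pf_cont hw hl0 hp hC _ _ _).norm.pow 2)
  have h1 : ∑ i ∈ primSetM M X Y, (1 / (i.1 : ℝ) ^ 2) *
        (∫ u in (2 * lam)..Lb, Rw γ (u / Lb) * ‖Pf w (av c i) u‖ ^ 2) =
      ∫ u in (2 * lam)..Lb, ∑ i ∈ primSetM M X Y, (1 / (i.1 : ℝ) ^ 2) *
        (Rw γ (u / Lb) * ‖Pf w (av c i) u‖ ^ 2) := by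
    rw [intervalIntegral.integral_finsetSum (fun i _ => (hPi i).const_mul _)]
    exact sum_congr rfl fun i _ => (intervalIntegral.integral_const_mul _ _).symm
  rw [h1]
  obtain ⟨cf, hcf⟩ : ∃ cf : ℕ → ℝ, ∀ n, cf n = Λ n ^ 2 * ‖c n‖ ^ 2 / n := ⟨_, fun _ => rfl⟩
  have hcf0 : ∀ n, 0 ≤ cf n := fun n => by rw [hcf]; positivity
  have hti : ∀ n : ℕ, IntervalIntegrable (fun u => cf n * (Rw γ (u / Lb) *
      ‖ft w (Real.log n - u)‖ ^ 2)) volume (2 * lam) Lb := by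
    intro n
    refine Continuous.intervalIntegrable ?_ _ _
    have h2 : Continuous fun u : ℝ => ft w (Real.log n - u) := hfc.comp (by fun_prop)
    exact continuous_const.mul ((hRc.comp (by fun_prop)).mul (h2.norm.pow 2))
  have hRi : IntervalIntegrable (fun u => E0 * Rw γ (u / Lb)) volume (2 * lam) Lb :=
    (continuous_const.mul (hRc.comp (by fun_prop))).intervalIntegrable _ _
  have h2 : ∫ u in (2 * lam)..Lb, ∑ i ∈ primSetM M X Y, (1 / (i.1 : ℝ) ^ 2) *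
        (Rw γ (u / Lb) * ‖Pf w (av c i) u‖ ^ 2) ≤
      ∫ u in (2 * lam)..Lb, (1 / (2 * Real.pi)) ^ 2 * (D1 *
        (∑ n ∈ Icc 1 N, cf n * (Rw γ (u / Lb) * ‖ft w (Real.log n - u)‖ ^ 2)) +
        E0 * Rw γ (u / Lb)) := by
    refine intervalIntegral.integral_mono_on h2lam ?_ ?_ ?_
    · exact ii_sum (primSetM M X Y) (fun i _ => (hPi i).const_mul (1 / (i.1 : ℝ) ^ 2))
    · exact (((ii_sum _ (fun n _ => hti n)).const_mul D1).add hRi).const_mul _
    · intro u hu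
      have h3 := fam_point2 hC₀ hP he0 hls hw hl0 hp hC hV X Y hX1 hXY hc2 hu.1 hu.2
        (l := 3 * L) (by linarith) hlP
      rw [← hV', ← hN, ← hll, ← hD1, ← hE0] at h3
      have h4 : ∑ i ∈ primSetM M X Y, (1 / (i.1 : ℝ) ^ 2) *
          (Rw γ (u / Lb) * ‖Pf w (av c i) u‖ ^ 2) = Rw γ (u / Lb) *
          ∑ i ∈ primSetM M X Y, (1 / (i.1 : ℝ) ^ 2) * ‖Pf w (av c i) u‖ ^ 2 := by
        rw [mul_sum]
        exact sum_congr rfl fun i _ => by ring
      rw [h4]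
      refine (mul_le_mul_of_nonneg_left h3 (hR0 _)).trans (le_of_eq ?_)
      have h5 : ∑ n ∈ Icc 1 N, cf n * (Rw γ (u / Lb) * ‖ft w (Real.log n - u)‖ ^ 2) =
          Rw γ (u / Lb) * ∑ n ∈ Icc 1 N, Λ n ^ 2 * ‖c n‖ ^ 2 / n *
            ‖ft w (Real.log n - u)‖ ^ 2 := by
        rw [mul_sum]
        exact sum_congr rfl fun n _ => by rw [hcf]; ring
      rw [h5]
      ring
  refine h2.trans ?_
  rw [intervalIntegral.integral_const_mul,
    intervalIntegral.integral_add ((ii_sum _ (fun n _ => hti n)).const_mul D1) hRi,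
    intervalIntegral.integral_const_mul, intervalIntegral.integral_const_mul,
    intervalIntegral.integral_finsetSum (fun n _ => hti n)]
  have hRint : ∫ u in (2 * lam)..Lb, Rw γ (u / Lb) ≤ Rw γ 0 * Lb := by
    have h3 : ∫ u in (2 * lam)..Lb, Rw γ (u / Lb) ≤ ∫ _ in (2 * lam)..Lb, Rw γ 0 := by
      refine intervalIntegral.integral_mono_on h2lam ?_ ?_ ?_
      · exact (hRc.comp (by fun_prop)).intervalIntegrable _ _
      · exact continuous_const.intervalIntegrable _ _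
      · intro u hu
        have hu0 : 0 ≤ u := by linarith [hu.1]
        exact Rw_antitone γ h0 hπ (Set.mem_Ici.mpr le_rfl) (Set.mem_Ici.mpr (by positivity))
          (by positivity)
    refine h3.trans ?_
    rw [intervalIntegral.integral_const, smul_eq_mul, mul_comm]
    exact mul_le_mul_of_nonneg_left (by linarith) (hR0 0)
  have hsum : ∑ n ∈ Icc 1 N, ∫ u in (2 * lam)..Lb, cf n * (Rw γ (u / Lb) *
      ‖ft w (Real.log n - u)‖ ^ 2) ≤ 2 * Real.pi * V' * (Lb ^ 2 * J') := by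
    have h3 := hdiag Lb (by
      rw [hLb]
      rw [div_le_iff₀ hβ] at c3
      linarith)
    rw [← hlam, ← hJ, ← hJ'] at h3
    have h4 : ∀ n ∈ Icc 1 N, ∫ u in (2 * lam)..Lb, cf n * (Rw γ (u / Lb) *
        ‖ft w (Real.log n - u)‖ ^ 2) ≤ (2 * Real.pi * V') * (Λ n ^ 2 * ‖c n‖ ^ 2 / n *
          Rw γ (max (Real.log n - lam) 0 / Lb)) := by
      intro n _
      rw [intervalIntegral.integral_const_mul]
      have h5 := ft_Rw_int hw hl0 hp hC hV h0 hπ h2lam (Real.log n)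
      rw [← hV'] at h5
      refine (mul_le_mul_of_nonneg_left h5 (hcf0 n)).trans (le_of_eq ?_)
      rw [hcf]
      ring
    refine (sum_le_sum h4).trans ?_
    rw [← mul_sum]
    refine mul_le_mul_of_nonneg_left ?_ (by positivity)
    rw [hN]
    unfold NL
    exact h3
  have hfin : (1 / (2 * Real.pi)) ^ 2 * (D1 * (2 * Real.pi * V' * (Lb ^ 2 * J'))) ≤
      V' / (2 * Real.pi) * W * Lb ^ 2 * (J' + ε₁ / 2) := by
    calc (1 / (2 * Real.pi)) ^ 2 * (D1 * (2 * Real.pi * V' * (Lb ^ 2 * J'))) =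
        V' / (2 * Real.pi) * Lb ^ 2 * (D1 * J') := by field_simp
      _ ≤ V' / (2 * Real.pi) * Lb ^ 2 * (((1 + 11 * e) * W) * J') := by gcongr
      _ = V' / (2 * Real.pi) * W * Lb ^ 2 * (J' + 11 * e * J') := by ring
      _ ≤ _ := by gcongr
  calc (1 / (2 * Real.pi)) ^ 2 * (D1 * (∑ n ∈ Icc 1 N, ∫ u in (2 * lam)..Lb,
        cf n * (Rw γ (u / Lb) * ‖ft w (Real.log n - u)‖ ^ 2)) +
        E0 * ∫ u in (2 * lam)..Lb, Rw γ (u / Lb)) ≤
      (1 / (2 * Real.pi)) ^ 2 * (D1 * (2 * Real.pi * V' * (Lb ^ 2 * J')) +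
        E0 * (Rw γ 0 * Lb)) := by
        refine mul_le_mul_of_nonneg_left (add_le_add ?_ ?_) (by positivity)
        · exact mul_le_mul_of_nonneg_left hsum hD1n
        · exact mul_le_mul_of_nonneg_left hRint hE0n
    _ = (1 / (2 * Real.pi)) ^ 2 * (D1 * (2 * Real.pi * V' * (Lb ^ 2 * J'))) +
        (1 / (2 * Real.pi)) ^ 2 * (E0 * (Rw γ 0 * Lb)) := by ring
    _ ≤ V' / (2 * Real.pi) * W * Lb ^ 2 * (J' + ε₁ / 2) +
        V' / (2 * Real.pi) * Lb ^ 2 * (ε₁ / 2) := add_le_add hfin hE0fin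
    _ ≤ V' / (2 * Real.pi) * W * Lb ^ 2 * (J' + ε₁ / 2) +
        V' / (2 * Real.pi) * W * Lb ^ 2 * (ε₁ / 2) := by
        have h9 : V' / (2 * Real.pi) * Lb ^ 2 * (ε₁ / 2) ≤
            W * (V' / (2 * Real.pi) * Lb ^ 2 * (ε₁ / 2)) :=
          le_mul_of_one_le_left (by positivity) hW1
        linarith
    _ = _ := by ring

end Pool.Agent.V8H15.LW
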