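import Pool.Agent.V8H15.LW.Itg
import Pool.Agent.V8H15.LW.Err2
import Pool.Agent.V8H15.LW.Sie3
import Pool.Agent.V8H15.LW.Num

/-!
# The theorem for the family

Project LW (helper15).
-/

set_option autoImplicit false

open Finset Filter Topology MeasureTheory Complex UpperHalfPlane MatrixGroups
  CongruenceSubgroup

namespace Pool.Agent.V8H15.LW

open Pool.Agent.R399.TW (pt pt_re pt_im pt_cont)
open W388 (IsNewf lamf heckeSeq_lamf cS rad rad_squarefree coprime_rad)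
open H385 (primSetM mem_primSetM IX Rw Rw_nonneg WM cM cM_pos primFamM primFamM_eq)
open H370 (mult)

/-- everything about one `L`-function -/
theorem one {w : ℂ → ℂ} {C lam t V : ℝ} {p : ℕ} {F : ℂ → ℂ} {a : ℕ → ℂ} {G : ℂ → ℂ}
    (hF : XF F a G)
    (hsym : ∀ s : ℂ, 0 ≤ s.re → s.re ≤ 1 →
      analyticOrderAt F (1 - (starRingEnd ℂ) s) = analyticOrderAt F s)
    (hw : Wnd w C lam t V p) (hl : 1 ≤ lam) (hp : 4 ≤ p) (hC : 0 ≤ C) (hV : 0 ≤ V)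
    {γ Λ : ℝ} (hγ0 : 0 < γ) (hγπ : γ < Real.pi) (hΛ : 2 * lam ≤ Λ) {δ : ℝ} (hδ : 0 < δ)
    {L Bg C' : ℝ} (hBg : 0 ≤ Bg)
    (hg : ∀ y, ‖G (pt (1 / 2) y) - ((2 * L : ℝ) : ℂ)‖ ≤ Bg + 2 * Real.log (1 + |y|))
    (hL : C' ≤ 2 * L) (hg' : ∀ y, 2 * L - C' ≤ (G (pt (1 / 2) y)).re) :
    (cz F t V).Finite ∧
    ∃ Z : Finset ℂ, (∀ s ∈ Z, 0 ≤ s.re ∧ s.re ≤ 1) ∧
      (2 * (Nb F t V : ℝ) - ((sz F t V).ncard : ℝ) ≤ 2 / Λ *
        (Rw γ 0 * (1 + δ) ^ 2 * (L ^ 2 / Real.pi) * (V + C * (2 * Real.pi / lam)) +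
        (1 + δ) ^ 2 * (∫ u in (2 * lam)..Λ, Rw γ (u / Λ) * ‖Pf w a u‖ ^ 2) +
        3 * Rw γ 0 * (1 + δ) * (1 + 1 / δ) * (1 / (2 * Real.pi) *
          (2 * (Bg + 2 * Real.log (1 + |t| + V)) ^ 2 * (V + C * (2 * Real.pi / lam)) +
            8 * C * (2 * Real.pi / lam)) +
          ∫ u in (-(2 * lam))..(2 * lam), ‖Pf w a u‖ ^ 2) + Rw γ 0 * Λ) +
        8 * C * EZ F p lam Λ t V Z) ∧
      (3 * (Nb F t V : ℝ) - 2 * ((cz F t V).ncard : ℝ) ≤ 2 / Λ *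
        (Rw γ 0 * (1 + δ) ^ 2 * (L ^ 2 / Real.pi) * (V + C * (2 * Real.pi / lam)) +
        (1 + δ) ^ 2 * (∫ u in (2 * lam)..Λ, Rw γ (u / Λ) * ‖Pf w a u‖ ^ 2) +
        3 * Rw γ 0 * (1 + δ) * (1 + 1 / δ) * (1 / (2 * Real.pi) *
          (2 * (Bg + 2 * Real.log (1 + |t| + V)) ^ 2 * (V + C * (2 * Real.pi / lam)) +
            8 * C * (2 * Real.pi / lam)) +
          ∫ u in (-(2 * lam))..(2 * lam), ‖Pf w a u‖ ^ 2) + Rw γ 0 * Λ) +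
        8 * C * EZ F p lam Λ t V Z) ∧
      (1 / (2 * Real.pi) * (2 * L - C') * (V - C * (2 * Real.pi / lam)) - 2 * ‖Pf w a 0‖ ≤
        1 + (Nb F t V : ℝ) + C * EZ F p lam Λ t V Z) := by
  have hl0 : 0 < lam := by linarith
  have hΛ0 : 0 < Λ := by linarith
  obtain ⟨h1, Z, h2, h3, h4, h5⟩ := per hF hsym hw hl0 hp hC hV hγ0 hγπ hΛ0 hδ
  have h6 := itg hF hw hl hp hC hV hγ0 hγπ hΛ hδ hBg hg
  have h7 := mul_le_mul_of_nonneg_left h6 (by positivity : 0 ≤ 2 / Λ)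
  have h8 := lowb hF hw hl0 hp hC hV hL hg'
  exact ⟨h1, Z, fun s hs => ⟨(h2 s hs).1, (h2 s hs).2.1⟩, by linarith, by linarith, by linarith⟩

/-- the sum of the terms of the first sum -/
lemma sum_expand {S : Finset IX} {ω D IP IS EE : IX → ℝ} {Λ cA c2 c3 A1 R C8 : ℝ}
    (hD : ∀ i ∈ S, D i ≤ 2 / Λ * (cA + c2 * IP i + c3 * (A1 + IS i) + R) + C8 * EE i)
    (hω : ∀ i ∈ S, 0 ≤ ω i) :
    ∑ i ∈ S, ω i * D i ≤ 2 / Λ * (cA * (∑ i ∈ S, ω i) + c2 * (∑ i ∈ S, ω i * IP i) +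
      c3 * (A1 * (∑ i ∈ S, ω i) + ∑ i ∈ S, ω i * IS i) + R * ∑ i ∈ S, ω i) +
      C8 * ∑ i ∈ S, ω i * EE i := by
  have h : ∑ i ∈ S, ω i * D i ≤ ∑ i ∈ S, ω i *
      (2 / Λ * (cA + c2 * IP i + c3 * (A1 + IS i) + R) + C8 * EE i) :=
    sum_le_sum fun i hi => mul_le_mul_of_nonneg_left (hD i hi) (hω i hi)
  refine h.trans (le_of_eq ?_)
  simp only [mul_sum, mul_add, sum_add_distrib]
  have e : ∀ f g : IX → ℝ, (∀ i, f i = g i) → ∑ i ∈ S, f i = ∑ i ∈ S, g i := fun f g h =>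
    sum_congr rfl fun i _ => h i
  rw [e _ _ (fun i => show ω i * (2 / Λ * cA) = 2 / Λ * (cA * ω i) by ring),
    e _ _ (fun i => show ω i * (2 / Λ * (c2 * IP i)) = 2 / Λ * (c2 * (ω i * IP i)) by ring),
    e _ _ (fun i => show ω i * (2 / Λ * (c3 * A1)) = 2 / Λ * (c3 * (A1 * ω i)) by ring),
    e _ _ (fun i => show ω i * (2 / Λ * (c3 * IS i)) = 2 / Λ * (c3 * (ω i * IS i)) by ring),
    e _ _ (fun i => show ω i * (2 / Λ * R) = 2 / Λ * (R * ω i) by ring),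
    e _ _ (fun i => show ω i * (C8 * EE i) = C8 * (ω i * EE i) by ring)]

end Pool.Agent.V8H15.LW
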