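import Mathlib

/-!
# The choice of the parameters

Project LW (helper15).
-/

set_option autoImplicit false

namespace Pool.Agent.V8H15.LW

lemma par_b {R0 J R1 ρ : ℝ} (hR0n : 0 ≤ R0) (hJ0 : 0 ≤ J) (hR1 : R1 = R0 + 2 * J) (hρ0 : 0 < ρ) :
    ∃ s β : ℝ, 0 < s ∧ β = 2 - s ∧ 1 ≤ β ∧ 2 * R0 / β + β * J ≤ R1 + ρ / 8 := by
  obtain ⟨s, hs0, hs1, hs2⟩ : ∃ s : ℝ, 0 < s ∧ s ≤ 1 / 2 ∧ R0 * s ≤ ρ / 8 := by
    refine ⟨min (1 / 2) (ρ / (8 * (R0 + 1))), by positivity, min_le_left _ _, ?_⟩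
    have h1 : min (1 / 2) (ρ / (8 * (R0 + 1))) ≤ ρ / (8 * (R0 + 1)) := min_le_right _ _
    have h2 : R0 * min (1 / 2) (ρ / (8 * (R0 + 1))) ≤ R0 * (ρ / (8 * (R0 + 1))) :=
      mul_le_mul_of_nonneg_left h1 hR0n
    have h3 : R0 * (ρ / (8 * (R0 + 1))) = ρ / 8 * (R0 / (R0 + 1)) := by
      field_simp
    have h4 : R0 / (R0 + 1) ≤ 1 := by
      rw [div_le_one (by linarith)]
      linarith
    rw [h3] at h2
    have h5 : ρ / 8 * (R0 / (R0 + 1)) ≤ ρ / 8 * 1 := mul_le_mul_of_nonneg_left h4 (by linarith)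
    linarith
  refine ⟨s, 2 - s, hs0, rfl, by linarith, ?_⟩
  have h1 : 2 * R0 / (2 - s) ≤ R0 + R0 * s := by
    rw [div_le_iff₀ (by linarith)]
    have h2 : 0 ≤ R0 * s * (1 - s) := mul_nonneg (by positivity) (by linarith)
    linarith
  have h2 : (2 - s) * J ≤ 2 * J := mul_le_mul_of_nonneg_right (by linarith) hJ0
  linarith

lemma par_m {R0 J R1 ρ s β δ c3 κ₀ : ℝ} (hR0n : 0 ≤ R0) (hJ0 : 0 ≤ J) (hR1 : R1 + ρ ≤ 3 / 2)
    (hR1n : 0 ≤ R1) (hρ0 : 0 < ρ) (hs : 0 < s) (hβ : β = 2 - s) (hβ1 : 1 ≤ β)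
    (hβR : 2 * R0 / β + β * J ≤ R1 + ρ / 8) (hδ : δ = ρ / 64) (hc3 : 0 ≤ c3) (hκ₀ : 0 ≤ κ₀) :
    ∃ m : ℕ, 3 ≤ m ∧ β + β / m < 2 ∧
      (1 + δ) ^ 2 * (2 * R0 / β + β * (J + ((8 * R0 + J) / m + ρ / 64))) +
        c3 * (1728 * κ₀) / m ^ 2 ≤ R1 + 11 * ρ / 32 ∧
      16 * (1 + κ₀) / m ≤ ρ / 64 := by
  obtain ⟨x, hx⟩ : ∃ x : ℝ, x = 2 / s + 64 * (8 * R0 + J) / ρ + 16 * (c3 * (1728 * κ₀)) / ρ +
    64 * (16 * (1 + κ₀)) / ρ := ⟨_, rfl⟩
  have p1 : 0 < 2 / s := by positivity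
  have p2 : 0 ≤ 64 * (8 * R0 + J) / ρ := by positivity
  have p3 : 0 ≤ 16 * (c3 * (1728 * κ₀)) / ρ := by positivity
  have p4 : 0 ≤ 64 * (16 * (1 + κ₀)) / ρ := by positivity
  obtain ⟨m, hm⟩ : ∃ m : ℕ, m = max 3 (⌈x⌉₊ + 1) := ⟨_, rfl⟩
  have hm3 : 3 ≤ m := by rw [hm]; exact le_max_left _ _
  have hm0 : (0 : ℝ) < m := by
    have : 0 < m := by omega
    exact_mod_cast this
  have hm1 : (1 : ℝ) ≤ m := by
    have : 1 ≤ m := by omega
    exact_mod_cast this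
  have hmx : x < m := by
    have h1 : ⌈x⌉₊ + 1 ≤ m := by rw [hm]; exact le_max_right _ _
    have h2 : (⌈x⌉₊ : ℝ) + 1 ≤ m := by exact_mod_cast h1
    have h3 := Nat.le_ceil x
    linarith
  have g1 : β / m < s := by
    have h1 : 2 / s < m := by linarith
    rw [div_lt_iff₀ hs] at h1
    rw [div_lt_iff₀ hm0]
    linarith
  have g2 : (8 * R0 + J) / m ≤ ρ / 64 := by
    have h1 : 64 * (8 * R0 + J) / ρ ≤ m := by linarith
    rw [div_le_iff₀ hρ0] at h1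
    rw [div_le_iff₀ hm0]
    linarith
  have g3 : c3 * (1728 * κ₀) / m ^ 2 ≤ ρ / 16 := by
    have h1 : 16 * (c3 * (1728 * κ₀)) / ρ ≤ m := by linarith
    rw [div_le_iff₀ hρ0] at h1
    rw [div_le_iff₀ (by positivity)]
    have h2 : (m : ℝ) * ρ ≤ (m : ℝ) ^ 2 * ρ := by
      refine mul_le_mul_of_nonneg_right ?_ hρ0.le
      nlinarith
    linarith
  refine ⟨m, hm3, by linarith, ?_, ?_⟩
  · obtain ⟨E, hE⟩ : ∃ E : ℝ, E = (8 * R0 + J) / m + ρ / 64 := ⟨_, rfl⟩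
    rw [← hE]
    have hE1 : E ≤ ρ / 32 := by rw [hE]; linarith
    have hE0 : 0 ≤ E := by rw [hE]; positivity
    have h1 : β * E ≤ 2 * (ρ / 32) := mul_le_mul (by linarith) hE1 hE0 (by norm_num)
    have h2 : 2 * R0 / β + β * (J + E) ≤ R1 + 3 * ρ / 16 := by linarith
    have h3 : (1 + δ) ^ 2 ≤ 1 + 3 * δ := by
      have h4 : δ ≤ 1 := by linarith
      have h5 : 0 ≤ δ := by linarith
      nlinarith
    have h4 : (1 + δ) ^ 2 * (2 * R0 / β + β * (J + E)) ≤ (1 + 3 * δ) * (R1 + 3 * ρ / 16) :=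
      mul_le_mul h3 h2 (by positivity) (by linarith)
    have h5 : 3 * δ * (R1 + 3 * ρ / 16) ≤ 3 * δ * (3 / 2) :=
      mul_le_mul_of_nonneg_left (by linarith) (by linarith)
    have h6 : 3 * δ * (3 / 2) ≤ ρ / 14 := by rw [hδ]; linarith
    have h7 : (1 + 3 * δ) * (R1 + 3 * ρ / 16) = R1 + 3 * ρ / 16 + 3 * δ * (R1 + 3 * ρ / 16) := by
      ring
    rw [h7] at h4
    linarith
  · have h1 : 64 * (16 * (1 + κ₀)) / ρ ≤ m := by linarith
    rw [div_le_iff₀ hρ0] at h1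
    rw [div_le_iff₀ hm0]
    linarith

lemma par_e {η₁ β m c3 ρ : ℝ} (hη₁ : 0 < η₁) (hβ : 0 < β) (hm : 0 < m) (hc3 : 0 ≤ c3)
    (hρ : 0 < ρ) : ∃ η : ℝ, 0 < η ∧ η ≤ 1 ∧ 2 * η ≤ η₁ ∧
      4 * η * m ≤ β ∧ c3 * (98 * η ^ 2) ≤ ρ / 32 := by
  refine ⟨min (min 1 (η₁ / 2)) (min (β / (4 * m)) (ρ / (32 * 98 * (c3 + 1)))), by positivity,
    (min_le_left _ _).trans (min_le_left _ _), ?_, ?_, ?_⟩
  · have h1 : min (min 1 (η₁ / 2)) (min (β / (4 * m)) (ρ / (32 * 98 * (c3 + 1)))) ≤ η₁ / 2 :=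
      (min_le_left _ _).trans (min_le_right _ _)
    linarith
  · have h1 : min (min 1 (η₁ / 2)) (min (β / (4 * m)) (ρ / (32 * 98 * (c3 + 1)))) ≤
        β / (4 * m) := (min_le_right _ _).trans (min_le_left _ _)
    rw [le_div_iff₀ (by positivity)] at h1
    linarith
  · obtain ⟨y, hy⟩ : ∃ y : ℝ, y = min (min 1 (η₁ / 2))
      (min (β / (4 * m)) (ρ / (32 * 98 * (c3 + 1)))) := ⟨_, rfl⟩
    rw [← hy]
    have h0 : 0 < y := by rw [hy]; positivity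
    have h1 : y ≤ 1 := by rw [hy]; exact (min_le_left _ _).trans (min_le_left _ _)
    have h2 : y ≤ ρ / (32 * 98 * (c3 + 1)) := by
      rw [hy]; exact (min_le_right _ _).trans (min_le_right _ _)
    rw [le_div_iff₀ (by positivity)] at h2
    have h3 : y ^ 2 ≤ y := by
      rw [sq]
      exact mul_le_of_le_one_right h0.le h1
    have h4 : c3 * (98 * y ^ 2) ≤ c3 * (98 * y) := by gcongr
    linarith

/-- the constant `K` -/
lemma par_K {K1 C m ρ w1 w2 β : ℝ} (hK1 : 1 ≤ K1) (hC : 0 ≤ C) (hm : 0 < m) (hρ : 0 < ρ)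
    (hw1 : 0 ≤ w1) (hw2 : 0 ≤ w2) (hβ : 1 ≤ β) :
    ∃ K : ℝ, K1 ≤ K ∧ ∀ L V : ℝ, 0 < L → K ≤ V * L → 0 < V ∧
      0 ≤ C * (2 * Real.pi / (β * L / m)) / V ∧ C * (2 * Real.pi / (β * L / m)) / V ≤ ρ / 32 ∧
      w1 ≤ ρ / 16 * (V * L / Real.pi) ∧ w2 ≤ ρ / 32 * (V * L / Real.pi) ∧
      16 ≤ ρ * (V * L / Real.pi) := by
  have hpi := Real.pi_pos
  obtain ⟨K, hK⟩ : ∃ K : ℝ, K = K1 + 64 * Real.pi * C * m / ρ + 16 * Real.pi * w1 / ρ +
    32 * Real.pi * w2 / ρ + 16 * Real.pi / ρ := ⟨_, rfl⟩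
  have q1 : 0 ≤ 64 * Real.pi * C * m / ρ := by positivity
  have q2 : 0 ≤ 16 * Real.pi * w1 / ρ := by positivity
  have q3 : 0 ≤ 32 * Real.pi * w2 / ρ := by positivity
  have q4 : 0 ≤ 16 * Real.pi / ρ := by positivity
  refine ⟨K, by linarith, fun L V hL hKV => ?_⟩
  have hKa : 64 * Real.pi * C * m / ρ ≤ V * L := by linarith
  have hKb : 16 * Real.pi * w1 / ρ ≤ V * L := by linarith
  have hKc : 32 * Real.pi * w2 / ρ ≤ V * L := by linarith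
  have hKd : 16 * Real.pi / ρ ≤ V * L := by linarith
  have hVL : 0 < V * L := by linarith
  have hV : 0 < V := by
    by_contra hcon
    push Not at hcon
    have := mul_nonpos_of_nonpos_of_nonneg hcon hL.le
    linarith
  have hβ0 : 0 < β := by linarith
  refine ⟨hV, by positivity, ?_, ?_, ?_, ?_⟩
  · have e : C * (2 * Real.pi / (β * L / m)) / V = (2 * Real.pi * C * m) / (β * (V * L)) := by
      field_simp
    rw [e, div_le_iff₀ (by positivity)]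
    rw [div_le_iff₀ hρ] at hKa
    have h1 : V * L * ρ ≤ β * (V * L * ρ) := le_mul_of_one_le_left (by positivity) hβ
    linarith
  · rw [div_le_iff₀ hρ] at hKb
    rw [← mul_div_assoc, le_div_iff₀ hpi]
    linarith
  · rw [div_le_iff₀ hρ] at hKc
    rw [← mul_div_assoc, le_div_iff₀ hpi]
    linarith
  · rw [div_le_iff₀ hρ] at hKd
    rw [← mul_div_assoc, le_div_iff₀ hpi]
    linarith

/-- the threshold for `L = log X` -/
lemma par_L {β m x₀ CG ρ η C : ℝ} (hβ : 1 ≤ β) (hm : 0 < m) (hx₀ : 1 ≤ x₀) (hCG : 0 ≤ CG)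
    (hρ : 0 < ρ) (hη : 0 < η) (hC : 0 ≤ C) (hηm : 4 * η * m ≤ β) (hρ1 : ρ ≤ 3 / 2) :
    ∃ Lm : ℝ, 1 ≤ Lm ∧ ∀ L : ℝ, Lm ≤ L → 1 ≤ β * L / m ∧ x₀ ≤ β * L / m ∧
      CG / (2 * L) ≤ ρ / 32 ∧ CG ≤ 2 * L ∧ CG ≤ η * L ∧ 3 ≤ Real.exp (η * L) ∧
      Real.exp (η * L) + C * (2 * Real.pi / (β * L / m)) ≤ Real.exp (β * L / m / 2) := by
  have hpi := Real.pi_pos
  obtain ⟨Lm, hLm⟩ : ∃ Lm : ℝ, Lm = 1 + m * (1 + x₀) + 16 * CG / ρ + CG / η + 2 / η +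
    (2 * Real.pi * C) / η := ⟨_, rfl⟩
  have r1 : 0 ≤ m * (1 + x₀) := by positivity
  have r2 : 0 ≤ 16 * CG / ρ := by positivity
  have r3 : 0 ≤ CG / η := by positivity
  have r4 : 0 ≤ 2 / η := by positivity
  have r5 : 0 ≤ (2 * Real.pi * C) / η := by positivity
  refine ⟨Lm, by linarith, fun L hL => ?_⟩
  have hL1 : 1 ≤ L := by linarith
  have hL0 : 0 < L := by linarith
  have hβ0 : 0 < β := by linarith
  have g1 : m * (1 + x₀) ≤ L := by linarith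
  have g2 : 16 * CG / ρ ≤ L := by linarith
  have g3 : CG / η ≤ L := by linarith
  have g4 : 2 / η ≤ L := by linarith
  have g5 : (2 * Real.pi * C) / η ≤ L := by linarith
  rw [div_le_iff₀ hρ] at g2
  rw [div_le_iff₀ hη] at g3 g4 g5
  have hlam : 1 + x₀ ≤ β * L / m := by
    rw [le_div_iff₀ hm]
    have : L ≤ β * L := le_mul_of_one_le_left hL0.le hβ
    linarith
  have hlam1 : 1 ≤ β * L / m := by linarith
  have hexp1 := Real.add_one_le_exp (η * L)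
  refine ⟨hlam1, by linarith, ?_, ?_, by linarith, by linarith, ?_⟩
  · rw [div_le_iff₀ (by positivity)]
    linarith
  · have : L * ρ ≤ L * (3 / 2) := mul_le_mul_of_nonneg_left hρ1 hL0.le
    linarith
  · have h1 : C * (2 * Real.pi / (β * L / m)) ≤ C * (2 * Real.pi / 1) := by gcongr
    have h2 : 1 + 2 * Real.pi * C ≤ Real.exp (η * L) := by linarith
    have h3 : 1 ≤ Real.exp (η * L) := Real.one_le_exp (by positivity)
    have h4 : Real.exp (η * L) * (1 + 2 * Real.pi * C) ≤ Real.exp (η * L) * Real.exp (η * L) :=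
      mul_le_mul_of_nonneg_left h2 (by linarith)
    rw [← Real.exp_add] at h4
    have h5 : Real.exp (η * L + η * L) ≤ Real.exp (β * L / m / 2) := by
      refine Real.exp_le_exp.mpr ?_
      rw [div_div, le_div_iff₀ (by positivity)]
      have : 4 * η * m * L ≤ β * L := mul_le_mul_of_nonneg_right hηm hL0.le
      linarith
    have h6 : 2 * Real.pi * C ≤ Real.exp (η * L) * (2 * Real.pi * C) :=
      le_mul_of_one_le_left (by positivity) h3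
    have h7 : C * (2 * Real.pi / 1) = 2 * Real.pi * C := by ring
    rw [h7] at h1
    have h8 : Real.exp (η * L) * (1 + 2 * Real.pi * C) =
      Real.exp (η * L) + Real.exp (η * L) * (2 * Real.pi * C) := by ring
    rw [h8] at h4
    linarith

end Pool.Agent.V8H15.LW
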