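import Pool.Agent.V8H15.LW.Fin
import Pool.Agent.V8H15.LW.Par

/-!
# The theorem for the family: the choice of the parameters

Project LW (helper15).
-/

set_option autoImplicit false

open Finset Filter Topology MeasureTheory Complex UpperHalfPlane MatrixGroups
  CongruenceSubgroup

namespace Pool.Agent.V8H15.LW

open Pool.Agent.R399.TW (pt pt_re pt_im pt_cont)
open W388 (IsNewf lamf heckeSeq_lamf cS rad rad_squarefree coprime_rad)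
open H385 (primSetM mem_primSetM IX Rw Rw_nonneg WM cM cM_pos primFamM primFamM_eq)
open H370 (mult)

/-- `∑ ω ‖P‖` -/
lemma cs_sum {S : Finset IX} {ω P : IX → ℝ} (hω : ∀ i ∈ S, 0 ≤ ω i) {W κ v : ℝ}
    (hW : W = ∑ i ∈ S, ω i) (hv : 0 < v) (hκ : 0 ≤ κ) (hW0 : 0 ≤ W)
    (h : ∑ i ∈ S, ω i * P i ^ 2 ≤ κ * W * v ^ 2 * 2) :
    ∑ i ∈ S, ω i * P i ≤ W * (v * (1 + κ)) := by
  have hs : 0 < 1 + 2 * κ := by linarith
  have h1 : ∀ i ∈ S, ω i * P i ≤ ω i * (v * (1 + 2 * κ) / 2) +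
      (ω i * P i ^ 2) * (1 / (2 * (v * (1 + 2 * κ)))) := by
    intro i hi
    have h2 : P i ≤ v * (1 + 2 * κ) / 2 + P i ^ 2 * (1 / (2 * (v * (1 + 2 * κ)))) := by
      obtain ⟨τ, hτ⟩ : ∃ τ : ℝ, τ = v * (1 + 2 * κ) := ⟨_, rfl⟩
      have hτ0 : 0 < τ := by rw [hτ]; positivity
      rw [← hτ]
      have h3 : 0 ≤ (P i - τ) ^ 2 / (2 * τ) := by positivity
      have h4 : (P i - τ) ^ 2 / (2 * τ) = τ / 2 + P i ^ 2 * (1 / (2 * τ)) - P i := by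
        field_simp
        ring
      linarith
    have h3 := mul_le_mul_of_nonneg_left h2 (hω i hi)
    linarith
  refine (sum_le_sum h1).trans ?_
  rw [sum_add_distrib, ← sum_mul, ← sum_mul, ← hW]
  have h2 : (∑ i ∈ S, ω i * P i ^ 2) * (1 / (2 * (v * (1 + 2 * κ)))) ≤
      (κ * W * v ^ 2 * 2) * (1 / (2 * (v * (1 + 2 * κ)))) :=
    mul_le_mul_of_nonneg_right h (by positivity)
  have h3 : (κ * W * v ^ 2 * 2) * (1 / (2 * (v * (1 + 2 * κ)))) =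
      W * v * (κ / (1 + 2 * κ)) := by
    field_simp
  have h4 : κ / (1 + 2 * κ) ≤ 1 / 2 := by
    rw [div_le_iff₀ hs]
    linarith
  have h5 : W * v * (κ / (1 + 2 * κ)) ≤ W * v * (1 / 2) :=
    mul_le_mul_of_nonneg_left h4 (by positivity)
  linarith

/-- **The theorem for the family.** -/
theorem fin0 {N : ℕ} [NeZero N] {k : ℤ} (hk : 2 ≤ k)
    {f : CuspForm (Gamma0 N : Subgroup (GL (Fin 2) ℝ)) k} {ε : ℝ} (hf : IsNewf N k f ε)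
    {A : ℝ} (hA : 1 ≤ A) {F : (q : ℕ) → DirichletCharacter ℂ q → ℂ → ℂ}
    (hF : TwF N k (lamf f) (heckeSeq_lamf hf).zero A F)
    (hc2 : ∀ n, ArithmeticFunction.vonMangoldt n * ‖((cS N (lamf f) n : ℝ) : ℂ)‖ ≤
      2 * ArithmeticFunction.vonMangoldt n)
    {γ κ : ℝ} (hγ0 : 0 < γ) (hγπ : γ < Real.pi)
    (hκ : Rw γ 0 + 2 * (∫ α in (0 : ℝ)..1, α * Rw γ α) < κ) (hκ2 : κ ≤ 3 / 2) :
    ∃ K η X₀ : ℝ, 1 ≤ K ∧ 0 < η ∧ 1 ≤ X₀ ∧ ∀ X Y : ℕ, X₀ ≤ X → K * X ≤ Y →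
      (Y : ℝ) ≤ (X : ℝ) ^ (1 + η) → ∀ t V : ℝ, |t| ≤ (X : ℝ) ^ η → K ≤ V * Real.log X →
      V ≤ (X : ℝ) ^ η →
      (∀ i ∈ primSetM N X Y, (cz (F i.1 i.2) t V).Finite) ∧
      (2 - κ) * (∑ i ∈ primSetM N X Y, (1 / (i.1 : ℝ) ^ 2) * (Nb (F i.1 i.2) t V : ℝ)) ≤
        ∑ i ∈ primSetM N X Y, (1 / (i.1 : ℝ) ^ 2) * ((sz (F i.1 i.2) t V).ncard : ℝ) ∧
      (3 - κ) / 2 * (∑ i ∈ primSetM N X Y, (1 / (i.1 : ℝ) ^ 2) * (Nb (F i.1 i.2) t V : ℝ)) ≤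
        ∑ i ∈ primSetM N X Y, (1 / (i.1 : ℝ) ^ 2) *
          (((cz (F i.1 i.2) t V).ncard : ℝ) - 2) ∧
      (∑ i ∈ primSetM N X Y, (1 / (i.1 : ℝ) ^ 2)) * (V * Real.log X / 4) ≤
        ∑ i ∈ primSetM N X Y, (1 / (i.1 : ℝ) ^ 2) * (Nb (F i.1 i.2) t V : ℝ) ∧
      1 ≤ ∑ i ∈ primSetM N X Y, (1 / (i.1 : ℝ) ^ 2) := by
  classical
  have hN : 1 ≤ N := Nat.pos_of_ne_zero (NeZero.ne N)
  have hN0 : N ≠ 0 := NeZero.ne N
  have hNr : (1 : ℝ) ≤ N := by exact_mod_cast hN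
  have hpi := Real.pi_pos
  have hkr : (2 : ℝ) ≤ k := by exact_mod_cast hk
  obtain ⟨c, hcdef⟩ : ∃ c : ℕ → ℂ, c = fun n => ((cS N (lamf f) n : ℝ) : ℂ) := ⟨_, rfl⟩
  have hcn : ∀ n, c n = ((cS N (lamf f) n : ℝ) : ℂ) := fun n => by rw [hcdef]
  have hH := heckeSeq_lamf hf
  have hRS := W388.p_rs N k (by omega) f ε hf
  have hSel : W388.SelE c := by
    rw [hcdef]
    exact (W388.p_sel N (by omega) (lamf f) hH hRS).1
  have hc2' : ∀ n, ArithmeticFunction.vonMangoldt n * ‖c n‖ ≤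
      2 * ArithmeticFunction.vonMangoldt n := fun n => by rw [hcn]; exact hc2 n
  -- constants
  obtain ⟨R0, hR0⟩ : ∃ R0 : ℝ, R0 = Rw γ 0 := ⟨_, rfl⟩
  have hR0n : 0 ≤ R0 := by rw [hR0]; exact Rw_nonneg γ hγ0 hγπ 0
  obtain ⟨J, hJ⟩ : ∃ J : ℝ, J = ∫ α in (0 : ℝ)..1, α * Rw γ α := ⟨_, rfl⟩
  have hJ0 : 0 ≤ J := by
    rw [hJ]
    exact intervalIntegral.integral_nonneg (by norm_num) fun α hα =>
      mul_nonneg hα.1 (Rw_nonneg γ hγ0 hγπ α)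
  rw [← hR0, ← hJ] at hκ
  obtain ⟨R1, hR1⟩ : ∃ R1 : ℝ, R1 = R0 + 2 * J := ⟨_, rfl⟩
  have hR1n : 0 ≤ R1 := by rw [hR1]; positivity
  obtain ⟨ρ, hρ⟩ : ∃ ρ : ℝ, ρ = κ - R1 := ⟨_, rfl⟩
  have hρ0 : 0 < ρ := by rw [hρ, hR1]; linarith
  have hκρ : κ = R1 + ρ := by rw [hρ]; ring
  have hρ1 : ρ ≤ 3 / 2 := by linarith
  obtain ⟨s, β, hs0, hβ, hβ1, hβR⟩ := par_b hR0n hJ0 hR1 hρ0
  have hβ2 : β ≤ 2 := by linarith
  have hβ0 : 0 < β := by linarith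
  obtain ⟨δ, hδ⟩ : ∃ δ : ℝ, δ = ρ / 64 := ⟨_, rfl⟩
  have hδ0 : 0 < δ := by rw [hδ]; positivity
  obtain ⟨c3, hc3⟩ : ∃ c3 : ℝ, c3 = 3 * R0 * (1 + δ) * (1 + 1 / δ) := ⟨_, rfl⟩
  have hc30 : 0 ≤ c3 := by rw [hc3]; positivity
  have hM := rad_squarefree N
  have hcM := cM_pos (rad N) hM
  obtain ⟨κ₀, hκ₀⟩ : ∃ κ₀ : ℝ, κ₀ = 4 / cM (rad N) := ⟨_, rfl⟩
  have hκ₀0 : 0 ≤ κ₀ := by rw [hκ₀]; positivity
  obtain ⟨m, hm3, hm1, hbr, hmκ⟩ := par_m hR0n hJ0 (by linarith) hR1n hρ0 hs0 hβ hβ1 hβR hδ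
    hc30 hκ₀0
  have hm0 : (0 : ℝ) < m := by
    have : 0 < m := by omega
    exact_mod_cast this
  have hm3r : (3 : ℝ) ≤ m := by exact_mod_cast hm3
  obtain ⟨a, ha⟩ : ∃ a : ℝ, a = β / m := ⟨_, rfl⟩
  have ha0 : 0 < a := by rw [ha]; positivity
  have ha1 : a ≤ 1 := by
    rw [ha, div_le_one hm0]
    linarith
  -- the inputs
  obtain ⟨η₁, B, X2, p₀, hη₁0, hη₁1, hB, hX2, hEZ⟩ := fam_EZ hk hf hA hF ha0 ha1
    (b := β + β / m) (by positivity) hm1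
  obtain ⟨K1, X1, hK1, hX1, hmain⟩ := fam_main hM hSel hc2' hγ0 hγπ (m := m) (by omega) hβ0 hm1
    (ε₁ := ρ / 64) (by positivity)
  obtain ⟨m', hm'⟩ : ∃ m' : ℕ, m' = p₀ + 4 := ⟨_, rfl⟩
  obtain ⟨C, hC1, hwnd⟩ := wnd_exists m' (by omega)
  have hC0 : 0 ≤ C := by linarith
  obtain ⟨p, hp⟩ : ∃ p : ℕ, p = 2 * m' - 2 := ⟨_, rfl⟩
  have hp4 : 4 ≤ p := by omega
  have hpp : p₀ ≤ p := by omega
  rw [← hp] at hwnd
  obtain ⟨CG, hCG0, hCG⟩ := Gf_line (N : ℝ) hNr (((k : ℝ) - 1) / 2) (by linarith)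
  obtain ⟨x₀, hx₀, hfs⟩ := fs_lim hSel (δ := 1) one_pos
  obtain ⟨η, hη0, hη1, hη2, hη3, hη4⟩ := par_e (m := (m : ℝ)) hη₁0 hβ0 hm0 hc30 hρ0
  obtain ⟨w1, hw1⟩ : ∃ w1 : ℝ, w1 = 16 * c3 * C + 2 * R0 + 8 * C * B * κ₀ := ⟨_, rfl⟩
  have hw10 : 0 ≤ w1 := by rw [hw1]; positivity
  obtain ⟨w2, hw2⟩ : ∃ w2 : ℝ, w2 = 1 + C * B * κ₀ := ⟨_, rfl⟩
  have hw20 : 0 ≤ w2 := by rw [hw2]; positivity
  obtain ⟨K, hKK1, hK⟩ := par_K hK1 hC0 hm0 hρ0 hw10 hw20 hβ1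
  obtain ⟨Lm, hLm1, hLm⟩ := par_L hβ1 hm0 hx₀ hCG0 hρ0 hη0 hC0 hη3 hρ1
  refine ⟨K, η, max (max X1 X2) (Real.exp Lm), hK1.trans hKK1, hη0,
    hX1.trans ((le_max_left _ _).trans (le_max_left _ _)), ?_⟩
  intro X Y hX hXY hYX t V ht hKV hVX
  have hXX1 : X1 ≤ X := ((le_max_left _ _).trans (le_max_left _ _)).trans hX
  have hXX2 : X2 ≤ X := ((le_max_right _ _).trans (le_max_left _ _)).trans hX
  have hXe : Real.exp Lm ≤ X := (le_max_right _ _).trans hX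
  have hX0 : (0 : ℝ) < X := lt_of_lt_of_le (Real.exp_pos _) hXe
  have hX1r : (1 : ℝ) ≤ X := hX1.trans hXX1
  have hX1n : 1 ≤ X := by exact_mod_cast hX1r
  obtain ⟨L, hL⟩ : ∃ L : ℝ, L = Real.log X := ⟨_, rfl⟩
  have hLLm : Lm ≤ L := by
    rw [hL, Real.le_log_iff_exp_le hX0]
    exact hXe
  have hexpL : Real.exp L = X := by rw [hL, Real.exp_log hX0]
  have hL1 : 1 ≤ L := by linarith
  have hL0 : 0 < L := by linarith
  rw [← hL] at hKV ⊢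
  obtain ⟨hV0, hs1n, hs1, hQ1, hQ2, hQ3⟩ := hK L V hL0 hKV
  obtain ⟨g1, g2, g3, g4, g5, g6, g7⟩ := hLm L hLLm
  obtain ⟨Λ, hΛ⟩ : ∃ Λ : ℝ, Λ = β * L := ⟨_, rfl⟩
  obtain ⟨lam, hlam⟩ : ∃ lam : ℝ, lam = Λ / m := ⟨_, rfl⟩
  have hlam' : lam = β * L / m := by rw [hlam, hΛ]
  rw [← hlam'] at hs1n hs1 g1 g2 g7
  have hlam0 : 0 < lam := by linarith
  have hΛ0 : 0 < Λ := by rw [hΛ]; positivity
  have h2Λ : 2 * lam ≤ Λ := by
    rw [hlam, ← mul_div_assoc, div_le_iff₀ hm0, mul_comm 2 Λ]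
    exact mul_le_mul_of_nonneg_left (by linarith) hΛ0.le
  -- `X ^ η`
  obtain ⟨y, hy⟩ : ∃ y : ℝ, y = (X : ℝ) ^ η := ⟨_, rfl⟩
  have hyexp : y = Real.exp (η * L) := by
    rw [hy, hL, Real.rpow_def_of_pos hX0]
    congr 1
    ring
  rw [← hyexp] at g6 g7
  rw [← hy] at ht hVX
  have hylog : Real.log y = η * L := by rw [hyexp, Real.log_exp]
  have hyη : y * y ≤ (X : ℝ) ^ η₁ := by
    rw [hy, ← Real.rpow_add hX0]
    exact Real.rpow_le_rpow_of_exponent_le hX1r (by linarith)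
  have hY2 : (Y : ℝ) ≤ (X : ℝ) ^ 2 := by
    refine hYX.trans ?_
    rw [← Real.rpow_two]
    exact Real.rpow_le_rpow_of_exponent_le hX1r (by linarith)
  have hKX : K1 * X ≤ Y := (mul_le_mul_of_nonneg_right hKK1 hX0.le).trans hXY
  have hXYn : X ≤ Y := by
    have : (X : ℝ) ≤ Y := (le_mul_of_one_le_left hX0.le hK1).trans hKX
    exact_mod_cast this
  obtain ⟨w, hw⟩ := hwnd lam t V hlam0 hV0.le
  obtain ⟨V', hV'⟩ : ∃ V' : ℝ, V' = V + C * (2 * Real.pi / lam) := ⟨_, rfl⟩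
  obtain ⟨s1, hs1d⟩ : ∃ s1 : ℝ, s1 = C * (2 * Real.pi / lam) / V := ⟨_, rfl⟩
  rw [← hs1d] at hs1n hs1
  have hCV : C * (2 * Real.pi / lam) = V * s1 := by
    rw [hs1d]
    field_simp
  have hV's : V' = V * (1 + s1) := by rw [hV', hCV]; ring
  have hV'0 : 0 < V' := by rw [hV's]; positivity
  -- the index set
  obtain ⟨S, hS⟩ : ∃ S : Finset IX, S = primSetM N X Y := ⟨_, rfl⟩
  have hSr : primSetM (rad N) X Y = S := by
    rw [hS]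
    ext i
    rw [mem_primSetM, mem_primSetM, coprime_rad hN0]
  obtain ⟨ω, hω⟩ : ∃ ω : IX → ℝ, ∀ i, ω i = 1 / (i.1 : ℝ) ^ 2 := ⟨_, fun _ => rfl⟩
  have hω0 : ∀ i ∈ S, 0 ≤ ω i := fun i _ => by rw [hω]; positivity
  obtain ⟨W, hW⟩ : ∃ W : ℝ, W = ∑ i ∈ S, ω i := ⟨_, rfl⟩
  obtain ⟨hm_1, hm_2, hm_3⟩ := hmain X Y hXX1 hKX hY2
  have hWM : WM (rad N) X Y = W := by
    unfold H385.WM
    rw [primFamM_eq, hSr, hW]
    refine sum_congr rfl fun i _ => ?_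
    rw [hω, mul_one]
  rw [hWM] at hm_1 hm_2
  rw [← hκ₀] at hm_2
  have hW1 : 1 ≤ W := hm_1
  have hW0 : 0 < W := by linarith
  -- the prime sums
  have hIP := hm_3 lam Λ (by rw [hΛ, hL]) hlam C t V p w hw (by omega) hC0 hV0.le (by
    have h1 : V + C * (2 * Real.pi / lam) ≤ y + C * (2 * Real.pi / lam) := by linarith
    exact h1.trans g7)
  rw [hSr, hWM, ← hJ, ← hR0, ← hV'] at hIP
  have hNL : NL lam (2 * lam) ≤ X ^ 2 := by
    unfold NL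
    refine Nat.floor_le_of_le ?_
    have h1 : 2 * lam + lam ≤ 2 * L := by
      have h2 : lam * m = β * L := by
        rw [hlam']
        field_simp
      have h3 : lam * 3 ≤ lam * m := mul_le_mul_of_nonneg_left hm3r hlam0.le
      have h4 : β * L ≤ 2 * L := mul_le_mul_of_nonneg_right hβ2 hL0.le
      linarith
    push_cast
    rw [← hexpL, ← Real.exp_nat_mul]
    refine Real.exp_le_exp.mpr ?_
    push_cast
    exact h1
  have hNL0 : NL lam 0 ≤ X ^ 2 := by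
    refine le_trans ?_ hNL
    unfold NL
    refine Nat.floor_le_floor (Real.exp_le_exp.mpr ?_)
    linarith
  have hlog0 : 0 ≤ 1 + 2 * Real.log ((Y : ℝ) / X) := by
    have h1 : 0 ≤ Real.log ((Y : ℝ) / X) := by
      refine Real.log_nonneg ?_
      rw [le_div_iff₀ hX0, one_mul]
      exact_mod_cast hXYn
    linarith
  have hfs1 : fs c lam ≤ 2 * lam := by
    have := (abs_le.mp (hfs lam g2)).2
    linarith
  have hfs3 : fs c (3 * lam) ≤ 6 * lam := by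
    have := (abs_le.mp (hfs (3 * lam) (by linarith))).2
    linarith
  have hIS : ∑ i ∈ S, ω i * (∫ u in (-(2 * lam))..(2 * lam), ‖Pf w (av c i) u‖ ^ 2) ≤
      6 * (κ₀ * W) * V' * (3 * lam * (6 * lam)) := by
    have h1 := fam_small hw hlam0 (by omega) hC0 hV0.le N X Y hX1n hXYn c hNL
    rw [← hS, ← hV'] at h1
    simp_rw [← hω] at h1
    refine h1.trans ?_
    have h2 : 3 * lam * fs c (3 * lam) ≤ 3 * lam * (6 * lam) :=
      mul_le_mul_of_nonneg_left hfs3 (by positivity)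
    have h3 : 0 ≤ 3 * lam * (6 * lam) := by positivity
    have h4 : 6 * (1 + 2 * Real.log ((Y : ℝ) / X)) * V' ≤ 6 * (κ₀ * W) * V' := by
      refine mul_le_mul_of_nonneg_right ?_ hV'0.le
      linarith
    have h5 : 0 ≤ 6 * (1 + 2 * Real.log ((Y : ℝ) / X)) * V' := by positivity
    exact (mul_le_mul_of_nonneg_left h2 h5).trans (mul_le_mul_of_nonneg_right h4 h3)
  have hP0 : ∑ i ∈ S, ω i * ‖Pf w (av c i) 0‖ ^ 2 ≤ κ₀ * W * (V' * lam) ^ 2 * 2 := by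
    have h1 := fam_zero hw hlam0 (by omega) hC0 hV0.le N X Y hX1n hXYn c hNL0
    rw [← hS, ← hV'] at h1
    simp_rw [← hω] at h1
    refine h1.trans ?_
    have h2 : lam * fs c lam ≤ lam * (2 * lam) := mul_le_mul_of_nonneg_left hfs1 hlam0.le
    have h3 : 0 ≤ lam * (2 * lam) := by positivity
    have h4 : (1 + 2 * Real.log ((Y : ℝ) / X)) * V' ^ 2 ≤ (κ₀ * W) * V' ^ 2 :=
      mul_le_mul_of_nonneg_right hm_2 (by positivity)
    have h5 : 0 ≤ (1 + 2 * Real.log ((Y : ℝ) / X)) * V' ^ 2 := by positivity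
    refine ((mul_le_mul_of_nonneg_left h2 h5).trans
      (mul_le_mul_of_nonneg_right h4 h3)).trans (le_of_eq ?_)
    ring
  have hP0' := cs_sum hω0 hW (by positivity : 0 < V' * lam) hκ₀0 hW0.le hP0
  -- the archimedean factors
  obtain ⟨Bg, hBg⟩ : ∃ Bg : ℝ, Bg = CG + 2 * (η * L) := ⟨_, rfl⟩
  have hBg0 : 0 ≤ Bg := by rw [hBg]; positivity
  obtain ⟨Bs, hBs⟩ : ∃ Bs : ℝ, Bs = Bg + 2 * Real.log (1 + |t| + V) := ⟨_, rfl⟩
  have htabs := abs_nonneg t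
  have hBs0 : 0 ≤ Bs := by
    have : 0 ≤ Real.log (1 + |t| + V) := Real.log_nonneg (by linarith)
    rw [hBs]
    positivity
  have hBs7 : Bs ≤ 7 * η * L := by
    have h1 : Real.log (1 + |t| + V) ≤ 2 * (η * L) := by
      have h2 : 1 + |t| + V ≤ y * y := by
        have : 3 * y ≤ y * y := mul_le_mul_of_nonneg_right g6 (by linarith)
        linarith
      refine (Real.log_le_log (by linarith) h2).trans (le_of_eq ?_)
      rw [Real.log_mul (by linarith) (by linarith), hylog]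
      ring
    rw [hBs, hBg]
    linarith
  obtain ⟨A1, hA1⟩ : ∃ A1 : ℝ, A1 = 1 / (2 * Real.pi) * (2 * Bs ^ 2 * V' +
    8 * C * (2 * Real.pi / lam)) := ⟨_, rfl⟩
  obtain ⟨cA, hcA⟩ : ∃ cA : ℝ, cA = R0 * (1 + δ) ^ 2 * (L ^ 2 / Real.pi) * V' := ⟨_, rfl⟩
  obtain ⟨IP, hIPd⟩ : ∃ IP : IX → ℝ, ∀ i, IP i = ∫ u in (2 * lam)..Λ, Rw γ (u / Λ) *
    ‖Pf w (av c i) u‖ ^ 2 := ⟨_, fun _ => rfl⟩
  obtain ⟨IS, hISd⟩ : ∃ IS : IX → ℝ, ∀ i, IS i = ∫ u in (-(2 * lam))..(2 * lam),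
    ‖Pf w (av c i) u‖ ^ 2 := ⟨_, fun _ => rfl⟩
  obtain ⟨lb, hlb⟩ : ∃ lb : ℝ, lb = 1 / (2 * Real.pi) * (2 * L - CG) *
    (V - C * (2 * Real.pi / lam)) := ⟨_, rfl⟩
  simp_rw [← hω, ← hIPd] at hIP
  simp_rw [← hISd] at hIS
  have hall : ∀ i ∈ S, (cz (F i.1 i.2) t V).Finite ∧ ∃ Z : Finset ℂ,
      (∀ s ∈ Z, 0 ≤ s.re ∧ s.re ≤ 1) ∧
      (2 * (Nb (F i.1 i.2) t V : ℝ) - ((sz (F i.1 i.2) t V).ncard : ℝ) ≤
        2 / Λ * (cA + (1 + δ) ^ 2 * IP i + c3 * (A1 + IS i) + R0 * Λ) +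
          8 * C * EZ (F i.1 i.2) p lam Λ t V Z) ∧
      (3 * (Nb (F i.1 i.2) t V : ℝ) - 2 * ((cz (F i.1 i.2) t V).ncard : ℝ) ≤
        2 / Λ * (cA + (1 + δ) ^ 2 * IP i + c3 * (A1 + IS i) + R0 * Λ) +
          8 * C * EZ (F i.1 i.2) p lam Λ t V Z) ∧
      (lb - 2 * ‖Pf w (av c i) 0‖ ≤ 1 + (Nb (F i.1 i.2) t V : ℝ) +
        C * EZ (F i.1 i.2) p lam Λ t V Z) := by
    intro i hi
    rw [hS, mem_primSetM] at hi
    obtain ⟨hi1, hi2, hi3, hi4⟩ := hi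
    have hiq : 1 ≤ i.1 := by omega
    have hiX : (X : ℝ) < i.1 := by exact_mod_cast hi1
    have hi0 : (0 : ℝ) < i.1 := by linarith
    have hiY : (i.1 : ℝ) ≤ (X : ℝ) ^ (1 + η) := by
      have : (i.1 : ℝ) ≤ Y := by exact_mod_cast hi2
      exact this.trans hYX
    have hlq1 : L ≤ Real.log i.1 := by
      rw [hL]
      exact Real.log_le_log hX0 hiX.le
    have hlq2 : Real.log i.1 ≤ (1 + η) * L := by
      have := Real.log_le_log hi0 hiY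
      rwa [Real.log_rpow hX0, ← hL] at this
    have hxf := hF.xf hk hN hA hc2 hiq hi3 hi4
    rw [← hcdef] at hxf
    have hsym : ∀ s : ℂ, 0 ≤ s.re → s.re ≤ 1 → analyticOrderAt (F i.1 i.2)
        (1 - (starRingEnd ℂ) s) = analyticOrderAt (F i.1 i.2) s := fun s h1 h2 =>
      hF.sym hk hN hiq hi3 hi4 (by linarith) (by linarith)
    have h1 := one hxf hsym hw g1 hp4 hC0 hV0.le hγ0 hγπ h2Λ hδ0 hBg0 (L := L) (C' := CG)
      (by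
        intro u
        obtain ⟨a1, a2⟩ := hCG i.1 u (by linarith)
        have e : Gf (Real.sqrt N * (i.1 : ℝ) / (2 * Real.pi)) (((k : ℝ) - 1) / 2)
            (pt (1 / 2) u) - ((2 * L : ℝ) : ℂ) =
            (Gf (Real.sqrt N * (i.1 : ℝ) / (2 * Real.pi)) (((k : ℝ) - 1) / 2)
            (pt (1 / 2) u) - ((2 * Real.log i.1 : ℝ) : ℂ)) +
            ((2 * Real.log i.1 - 2 * L : ℝ) : ℂ) := by
          push_cast
          ring
        rw [e]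
        refine (norm_add_le _ _).trans ?_
        have h2 : ‖((2 * Real.log i.1 - 2 * L : ℝ) : ℂ)‖ ≤ 2 * (η * L) := by
          rw [Complex.norm_real, Real.norm_of_nonneg (by linarith)]
          linarith
        rw [hBg]
        linarith)
      g4 (by
        intro u
        obtain ⟨a1, a2⟩ := hCG i.1 u (by linarith)
        linarith)
    rw [← hR0, ← hV', ← hc3, ← hBs, ← hA1, ← hcA, ← hlb] at h1
    obtain ⟨c1, Z, c2, c4, c5, c6⟩ := h1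
    refine ⟨c1, Z, c2, ?_, ?_, c6⟩
    · rw [hIPd, hISd]
      exact c4
    · rw [hIPd, hISd]
      exact c5
  choose! hfin Zs hZs1 hZs2 hZs3 hZs4 using hall
  have hEE : ∑ i ∈ S, ω i * EZ (F i.1 i.2) p lam Λ t V (Zs i) ≤ B * (κ₀ * W) := by
    have h1 := hEZ p hpp X Y hXX2 hXYn hY2 t V (by
        refine ht.trans (le_trans ?_ hyη)
        have : 1 * y ≤ y * y := mul_le_mul_of_nonneg_right (by linarith) (by linarith)
        linarith) (by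
        refine le_trans ?_ hyη
        have h2 := abs_add_le t V
        rw [abs_of_pos hV0] at h2
        have : 3 * y ≤ y * y := mul_le_mul_of_nonneg_right g6 (by linarith)
        linarith) lam Λ (by
        rw [hlam', ha, ← hL]
        ring) (by
        rw [hlam, hΛ, ← hL]
        ring) Zs (by
        intro i hi
        rw [← hS] at hi
        exact hZs1 i hi)
    rw [← hS] at h1
    simp_rw [← hω] at h1
    exact h1.trans (mul_le_mul_of_nonneg_left hm_2 hB)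
  -- the number of zeros
  obtain ⟨E, hE⟩ : ∃ E : ℝ, E = (8 * R0 + J) / m + ρ / 64 := ⟨_, rfl⟩
  rw [← hE] at hbr
  rw [add_assoc J, ← hE] at hIP
  have hup := up_num (δ := δ) (R0 := R0) hW0.le hV'0.le hL1 hΛ hlam (by linarith : (1 : ℝ) ≤ m)
    g1 hβ1 hβ2 hc30 hC0 hκ₀0 hη0 hBs0 hBs7 hIP hIS hEE
  rw [← hcA, ← hA1] at hup
  obtain ⟨T0, hT0⟩ : ∃ T0 : ℝ, T0 = 2 / Λ * (cA * W + (1 + δ) ^ 2 * ∑ i ∈ S, ω i * IP i +
      c3 * (A1 * W + ∑ i ∈ S, ω i * IS i) + R0 * Λ * W) +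
    8 * C * ∑ i ∈ S, ω i * EZ (F i.1 i.2) p lam Λ t V (Zs i) := ⟨_, rfl⟩
  rw [← hT0] at hup
  have hT1 := sum_expand (IP := IP) (IS := IS) (EE := fun i => EZ (F i.1 i.2) p lam Λ t V (Zs i))
    (D := fun i => 2 * (Nb (F i.1 i.2) t V : ℝ) - ((sz (F i.1 i.2) t V).ncard : ℝ)) hZs2 hω0
  have hT2 := sum_expand (IP := IP) (IS := IS) (EE := fun i => EZ (F i.1 i.2) p lam Λ t V (Zs i))
    (D := fun i => 3 * (Nb (F i.1 i.2) t V : ℝ) - 2 * ((cz (F i.1 i.2) t V).ncard : ℝ))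
    hZs3 hω0
  rw [← hW, ← hT0] at hT1 hT2
  obtain ⟨Nn, hNn⟩ : ∃ Nn : ℝ, Nn = ∑ i ∈ S, ω i * (Nb (F i.1 i.2) t V : ℝ) := ⟨_, rfl⟩
  obtain ⟨Sn, hSn⟩ : ∃ Sn : ℝ, Sn = ∑ i ∈ S, ω i * ((sz (F i.1 i.2) t V).ncard : ℝ) := ⟨_, rfl⟩
  obtain ⟨Dn, hDn⟩ : ∃ Dn : ℝ, Dn = ∑ i ∈ S, ω i * ((cz (F i.1 i.2) t V).ncard : ℝ) := ⟨_, rfl⟩
  have hT1' : 2 * Nn - Sn ≤ T0 := by
    refine le_trans (le_of_eq ?_) hT1
    rw [hNn, hSn, mul_sum, ← sum_sub_distrib]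
    exact sum_congr rfl fun i _ => by ring
  have hT2' : 3 * Nn - 2 * Dn ≤ T0 := by
    refine le_trans (le_of_eq ?_) hT2
    rw [hNn, hDn, mul_sum, mul_sum, ← sum_sub_distrib]
    exact sum_congr rfl fun i _ => by ring
  have hlow : W * (1 / (2 * Real.pi) * (2 * L - CG) * (V * (1 - s1))) -
      W * (V' * L / Real.pi * (16 * (1 + κ₀) / m)) - W * (1 + C * B * κ₀) ≤ Nn := by
    have h1 : ∑ i ∈ S, ω i * (lb - 2 * ‖Pf w (av c i) 0‖) ≤ ∑ i ∈ S, ω i *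
        (1 + (Nb (F i.1 i.2) t V : ℝ) + C * EZ (F i.1 i.2) p lam Λ t V (Zs i)) :=
      sum_le_sum fun i hi => mul_le_mul_of_nonneg_left (hZs4 i hi) (hω0 i hi)
    have h2 : ∑ i ∈ S, ω i * (lb - 2 * ‖Pf w (av c i) 0‖) =
        W * lb - 2 * ∑ i ∈ S, ω i * ‖Pf w (av c i) 0‖ := by
      rw [hW, sum_mul, mul_sum, ← sum_sub_distrib]
      exact sum_congr rfl fun i _ => by ring
    have h3 : ∑ i ∈ S, ω i *
        (1 + (Nb (F i.1 i.2) t V : ℝ) + C * EZ (F i.1 i.2) p lam Λ t V (Zs i)) =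
        W + Nn + C * ∑ i ∈ S, ω i * EZ (F i.1 i.2) p lam Λ t V (Zs i) := by
      rw [hW, hNn, mul_sum, ← sum_add_distrib, ← sum_add_distrib]
      exact sum_congr rfl fun i _ => by ring
    rw [h2, h3] at h1
    have h4 : C * ∑ i ∈ S, ω i * EZ (F i.1 i.2) p lam Λ t V (Zs i) ≤ C * (B * (κ₀ * W)) :=
      mul_le_mul_of_nonneg_left hEE hC0
    have h5 : lb = 1 / (2 * Real.pi) * (2 * L - CG) * (V * (1 - s1)) := by
      rw [hlb, hCV]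
      ring
    have h6 : 2 * (W * (V' * lam * (1 + κ₀))) ≤
        W * (V' * L / Real.pi * (16 * (1 + κ₀) / m)) := by
      have h7 : W * (V' * L / Real.pi * (16 * (1 + κ₀) / m)) =
          (W * V' * L * (1 + κ₀) / m) * (16 / Real.pi) := by
        field_simp
      have h8 : 2 * (W * (V' * lam * (1 + κ₀))) = (W * V' * L * (1 + κ₀) / m) * (2 * β) := by
        rw [hlam']
        field_simp
      rw [h7, h8]
      have h9 : 2 * β ≤ 16 / Real.pi := by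
        rw [le_div_iff₀ hpi]
        have h10 := Real.pi_le_four
        have h11 : 2 * β * Real.pi ≤ 4 * Real.pi :=
          mul_le_mul_of_nonneg_right (by linarith) hpi.le
        linarith
      exact mul_le_mul_of_nonneg_left h9 (by positivity)
    rw [← h5]
    have h7 : W * (1 + C * B * κ₀) = W + C * (B * (κ₀ * W)) := by ring
    rw [h7]
    linarith
  have hbr' : (1 + δ) ^ 2 * (2 * R0 / β + β * (J + E)) + c3 * (98 * η ^ 2) +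
      c3 * (1728 * κ₀) / m ^ 2 ≤ R1 + 3 * ρ / 8 := by linarith
  obtain ⟨hf1, hf2⟩ := fin_num (T := T0) (Nn := Nn) (Q := V * L / Real.pi) hW0 hρ0 hκρ hκ2 hR1n
    rfl (by positivity) hs1n hs1 hV's hbr' (by rw [← hw1]; exact hQ1) hup g3 hL0 hmκ hm0 hκ₀0
    (by rw [← hw2]; exact hQ2) hlow hQ3
  refine ⟨?_, ?_, ?_, ?_, ?_⟩
  · intro i hi
    rw [← hS] at hi
    exact hfin i hi
  · rw [← hS]
    simp_rw [← hω]
    rw [← hNn, ← hSn]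
    linarith
  · rw [← hS]
    simp_rw [← hω]
    have e : ∑ i ∈ S, ω i * (((cz (F i.1 i.2) t V).ncard : ℝ) - 2) = Dn - 2 * W := by
      rw [hDn, hW, mul_sum, ← sum_sub_distrib]
      exact sum_congr rfl fun i _ => by ring
    rw [← hNn, e]
    linarith
  · rw [← hS]
    simp_rw [← hω]
    rw [← hNn, ← hW]
    exact hf2
  · rw [← hS]
    simp_rw [← hω]
    rw [← hW]
    exact hW1

end Pool.Agent.V8H15.LW
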