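import Pool.Agent.V8H15.LW.Cty
import Pool.Agent.V8H15.LW.Arc
import Pool.Agent.H153R4.Pl

/-!
# Mean squares over `u`

Project LW (helper15).
-/

set_option autoImplicit false

open MeasureTheory Set Filter Topology Complex
open scoped FourierTransform ENNReal

namespace Pool.Agent.V8H15.LW

open Pool.Agent.R399.TW (pt pt_re pt_im pt_cont strip)

/-- the Fourier integral of a function on the real line -/
noncomputable def fi (g : ℝ → ℂ) (ξ : ℝ) : ℂ := ∫ x : ℝ, g x * cexp (-(I * ξ * x))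

/-- **Plancherel** -/
theorem planch {g : ℝ → ℂ} (hg : Continuous g) {K : ℝ}
    (hK : ∀ x, ‖g x‖ ≤ K * (1 + x ^ 2)⁻¹) :
    (Integrable fun ξ : ℝ => ‖fi g ξ‖ ^ 2) ∧
      ∫ ξ : ℝ, ‖fi g ξ‖ ^ 2 = 2 * Real.pi * ∫ x : ℝ, ‖g x‖ ^ 2 := by
  have hi : Integrable g := (integrable_inv_one_add_sq.const_mul K).mono' hg.aestronglyMeasurable
    (Eventually.of_forall hK)
  have hK0 : 0 ≤ K := by
    have := (norm_nonneg _).trans (hK 0)
    simpa using this
  have hsq : Integrable fun x => ‖g x‖ ^ 2 := by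
    refine (integrable_inv_one_add_sq.const_mul (K ^ 2)).mono' (hg.norm.pow 2).aestronglyMeasurable
      (Eventually.of_forall fun x => ?_)
    rw [norm_pow, norm_norm]
    have h1 := pow_le_pow_left₀ (norm_nonneg _) (hK x) 2
    refine h1.trans ?_
    rw [mul_pow]
    exact mul_le_mul_of_nonneg_left (inv_sq_le x) (by positivity)
  have hm : MemLp g 2 := (memLp_two_iff_integrable_sq_norm hg.aestronglyMeasurable).mpr hsq
  have hpl := Pool.Agent.H153R4.plancherel g hi hm
  have hcont : Continuous (𝓕 g) := by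
    have := VectorFourier.fourierIntegral_continuous (L := innerₗ ℝ) Real.continuous_fourierChar
      continuous_inner hi
    exact this
  have hpi := Real.pi_pos
  have hfi : ∀ ξ, fi g ξ = 𝓕 g (ξ / (2 * Real.pi)) := by
    intro ξ
    unfold fi
    rw [Real.fourier_eq']
    refine integral_congr_ae (Eventually.of_forall fun x => ?_)
    simp only
    rw [smul_eq_mul, mul_comm]
    congr 2
    simp only [RCLike.inner_apply, conj_trivial]
    push_cast
    have : (Real.pi : ℂ) ≠ 0 := by exact_mod_cast hpi.ne'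
    field_simp
  -- integrability of the square of the Fourier transform
  have e1 : ∀ (f : ℝ → ℂ), ∫⁻ x, ‖f x‖ₑ ^ 2 = ∫⁻ x, ENNReal.ofReal (‖f x‖ ^ 2) := by
    intro f
    refine lintegral_congr fun x => ?_
    rw [ENNReal.ofReal_pow (norm_nonneg _), ofReal_norm]
  rw [e1, e1] at hpl
  have hg2 : ∫⁻ x, ENNReal.ofReal (‖g x‖ ^ 2) = ENNReal.ofReal (∫ x, ‖g x‖ ^ 2) :=
    (ofReal_integral_eq_lintegral_ofReal hsq (Eventually.of_forall fun x => by positivity)).symm
  rw [hg2] at hpl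
  have hFi : Integrable fun ξ => ‖𝓕 g ξ‖ ^ 2 := by
    refine ⟨(hcont.norm.pow 2).aestronglyMeasurable, ?_⟩
    rw [hasFiniteIntegral_iff_ofReal (Eventually.of_forall fun x => by positivity), hpl]
    exact ENNReal.ofReal_lt_top
  have hFe : ∫ ξ, ‖𝓕 g ξ‖ ^ 2 = ∫ x, ‖g x‖ ^ 2 := by
    have h1 := ofReal_integral_eq_lintegral_ofReal hFi
      (Eventually.of_forall fun x => by positivity)
    rw [hpl] at h1
    exact (ENNReal.ofReal_eq_ofReal_iff (integral_nonneg fun x => by positivity)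
      (integral_nonneg fun x => by positivity)).mp h1
  constructor
  · simp_rw [hfi]
    have := hFi.comp_div (show (2 * Real.pi) ≠ 0 by positivity)
    exact this
  · simp_rw [hfi]
    rw [Measure.integral_comp_div (fun ξ => ‖𝓕 g ξ‖ ^ 2), hFe, abs_of_pos (by positivity),
      smul_eq_mul]

variable {w : ℂ → ℂ} {C lam t V : ℝ} {p : ℕ}
variable {F : ℂ → ℂ} {a : ℕ → ℂ} {G : ℂ → ℂ}

/-- the square mean of the Fourier transform of the window -/
theorem ft_sq (hw : Wnd w C lam t V p) (hl : 0 < lam) (hp : 2 ≤ p) (hC : 0 ≤ C) (hV : 0 ≤ V) :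
    (Integrable fun ξ : ℝ => ‖ft w ξ‖ ^ 2) ∧
      ∫ ξ : ℝ, ‖ft w ξ‖ ^ 2 ≤ 2 * Real.pi * (V + C * (2 * Real.pi / lam)) := by
  obtain ⟨K, hK0, hK⟩ := hw.decay hl hp hC
  have hwc : Continuous fun y : ℝ => w y := hw.diff.continuous.comp Complex.continuous_ofReal
  have h1 := planch (g := fun x : ℝ => w x) hwc (K := K) (fun x => by
    have := hK x
    simpa using this)
  have e : ∀ ξ, fi (fun x : ℝ => w x) ξ = ft w ξ := fun _ => rfl
  simp_rw [e] at h1
  refine ⟨h1.1, ?_⟩
  rw [h1.2]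
  refine mul_le_mul_of_nonneg_left ?_ (by positivity)
  have h2 : ∫ x : ℝ, ‖w x‖ ^ 2 ≤ ∫ x : ℝ, (w x).re := by
    refine integral_mono_of_nonneg (Eventually.of_forall fun x => by positivity)
      (hw.integrable hl hp hC).re (Eventually.of_forall fun x => ?_)
    have h3 := hw.lo x
    have h4 := hw.hi x
    show ‖w x‖ ^ 2 ≤ (w x).re
    rw [hw.norm_real]
    nlinarith
  have h3 := (abs_le.mp (hw.mass hl hp hC hV)).2
  linarith

/-- half of the mean square -/
theorem ft_half (hw : Wnd w C lam t V p) (hl : 0 < lam) (hp : 2 ≤ p) (hC : 0 ≤ C) (hV : 0 ≤ V)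
    {Λ : ℝ} (hΛ : 0 ≤ Λ) :
    ∫ u in (0 : ℝ)..Λ, ‖ft w (-u)‖ ^ 2 ≤ Real.pi * (V + C * (2 * Real.pi / lam)) := by
  obtain ⟨h1, h2⟩ := ft_sq hw hl hp hC hV
  have e1 : ∀ u, ‖ft w (-u)‖ ^ 2 = ‖ft w u‖ ^ 2 := fun u => by
    rw [ft_neg hw, RCLike.norm_conj]
  simp_rw [e1]
  obtain ⟨f, hf⟩ : ∃ f : ℝ → ℝ, ∀ u, f u = ‖ft w u‖ ^ 2 := ⟨_, fun _ => rfl⟩
  have hfe : ∀ u, f (-u) = f u := fun u => by rw [hf, hf, e1]
  simp_rw [← hf] at h1 h2 ⊢
  have h3 : ∫ u in (0 : ℝ)..Λ, f u = ∫ u in (-Λ)..0, f u := by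
    have := intervalIntegral.integral_comp_neg (a := 0) (b := Λ) f
    simp_rw [hfe] at this
    rw [neg_zero] at this
    exact this
  have h4 : (∫ u in (-Λ)..0, f u) + ∫ u in (0 : ℝ)..Λ, f u = ∫ u in (-Λ)..Λ, f u :=
    intervalIntegral.integral_add_adjacent_intervals h1.intervalIntegrable h1.intervalIntegrable
  have h5 : ∫ u in (-Λ)..Λ, f u ≤ ∫ u, f u := by
    rw [intervalIntegral.integral_of_le (by linarith)]
    exact setIntegral_le_integral h1 (Eventually.of_forall fun u => by rw [hf]; positivity)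
  linarith

/-- distance weights against the error function -/
lemma Er_weight (hp : 4 ≤ p) (hl : 1 ≤ lam) (hV : 0 ≤ V) (x : ℝ) {d : ℝ} (hd0 : 0 ≤ d)
    (hd1 : d ≤ |x - t|) (hd2 : d ≤ |x - (t + V)|) :
    Er p lam t V x * Real.log (1 + d) ^ 2 ≤ Er (p - 2) lam t V x := by
  have key : ∀ c : ℝ, d ≤ |x - c| → ((1 + |lam * (x - c)|) ^ p)⁻¹ * Real.log (1 + d) ^ 2 ≤
      ((1 + |lam * (x - c)|) ^ (p - 2))⁻¹ := by
    intro c hc
    have h1 : Real.log (1 + d) ≤ 1 + |lam * (x - c)| := by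
      have h2 := Real.log_le_sub_one_of_pos (show 0 < 1 + d by linarith)
      have h3 : d ≤ |lam * (x - c)| := by
        rw [abs_mul, abs_of_pos (by linarith : 0 < lam)]
        have := abs_nonneg (x - c)
        nlinarith
      linarith
    have h0 : 0 ≤ Real.log (1 + d) := Real.log_nonneg (by linarith)
    have h4 : Real.log (1 + d) ^ 2 ≤ (1 + |lam * (x - c)|) ^ 2 := pow_le_pow_left₀ h0 h1 2
    have h5 : 0 < 1 + |lam * (x - c)| := by positivity
    have h6 : (1 + |lam * (x - c)|) ^ p = (1 + |lam * (x - c)|) ^ (p - 2) *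
        (1 + |lam * (x - c)|) ^ 2 := by
      rw [← pow_add]
      congr 1
      omega
    rw [h6, mul_inv, mul_assoc]
    refine mul_le_of_le_one_right (by positivity) ?_
    rw [inv_mul_le_iff₀ (by positivity), mul_one]
    exact h4
  unfold Er
  rw [add_mul]
  exact add_le_add (key t hd1) (key (t + V) hd2)

/-- the archimedean weights -/
lemma log_dist (x : ℝ) (hV : 0 ≤ V) : ∃ d : ℝ, 0 ≤ d ∧ d ≤ |x - t| ∧ d ≤ |x - (t + V)| ∧
    (x ∈ Icc t (t + V) → d = 0) ∧
    Real.log (1 + |x|) ≤ Real.log (1 + |t| + V) + Real.log (1 + d) := by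
  have key : ∀ d : ℝ, 0 ≤ d → |x| ≤ |t| + V + d →
      Real.log (1 + |x|) ≤ Real.log (1 + |t| + V) + Real.log (1 + d) := by
    intro d hd hx
    have ht := abs_nonneg t
    rw [← Real.log_mul (by linarith) (by linarith)]
    refine Real.log_le_log (by positivity) ?_
    nlinarith [mul_nonneg ht hd, mul_nonneg hV hd]
  have h1 := neg_abs_le t
  have h2 := le_abs_self t
  by_cases hx : x ∈ Icc t (t + V)
  · refine ⟨0, le_rfl, abs_nonneg _, abs_nonneg _, fun _ => rfl, key 0 le_rfl ?_⟩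
    rw [abs_le]
    constructor <;> linarith [hx.1, hx.2]
  · rcases le_total x t with h | h
    · refine ⟨t - x, by linarith, ?_, ?_, fun h' => absurd h' hx, key _ (by linarith) ?_⟩
      · rw [abs_sub_comm]; exact le_abs_self _
      · rw [abs_sub_comm]
        exact le_trans (by linarith) (le_abs_self _)
      · rw [abs_le]
        constructor <;> linarith
    · have h3 : t + V < x := by
        by_contra hcon
        push Not at hcon
        exact hx ⟨h, hcon⟩
      refine ⟨x - (t + V), by linarith, ?_, le_abs_self _, fun h' => absurd h' hx,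
        key _ (by linarith) ?_⟩
      · exact le_trans (by linarith) (le_abs_self _)
      · rw [abs_le]
        constructor <;> linarith

/-- the mean square of the remaining archimedean term -/
theorem arc_sq (hw : Wnd w C lam t V p) (hl : 1 ≤ lam) (hp : 4 ≤ p) (hC : 0 ≤ C) (hV : 0 ≤ V)
    {g : ℝ → ℂ} (hg : Continuous g) {B : ℝ} (hB : 0 ≤ B)
    (hgB : ∀ y, ‖g y‖ ≤ B + 2 * Real.log (1 + |y|)) :
    (Integrable fun u : ℝ => ‖(1 / (2 * Real.pi) : ℝ) * ∫ y : ℝ, g y * (w y * cexp (I * u * y))‖ ^ 2)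
    ∧ ∫ u : ℝ, ‖(1 / (2 * Real.pi) : ℝ) * ∫ y : ℝ, g y * (w y * cexp (I * u * y))‖ ^ 2 ≤
      1 / (2 * Real.pi) * (2 * (B + 2 * Real.log (1 + |t| + V)) ^ 2 *
        (V + C * (2 * Real.pi / lam)) + 8 * C * (2 * Real.pi / lam)) := by
  have hl0 : 0 < lam := by linarith
  have hpi := Real.pi_pos
  obtain ⟨K, hK0, hK⟩ := hw.decay4 hl0 hp hC
  have hwc : Continuous fun y : ℝ => w y := hw.diff.continuous.comp Complex.continuous_ofReal
  obtain ⟨f, hf⟩ : ∃ f : ℝ → ℂ, ∀ y, f y = g y * w y := ⟨_, fun _ => rfl⟩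
  have hfc : Continuous f := by
    have : f = fun y => g y * w y := funext hf
    rw [this]
    exact hg.mul hwc
  have hfb : ∀ y, ‖f y‖ ≤ (2 * ((B + 2) * K)) * (1 + y ^ 2)⁻¹ := by
    intro y
    rw [hf, norm_mul]
    have h1 := hgB y
    have h2 := hK y
    simp only [Complex.ofReal_im, abs_zero, mul_zero, Real.exp_zero, mul_one,
      Complex.ofReal_re] at h2
    have h3 := log_one_add_le y
    have h4 : ‖g y‖ ≤ (B + 2) * (1 + |y|) := by
      have := abs_nonneg y
      nlinarith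
    calc _ ≤ ((B + 2) * (1 + |y|)) * (K * ((1 + y ^ 2)⁻¹) ^ 2) :=
          mul_le_mul h4 h2 (norm_nonneg _) (by positivity)
      _ = ((B + 2) * K) * ((1 + |y|) * ((1 + y ^ 2)⁻¹) ^ 2) := by ring
      _ ≤ ((B + 2) * K) * (2 * (1 + y ^ 2)⁻¹) :=
          mul_le_mul_of_nonneg_left (lin_inv_sq_le _) (by positivity)
      _ = _ := by ring
  obtain ⟨p1, p2⟩ := planch hfc hfb
  have e1 : ∀ u : ℝ, ‖(1 / (2 * Real.pi) : ℝ) * ∫ y : ℝ, g y * (w y * cexp (I * u * y))‖ ^ 2 =
      (1 / (2 * Real.pi)) ^ 2 * ‖fi f (-u)‖ ^ 2 := by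
    intro u
    have e2 : ∫ y : ℝ, g y * (w y * cexp (I * u * y)) = fi f (-u) := by
      unfold fi
      refine integral_congr_ae (Eventually.of_forall fun y => ?_)
      simp only
      have e3 : I * u * y = -(I * ((-u : ℝ) : ℂ) * y) := by
        push_cast
        ring
      rw [hf, e3]
      ring
    rw [e2, norm_mul, Complex.norm_real, Real.norm_eq_abs, abs_of_pos (by positivity), mul_pow]
  have hneg : Integrable fun u : ℝ => ‖fi f (-u)‖ ^ 2 := p1.comp_neg
  simp_rw [e1]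
  refine ⟨hneg.const_mul _, ?_⟩
  rw [integral_const_mul, integral_neg_eq_self (fun u => ‖fi f u‖ ^ 2), p2]
  have e3 : (1 / (2 * Real.pi)) ^ 2 * (2 * Real.pi * ∫ x : ℝ, ‖f x‖ ^ 2) =
      1 / (2 * Real.pi) * ∫ x : ℝ, ‖f x‖ ^ 2 := by
    field_simp
  rw [e3]
  refine mul_le_mul_of_nonneg_left ?_ (by positivity)
  -- pointwise bound
  obtain ⟨B', hB'⟩ : ∃ B' : ℝ, B' = B + 2 * Real.log (1 + |t| + V) := ⟨_, rfl⟩
  have hlog0 : 0 ≤ Real.log (1 + |t| + V) := Real.log_nonneg (by linarith [abs_nonneg t])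
  have hB'0 : 0 ≤ B' := by rw [hB']; positivity
  have hpt : ∀ x : ℝ, ‖f x‖ ^ 2 ≤ 2 * B' ^ 2 * (w x).re + 8 * C * Er (p - 2) lam t V x := by
    intro x
    obtain ⟨d, d0, d1, d2, d3, d4⟩ := log_dist (t := t) (V := V) x hV
    have h1 : ‖g x‖ ≤ B' + 2 * Real.log (1 + d) := by
      rw [hB']
      have := hgB x
      linarith
    have hd : 0 ≤ Real.log (1 + d) := Real.log_nonneg (by linarith)
    have hw0 := hw.lo x
    have hw1 := hw.hi x
    rw [hf, norm_mul, hw.norm_real, mul_pow]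
    have h2 : ‖g x‖ ^ 2 ≤ 2 * B' ^ 2 + 8 * Real.log (1 + d) ^ 2 := by
      have h3 : ‖g x‖ ^ 2 ≤ (B' + 2 * Real.log (1 + d)) ^ 2 :=
        pow_le_pow_left₀ (norm_nonneg _) h1 2
      nlinarith [sq_nonneg (B' - 2 * Real.log (1 + d))]
    have h4 : (w x).re ^ 2 ≤ (w x).re := by nlinarith
    have h5 : ‖g x‖ ^ 2 * (w x).re ^ 2 ≤
        (2 * B' ^ 2 + 8 * Real.log (1 + d) ^ 2) * (w x).re :=
      mul_le_mul h2 h4 (sq_nonneg _) (by positivity)
    have h6 : (w x).re * Real.log (1 + d) ^ 2 ≤ C * Er (p - 2) lam t V x := by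
      by_cases hx : x ∈ Icc t (t + V)
      · rw [d3 hx]
        simp only [add_zero, Real.log_one]
        have := Er_nonneg (p - 2) lam t V x
        have := mul_nonneg hC this
        linarith
      · have h7 := hw.ind x
        rw [indicator_of_notMem hx, sub_zero] at h7
        have h8 := (le_abs_self _).trans h7
        have h9 := Er_weight hp hl hV x d0 d1 d2 (t := t)
        calc (w x).re * Real.log (1 + d) ^ 2 ≤ (C * Er p lam t V x) * Real.log (1 + d) ^ 2 :=
              mul_le_mul_of_nonneg_right h8 (sq_nonneg _)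
          _ = C * (Er p lam t V x * Real.log (1 + d) ^ 2) := by ring
          _ ≤ _ := mul_le_mul_of_nonneg_left h9 hC
    linarith
  obtain ⟨i1, i2⟩ := Er_int (p := p - 2) hl0 (by omega) t V
  have iw : Integrable fun x : ℝ => (w x).re := (hw.integrable hl0 (by omega) hC).re
  have h3 := (abs_le.mp (hw.mass hl0 (by omega) hC hV)).2
  calc ∫ x : ℝ, ‖f x‖ ^ 2 ≤ ∫ x : ℝ, (2 * B' ^ 2 * (w x).re + 8 * C * Er (p - 2) lam t V x) :=
        integral_mono_of_nonneg (Eventually.of_forall fun x => by positivity)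
          ((iw.const_mul _).add (i1.const_mul _)) (Eventually.of_forall hpt)
    _ = 2 * B' ^ 2 * (∫ x : ℝ, (w x).re) + 8 * C * ∫ x : ℝ, Er (p - 2) lam t V x := by
        rw [integral_add (iw.const_mul _) (i1.const_mul _), integral_const_mul,
          integral_const_mul]
    _ ≤ 2 * (B + 2 * Real.log (1 + |t| + V)) ^ 2 * (V + C * (2 * Real.pi / lam)) +
        8 * C * (2 * Real.pi / lam) := by
        rw [← hB']
        refine add_le_add (mul_le_mul_of_nonneg_left (by linarith) (by positivity))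
          (mul_le_mul_of_nonneg_left i2 (by positivity))

end Pool.Agent.V8H15.LW
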