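import Pool.Agent.V8H15.LW.Per
import Pool.Agent.V8H15.LW.Pla
import Pool.Agent.V8H15.LW.Sie

/-!
# One `L`-function: the integral in the inequality

Project LW (helper15).
-/

set_option autoImplicit false

open MeasureTheory Set Filter Topology Complex

namespace Pool.Agent.V8H15.LW

open Pool.Agent.R399.TW (pt pt_re pt_im pt_cont)
open H385 (zz Rw Rw_nonneg Rw_antitone)
open H370 (mult)

variable {w : ℂ → ℂ} {C lam t V : ℝ} {p : ℕ}
variable {F : ℂ → ℂ} {a : ℕ → ℂ} {G : ℂ → ℂ}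

/-- the dual prime sum -/
lemma Pt_norm (hw : Wnd w C lam t V p) (a : ℕ → ℂ) (u : ℝ) : ‖Pt w a u‖ = ‖Pf w a (-u)‖ := by
  have h : (starRingEnd ℂ) (Pt w a u) = Pf w a (-u) := by
    unfold Pt Pf
    rw [map_mul, Complex.conj_ofReal, Complex.conj_tsum]
    congr 1
    refine tsum_congr fun n => ?_
    rw [map_mul, map_mul, Complex.conj_conj, map_inv₀, Complex.conj_ofReal, ← ft_neg hw]
    congr 2
    ring
  rw [← h, RCLike.norm_conj]

lemma Mf_int (hF : XF F a G) (hw : Wnd w C lam t V p) (hl : 0 < lam) (hp : 4 ≤ p)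
    (hC : 0 ≤ C) (u : ℝ) :
    Integrable fun y : ℝ => G (pt (1 / 2) y) * (w y * cexp (I * u * y)) := by
  obtain ⟨K, hK0, hK⟩ := hw.decay4 hl hp hC
  obtain ⟨K', hK'0, hK'⟩ := hF.Gb
  have hGc : Continuous fun y : ℝ => G (pt (1 / 2) y) :=
    hF.Gd.continuousOn.comp_continuous (pt_cont' _) fun y => by
      show -(1 / 2) < (pt (1 / 2) y).re ∧ (pt (1 / 2) y).re < 3 / 2
      rw [pt_re]
      constructor <;> norm_num
  have hwc : Continuous fun y : ℝ => w y := hw.diff.continuous.comp Complex.continuous_ofReal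
  have h1 : Continuous fun y : ℝ => G (pt (1 / 2) y) * (w y * cexp (I * u * y)) := by
    refine hGc.mul (hwc.mul ?_)
    fun_prop
  refine (integrable_inv_one_add_sq.const_mul (2 * (K' * K))).mono' h1.aestronglyMeasurable
    (Eventually.of_forall fun y => ?_)
  rw [norm_mul, norm_mul]
  have e : ‖cexp (I * u * y)‖ = 1 := by
    rw [Complex.norm_exp]
    simp
  rw [e, mul_one]
  have h1 := hK' (pt (1 / 2) y) (by rw [pt_re]; norm_num) (by rw [pt_re])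
  rw [pt_im] at h1
  have h2 := hK y
  simp only [Complex.ofReal_im, abs_zero, mul_zero, Real.exp_zero, mul_one,
    Complex.ofReal_re] at h2
  calc _ ≤ (K' * (1 + |y|)) * (K * ((1 + y ^ 2)⁻¹) ^ 2) :=
        mul_le_mul h1 h2 (norm_nonneg _) (by positivity)
    _ = (K' * K) * ((1 + |y|) * ((1 + y ^ 2)⁻¹) ^ 2) := by ring
    _ ≤ (K' * K) * (2 * (1 + y ^ 2)⁻¹) :=
        mul_le_mul_of_nonneg_left (lin_inv_sq_le _) (by positivity)
    _ = _ := by ring

/-- the archimedean term without its main part -/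
noncomputable def M1 (w : ℂ → ℂ) (G : ℂ → ℂ) (L u : ℝ) : ℂ :=
  (1 / (2 * Real.pi) : ℝ) * ∫ y : ℝ, (G (pt (1 / 2) y) - ((2 * L : ℝ) : ℂ)) *
    (w y * cexp (I * u * y))

lemma Mf_split (hF : XF F a G) (hw : Wnd w C lam t V p) (hl : 0 < lam) (hp : 4 ≤ p)
    (hC : 0 ≤ C) (L u : ℝ) :
    Mf w G u = ((L / Real.pi : ℝ) : ℂ) * ft w (-u) + M1 w G L u := by
  have hpi : (Real.pi : ℂ) ≠ 0 := by
    exact_mod_cast Real.pi_ne_zero
  have h1 := Mf_int hF hw hl hp hC u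
  have e : ∀ y : ℝ, w y * cexp (-(I * ((-u : ℝ) : ℂ) * y)) = w y * cexp (I * u * y) := by
    intro y
    congr 2
    push_cast
    ring
  have h2 : Integrable fun y : ℝ => w y * cexp (I * u * y) := by
    refine ((hw.integrable hl (by omega) hC).norm).mono'
      ((hw.diff.continuous.comp Complex.continuous_ofReal).mul (by fun_prop)).aestronglyMeasurable
      (Eventually.of_forall fun y => ?_)
    rw [norm_mul]
    have e : ‖cexp (I * u * y)‖ = 1 := by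
      rw [Complex.norm_exp]
      simp
    rw [e, mul_one]
  have h3 : ft w (-u) = ∫ y : ℝ, w y * cexp (I * u * y) := by
    unfold ft
    exact integral_congr_ae (Eventually.of_forall e)
  unfold Mf M1
  rw [h3]
  have h4 : ∫ y : ℝ, (G (pt (1 / 2) y) - ((2 * L : ℝ) : ℂ)) * (w y * cexp (I * u * y)) =
      (∫ y : ℝ, G (pt (1 / 2) y) * (w y * cexp (I * u * y))) -
      ((2 * L : ℝ) : ℂ) * ∫ y : ℝ, w y * cexp (I * u * y) := by
    rw [← integral_const_mul, ← integral_sub h1 (h2.const_mul _)]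
    refine integral_congr_ae (Eventually.of_forall fun y => ?_)
    simp only
    ring
  rw [h4]
  push_cast
  field_simp
  ring

lemma nsq {δ : ℝ} (hδ : 0 < δ) (x y : ℂ) :
    ‖x + y‖ ^ 2 ≤ (1 + δ) * ‖x‖ ^ 2 + (1 + 1 / δ) * ‖y‖ ^ 2 := by
  have h1 : ‖x + y‖ ^ 2 ≤ (‖x‖ + ‖y‖) ^ 2 := pow_le_pow_left₀ (norm_nonneg _) (norm_add_le _ _) 2
  have h6 : 0 ≤ (δ * ‖x‖ - ‖y‖) ^ 2 / δ := by positivity
  have h7 : (δ * ‖x‖ - ‖y‖) ^ 2 / δ = δ * ‖x‖ ^ 2 - 2 * ‖x‖ * ‖y‖ + 1 / δ * ‖y‖ ^ 2 := by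
    field_simp
    ring
  nlinarith

lemma nsq3 (x y z : ℂ) : ‖x + y + z‖ ^ 2 ≤ 3 * (‖x‖ ^ 2 + ‖y‖ ^ 2 + ‖z‖ ^ 2) := by
  have h1 : ‖x + y + z‖ ≤ ‖x‖ + ‖y‖ + ‖z‖ :=
    (norm_add_le _ _).trans (add_le_add (norm_add_le _ _) le_rfl)
  have h2 : ‖x + y + z‖ ^ 2 ≤ (‖x‖ + ‖y‖ + ‖z‖) ^ 2 := pow_le_pow_left₀ (norm_nonneg _) h1 2
  nlinarith [sq_nonneg (‖x‖ - ‖y‖), sq_nonneg (‖x‖ - ‖z‖), sq_nonneg (‖y‖ - ‖z‖)]

/-- **The integral.** -/
theorem itg (hF : XF F a G) (hw : Wnd w C lam t V p) (hl : 1 ≤ lam) (hp : 4 ≤ p) (hC : 0 ≤ C)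
    (hV : 0 ≤ V) {γ Λ : ℝ} (hγ0 : 0 < γ) (hγπ : γ < Real.pi) (hΛ : 2 * lam ≤ Λ) {δ : ℝ}
    (hδ : 0 < δ) {L Bg : ℝ} (hBg : 0 ≤ Bg)
    (hg : ∀ y, ‖G (pt (1 / 2) y) - ((2 * L : ℝ) : ℂ)‖ ≤ Bg + 2 * Real.log (1 + |y|)) :
    ∫ u in (0 : ℝ)..Λ, Rw γ (u / Λ) *
          ((1 + δ) * ‖Mf w G u - Pf w a u - Pt w a u‖ ^ 2 + 1) ≤
      Rw γ 0 * (1 + δ) ^ 2 * (L ^ 2 / Real.pi) * (V + C * (2 * Real.pi / lam)) +
      (1 + δ) ^ 2 * (∫ u in (2 * lam)..Λ, Rw γ (u / Λ) * ‖Pf w a u‖ ^ 2) +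
      3 * Rw γ 0 * (1 + δ) * (1 + 1 / δ) * (1 / (2 * Real.pi) *
        (2 * (Bg + 2 * Real.log (1 + |t| + V)) ^ 2 * (V + C * (2 * Real.pi / lam)) +
          8 * C * (2 * Real.pi / lam)) +
        ∫ u in (-(2 * lam))..(2 * lam), ‖Pf w a u‖ ^ 2) + Rw γ 0 * Λ := by
  have hpi := Real.pi_pos
  have hl0 : 0 < lam := by linarith
  have hΛ0 : 0 < Λ := by linarith
  have hGc : Continuous fun y : ℝ => G (pt (1 / 2) y) :=
    hF.Gd.continuousOn.comp_continuous (pt_cont' _) fun y => by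
      show -(1 / 2) < (pt (1 / 2) y).re ∧ (pt (1 / 2) y).re < 3 / 2
      rw [pt_re]
      constructor <;> norm_num
  obtain ⟨hM1i, hM1⟩ := arc_sq hw hl hp hC hV (g := fun y => G (pt (1 / 2) y) -
    ((2 * L : ℝ) : ℂ)) (hGc.sub continuous_const) hBg hg
  obtain ⟨A1, hA1⟩ : ∃ A1 : ℝ, A1 = 1 / (2 * Real.pi) *
        (2 * (Bg + 2 * Real.log (1 + |t| + V)) ^ 2 * (V + C * (2 * Real.pi / lam)) +
          8 * C * (2 * Real.pi / lam)) := ⟨_, rfl⟩
  rw [← hA1] at hM1 ⊢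
  have hM1e : ∀ u : ℝ, (1 / (2 * Real.pi) : ℝ) * ∫ y : ℝ, (G (pt (1 / 2) y) -
    ((2 * L : ℝ) : ℂ)) * (w y * cexp (I * u * y)) = M1 w G L u := fun _ => rfl
  simp_rw [hM1e] at hM1i hM1
  obtain ⟨V', hV'⟩ : ∃ V' : ℝ, V' = V + C * (2 * Real.pi / lam) := ⟨_, rfl⟩
  have hhalf := ft_half hw hl0 (by omega) hC hV (Λ := 2 * lam) (by linarith)
  rw [← hV'] at hhalf ⊢
  obtain ⟨R0, hR0⟩ : ∃ R0 : ℝ, R0 = Rw γ 0 := ⟨_, rfl⟩
  have hR0n : 0 ≤ R0 := by rw [hR0]; exact Rw_nonneg γ hγ0 hγπ 0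
  have hRle : ∀ u, 0 ≤ u → Rw γ (u / Λ) ≤ R0 := by
    intro u hu
    rw [hR0]
    exact Rw_antitone γ hγ0 hγπ (Set.mem_Ici.mpr le_rfl) (Set.mem_Ici.mpr (by positivity))
      (by positivity)
  have hRn : ∀ u, 0 ≤ Rw γ (u / Λ) := fun u => Rw_nonneg γ hγ0 hγπ _
  rw [← hR0]
  -- continuity
  have hfc := ft_cont hw hl0 (by omega) hC
  have hMc := Mf_cont hF hw hl0 hp hC
  have hM0c : Continuous fun u : ℝ => ft w (-u) := hfc.comp continuous_neg
  have hM1c : Continuous fun u : ℝ => M1 w G L u := by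
    have e : (fun u : ℝ => M1 w G L u) = fun u => Mf w G u -
        ((L / Real.pi : ℝ) : ℂ) * ft w (-u) := by
      funext u
      rw [Mf_split hF hw hl0 hp hC L u]
      ring
    rw [e]
    exact hMc.sub (continuous_const.mul hM0c)
  have hRc : Continuous fun u : ℝ => Rw γ (u / Λ) :=
    (H385.fa_Rw_cont γ hγ0 hγπ).comp (by fun_prop)
  have hPi : ∀ x y : ℝ, IntervalIntegrable (fun u => ‖Pf w a u‖ ^ 2) volume x y := by
    intro x y
    have : ContinuousOn (fun u => ‖Pf w a u‖ ^ 2) (uIcc x y) :=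
      ((Pf_cont hw hl0 (by omega) hC a (min x y) (max x y)).norm.pow 2)
    exact this.intervalIntegrable
  have hPi' : ∀ x y : ℝ, IntervalIntegrable (fun u => ‖Pf w a (-u)‖ ^ 2) volume x y := by
    intro x y
    have : ContinuousOn (fun u => ‖Pf w a (-u)‖ ^ 2) (uIcc x y) := by
      refine ((Pf_cont hw hl0 (by omega) hC a (min (-x) (-y)) (max (-x) (-y))).comp
        continuous_neg.continuousOn fun u hu => ?_).norm.pow 2
      rw [min_neg_neg, max_neg_neg]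
      exact ⟨neg_le_neg hu.2, neg_le_neg hu.1⟩
    exact this.intervalIntegrable
  have hRPi : ∀ x y : ℝ, IntervalIntegrable (fun u => Rw γ (u / Λ) * ‖Pf w a u‖ ^ 2)
      volume x y := by
    intro x y
    have : ContinuousOn (fun u => Rw γ (u / Λ) * ‖Pf w a u‖ ^ 2) (uIcc x y) :=
      hRc.continuousOn.mul
        ((Pf_cont hw hl0 (by omega) hC a (min x y) (max x y)).norm.pow 2)
    exact this.intervalIntegrable
  have hm0i : ∀ x y : ℝ, IntervalIntegrable (fun u => ‖ft w (-u)‖ ^ 2) volume x y :=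
    fun x y => (hM0c.norm.pow 2).intervalIntegrable _ _
  have hm1i : ∀ x y : ℝ, IntervalIntegrable (fun u => ‖M1 w G L u‖ ^ 2) volume x y :=
    fun x y => (hM1c.norm.pow 2).intervalIntegrable _ _
  have hfull : ContinuousOn (fun u => Rw γ (u / Λ) *
      ((1 + δ) * ‖Mf w G u - Pf w a u - Pt w a u‖ ^ 2 + 1)) (Icc 0 Λ) := by
    refine ContinuousOn.mul hRc.continuousOn ?_
    exact (continuousOn_const.mul
      ((rhs_cont hF hw hl0 hp hC hΛ0.le).norm.pow 2)).add continuousOn_const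
  have hi1 : IntervalIntegrable (fun u => Rw γ (u / Λ) *
      ((1 + δ) * ‖Mf w G u - Pf w a u - Pt w a u‖ ^ 2 + 1)) volume 0 (2 * lam) := by
    refine ContinuousOn.intervalIntegrable (hfull.mono ?_)
    rw [uIcc_of_le (by linarith)]
    exact Icc_subset_Icc le_rfl hΛ
  have hi2 : IntervalIntegrable (fun u => Rw γ (u / Λ) *
      ((1 + δ) * ‖Mf w G u - Pf w a u - Pt w a u‖ ^ 2 + 1)) volume (2 * lam) Λ := by
    refine ContinuousOn.intervalIntegrable (hfull.mono ?_)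
    rw [uIcc_of_le hΛ]
    exact Icc_subset_Icc (by linarith) le_rfl
  rw [← intervalIntegral.integral_add_adjacent_intervals hi1 hi2]
  obtain ⟨c1, hc1⟩ : ∃ c1 : ℝ, c1 = R0 * (1 + δ) * (1 + δ) * (L / Real.pi) ^ 2 := ⟨_, rfl⟩
  obtain ⟨c2, hc2⟩ : ∃ c2 : ℝ, c2 = 3 * R0 * (1 + δ) * (1 + 1 / δ) := ⟨_, rfl⟩
  have hc2n : 0 ≤ c2 := by rw [hc2]; positivity
  -- first piece
  have hp1 : ∫ u in (0 : ℝ)..(2 * lam), Rw γ (u / Λ) *
      ((1 + δ) * ‖Mf w G u - Pf w a u - Pt w a u‖ ^ 2 + 1) ≤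
      ∫ u in (0 : ℝ)..(2 * lam), (c1 * ‖ft w (-u)‖ ^ 2 + c2 * ‖M1 w G L u‖ ^ 2 +
        c2 * ‖Pf w a u‖ ^ 2 + c2 * ‖Pf w a (-u)‖ ^ 2 + R0) := by
    refine intervalIntegral.integral_mono_on (by linarith) hi1 ?_ ?_
    · exact (((((hm0i _ _).const_mul _).add ((hm1i _ _).const_mul _)).add
        ((hPi _ _).const_mul _)).add ((hPi' _ _).const_mul _)).add
        intervalIntegrable_const
    · intro u hu
      have h1 : ‖Mf w G u - Pf w a u - Pt w a u‖ ^ 2 ≤ (1 + δ) *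
          ((L / Real.pi) ^ 2 * ‖ft w (-u)‖ ^ 2) + (1 + 1 / δ) *
          (3 * (‖M1 w G L u‖ ^ 2 + ‖Pf w a u‖ ^ 2 + ‖Pf w a (-u)‖ ^ 2)) := by
        rw [Mf_split hF hw hl0 hp hC L u]
        have e : ((L / Real.pi : ℝ) : ℂ) * ft w (-u) + M1 w G L u - Pf w a u - Pt w a u =
          ((L / Real.pi : ℝ) : ℂ) * ft w (-u) + (M1 w G L u + (-Pf w a u) + (-Pt w a u)) := by
          ring
        rw [e]
        refine (nsq hδ _ _).trans ?_
        have h2 := nsq3 (M1 w G L u) (-Pf w a u) (-Pt w a u)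
        rw [norm_neg, norm_neg, Pt_norm hw] at h2
        have h3 : ‖((L / Real.pi : ℝ) : ℂ) * ft w (-u)‖ ^ 2 =
            (L / Real.pi) ^ 2 * ‖ft w (-u)‖ ^ 2 := by
          rw [norm_mul, mul_pow, Complex.norm_real, Real.norm_eq_abs, sq_abs]
        rw [h3]
        have h4 : 0 < 1 + 1 / δ := by positivity
        have h5 := mul_le_mul_of_nonneg_left h2 h4.le
        linarith
      have h6 : Rw γ (u / Λ) * ((1 + δ) * ‖Mf w G u - Pf w a u - Pt w a u‖ ^ 2 + 1) ≤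
          R0 * ((1 + δ) * ‖Mf w G u - Pf w a u - Pt w a u‖ ^ 2 + 1) :=
        mul_le_mul_of_nonneg_right (hRle u hu.1) (by positivity)
      refine h6.trans ?_
      have h7 : R0 * ((1 + δ) * ‖Mf w G u - Pf w a u - Pt w a u‖ ^ 2 + 1) ≤
          R0 * ((1 + δ) * ((1 + δ) *
          ((L / Real.pi) ^ 2 * ‖ft w (-u)‖ ^ 2) + (1 + 1 / δ) *
          (3 * (‖M1 w G L u‖ ^ 2 + ‖Pf w a u‖ ^ 2 + ‖Pf w a (-u)‖ ^ 2))) + 1) := by
        refine mul_le_mul_of_nonneg_left ?_ hR0n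
        have := mul_le_mul_of_nonneg_left h1 (by positivity : 0 ≤ 1 + δ)
        linarith
      refine h7.trans (le_of_eq ?_)
      rw [hc1, hc2]
      ring
  -- second piece
  have hp2 : ∫ u in (2 * lam)..Λ, Rw γ (u / Λ) *
      ((1 + δ) * ‖Mf w G u - Pf w a u - Pt w a u‖ ^ 2 + 1) ≤
      ∫ u in (2 * lam)..Λ, ((1 + δ) ^ 2 * (Rw γ (u / Λ) * ‖Pf w a u‖ ^ 2) +
        c2 * ‖M1 w G L u‖ ^ 2 + R0) := by
    refine intervalIntegral.integral_mono_on hΛ hi2 ?_ ?_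
    · exact (((hRPi _ _).const_mul _).add ((hm1i _ _).const_mul _)).add
        intervalIntegrable_const
    · intro u hu
      have hu0 : 0 ≤ u := by linarith [hu.1]
      have hul : lam < u := by linarith [hu.1]
      have h0 : ft w (-u) = 0 := hw.ft_zero hl0 (by omega) hC (by
        rw [abs_neg, abs_of_nonneg hu0]
        exact hul)
      have h00 : Pt w a u = 0 := Pt_zero hw hl0 (by omega) hC a hF.a0 hul
      have h1 : ‖Mf w G u - Pf w a u - Pt w a u‖ ^ 2 ≤ (1 + δ) * ‖Pf w a u‖ ^ 2 +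
          (1 + 1 / δ) * ‖M1 w G L u‖ ^ 2 := by
        rw [Mf_split hF hw hl0 hp hC L u, h0, h00]
        have e : ((L / Real.pi : ℝ) : ℂ) * 0 + M1 w G L u - Pf w a u - 0 =
          -Pf w a u + M1 w G L u := by
          ring
        rw [e]
        have h2 := nsq hδ (-Pf w a u) (M1 w G L u)
        rwa [norm_neg] at h2
      have hR1 := hRle u hu0
      have hR2 := hRn u
      have h2 : Rw γ (u / Λ) * ((1 + δ) * ‖Mf w G u - Pf w a u - Pt w a u‖ ^ 2 + 1) ≤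
          Rw γ (u / Λ) * ((1 + δ) * ((1 + δ) * ‖Pf w a u‖ ^ 2 +
          (1 + 1 / δ) * ‖M1 w G L u‖ ^ 2) + 1) := by
        refine mul_le_mul_of_nonneg_left ?_ hR2
        have := mul_le_mul_of_nonneg_left h1 (by positivity : 0 ≤ 1 + δ)
        linarith
      refine h2.trans ?_
      have h3 : Rw γ (u / Λ) * ((1 + δ) * (1 + 1 / δ) * ‖M1 w G L u‖ ^ 2) ≤
          c2 * ‖M1 w G L u‖ ^ 2 := by
        have h4 : Rw γ (u / Λ) * ((1 + δ) * (1 + 1 / δ) * ‖M1 w G L u‖ ^ 2) ≤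
            R0 * ((1 + δ) * (1 + 1 / δ) * ‖M1 w G L u‖ ^ 2) :=
          mul_le_mul_of_nonneg_right hR1 (by positivity)
        have h5 : 0 ≤ R0 * ((1 + δ) * (1 + 1 / δ) * ‖M1 w G L u‖ ^ 2) := by positivity
        rw [hc2]
        linarith
      linarith
  refine (add_le_add hp1 hp2).trans ?_
  rw [intervalIntegral.integral_add (((((hm0i _ _).const_mul _).add
      ((hm1i _ _).const_mul _)).add ((hPi _ _).const_mul _)).add ((hPi' _ _).const_mul _))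
      intervalIntegrable_const,
    intervalIntegral.integral_add ((((hm0i _ _).const_mul _).add
      ((hm1i _ _).const_mul _)).add ((hPi _ _).const_mul _)) ((hPi' _ _).const_mul _),
    intervalIntegral.integral_add (((hm0i _ _).const_mul _).add
      ((hm1i _ _).const_mul _)) ((hPi _ _).const_mul _),
    intervalIntegral.integral_add ((hm0i _ _).const_mul _) ((hm1i _ _).const_mul _),
    intervalIntegral.integral_const_mul, intervalIntegral.integral_const_mul,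
    intervalIntegral.integral_const_mul, intervalIntegral.integral_const_mul,
    intervalIntegral.integral_const,
    intervalIntegral.integral_add (((hRPi _ _).const_mul _).add ((hm1i _ _).const_mul _))
      intervalIntegrable_const,
    intervalIntegral.integral_add ((hRPi _ _).const_mul _) ((hm1i _ _).const_mul _),
    intervalIntegral.integral_const_mul, intervalIntegral.integral_const_mul,
    intervalIntegral.integral_const]
  have e1 : ∫ u in (0 : ℝ)..(2 * lam), ‖Pf w a (-u)‖ ^ 2 =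
      ∫ u in (-(2 * lam))..0, ‖Pf w a u‖ ^ 2 := by
    rw [intervalIntegral.integral_comp_neg (fun u => ‖Pf w a u‖ ^ 2)]
    simp
  have e2 : (∫ u in (-(2 * lam))..(2 * lam), ‖Pf w a u‖ ^ 2) =
      (∫ u in (-(2 * lam))..0, ‖Pf w a u‖ ^ 2) + ∫ u in (0 : ℝ)..(2 * lam), ‖Pf w a u‖ ^ 2 :=
    (intervalIntegral.integral_add_adjacent_intervals (hPi _ _) (hPi _ _)).symm
  have e3 : (∫ u in (0 : ℝ)..(2 * lam), ‖M1 w G L u‖ ^ 2) +
      (∫ u in (2 * lam)..Λ, ‖M1 w G L u‖ ^ 2) ≤ A1 := by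
    rw [intervalIntegral.integral_add_adjacent_intervals (hm1i _ _) (hm1i _ _),
      intervalIntegral.integral_of_le hΛ0.le]
    refine le_trans ?_ hM1
    exact setIntegral_le_integral hM1i (Eventually.of_forall fun u => by positivity)
  rw [e1, e2]
  obtain ⟨q0, hq0⟩ : ∃ x : ℝ, x = ∫ u in (0 : ℝ)..(2 * lam), ‖ft w (-u)‖ ^ 2 := ⟨_, rfl⟩
  obtain ⟨q1, hq1⟩ : ∃ x : ℝ, x = ∫ u in (0 : ℝ)..(2 * lam), ‖M1 w G L u‖ ^ 2 := ⟨_, rfl⟩
  obtain ⟨q2, hq2⟩ : ∃ x : ℝ, x = ∫ u in (2 * lam)..Λ, ‖M1 w G L u‖ ^ 2 := ⟨_, rfl⟩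
  rw [← hq0] at hhalf
  rw [← hq1, ← hq2] at e3
  rw [← hq0, ← hq1, ← hq2]
  have h1 : c1 * q0 ≤ R0 * (1 + δ) ^ 2 * (L ^ 2 / Real.pi) * V' := by
    have h2 : 0 ≤ c1 := by rw [hc1]; positivity
    refine (mul_le_mul_of_nonneg_left hhalf h2).trans (le_of_eq ?_)
    rw [hc1]
    field_simp
  have h2 := mul_le_mul_of_nonneg_left e3 hc2n
  simp only [smul_eq_mul]
  rw [← hc2]
  linarith

/-- **The lower bound for the number of zeros.** -/
theorem lowb (hF : XF F a G) (hw : Wnd w C lam t V p) (hl : 0 < lam) (hp : 4 ≤ p) (hC : 0 ≤ C)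
    (hV : 0 ≤ V) {L C' : ℝ} (hL : C' ≤ 2 * L)
    (hg : ∀ y, 2 * L - C' ≤ (G (pt (1 / 2) y)).re) :
    1 / (2 * Real.pi) * (2 * L - C') * (V - C * (2 * Real.pi / lam)) - 2 * ‖Pf w a 0‖ ≤
      (Mf w G 0 - Pf w a 0 - Pt w a 0).re := by
  have hpi := Real.pi_pos
  have hint := Mf_int hF hw hl hp hC 0
  have h1 : (Mf w G 0).re = 1 / (2 * Real.pi) * ∫ y : ℝ, (G (pt (1 / 2) y)).re * (w y).re := by
    unfold Mf
    rw [Complex.re_ofReal_mul]
    congr 1
    have h2 : (∫ y : ℝ, G (pt (1 / 2) y) * (w y * cexp (I * ((0 : ℝ) : ℂ) * y))).re =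
        ∫ y : ℝ, (G (pt (1 / 2) y) * (w y * cexp (I * ((0 : ℝ) : ℂ) * y))).re := by
      exact (integral_re hint).symm
    rw [h2]
    refine integral_congr_ae (Eventually.of_forall fun y => ?_)
    simp only
    have e : cexp (I * ((0 : ℝ) : ℂ) * y) = 1 := by simp
    rw [e, mul_one]
    conv_lhs => rw [hw.real y]
    rw [Complex.re_mul_ofReal]
  have hre : Integrable fun y : ℝ => (G (pt (1 / 2) y)).re * (w y).re := by
    refine hint.re.congr (Eventually.of_forall fun y => ?_)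
    simp only
    have e : cexp (I * ((0 : ℝ) : ℂ) * y) = 1 := by simp
    rw [e, mul_one]
    conv_lhs => rw [hw.real y]
    exact Complex.re_mul_ofReal _ _
  have hwi : Integrable fun y : ℝ => (w y).re := (hw.integrable hl (by omega) hC).re
  have h2 : (2 * L - C') * (∫ y : ℝ, (w y).re) ≤
      ∫ y : ℝ, (G (pt (1 / 2) y)).re * (w y).re := by
    rw [← integral_const_mul]
    refine integral_mono (hwi.const_mul _) hre fun y => ?_
    exact mul_le_mul_of_nonneg_right (hg y) (hw.lo y)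
  have h3 := (abs_le.mp (hw.mass hl (by omega) hC hV)).1
  have h4 : (2 * L - C') * (V - C * (2 * Real.pi / lam)) ≤ (2 * L - C') *
      (∫ y : ℝ, (w y).re) := mul_le_mul_of_nonneg_left (by linarith) (by linarith)
  have h5 : ‖Pt w a 0‖ = ‖Pf w a 0‖ := by
    rw [Pt_norm hw, neg_zero]
  have h6 := (abs_le.mp (Complex.abs_re_le_norm (Pf w a 0))).2
  have h7 := (abs_le.mp (Complex.abs_re_le_norm (Pt w a 0))).2
  rw [Complex.sub_re, Complex.sub_re, h1]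
  have h8 : 1 / (2 * Real.pi) * (2 * L - C') * (V - C * (2 * Real.pi / lam)) ≤
      1 / (2 * Real.pi) * ∫ y : ℝ, (G (pt (1 / 2) y)).re * (w y).re := by
    rw [mul_assoc]
    exact mul_le_mul_of_nonneg_left (h4.trans h2) (by positivity)
  linarith

end Pool.Agent.V8H15.LW
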