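import Mathlib

/-!
# A smoothed step function of exponential type

Project LW (helper15).
-/

set_option autoImplicit false

open MeasureTheory Set Filter Topology Complex

namespace Pool.Agent.V8H15.LW

/-- the entire function `sin z / z` -/
noncomputable def sc : ℂ → ℂ := dslope Complex.sin 0

lemma sc_diff : Differentiable ℂ sc := by
  have h : DifferentiableOn ℂ (dslope Complex.sin 0) Set.univ :=
    (Complex.differentiableOn_dslope Filter.univ_mem).mpr
      Complex.differentiable_sin.differentiableOn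
  exact differentiableOn_univ.mp h

lemma sc_zero : sc 0 = 1 := by
  unfold sc
  rw [dslope_same, Complex.deriv_sin]
  simp

lemma sc_ne {z : ℂ} (hz : z ≠ 0) : sc z = Complex.sin z / z := by
  unfold sc
  rw [dslope_of_ne _ hz, slope_def_field]
  simp

lemma sc_conj (z : ℂ) : sc ((starRingEnd ℂ) z) = (starRingEnd ℂ) (sc z) := by
  by_cases hz : z = 0
  · subst hz
    simp [sc_zero]
  · have h2 : (starRingEnd ℂ) z ≠ 0 := (map_ne_zero _).mpr hz
    rw [sc_ne hz, sc_ne h2, map_div₀, ← Complex.sin_conj]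

lemma norm_sin_le' (z : ℂ) : ‖Complex.sin z‖ ≤ Real.exp |z.im| := by
  rw [Complex.sin]
  have h1 : ‖cexp (-z * I)‖ ≤ Real.exp |z.im| := by
    rw [Complex.norm_exp]
    refine Real.exp_le_exp.mpr ?_
    simp
    exact le_abs_self _
  have h2 : ‖cexp (z * I)‖ ≤ Real.exp |z.im| := by
    rw [Complex.norm_exp]
    refine Real.exp_le_exp.mpr ?_
    simp
    exact neg_le_abs _
  have h3 : ‖(cexp (-z * I) - cexp (z * I)) * I / 2‖ =
      ‖cexp (-z * I) - cexp (z * I)‖ / 2 := by
    simp
  rw [h3]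
  have h4 := norm_sub_le (cexp (-z * I)) (cexp (z * I))
  linarith

lemma sc_bound : ∃ C : ℝ, 1 ≤ C ∧ ∀ z : ℂ, ‖sc z‖ ≤ C * Real.exp |z.im| * (1 + ‖z‖)⁻¹ := by
  obtain ⟨M, hM⟩ := (isCompact_closedBall (0 : ℂ) 1).exists_bound_of_continuousOn
    sc_diff.continuous.continuousOn
  refine ⟨max 2 (2 * M), le_max_of_le_left (by norm_num), fun z => ?_⟩
  have hz0 := norm_nonneg z
  have he : 1 ≤ Real.exp |z.im| := Real.one_le_exp (abs_nonneg _)
  rw [← div_eq_mul_inv, le_div_iff₀ (by positivity)]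
  rcases le_total ‖z‖ 1 with h | h
  · have h1 := hM z (by simpa using h)
    have hM0 : 0 ≤ M := (norm_nonneg _).trans h1
    calc ‖sc z‖ * (1 + ‖z‖) ≤ M * 2 := by
          refine mul_le_mul h1 (by linarith) (by positivity) hM0
      _ ≤ max 2 (2 * M) * 1 := by rw [mul_one, mul_comm]; exact le_max_right _ _
      _ ≤ _ := mul_le_mul_of_nonneg_left he (by positivity)
  · have hzne : z ≠ 0 := by
      rintro rfl
      simp at h
      norm_num at h
    rw [sc_ne hzne, norm_div, div_mul_eq_mul_div, div_le_iff₀ (by linarith)]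
    have h2 := norm_sin_le' z
    calc ‖Complex.sin z‖ * (1 + ‖z‖) ≤ Real.exp |z.im| * (2 * ‖z‖) :=
          mul_le_mul h2 (by linarith) (by positivity) (Real.exp_pos _).le
      _ = 2 * Real.exp |z.im| * ‖z‖ := by ring
      _ ≤ max 2 (2 * M) * Real.exp |z.im| * ‖z‖ := by
          gcongr
          exact le_max_left _ _

lemma sc_real (x : ℝ) : (sc x).im = 0 := by
  have h := sc_conj (x : ℂ)
  rw [Complex.conj_ofReal] at h
  exact Complex.conj_eq_iff_im.mp h.symm

/-- the kernel before normalisation -/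
noncomputable def k0 (m : ℕ) (z : ℂ) : ℂ := sc (z / (2 * m)) ^ (2 * m)

lemma k0_diff (m : ℕ) : Differentiable ℂ (k0 m) := by
  unfold k0
  exact (sc_diff.comp (differentiable_id.div_const _)).pow _

lemma k0_conj (m : ℕ) (z : ℂ) : k0 m ((starRingEnd ℂ) z) = (starRingEnd ℂ) (k0 m z) := by
  unfold k0
  rw [map_pow, ← sc_conj, map_div₀, map_mul, Complex.conj_natCast, map_ofNat]

lemma k0_real (m : ℕ) (x : ℝ) : (k0 m x).im = 0 := by
  have h := k0_conj m (x : ℂ)
  rw [Complex.conj_ofReal] at h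
  exact Complex.conj_eq_iff_im.mp h.symm

lemma k0_nonneg (m : ℕ) (x : ℝ) : 0 ≤ (k0 m x).re := by
  unfold k0
  have h1 : ((x : ℂ) / (2 * m)) = ((x / (2 * m) : ℝ) : ℂ) := by push_cast; ring
  rw [h1]
  have h2 : sc ((x / (2 * m) : ℝ) : ℂ) = (((sc ((x / (2 * m) : ℝ) : ℂ)).re : ℝ) : ℂ) := by
    apply Complex.ext
    · simp
    · rw [sc_real]; simp
  rw [h2, ← Complex.ofReal_pow, Complex.ofReal_re, pow_mul]
  positivity

lemma k0_bound (m : ℕ) (hm : 1 ≤ m) : ∃ C : ℝ, 1 ≤ C ∧ ∀ z : ℂ,
    ‖k0 m z‖ ≤ C * Real.exp |z.im| * ((1 + |z.re|) ^ (2 * m))⁻¹ := by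
  obtain ⟨C, hC1, hC⟩ := sc_bound
  have hm0 : (0 : ℝ) < 2 * m := by positivity
  have hm1 : (1 : ℝ) ≤ 2 * m := by
    have : (1 : ℝ) ≤ m := by exact_mod_cast hm
    linarith
  refine ⟨C ^ (2 * m) * (2 * m) ^ (2 * m), ?_, fun z => ?_⟩
  · exact one_le_mul_of_one_le_of_one_le (one_le_pow₀ hC1) (one_le_pow₀ hm1)
  have h1 := hC (z / (2 * m))
  have him : |(z / (2 * m)).im| = |z.im| / (2 * m) := by
    have : (z / (2 * m)).im = z.im / (2 * m) := by
      have h2 : (2 * m : ℂ) = ((2 * m : ℝ) : ℂ) := by push_cast; ring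
      rw [h2, Complex.div_ofReal_im]
    rw [this, abs_div, abs_of_pos hm0]
  have hn : ‖z / (2 * m)‖ = ‖z‖ / (2 * m) := by
    rw [norm_div]
    congr 1
    have h2 : (2 * m : ℂ) = ((2 * m : ℝ) : ℂ) := by push_cast; ring
    rw [h2, Complex.norm_real, Real.norm_eq_abs, abs_of_pos hm0]
  rw [him, hn] at h1
  have h3 : (1 + |z.re|) / (2 * m) ≤ 1 + ‖z‖ / (2 * m) := by
    rw [add_div]
    refine add_le_add ?_ ?_
    · rw [div_le_one hm0]; exact hm1
    · exact div_le_div_of_nonneg_right (Complex.abs_re_le_norm z) hm0.le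
  have h4 : ‖sc (z / (2 * m))‖ ≤ C * Real.exp (|z.im| / (2 * m)) * ((1 + |z.re|) / (2 * m))⁻¹ := by
    refine h1.trans ?_
    refine mul_le_mul_of_nonneg_left ?_ (by positivity)
    exact inv_anti₀ (by positivity) h3
  unfold k0
  rw [norm_pow]
  have h5 := pow_le_pow_left₀ (norm_nonneg _) h4 (2 * m)
  refine h5.trans (le_of_eq ?_)
  rw [mul_pow, mul_pow, ← Real.exp_nat_mul, inv_div, div_pow]
  have e : ((2 * m : ℕ) : ℝ) * (|z.im| / (2 * m)) = |z.im| := by
    push_cast
    field_simp
  rw [e]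
  field_simp

lemma inv_pow_le {a b : ℝ} (ha : 0 ≤ a) (hab : a ≤ b) (m : ℕ) (hm : 1 ≤ m) :
    ((1 + b) ^ (2 * m))⁻¹ ≤ ((1 + a) ^ (2 * m - 2))⁻¹ * (1 + b ^ 2)⁻¹ := by
  rw [← mul_inv]
  refine inv_anti₀ (by positivity) ?_
  have h1 : (1 + b) ^ (2 * m) = (1 + b) ^ (2 * m - 2) * (1 + b) ^ 2 := by
    rw [← pow_add]; congr 1; omega
  rw [h1]
  have hb : 0 ≤ b := ha.trans hab
  refine mul_le_mul (pow_le_pow_left₀ (by linarith) (by linarith) _) ?_ (by positivity)
    (by positivity)
  nlinarith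

/-- a smoothed step function of exponential type one -/
structure Step (H : ℂ → ℂ) (C : ℝ) (p : ℕ) : Prop where
  diff : Differentiable ℂ H
  conj : ∀ z : ℂ, H ((starRingEnd ℂ) z) = (starRingEnd ℂ) (H z)
  mono : ∀ x y : ℝ, x ≤ y → (H x).re ≤ (H y).re
  lo : ∀ x : ℝ, 0 ≤ (H x).re
  hi : ∀ x : ℝ, (H x).re ≤ 1
  left : ∀ z : ℂ, z.re ≤ 0 → ‖H z‖ ≤ C * Real.exp |z.im| * ((1 + |z.re|) ^ p)⁻¹
  right : ∀ z : ℂ, 0 ≤ z.re → ‖1 - H z‖ ≤ C * Real.exp |z.im| * ((1 + |z.re|) ^ p)⁻¹

theorem step_exists (m : ℕ) (hm : 1 ≤ m) : ∃ (H : ℂ → ℂ) (C : ℝ), 1 ≤ C ∧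
    Step H C (2 * m - 2) := by
  obtain ⟨C, hC1, hC⟩ := k0_bound m hm
  have hC0 : 0 < C := by linarith
  -- a primitive
  obtain ⟨G, hG⟩ := (k0_diff m).isExactOn_univ
  have hG' : ∀ z, HasDerivAt G (k0 m z) z := fun z => hG z (mem_univ z)
  have hGd : Differentiable ℂ G := fun z => (hG' z).differentiableAt
  -- integrability along horizontal lines
  have hcont : ∀ z : ℂ, Continuous fun v : ℝ => k0 m (z + v) := fun z =>
    (k0_diff m).continuous.comp (by fun_prop)
  have hgen : ∀ (z : ℂ) (v : ℝ), ‖k0 m (z + v)‖ ≤ C * Real.exp |z.im| *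
      (1 + (z.re + v) ^ 2)⁻¹ := by
    intro z v
    have h1 := hC (z + v)
    have e1 : (z + (v : ℂ)).im = z.im := by simp
    have e2 : (z + (v : ℂ)).re = z.re + v := by simp
    rw [e1, e2] at h1
    refine h1.trans (mul_le_mul_of_nonneg_left ?_ (by positivity))
    have h2 := inv_pow_le (le_refl (0 : ℝ)) (abs_nonneg (z.re + v)) m hm
    rw [add_zero, one_pow, inv_one, one_mul, sq_abs] at h2
    exact h2
  have hint : ∀ z : ℂ, Integrable fun v : ℝ => k0 m (z + v) := by
    intro z
    have h1 : Integrable fun v : ℝ => C * Real.exp |z.im| * (1 + (z.re + v) ^ 2)⁻¹ := by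
      have h2 : Integrable fun v : ℝ => (1 + (z.re + v) ^ 2)⁻¹ :=
        (integrable_inv_one_add_sq.comp_add_left z.re)
      exact h2.const_mul _
    exact h1.mono' (hcont z).aestronglyMeasurable (Eventually.of_forall (hgen z))
  -- the total mass
  obtain ⟨T, hT⟩ : ∃ T : ℂ, T = ∫ v : ℝ, k0 m v := ⟨_, rfl⟩
  have hint0 : Integrable fun v : ℝ => k0 m v := by
    have := hint 0
    simpa using this
  have hre : ∀ v : ℝ, k0 m v = (((k0 m v).re : ℝ) : ℂ) := fun v => by
    apply Complex.ext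
    · simp
    · rw [k0_real]; simp
  have hTre : T = ((∫ v : ℝ, (k0 m v).re : ℝ) : ℂ) := by
    rw [hT, integral_congr_ae (Eventually.of_forall hre)]
    exact integral_complex_ofReal
  obtain ⟨τ, hτ⟩ : ∃ τ : ℝ, τ = ∫ v : ℝ, (k0 m v).re := ⟨_, rfl⟩
  rw [← hτ] at hTre
  have hintr : Integrable fun v : ℝ => (k0 m v).re := hint0.re
  have hτ0 : 0 < τ := by
    rw [hτ, integral_pos_iff_support_of_nonneg (fun v => k0_nonneg m v) hintr]
    have hopen : IsOpen (Function.support fun v : ℝ => (k0 m v).re) := by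
      have hc : Continuous fun v : ℝ => (k0 m v).re :=
        Complex.continuous_re.comp ((k0_diff m).continuous.comp Complex.continuous_ofReal)
      exact hc.isOpen_support
    refine hopen.measure_pos _ ⟨0, ?_⟩
    simp [k0, sc_zero]
  -- translation
  have hFTC : ∀ (z : ℂ) (a b : ℝ), ∫ v in a..b, k0 m (z + v) = G (z + b) - G (z + a) := by
    intro z a b
    refine intervalIntegral.integral_eq_sub_of_hasDerivAt (f := fun v : ℝ => G (z + v)) ?_
      ((hcont z).intervalIntegrable _ _)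
    intro v _
    have h1 : HasDerivAt (fun v : ℝ => z + (v : ℂ)) 1 v :=
      (Complex.ofRealCLM.hasDerivAt (x := v)).const_add _
    have h2 := (hG' (z + v)).comp_of_eq v h1 rfl
    rw [mul_one] at h2
    exact h2
  have hlimL : ∀ z : ℂ, Tendsto (fun R : ℝ => G (z + (-R : ℝ))) atTop
      (𝓝 (G z - ∫ v in Iic (0 : ℝ), k0 m (z + v))) := by
    intro z
    have h1 := intervalIntegral_tendsto_integral_Iic (0 : ℝ) (hint z).integrableOn
      tendsto_neg_atTop_atBot
    have h2 : (fun R : ℝ => ∫ v in (-R)..(0 : ℝ), k0 m (z + v)) =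
        fun R : ℝ => G z - G (z + (-R : ℝ)) := by
      funext R
      rw [hFTC]
      simp
    rw [h2] at h1
    have h3 := h1.const_sub (G z)
    refine h3.congr fun R => ?_
    ring
  have hlimR : ∀ z : ℂ, Tendsto (fun R : ℝ => G (z + R)) atTop
      (𝓝 (G z + ∫ v in Ioi (0 : ℝ), k0 m (z + v))) := by
    intro z
    have h1 := intervalIntegral_tendsto_integral_Ioi (0 : ℝ) (hint z).integrableOn tendsto_id
    have h2 : (fun R : ℝ => ∫ v in (0 : ℝ)..(id R), k0 m (z + v)) =
        fun R : ℝ => G (z + R) - G z := by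
      funext R
      rw [hFTC]
      simp
    rw [h2] at h1
    have h3 := h1.add_const (G z)
    refine (h3.congr fun R => ?_).trans (le_of_eq ?_)
    · ring
    · rw [add_comm]
  -- the limit does not depend on the point
  have hdec : ∀ z : ℂ, Tendsto (fun R : ℝ => G (z + R) - G (z.re + R)) (cocompact ℝ) (𝓝 0) := by
    intro z
    have h1 : ∀ R : ℝ, ‖G (z + R) - G (z.re + R)‖ ≤ C * Real.exp |z.im| *
        (1 + (z.re + R) ^ 2)⁻¹ * |z.im| := by
      intro R
      have h2 := Convex.norm_image_sub_le_of_norm_hasDerivWithin_le (f := fun y : ℝ =>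
          G (z.re + R + y * I)) (f' := fun y : ℝ => k0 m (z.re + R + y * I) * I)
        (s := uIcc 0 z.im) (C := C * Real.exp |z.im| * (1 + (z.re + R) ^ 2)⁻¹) ?_ ?_
        (convex_uIcc _ _) left_mem_uIcc right_mem_uIcc
      · have e1 : ((z.re : ℂ) + R + z.im * I) = z + R := by
          rw [add_right_comm, Complex.re_add_im]
        simp only [Complex.ofReal_zero, zero_mul, add_zero, e1, sub_zero, Real.norm_eq_abs] at h2
        exact h2
      · intro y _
        have h3 : HasDerivAt (fun y : ℝ => ((z.re : ℂ) + R + y * I)) (1 * I) y :=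
          ((Complex.ofRealCLM.hasDerivAt (x := y)).mul_const I).const_add _
        rw [one_mul] at h3
        have h4 := (hG' (z.re + R + y * I)).comp_of_eq y h3 rfl
        exact h4.hasDerivWithinAt
      · intro y hy
        rw [norm_mul, norm_I, mul_one]
        have h3 := hC (z.re + R + y * I)
        have e1 : ((z.re : ℂ) + R + y * I).im = y := by simp
        have e2 : ((z.re : ℂ) + R + y * I).re = z.re + R := by simp
        rw [e1, e2] at h3
        have h4 : |y| ≤ |z.im| := by
          rw [mem_uIcc] at hy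
          rcases hy with h | h
          · rw [abs_of_nonneg h.1]
            exact h.2.trans (le_abs_self _)
          · rw [abs_of_nonpos h.2]
            have := neg_le_abs z.im
            linarith
        have h5 := inv_pow_le (le_refl (0 : ℝ)) (abs_nonneg (z.re + R)) m hm
        rw [add_zero, one_pow, inv_one, one_mul, sq_abs] at h5
        refine h3.trans ?_
        refine mul_le_mul ?_ h5 (by positivity) (by positivity)
        exact mul_le_mul_of_nonneg_left (Real.exp_le_exp.mpr h4) hC0.le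
    have h6 : Tendsto (fun R : ℝ => C * Real.exp |z.im| * (1 + (z.re + R) ^ 2)⁻¹ * |z.im|)
        (cocompact ℝ) (𝓝 0) := by
      have h7 : Tendsto (fun R : ℝ => (1 + (z.re + R) ^ 2)⁻¹) (cocompact ℝ) (𝓝 0) := by
        refine tendsto_inv_atTop_zero.comp ?_
        refine tendsto_atTop_add_const_left _ _ ?_
        have h8 : Tendsto (fun R : ℝ => ‖z.re + R‖) (cocompact ℝ) atTop := by
          refine tendsto_norm_cocompact_atTop.comp ?_
          exact (Homeomorph.addLeft z.re).isClosedEmbedding.tendsto_cocompact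
        have h9 := (tendsto_pow_atTop (α := ℝ) two_ne_zero).comp h8
        refine h9.congr fun R => ?_
        simp
      have h8 := (h7.const_mul (C * Real.exp |z.im|)).mul_const |z.im|
      simpa using h8
    exact squeeze_zero_norm h1 h6
  obtain ⟨κ, hκ⟩ : ∃ κ : ℂ, κ = G 0 - ∫ v in Iic (0 : ℝ), k0 m ((0 : ℂ) + v) := ⟨_, rfl⟩
  obtain ⟨κ', hκ'⟩ : ∃ κ' : ℂ, κ' = G 0 + ∫ v in Ioi (0 : ℝ), k0 m ((0 : ℂ) + v) := ⟨_, rfl⟩
  have hbot : Tendsto (fun R : ℝ => -R) atTop (cocompact ℝ) :=
    tendsto_neg_atTop_atBot.mono_right (atBot_le_cocompact)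
  have hL : ∀ z : ℂ, G z - ∫ v in Iic (0 : ℝ), k0 m (z + v) = κ := by
    intro z
    have h1 := hlimL z
    have h2 := (hdec z).comp hbot
    have h3 : Tendsto (fun R : ℝ => G ((0 : ℂ) + (-R : ℝ))) atTop (𝓝 κ) := by
      rw [hκ]; exact hlimL 0
    have h4 : Tendsto (fun R : ℝ => G ((z.re : ℂ) + (-R : ℝ))) atTop (𝓝 κ) := by
      have h5 : Tendsto (fun R : ℝ => R - z.re) atTop atTop := tendsto_atTop_add_const_right _ _ tendsto_id
      refine (h3.comp h5).congr fun R => ?_
      simp only [Function.comp_apply]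
      congr 1
      push_cast
      ring
    have h5 := h2.add h4
    rw [zero_add] at h5
    have h6 : Tendsto (fun R : ℝ => G (z + (-R : ℝ))) atTop (𝓝 κ) := by
      refine h5.congr fun R => ?_
      simp only [Function.comp_apply]
      ring
    exact tendsto_nhds_unique h1 h6
  have hR : ∀ z : ℂ, G z + ∫ v in Ioi (0 : ℝ), k0 m (z + v) = κ' := by
    intro z
    have h1 := hlimR z
    have h2 := (hdec z).comp (atTop_le_cocompact : (atTop : Filter ℝ) ≤ cocompact ℝ)
    have h3 : Tendsto (fun R : ℝ => G ((0 : ℂ) + (R : ℝ))) atTop (𝓝 κ') := by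
      rw [hκ']; exact hlimR 0
    have h4 : Tendsto (fun R : ℝ => G ((z.re : ℂ) + (R : ℝ))) atTop (𝓝 κ') := by
      have h5 : Tendsto (fun R : ℝ => R + z.re) atTop atTop := tendsto_atTop_add_const_right _ _ tendsto_id
      refine (h3.comp h5).congr fun R => ?_
      simp only [Function.comp_apply]
      congr 1
      push_cast
      ring
    have h5 := h2.add h4
    rw [zero_add] at h5
    have h6 : Tendsto (fun R : ℝ => G (z + (R : ℝ))) atTop (𝓝 κ') := by
      refine h5.congr fun R => ?_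
      simp only [Function.comp_apply]
      ring
    exact tendsto_nhds_unique h1 h6
  have hκκ : κ' - κ = τ := by
    rw [hκ, hκ', ← hTre, hT]
    have h1 := integral_add_compl (measurableSet_Iic (a := (0 : ℝ))) (hint 0)
    rw [compl_Iic] at h1
    simp only [zero_add] at h1 ⊢
    rw [← h1]
    ring
  have hτc : (τ : ℂ) ≠ 0 := by exact_mod_cast hτ0.ne'
  -- the function
  refine ⟨fun z => (G z - κ) / τ, C * Real.pi / τ + 1, by
    have : 0 ≤ C * Real.pi / τ := by positivity
    linarith, ?_⟩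
  have hHl : ∀ z : ℂ, (G z - κ) / τ = (∫ v in Iic (0 : ℝ), k0 m (z + v)) / τ := by
    intro z
    rw [← hL z]
    ring
  have hHr : ∀ z : ℂ, 1 - (G z - κ) / τ = (∫ v in Ioi (0 : ℝ), k0 m (z + v)) / τ := by
    intro z
    have h1 := hR z
    have h2 : (∫ v in Ioi (0 : ℝ), k0 m (z + v)) = τ - (G z - κ) := by
      rw [← hκκ, ← h1]; ring
    rw [h2]
    field_simp
  have hval : ∀ x : ℝ, ((G x - κ) / τ).re = (∫ v in Iic (0 : ℝ), (k0 m (x + v)).re) / τ := by
    intro x
    rw [hHl, Complex.div_ofReal_re]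
    congr 1
    have h1 := integral_re ((hint (x : ℂ)).integrableOn (s := Iic 0))
    simp only [RCLike.re_to_complex] at h1
    exact h1.symm
  have hval2 : ∀ x : ℝ, ((G x - κ) / τ).re = (∫ v in Iic x, (k0 m v).re) / τ := by
    intro x
    rw [hval]
    congr 1
    have h1 : (fun v : ℝ => (k0 m ((x : ℂ) + v)).re) = fun v : ℝ => (fun u : ℝ => (k0 m u).re) (x + v) := by
      funext v
      simp
    rw [h1]
    have h2 := (measurePreserving_add_left (volume : Measure ℝ) x).setIntegral_preimage_emb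
      (measurableEmbedding_addLeft x) (fun u : ℝ => (k0 m u).re) (Iic x)
    rw [← h2]
    congr 2
    ext v
    simp
  refine ⟨?_, ?_, ?_, ?_, ?_, ?_, ?_⟩
  · exact (hGd.sub_const _).div_const _
  · intro z
    rw [hHl, hHl, map_div₀, Complex.conj_ofReal, ← integral_conj]
    congr 2
    funext v
    rw [← k0_conj]
    congr 1
    simp
  · intro x y hxy
    rw [hval2, hval2]
    refine div_le_div_of_nonneg_right ?_ hτ0.le
    exact setIntegral_mono_set hintr.integrableOn (Eventually.of_forall fun v => k0_nonneg m v)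
      (LE.le.eventuallyLE (Iic_subset_Iic.mpr hxy))
  · intro x
    rw [hval2]
    exact div_nonneg (integral_nonneg fun v => k0_nonneg m v) hτ0.le
  · intro x
    rw [hval2, div_le_one hτ0, hτ]
    exact setIntegral_le_integral hintr (Eventually.of_forall fun v => k0_nonneg m v)
  · intro z hz
    rw [hHl, norm_div, Complex.norm_real, Real.norm_eq_abs, abs_of_pos hτ0]
    have h1 : ‖∫ v in Iic (0 : ℝ), k0 m (z + v)‖ ≤ ∫ v in Iic (0 : ℝ),
        (C * Real.exp |z.im| * ((1 + |z.re|) ^ (2 * m - 2))⁻¹) * (1 + v ^ 2)⁻¹ := by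
      refine norm_integral_le_of_norm_le ?_ ?_
      · exact (integrable_inv_one_add_sq.const_mul _).integrableOn
      · refine (ae_restrict_iff' measurableSet_Iic).mpr (Eventually.of_forall fun v hv => ?_)
        have hv0 : v ≤ 0 := hv
        have h2 := hC (z + v)
        have e1 : (z + (v : ℂ)).im = z.im := by simp
        have e2 : |(z + (v : ℂ)).re| = |z.re| + |v| := by
          simp only [Complex.add_re, Complex.ofReal_re]
          rw [abs_of_nonpos (by linarith), abs_of_nonpos hz, abs_of_nonpos hv0]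
          ring
        rw [e1, e2] at h2
        refine h2.trans ?_
        rw [mul_assoc (C * Real.exp |z.im|)]
        refine mul_le_mul_of_nonneg_left ?_ (by positivity)
        have h3 := inv_pow_le (abs_nonneg z.re) (show |z.re| ≤ |z.re| + |v| by linarith [abs_nonneg v]) m hm
        refine h3.trans (mul_le_mul_of_nonneg_left ?_ (by positivity))
        refine inv_anti₀ (by positivity) ?_
        have h4 : v ^ 2 = |v| ^ 2 := (sq_abs v).symm
        rw [h4]
        have := abs_nonneg v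
        have := abs_nonneg z.re
        nlinarith
    have h2 : ∫ v in Iic (0 : ℝ), (C * Real.exp |z.im| * ((1 + |z.re|) ^ (2 * m - 2))⁻¹) *
        (1 + v ^ 2)⁻¹ ≤ (C * Real.exp |z.im| * ((1 + |z.re|) ^ (2 * m - 2))⁻¹) * Real.pi := by
      rw [integral_const_mul]
      refine mul_le_mul_of_nonneg_left ?_ (by positivity)
      rw [← integral_univ_inv_one_add_sq]
      exact setIntegral_le_integral integrable_inv_one_add_sq
        (Eventually.of_forall fun v => by positivity)
    rw [div_le_iff₀ hτ0]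
    refine (h1.trans h2).trans ?_
    have h3 : (C * Real.pi / τ + 1) * Real.exp |z.im| * ((1 + |z.re|) ^ (2 * m - 2))⁻¹ * τ =
        C * Real.exp |z.im| * ((1 + |z.re|) ^ (2 * m - 2))⁻¹ * Real.pi +
          τ * Real.exp |z.im| * ((1 + |z.re|) ^ (2 * m - 2))⁻¹ := by
      field_simp
    rw [h3]
    have : 0 ≤ τ * Real.exp |z.im| * ((1 + |z.re|) ^ (2 * m - 2))⁻¹ := by positivity
    linarith
  · intro z hz
    rw [hHr, norm_div, Complex.norm_real, Real.norm_eq_abs, abs_of_pos hτ0]
    have h1 : ‖∫ v in Ioi (0 : ℝ), k0 m (z + v)‖ ≤ ∫ v in Ioi (0 : ℝ),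
        (C * Real.exp |z.im| * ((1 + |z.re|) ^ (2 * m - 2))⁻¹) * (1 + v ^ 2)⁻¹ := by
      refine norm_integral_le_of_norm_le ?_ ?_
      · exact (integrable_inv_one_add_sq.const_mul _).integrableOn
      · refine (ae_restrict_iff' measurableSet_Ioi).mpr (Eventually.of_forall fun v hv => ?_)
        have hv0 : 0 < v := hv
        have h2 := hC (z + v)
        have e1 : (z + (v : ℂ)).im = z.im := by simp
        have e2 : |(z + (v : ℂ)).re| = |z.re| + |v| := by
          simp only [Complex.add_re, Complex.ofReal_re]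
          rw [abs_of_nonneg (by linarith), abs_of_nonneg hz, abs_of_pos hv0]
        rw [e1, e2] at h2
        refine h2.trans ?_
        rw [mul_assoc (C * Real.exp |z.im|)]
        refine mul_le_mul_of_nonneg_left ?_ (by positivity)
        have h3 := inv_pow_le (abs_nonneg z.re) (show |z.re| ≤ |z.re| + |v| by linarith [abs_nonneg v]) m hm
        refine h3.trans (mul_le_mul_of_nonneg_left ?_ (by positivity))
        refine inv_anti₀ (by positivity) ?_
        have h4 : v ^ 2 = |v| ^ 2 := (sq_abs v).symm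
        rw [h4]
        have := abs_nonneg v
        have := abs_nonneg z.re
        nlinarith
    have h2 : ∫ v in Ioi (0 : ℝ), (C * Real.exp |z.im| * ((1 + |z.re|) ^ (2 * m - 2))⁻¹) *
        (1 + v ^ 2)⁻¹ ≤ (C * Real.exp |z.im| * ((1 + |z.re|) ^ (2 * m - 2))⁻¹) * Real.pi := by
      rw [integral_const_mul]
      refine mul_le_mul_of_nonneg_left ?_ (by positivity)
      rw [← integral_univ_inv_one_add_sq]
      exact setIntegral_le_integral integrable_inv_one_add_sq
        (Eventually.of_forall fun v => by positivity)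
    rw [div_le_iff₀ hτ0]
    refine (h1.trans h2).trans ?_
    have h3 : (C * Real.pi / τ + 1) * Real.exp |z.im| * ((1 + |z.re|) ^ (2 * m - 2))⁻¹ * τ =
        C * Real.exp |z.im| * ((1 + |z.re|) ^ (2 * m - 2))⁻¹ * Real.pi +
          τ * Real.exp |z.im| * ((1 + |z.re|) ^ (2 * m - 2))⁻¹ := by
      field_simp
    rw [h3]
    have : 0 ≤ τ * Real.exp |z.im| * ((1 + |z.re|) ^ (2 * m - 2))⁻¹ := by positivity
    linarith

end Pool.Agent.V8H15.LW
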