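import Pool.Agent.V8H15.LW.Sie

/-!
# The prime sums on average over the family: the sharp bound

Project LW (helper15).
-/

set_option autoImplicit false

open MeasureTheory Filter Topology Complex Finset ArithmeticFunction

namespace Pool.Agent.V8H15.LW

open H385 (primSetM mem_primSetM IX primFamM primFamM_eq Rw Rw_antitone Rw_nonneg WM cM
  prim_ls_M prim_mass_M cM_pos primFamM_nonneg)
open W388 (SelE)

variable {w : ℂ → ℂ} {C lam t V : ℝ} {p : ℕ}

/-- vanishing outside the window -/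
lemma bv_zero (hw : Wnd w C lam t V p) (hl : 0 < lam) (hp : 2 ≤ p) (hC : 0 ≤ C) (c : ℕ → ℂ)
    {u : ℝ} {n : ℕ} (h : lam < |Real.log n - u|) : bv w c u n = 0 := by
  unfold bv
  rw [hw.ft_zero hl hp hC h, mul_zero]

/-- the terms which are not prime to `q` -/
lemma noncop_le (hw : Wnd w C lam t V p) (hl : 0 < lam) (hp : 2 ≤ p) (hC : 0 ≤ C) (hV : 0 ≤ V)
    {c : ℕ → ℂ} (hc2 : ∀ n, Λ n * ‖c n‖ ≤ 2 * Λ n) {Lb u : ℝ} (hu1 : 2 * lam ≤ u) (hu2 : u ≤ Lb)
    (q : ℕ) (hq : 1 ≤ q) :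
    ∑' n : ℕ, (if Nat.Coprime n q then 0 else Λ n * ‖bv w c u n‖) ≤
      4 * (V + C * (2 * Real.pi / lam)) * Real.exp (-(lam / 2)) * Real.log q * (Lb + lam) := by
  classical
  obtain ⟨V', hV'⟩ : ∃ V' : ℝ, V' = V + C * (2 * Real.pi / lam) := ⟨_, rfl⟩
  have hpi := Real.pi_pos
  have hV'0 : 0 ≤ V' := by rw [hV']; positivity
  rw [← hV']
  have h1 : ∑' n : ℕ, (if Nat.Coprime n q then 0 else Λ n * ‖bv w c u n‖) =
      ∑ n ∈ (Icc 1 (NL lam Lb)).filter (fun n => ¬ Nat.Coprime n q), Λ n * ‖bv w c u n‖ := by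
    rw [tsum_eq_sum (s := (Icc 1 (NL lam Lb)).filter (fun n => ¬ Nat.Coprime n q))]
    · refine sum_congr rfl fun n hn => ?_
      rw [mem_filter] at hn
      rw [if_neg hn.2]
    · intro n hn
      rw [mem_filter, mem_Icc, not_and_or, not_and_or] at hn
      rcases hn with (hn | hn) | hn
      · have : n = 0 := by omega
        subst this
        simp
      · have h2 : n ∉ range (NL lam Lb + 1) := by
          rw [mem_range]
          omega
        have h3 := NL_lt h2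
        rw [bv_zero hw hl hp hC c (by rw [lt_abs]; left; linarith)]
        simp
      · rw [not_not] at hn
        rw [if_pos hn]
  rw [h1]
  have h2 : ∀ n ∈ (Icc 1 (NL lam Lb)).filter (fun n => ¬ Nat.Coprime n q),
      Λ n * ‖bv w c u n‖ ≤ (2 * V' * Real.exp (-(lam / 2))) * Λ n := by
    intro n hn
    rw [mem_filter, mem_Icc] at hn
    have hn0 : (0 : ℝ) < n := by exact_mod_cast hn.1.1
    have hLn := @vonMangoldt_nonneg n
    rcases lt_or_ge (Real.log n) lam with h | h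
    · rw [bv_zero hw hl hp hC c (by rw [lt_abs]; right; linarith), norm_zero, mul_zero]
      positivity
    · have h3 : Real.exp (lam / 2) ≤ Real.sqrt n := by
        rw [Real.le_sqrt' (Real.exp_pos _), ← Real.exp_nat_mul]
        push_cast
        rw [show (2 : ℝ) * (lam / 2) = lam by ring, ← Real.le_log_iff_exp_le hn0]
        exact h
      have h4 : (Real.sqrt n)⁻¹ ≤ Real.exp (-(lam / 2)) := by
        rw [Real.exp_neg]
        exact inv_anti₀ (Real.exp_pos _) h3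
      have h5 := ft_norm_le hw hl hp hC hV (Real.log n - u)
      rw [← hV'] at h5
      unfold bv
      rw [norm_mul, norm_mul, norm_inv, Complex.norm_real, Real.norm_eq_abs,
        abs_of_nonneg (Real.sqrt_nonneg _)]
      calc Λ n * (‖c n‖ * (Real.sqrt n)⁻¹ * ‖ft w (Real.log n - u)‖) =
          (Λ n * ‖c n‖) * ((Real.sqrt n)⁻¹ * ‖ft w (Real.log n - u)‖) := by ring
        _ ≤ (2 * Λ n) * (Real.exp (-(lam / 2)) * V') := by
            refine mul_le_mul (hc2 n) ?_ (by positivity) (by positivity)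
            exact mul_le_mul h4 h5 (norm_nonneg _) (Real.exp_pos _).le
        _ = _ := by ring
  refine (sum_le_sum h2).trans ?_
  rw [← mul_sum]
  have hN : 1 ≤ NL lam Lb := by
    unfold NL
    rw [Nat.one_le_floor_iff]
    exact Real.one_le_exp (by linarith)
  have h3 := vm_noncop (NL lam Lb) q hq hN
  have h4 : Real.log (NL lam Lb) ≤ Lb + lam := by
    rw [Real.log_le_iff_le_exp (by exact_mod_cast hN)]
    exact Nat.floor_le (Real.exp_pos _).le
  have h5 : 0 ≤ Real.log q := Real.log_nonneg (by exact_mod_cast hq)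
  calc (2 * V' * Real.exp (-(lam / 2))) *
      ∑ n ∈ (Icc 1 (NL lam Lb)).filter (fun n => ¬ Nat.Coprime n q), Λ n ≤
      (2 * V' * Real.exp (-(lam / 2))) * (2 * Real.log q * Real.log (NL lam Lb)) :=
        mul_le_mul_of_nonneg_left h3 (by positivity)
    _ ≤ (2 * V' * Real.exp (-(lam / 2))) * (2 * Real.log q * (Lb + lam)) := by gcongr
    _ = _ := by ring

/-- the pointwise bound -/
lemma fam_point2 {M : ℕ} {e C₀ : ℝ} {P : ℕ} (hC₀ : 0 < C₀) (hP : 1 ≤ P) (he : 0 < e)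
    (hls : ∀ (X Y N : ℕ) (b : ℕ → ℂ), 1 ≤ X → X ≤ Y →
      Summable (fun n => Λ n * ‖b n‖) →
      primFamM M X Y (fun q χ =>
        ‖∑' n : ℕ, χ (n : ZMod q) * ((Λ n : ℝ) : ℂ) * b n‖ ^ 2) ≤
      (1 + e) * Real.exp (Real.pi * N / (X : ℝ) ^ 2) *
        (cM M * (1 + e) * Real.log ((Y : ℝ) / X) + C₀) *
        ∑ n ∈ Finset.Icc 1 N, (Λ n) ^ 2 * ‖b n‖ ^ 2
      + C₀ * ∑ q ∈ Finset.Ioc X (P * Y), (1 / (q : ℝ)) *
        (∑' n : ℕ, if Nat.Coprime n q then 0 else Λ n * ‖b n‖) ^ 2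
      + C₀ * (Real.log ((Y : ℝ) / X) + 1) *
        ((∑' n : ℕ, if Nat.Coprime n P then 0 else Λ n * ‖b n‖) ^ 2 +
         (∑' n : ℕ, if N < n then Λ n * ‖b n‖ else 0) ^ 2))
    (hw : Wnd w C lam t V p) (hl : 0 < lam) (hp : 2 ≤ p) (hC : 0 ≤ C) (hV : 0 ≤ V)
    (X Y : ℕ) (hX : 1 ≤ X) (hXY : X ≤ Y) {c : ℕ → ℂ} (hc2 : ∀ n, Λ n * ‖c n‖ ≤ 2 * Λ n)
    {Lb u : ℝ} (hu1 : 2 * lam ≤ u) (hu2 : u ≤ Lb) {l : ℝ} (hl1 : 1 ≤ l)
    (hlP : Real.log ((P : ℝ) * Y) ≤ l) :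
    ∑ i ∈ primSetM M X Y, (1 / (i.1 : ℝ) ^ 2) * ‖Pf w (av c i) u‖ ^ 2 ≤
      (1 / (2 * Real.pi)) ^ 2 * ((1 + e) * Real.exp (Real.pi * (NL lam Lb) / (X : ℝ) ^ 2) *
        (cM M * (1 + e) * Real.log ((Y : ℝ) / X) + C₀) *
        (∑ n ∈ Icc 1 (NL lam Lb), Λ n ^ 2 * ‖c n‖ ^ 2 / n * ‖ft w (Real.log n - u)‖ ^ 2) +
        3 * C₀ * l * (4 * (V + C * (2 * Real.pi / lam)) * Real.exp (-(lam / 2)) * l *
          (Lb + lam)) ^ 2) := by
  classical
  have hpi := Real.pi_pos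
  have hX0 : (0 : ℝ) < X := by exact_mod_cast hX
  have hY1 : 1 ≤ Y := hX.trans hXY
  have hY0 : (0 : ℝ) < Y := by exact_mod_cast hY1
  have hP0 : (0 : ℝ) < P := by exact_mod_cast hP
  obtain ⟨V', hV'⟩ : ∃ V' : ℝ, V' = V + C * (2 * Real.pi / lam) := ⟨_, rfl⟩
  have hV'0 : 0 ≤ V' := by rw [hV']; positivity
  rw [← hV']
  obtain ⟨Rb, hRb⟩ : ∃ Rb : ℝ, Rb = 4 * V' * Real.exp (-(lam / 2)) * l * (Lb + lam) := ⟨_, rfl⟩
  rw [← hRb]
  have hRb0 : 0 ≤ Rb := by
    rw [hRb]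
    have : 0 ≤ Lb + lam := by linarith
    positivity
  have hsum : Summable fun n => Λ n * ‖bv w c u n‖ := by
    refine summable_of_hasFiniteSupport ((range (NL lam Lb + 1)).finite_toSet.subset ?_)
    intro n hn
    by_contra hcon
    have h3 : Lb + lam < Real.log n := NL_lt (by simpa using hcon)
    apply hn
    simp only
    rw [bv_zero hw hl hp hC c (by rw [lt_abs]; left; linarith)]
    simp
  have h1 := hls X Y (NL lam Lb) (bv w c u) hX hXY hsum
  rw [primFamM_eq] at h1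
  have h2 : ∀ i : IX, ‖Pf w (av c i) u‖ ^ 2 = (1 / (2 * Real.pi)) ^ 2 *
      ‖∑' n : ℕ, i.2 (n : ZMod i.1) * ((Λ n : ℝ) : ℂ) * bv w c u n‖ ^ 2 := by
    intro i
    unfold Pf
    rw [norm_mul, Complex.norm_real, Real.norm_eq_abs, abs_of_pos (by positivity), mul_pow]
    congr 3
    refine tsum_congr fun n => ?_
    rw [Pf_term w c i u n]
    ring
  simp_rw [h2]
  have h4 : ∑ i ∈ primSetM M X Y, 1 / (i.1 : ℝ) ^ 2 * ((1 / (2 * Real.pi)) ^ 2 *
      ‖∑' n : ℕ, i.2 (n : ZMod i.1) * ((Λ n : ℝ) : ℂ) * bv w c u n‖ ^ 2) =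
      (1 / (2 * Real.pi)) ^ 2 * ∑ i ∈ primSetM M X Y, 1 / (i.1 : ℝ) ^ 2 *
      ‖∑' n : ℕ, i.2 (n : ZMod i.1) * ((Λ n : ℝ) : ℂ) * bv w c u n‖ ^ 2 := by
    rw [mul_sum]
    exact sum_congr rfl fun i _ => by ring
  rw [h4]
  refine mul_le_mul_of_nonneg_left (h1.trans ?_) (by positivity)
  have h5 : ∑ n ∈ Icc 1 (NL lam Lb), Λ n ^ 2 * ‖bv w c u n‖ ^ 2 =
      ∑ n ∈ Icc 1 (NL lam Lb), Λ n ^ 2 * ‖c n‖ ^ 2 / n * ‖ft w (Real.log n - u)‖ ^ 2 :=
    sum_congr rfl fun n _ => bv_sq w c u n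
  rw [h5]
  have hnc : ∀ q : ℕ, 1 ≤ q → q ≤ P * Y →
      (∑' n : ℕ, (if Nat.Coprime n q then 0 else Λ n * ‖bv w c u n‖)) ^ 2 ≤ Rb ^ 2 := by
    intro q hq1 hq2
    have h6 := noncop_le hw hl hp hC hV hc2 hu1 hu2 q hq1
    rw [← hV'] at h6
    have h7 : Real.log q ≤ l := by
      refine le_trans (Real.log_le_log (by exact_mod_cast hq1) ?_) hlP
      exact_mod_cast hq2
    refine pow_le_pow_left₀ (tsum_nonneg fun n => ?_) (h6.trans ?_) 2
    · split_ifs
      · exact le_rfl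
      · have := @vonMangoldt_nonneg n
        positivity
    · rw [hRb]
      have : 0 ≤ Lb + lam := by linarith
      gcongr
  have ht : ∑' n : ℕ, (if NL lam Lb < n then Λ n * ‖bv w c u n‖ else 0) = 0 := by
    have : ∀ n : ℕ, (if NL lam Lb < n then Λ n * ‖bv w c u n‖ else 0) = 0 := by
      intro n
      split_ifs with h
      · have h3 : Lb + lam < Real.log n := NL_lt (by rw [mem_range]; omega)
        rw [bv_zero hw hl hp hC c (by rw [lt_abs]; left; linarith)]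
        simp
      · rfl
    simp_rw [this]
    simp
  have hXPY : X ≤ P * Y := hXY.trans (Nat.le_mul_of_pos_left Y (by omega))
  have hq : ∑ q ∈ Finset.Ioc X (P * Y), (1 / (q : ℝ)) *
        (∑' n : ℕ, if Nat.Coprime n q then 0 else Λ n * ‖bv w c u n‖) ^ 2 ≤ l * Rb ^ 2 := by
    calc _ ≤ ∑ q ∈ Finset.Ioc X (P * Y), (1 / (q : ℝ)) * Rb ^ 2 := by
          refine sum_le_sum fun q hq => ?_
          rw [mem_Ioc] at hq
          exact mul_le_mul_of_nonneg_left (hnc q (by omega) hq.2) (by positivity)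
      _ = (∑ q ∈ Finset.Ioc X (P * Y), (1 / (q : ℝ))) * Rb ^ 2 := by rw [sum_mul]
      _ ≤ l * Rb ^ 2 := by
          refine mul_le_mul_of_nonneg_right ?_ (by positivity)
          refine (H385.sum_inv_le X (P * Y) hX hXPY).trans (le_trans ?_ hlP)
          push_cast
          refine Real.log_le_log (by positivity) ?_
          rw [div_le_iff₀ hX0]
          have : (1 : ℝ) ≤ X := by exact_mod_cast hX
          nlinarith [mul_pos hP0 hY0]
  have hlogYX : Real.log ((Y : ℝ) / X) + 1 ≤ 2 * l := by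
    have h8 : Real.log ((Y : ℝ) / X) ≤ l := by
      refine le_trans (Real.log_le_log (by positivity) ?_) hlP
      rw [div_le_iff₀ hX0]
      have h9 : (1 : ℝ) ≤ X := by exact_mod_cast hX
      have h10 : (1 : ℝ) ≤ P := by exact_mod_cast hP
      have h11 : (Y : ℝ) ≤ P * Y := le_mul_of_one_le_left hY0.le h10
      nlinarith
    linarith
  rw [ht]
  have hPP := hnc P hP (Nat.le_mul_of_pos_right P (by omega))
  have e1 : C₀ * ∑ q ∈ Finset.Ioc X (P * Y), (1 / (q : ℝ)) *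
        (∑' n : ℕ, if Nat.Coprime n q then 0 else Λ n * ‖bv w c u n‖) ^ 2 ≤ C₀ * (l * Rb ^ 2) :=
    mul_le_mul_of_nonneg_left hq hC₀.le
  have hlog0 : 0 ≤ Real.log ((Y : ℝ) / X) := by
    refine Real.log_nonneg ?_
    rw [one_le_div hX0]
    exact_mod_cast hXY
  have e2 : C₀ * (Real.log ((Y : ℝ) / X) + 1) *
        ((∑' n : ℕ, if Nat.Coprime n P then 0 else Λ n * ‖bv w c u n‖) ^ 2 + 0 ^ 2) ≤
      C₀ * (2 * l) * Rb ^ 2 := by
    refine mul_le_mul ?_ (by linarith) (by positivity) (by positivity)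
    exact mul_le_mul_of_nonneg_left hlogYX hC₀.le
  have e3 : 3 * C₀ * l * Rb ^ 2 = C₀ * (l * Rb ^ 2) + C₀ * (2 * l) * Rb ^ 2 := by ring
  rw [e3]
  linarith

end Pool.Agent.V8H15.LW
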