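import Pool.Agent.H385R2.TraceW
import Pool.Agent.H385R2.Win

/-!
# The trace inequality with a window

Project LW (helper15); adapted from `Pool.Agent.H385R2.TraceW`.
-/

set_option autoImplicit false

open scoped BigOperators ComplexConjugate

namespace Pool.Agent.V8H15.LW

open H385 (trw_split)

/-- the cost of a point in the window -/
noncomputable def kz (S : Finset ℂ) (z : ℂ) : ℝ :=
  open Classical in if z.im = 0 then (if z ∈ S then 3 else 4) else 2

open Classical in
theorem trace_v {E : Type*} [NormedAddCommGroup E] [InnerProductSpace ℂ E]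
    (φ : ℂ → ℂ) (k : ℂ → E) (hk : ∀ z w, inner ℂ (k z) (k w) = φ (w - (starRingEnd ℂ) z))
    (hev : ∀ z, φ (-z) = φ z) (h0 : φ 0 = 1)
    (Z : Finset ℂ) (hZ : ∀ z ∈ Z, (starRingEnd ℂ) z ∈ Z) (a : ℂ → ℂ)
    (hac : ∀ z ∈ Z, a ((starRingEnd ℂ) z) = (starRingEnd ℂ) (a z))
    (In : ℂ → Prop) (hIn : ∀ z, In ((starRingEnd ℂ) z) ↔ In z)
    (e : ℂ → ℝ) (he1 : ∀ z, 1 ≤ e z) (he : ∀ z, ‖φ (z - (starRingEnd ℂ) z)‖ ≤ e z)
    (hpos : ∀ z ∈ Z, z.im = 0 → 0 ≤ (a z).re)
    (S : Finset ℂ) (hSZ : S ⊆ Z) (hSr : ∀ z ∈ S, z.im = 0 ∧ In z ∧ (a z).re ≤ 1) :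
    ∑ z ∈ Z.filter In, (4 * (a z).re - kz S z) - 8 * ∑ z ∈ Z.filter (fun z => ¬ In z), ‖a z‖ * e z
      ≤ (∑ z ∈ Z, ∑ w ∈ Z, a z * a w * (φ (z - w)) ^ 2).re := by
  classical
  set P := Z.filter (fun z => 0 ≤ z.im) with hP
  -- conj relation
  have hcj : ∀ z, (starRingEnd ℂ) (φ z) = φ ((starRingEnd ℂ) z) := by
    intro z
    have h1 := hk 0 z
    have h2 := hk z 0
    rw [← inner_conj_symm, h1] at h2
    simp only [map_zero, sub_zero, zero_sub] at h2
    rw [h2, hev]
  -- coefficients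
  set c : ℂ → ℂ := fun z => if z.im = 0 then a z / 4 else a z / 2 with hc
  have hsplit : ∀ G : ℂ → ℂ, ∑ z ∈ Z, a z * G z =
      ∑ z ∈ P, (2 * c z * G z + 2 * (starRingEnd ℂ) (c z) * G ((starRingEnd ℂ) z)) :=
    fun G => trw_split Z hZ a hac G
  have hex : ∀ z, ∃ s : ℂ, s ^ 2 = c z := fun z => IsAlgClosed.exists_pow_nat_eq (c z) two_pos
  choose s hs using hex
  set x : ℂ → E := fun z => s z • k z + (starRingEnd ℂ) (s z) • k ((starRingEnd ℂ) z) with hx
  set b : ℂ → E := fun z => s z • k z - (starRingEnd ℂ) (s z) • k ((starRingEnd ℂ) z) with hb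
  set d : ℂ → ℝ := fun z => if In z then (if z ∈ S then 1 else 2) else 0 with hd
  set D : ℂ → ℂ → ℝ := fun z w => if z = w then d z else 0 with hD
  set p : ℂ → ℂ → ℂ := fun z w => (starRingEnd ℂ) (s z) * s w * φ (w - (starRingEnd ℂ) z) with hp
  set q : ℂ → ℂ → ℂ := fun z w => (starRingEnd ℂ) (s z) * (starRingEnd ℂ) (s w) *
    φ ((starRingEnd ℂ) w - (starRingEnd ℂ) z) with hq
  -- inner products
  have hA : ∀ z w, φ ((starRingEnd ℂ) w - z) = (starRingEnd ℂ) (φ (w - (starRingEnd ℂ) z)) := by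
    intro z w
    rw [hcj]; simp
  have hB : ∀ z w, φ (w - z) = (starRingEnd ℂ) (φ ((starRingEnd ℂ) w - (starRingEnd ℂ) z)) := by
    intro z w
    rw [hcj]; simp
  have hxx : ∀ z w, inner ℂ (x z) (x w) = p z w + q z w + (starRingEnd ℂ) (q z w) +
      (starRingEnd ℂ) (p z w) := by
    intro z w
    simp only [hx, hp, hq, map_mul, Complex.conj_conj, ← hA z w, ← hB z w]
    rw [inner_add_left, inner_add_right, inner_add_right]
    simp only [inner_smul_left, inner_smul_right, hk, Complex.conj_conj]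
    ring
  have hxb : ∀ z w, inner ℂ (x z) (b w) = p z w - q z w + (starRingEnd ℂ) (q z w) -
      (starRingEnd ℂ) (p z w) := by
    intro z w
    simp only [hx, hb, hp, hq, map_mul, Complex.conj_conj, ← hA z w, ← hB z w]
    rw [inner_add_left, inner_sub_right, inner_sub_right]
    simp only [inner_smul_left, inner_smul_right, hk, Complex.conj_conj]
    ring
  have hbb : ∀ z w, inner ℂ (b z) (b w) = p z w - q z w - (starRingEnd ℂ) (q z w) +
      (starRingEnd ℂ) (p z w) := by
    intro z w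
    simp only [hb, hp, hq, map_mul, Complex.conj_conj, ← hA z w, ← hB z w]
    rw [inner_sub_left, inner_sub_right, inner_sub_right]
    simp only [inner_smul_left, inner_smul_right, hk, Complex.conj_conj]
    ring
  -- real forms
  set r : ℂ → ℂ → ℝ := fun z w => 2 * (p z w).re + 2 * (q z w).re with hr
  have hxxr : ∀ z w, inner ℂ (x z) (x w) = (r z w : ℂ) := by
    intro z w
    rw [hxx]
    simp only [hr]
    apply Complex.ext
    · simp; ring
    · simp
  have hbbr : ∀ z w, inner ℂ (b z) (b w) = ((2 * (p z w).re - 2 * (q z w).re : ℝ) : ℂ) := by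
    intro z w
    rw [hbb]
    apply Complex.ext
    · simp; ring
    · simp
  have hxbr : ∀ z w, ‖inner ℂ (x z) (b w)‖ ^ 2 = 4 * ((p z w).im - (q z w).im) ^ 2 := by
    intro z w
    rw [hxb, ← Complex.normSq_eq_norm_sq, Complex.normSq_apply]
    simp only [Complex.sub_re, Complex.add_re, Complex.conj_re, Complex.conj_im, Complex.sub_im,
      Complex.add_im]
    ring
  have hpsym : ∀ z w, p w z = (starRingEnd ℂ) (p z w) := by
    intro z w
    simp only [hp, map_mul, Complex.conj_conj, ← hA z w]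
    rw [← hev (z - (starRingEnd ℂ) w)]
    have : -(z - (starRingEnd ℂ) w) = (starRingEnd ℂ) w - z := by ring
    rw [this]
    ring
  have hqsym : ∀ z w, q w z = q z w := by
    intro z w
    simp only [hq]
    rw [← hev ((starRingEnd ℂ) z - (starRingEnd ℂ) w)]
    have : -((starRingEnd ℂ) z - (starRingEnd ℂ) w) = (starRingEnd ℂ) w - (starRingEnd ℂ) z := by ring
    rw [this]
    ring
  have hxbr' : ∀ z w, ‖inner ℂ (x w) (b z)‖ ^ 2 = 4 * ((p z w).im + (q z w).im) ^ 2 := by
    intro z w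
    rw [hxbr w z, hpsym, hqsym, Complex.conj_im]
    ring
  -- trace of T^2
  have htr : (∑ z ∈ Z, ∑ w ∈ Z, a z * a w * (φ (z - w)) ^ 2).re =
      ∑ z ∈ P, ∑ w ∈ P, 8 * ((p z w ^ 2).re + (q z w ^ 2).re) := by
    have h1 : ∑ z ∈ Z, ∑ w ∈ Z, a z * a w * (φ (z - w)) ^ 2 =
        ∑ z ∈ Z, a z * ∑ w ∈ P, (2 * c w * φ (z - w) ^ 2 +
          2 * (starRingEnd ℂ) (c w) * φ (z - (starRingEnd ℂ) w) ^ 2) := by
      refine Finset.sum_congr rfl fun z _ => ?_
      rw [← hsplit (fun w => φ (z - w) ^ 2), Finset.mul_sum]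
      refine Finset.sum_congr rfl fun w _ => ?_
      ring
    rw [h1, hsplit (fun z => ∑ w ∈ P, (2 * c w * φ (z - w) ^ 2 +
          2 * (starRingEnd ℂ) (c w) * φ (z - (starRingEnd ℂ) w) ^ 2)), Complex.re_sum]
    refine Finset.sum_congr rfl fun z _ => ?_
    rw [Finset.mul_sum, Finset.mul_sum, ← Finset.sum_add_distrib, Complex.re_sum]
    refine Finset.sum_congr rfl fun w _ => ?_
    have e1 : φ (z - w) = (starRingEnd ℂ) (φ ((starRingEnd ℂ) w - (starRingEnd ℂ) z)) := by
      rw [← hB z w, ← hev]; congr 1; ring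
    have e2 : φ (z - (starRingEnd ℂ) w) = (starRingEnd ℂ) (φ (w - (starRingEnd ℂ) z)) := by
      rw [← hA z w, ← hev]; congr 1; ring
    have e3 : φ ((starRingEnd ℂ) z - w) = φ (w - (starRingEnd ℂ) z) := by
      rw [← hev]; congr 1; ring
    have e4 : φ ((starRingEnd ℂ) z - (starRingEnd ℂ) w) =
        φ ((starRingEnd ℂ) w - (starRingEnd ℂ) z) := by
      rw [← hev]; congr 1; ring
    have hp2 : p z w ^ 2 = (starRingEnd ℂ) (c z) * c w * φ (w - (starRingEnd ℂ) z) ^ 2 := by
      simp only [hp]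
      rw [← hs z, ← hs w, map_pow]; ring
    have hq2 : q z w ^ 2 = (starRingEnd ℂ) (c z) * (starRingEnd ℂ) (c w) *
        φ ((starRingEnd ℂ) w - (starRingEnd ℂ) z) ^ 2 := by
      simp only [hq]
      rw [← hs z, ← hs w, map_pow, map_pow]; ring
    have key : 2 * c z * (2 * c w * φ (z - w) ^ 2 +
          2 * (starRingEnd ℂ) (c w) * φ (z - (starRingEnd ℂ) w) ^ 2) +
        2 * (starRingEnd ℂ) (c z) * (2 * c w * φ ((starRingEnd ℂ) z - w) ^ 2 +
          2 * (starRingEnd ℂ) (c w) * φ ((starRingEnd ℂ) z - (starRingEnd ℂ) w) ^ 2) =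
        4 * (p z w ^ 2 + (starRingEnd ℂ) (p z w ^ 2)) +
          4 * (q z w ^ 2 + (starRingEnd ℂ) (q z w ^ 2)) := by
      rw [hp2, hq2, e1, e2, e3, e4]
      simp only [map_mul, map_pow, Complex.conj_conj]
      ring
    rw [key]
    have hgen : ∀ A B : ℂ, (4 * (A + (starRingEnd ℂ) A) + 4 * (B + (starRingEnd ℂ) B)).re =
        8 * (A.re + B.re) := by
      intro A B
      simp
      ring
    rw [hgen]
  have htr2 : ∑ z ∈ P, ∑ w ∈ P, 8 * ((p z w ^ 2).re + (q z w ^ 2).re) =
      ∑ z ∈ P, ∑ w ∈ P, (r z w) ^ 2 - 2 * ∑ z ∈ P, ∑ w ∈ P, ‖inner ℂ (x z) (b w)‖ ^ 2 +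
        ∑ z ∈ P, ∑ w ∈ P, ‖inner ℂ (b z) (b w)‖ ^ 2 := by
    have h1 : 2 * ∑ z ∈ P, ∑ w ∈ P, ‖inner ℂ (x z) (b w)‖ ^ 2 =
        ∑ z ∈ P, ∑ w ∈ P, (‖inner ℂ (x z) (b w)‖ ^ 2 + ‖inner ℂ (x w) (b z)‖ ^ 2) := by
      simp_rw [Finset.sum_add_distrib]
      rw [Finset.sum_comm (f := fun z w => ‖inner ℂ (x w) (b z)‖ ^ 2)]
      ring
    rw [h1, ← Finset.sum_sub_distrib, ← Finset.sum_add_distrib]
    refine Finset.sum_congr rfl fun z _ => ?_
    rw [← Finset.sum_sub_distrib, ← Finset.sum_add_distrib]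
    refine Finset.sum_congr rfl fun w _ => ?_
    have hA2 : ∀ A : ℂ, (A ^ 2).re = A.re ^ 2 - A.im ^ 2 := by
      intro A
      rw [sq, Complex.mul_re]
      ring
    have hrz : r z w = 2 * (p z w).re + 2 * (q z w).re := rfl
    rw [hxbr, hxbr', hbbr, Complex.norm_real, Real.norm_eq_abs, sq_abs, hA2, hA2, hrz]
    generalize p z w = p'
    generalize q z w = q'
    ring
  have hrd : ∀ z, r z z = 4 * (c z).re + ‖b z‖ ^ 2 := by
    intro z
    have h1 : ((‖b z‖ ^ 2 : ℝ) : ℂ) = inner ℂ (b z) (b z) := by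
      rw [inner_self_eq_norm_sq_to_K]; push_cast; rfl
    rw [hbbr] at h1
    have h2 := Complex.ofReal_injective h1
    rw [h2]
    simp only [hr]
    have h3 : (q z z).re = (c z).re := by
      simp only [hq, sub_self, h0, mul_one]
      rw [← hs z, ← map_mul, Complex.conj_re, sq]
    rw [h3]
    ring
  have hb0 : ∀ z ∈ Z, z.im = 0 → ‖b z‖ ^ 2 = 0 := by
    intro z hzZ hz1
    have hz2 := hpos z hzZ hz1
    have hzc : (starRingEnd ℂ) z = z := Complex.conj_eq_iff_im.mpr hz1
    have haz := hac z hzZ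
    rw [hzc] at haz
    have hai : (a z).im = 0 := Complex.conj_eq_iff_im.mp haz.symm
    have hcz : c z = a z / 4 := by simp only [hc]; rw [if_pos hz1]
    have hsz := hs z
    rw [hcz] at hsz
    have h1 : (s z ^ 2).im = 0 := by rw [hsz]; simp [hai]
    have h2 : 0 ≤ (s z ^ 2).re := by
      rw [hsz]; simp; linarith
    rw [sq, Complex.mul_im] at h1
    rw [sq, Complex.mul_re] at h2
    have h3 : (s z).im = 0 := by
      by_contra hne
      have h4 : (s z).re = 0 := by
        have : (s z).im * (s z).re = 0 := by linarith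
        rcases mul_eq_zero.1 this with h | h
        · exact absurd h hne
        · exact h
      rw [h4] at h2
      have := mul_self_pos.2 hne
      linarith
    have h5 : (starRingEnd ℂ) (s z) = s z := Complex.conj_eq_iff_im.mpr h3
    simp only [hb]
    rw [h5, hzc, sub_self, norm_zero]
    norm_num
  have hbb2 : ∀ z, ¬ z.im = 0 → ‖b z‖ ^ 2 ≤ 2 * (‖a z‖ * e z) := by
    intro z hz
    have h1 : ((‖b z‖ ^ 2 : ℝ) : ℂ) = inner ℂ (b z) (b z) := by
      rw [inner_self_eq_norm_sq_to_K]; push_cast; rfl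
    rw [hbbr] at h1
    have h2 := Complex.ofReal_injective h1
    rw [h2]
    have hcz : c z = a z / 2 := by simp only [hc]; rw [if_neg hz]
    have hn : ‖s z‖ * ‖s z‖ = ‖a z‖ / 2 := by
      rw [← norm_mul, ← sq, hs z, hcz, norm_div]
      norm_num
    have h3 : (p z z).re ≤ ‖a z‖ / 2 * e z := by
      refine (Complex.re_le_norm _).trans ?_
      simp only [hp]
      rw [norm_mul, norm_mul, RCLike.norm_conj, hn]
      exact mul_le_mul_of_nonneg_left (he z) (by positivity)
    have h4 : -(q z z).re ≤ ‖a z‖ / 2 := by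
      have h5 : -(q z z).re ≤ ‖q z z‖ := (neg_le_abs _).trans (Complex.abs_re_le_norm _)
      refine h5.trans ?_
      simp only [hq]
      rw [sub_self, h0, mul_one, norm_mul, RCLike.norm_conj, hn]
    have h6 : ‖a z‖ / 2 ≤ ‖a z‖ / 2 * e z := le_mul_of_one_le_right (by positivity) (he1 z)
    linarith
  -- main inequality
  have hmain := H370.la_core_finset P x b D (by
    intro v
    have e1 : ∀ z ∈ P, ∑ w ∈ P, D z w * ((starRingEnd ℂ (v z)) * v w).re = d z * ‖v z‖ ^ 2 := by
      intro z hz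
      simp only [hD, ite_mul, zero_mul]
      rw [Finset.sum_ite_eq, if_pos hz, Complex.conj_mul', ← Complex.ofReal_pow, Complex.ofReal_re]
    rw [Finset.sum_congr rfl e1, Finset.mul_sum]
    refine Finset.sum_le_sum fun z _ => ?_
    have : d z ≤ 2 := by
      simp only [hd]; split_ifs <;> norm_num
    exact mul_le_mul_of_nonneg_right this (by positivity))
  have hDr : ∑ z ∈ P, ∑ w ∈ P, ‖inner ℂ (x z) (x w) - (D z w : ℂ)‖ ^ 2 =
      ∑ z ∈ P, ∑ w ∈ P, (r z w) ^ 2 - ∑ z ∈ P, 2 * d z * r z z + ∑ z ∈ P, d z ^ 2 := by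
    rw [← Finset.sum_sub_distrib, ← Finset.sum_add_distrib]
    refine Finset.sum_congr rfl fun z hz => ?_
    have e1 : ∀ w ∈ P, ‖inner ℂ (x z) (x w) - (D z w : ℂ)‖ ^ 2 =
        (r z w) ^ 2 + (if z = w then (- 2 * d z * r z z + d z ^ 2) else 0) := by
      intro w _
      rw [hxxr, ← Complex.ofReal_sub, Complex.norm_real, Real.norm_eq_abs, sq_abs]
      by_cases h : z = w
      · subst h
        rw [show D z z = d z from if_pos rfl, if_pos rfl]
        ring
      · rw [show D z w = 0 from if_neg h, if_neg h]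
        ring
    rw [Finset.sum_congr rfl e1, Finset.sum_add_distrib, Finset.sum_ite_eq, if_pos hz]
    ring
  -- the sum over P, term by term
  have hterm : ∀ z ∈ P, (if In z then 16 * (c z).re else 0) -
      (if In z then (if z ∈ S then 3 else 4) else 0) -
      (if In z then 0 else if z.im = 0 then 0 else 8 * (‖a z‖ * e z)) ≤
        2 * d z * r z z - d z ^ 2 - 4 * ‖b z‖ ^ 2 := by
    intro z hz
    have hzZ : z ∈ Z := (Finset.mem_filter.mp hz).1
    rw [hrd]
    simp only [hd]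
    by_cases h1 : In z
    · rw [if_pos h1, if_pos h1, if_pos h1, if_pos h1]
      by_cases h2 : z ∈ S
      · rw [if_pos h2, if_pos h2]
        obtain ⟨h3, _, h4⟩ := hSr z h2
        have hcz : (c z).re = (a z).re / 4 := by
          simp only [hc]
          rw [if_pos h3]
          simp
        rw [hcz, hb0 z hzZ h3]
        linarith
      · rw [if_neg h2, if_neg h2]
        linarith
    · rw [if_neg h1, if_neg h1, if_neg h1, if_neg h1]
      by_cases h2 : z.im = 0
      · rw [if_pos h2, hb0 z hzZ h2]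
        norm_num
      · rw [if_neg h2]
        have := hbb2 z h2
        linarith
  have hsum := Finset.sum_le_sum hterm
  rw [Finset.sum_sub_distrib, Finset.sum_sub_distrib, Finset.sum_sub_distrib,
    Finset.sum_sub_distrib, ← Finset.mul_sum] at hsum
  -- first sum
  have hN : ∑ z ∈ P, (if In z then 16 * (c z).re else 0) = ∑ z ∈ Z.filter In, 4 * (a z).re := by
    have h1 := hsplit (fun z => if In z then 1 else 0)
    have h2 : (∑ z ∈ Z, a z * (if In z then 1 else 0)) = ∑ z ∈ Z.filter In, a z := by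
      rw [Finset.sum_filter]
      refine Finset.sum_congr rfl fun z _ => ?_
      split_ifs <;> simp
    rw [h2] at h1
    have h3 := congrArg Complex.re h1
    rw [Complex.re_sum, Complex.re_sum] at h3
    rw [← Finset.mul_sum, h3, Finset.mul_sum]
    refine Finset.sum_congr rfl fun z _ => ?_
    simp only [hIn z]
    split_ifs with h
    · simp only [mul_one, Complex.add_re, Complex.mul_re, Complex.conj_re, Complex.conj_im]
      norm_num
      ring
    · simp
  -- flipping
  have hflip : ∀ g : ℂ → ℝ, ∑ z ∈ Z.filter (fun z => z.im < 0), g z =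
      ∑ z ∈ Z.filter (fun z => 0 < z.im), g ((starRingEnd ℂ) z) := by
    intro g
    refine Finset.sum_nbij' (fun z => (starRingEnd ℂ) z) (fun z => (starRingEnd ℂ) z) ?_ ?_ ?_ ?_ ?_
    · intro z hz
      simp only [Finset.mem_filter] at hz ⊢
      refine ⟨hZ z hz.1, ?_⟩
      rw [Complex.conj_im]; linarith [hz.2]
    · intro z hz
      simp only [Finset.mem_filter] at hz ⊢
      refine ⟨hZ z hz.1, ?_⟩
      rw [Complex.conj_im]; linarith [hz.2]
    · intro z _; simp
    · intro z _; simp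
    · intro z _; simp
  have hZsplit : ∀ g : ℂ → ℝ, ∑ z ∈ Z, g z = ∑ z ∈ P, g z +
      ∑ z ∈ Z.filter (fun z => 0 < z.im), g ((starRingEnd ℂ) z) := by
    intro g
    rw [← hflip, ← Finset.sum_filter_add_sum_filter_not Z (fun z => 0 ≤ z.im)]
    congr 1
    refine Finset.sum_congr ?_ fun _ _ => rfl
    ext z
    simp only [Finset.mem_filter, not_le]
  have hPpos : Z.filter (fun z => 0 < z.im) = P.filter (fun z => 0 < z.im) := by
    ext z
    simp only [hP, Finset.mem_filter]
    constructor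
    · rintro ⟨h1, h2⟩; exact ⟨⟨h1, h2.le⟩, h2⟩
    · rintro ⟨⟨h1, _⟩, h2⟩; exact ⟨h1, h2⟩
  have hK : ∑ z ∈ Z.filter In, kz S z =
      ∑ z ∈ P, (if In z then (if z ∈ S then (3 : ℝ) else 4) else 0) := by
    have e1 : ∑ z ∈ P.filter (fun z => 0 < z.im), (if In ((starRingEnd ℂ) z) then
        kz S ((starRingEnd ℂ) z) else 0) = ∑ z ∈ P, (if 0 < z.im then
          (if In ((starRingEnd ℂ) z) then kz S ((starRingEnd ℂ) z) else 0) else 0) :=
      Finset.sum_filter _ _
    rw [Finset.sum_filter, hZsplit, hPpos, e1, ← Finset.sum_add_distrib]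
    refine Finset.sum_congr rfl fun z hz => ?_
    have hz0 : 0 ≤ z.im := (Finset.mem_filter.mp hz).2
    simp only [hIn z]
    by_cases h1 : In z
    · rw [if_pos h1, if_pos h1, if_pos h1]
      unfold kz
      rcases hz0.eq_or_lt with h2 | h2
      · have h5 : ¬ (0 < z.im) := by rw [← h2]; exact lt_irrefl _
        simp only [if_pos h2.symm, if_neg h5]
        split_ifs <;> norm_num
      · have h3 : z ∉ S := fun h => by linarith [(hSr z h).1]
        have h4 : ¬ ((starRingEnd ℂ) z).im = 0 := by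
          rw [Complex.conj_im]
          intro h
          linarith
        simp only [if_neg h2.ne', if_pos h2, if_neg h4, if_neg h3]
        norm_num
    · rw [if_neg h1, if_neg h1, if_neg h1]
      simp
  have hE : ∑ z ∈ P, (if In z then 0 else if z.im = 0 then 0 else 8 * (‖a z‖ * e z)) ≤
      8 * ∑ z ∈ Z.filter (fun z => ¬ In z), ‖a z‖ * e z := by
    have h8 : 8 * ∑ z ∈ Z.filter (fun z => ¬ In z), ‖a z‖ * e z =
        ∑ z ∈ Z, if ¬ In z then 8 * (‖a z‖ * e z) else 0 := by
      rw [Finset.mul_sum]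
      exact Finset.sum_filter _ _
    rw [h8]
    have hsub : P ⊆ Z := Finset.filter_subset _ _
    have hnn : ∀ z, 0 ≤ ‖a z‖ * e z := fun z => mul_nonneg (norm_nonneg _) (by linarith [he1 z])
    have h7 : ∑ z ∈ P, (if In z then (0 : ℝ) else if z.im = 0 then 0 else 8 * (‖a z‖ * e z)) ≤
        ∑ z ∈ Z, (if In z then (0 : ℝ) else if z.im = 0 then 0 else 8 * (‖a z‖ * e z)) := by
      refine Finset.sum_le_sum_of_subset_of_nonneg hsub fun z _ _ => ?_
      have := hnn z
      split_ifs <;> positivity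
    refine h7.trans (Finset.sum_le_sum ?_)
    · intro z _
      have := hnn z
      by_cases h1 : In z
      · rw [if_pos h1, if_neg (not_not.mpr h1)]
      · rw [if_neg h1, if_pos h1]
        split_ifs
        · positivity
        · exact le_rfl
  rw [Finset.sum_sub_distrib, hK, ← hN]
  rw [htr, htr2]
  rw [hDr] at hmain
  linarith

end Pool.Agent.V8H15.LW
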