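import Pool.Agent.V8H15.LW.Ker
import Pool.Agent.N786.D.Shf

/-!
# Smooth windows of exponential type

Project LW (helper15).
-/

set_option autoImplicit false

open MeasureTheory Set Filter Topology Complex

namespace Pool.Agent.V8H15.LW

open Pool.Agent.R399.TW (pt pt_re pt_im pt_cont strip)
open Pool.Agent.N786.D (vshift2)

/-- the error function of the window `[t, t + V]` at scale `lam` -/
noncomputable def Er (p : ℕ) (lam t V x : ℝ) : ℝ :=
  ((1 + |lam * (x - t)|) ^ p)⁻¹ + ((1 + |lam * (x - (t + V))|) ^ p)⁻¹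

lemma Er_nonneg (p : ℕ) (lam t V x : ℝ) : 0 ≤ Er p lam t V x := by
  unfold Er; positivity

lemma Er_le_two (p : ℕ) (lam t V x : ℝ) : Er p lam t V x ≤ 2 := by
  unfold Er
  have h : ∀ y : ℝ, ((1 + |y|) ^ p)⁻¹ ≤ 1 := fun y =>
    inv_le_one_of_one_le₀ (one_le_pow₀ (by linarith [abs_nonneg y]))
  linarith [h (lam * (x - t)), h (lam * (x - (t + V)))]

/-- a smooth window of exponential type `lam` -/
structure Wnd (w : ℂ → ℂ) (C lam t V : ℝ) (p : ℕ) : Prop where
  diff : Differentiable ℂ w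
  conj : ∀ z : ℂ, w ((starRingEnd ℂ) z) = (starRingEnd ℂ) (w z)
  lo : ∀ x : ℝ, 0 ≤ (w x).re
  hi : ∀ x : ℝ, (w x).re ≤ 1
  near : ∀ z : ℂ, t ≤ z.re → z.re ≤ t + V →
    ‖1 - w z‖ ≤ C * Real.exp (lam * |z.im|) * Er p lam t V z.re
  far : ∀ z : ℂ, (z.re ≤ t ∨ t + V ≤ z.re) →
    ‖w z‖ ≤ C * Real.exp (lam * |z.im|) * Er p lam t V z.re

theorem wnd_exists (m : ℕ) (hm : 1 ≤ m) : ∃ C : ℝ, 1 ≤ C ∧ ∀ lam t V : ℝ, 0 < lam → 0 ≤ V →
    ∃ w : ℂ → ℂ, Wnd w C lam t V (2 * m - 2) := by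
  obtain ⟨H, C, hC, hH⟩ := step_exists m hm
  refine ⟨2 * C, by linarith, fun lam t V hl hV => ?_⟩
  have hC0 : 0 ≤ C := by linarith
  obtain ⟨a, ha⟩ : ∃ a : ℂ → ℂ, ∀ z, a z = lam * (z - t) := ⟨_, fun _ => rfl⟩
  obtain ⟨b, hb⟩ : ∃ b : ℂ → ℂ, ∀ z, b z = lam * (z - (t + V)) := ⟨_, fun _ => rfl⟩
  have are : ∀ z, (a z).re = lam * (z.re - t) := fun z => by rw [ha]; simp
  have aim : ∀ z, |(a z).im| = lam * |z.im| := fun z => by
    rw [ha]; simp [abs_mul, abs_of_pos hl]
  have bre : ∀ z, (b z).re = lam * (z.re - (t + V)) := fun z => by rw [hb]; simp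
  have bim : ∀ z, |(b z).im| = lam * |z.im| := fun z => by
    rw [hb]; simp [abs_mul, abs_of_pos hl]
  have aco : ∀ z, a ((starRingEnd ℂ) z) = (starRingEnd ℂ) (a z) := fun z => by
    rw [ha, ha]; simp
  have bco : ∀ z, b ((starRingEnd ℂ) z) = (starRingEnd ℂ) (b z) := fun z => by
    rw [hb, hb]; simp
  have aR : ∀ x : ℝ, a x = ((lam * (x - t) : ℝ) : ℂ) := fun x => by rw [ha]; push_cast; ring
  have bR : ∀ x : ℝ, b x = ((lam * (x - (t + V)) : ℝ) : ℂ) := fun x => by
    rw [hb]; push_cast; ring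
  have hba : ∀ x : ℝ, lam * (x - (t + V)) ≤ lam * (x - t) := fun x =>
    mul_le_mul_of_nonneg_left (by linarith) hl.le
  refine ⟨fun z => H (a z) - H (b z), ?_, ?_, ?_, ?_, ?_, ?_⟩
  · have e1 : Differentiable ℂ a := by
      have : a = fun z => (lam : ℂ) * (z - t) := funext ha
      rw [this]; fun_prop
    have e2 : Differentiable ℂ b := by
      have : b = fun z => (lam : ℂ) * (z - (t + V)) := funext hb
      rw [this]; fun_prop
    exact (hH.diff.comp e1).sub (hH.diff.comp e2)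
  · intro z
    rw [aco, bco, hH.conj, hH.conj, map_sub]
  · intro x
    rw [aR, bR, Complex.sub_re]
    linarith [hH.mono _ _ (hba x)]
  · intro x
    rw [aR, bR, Complex.sub_re]
    linarith [hH.hi (lam * (x - t)), hH.lo (lam * (x - (t + V)))]
  · intro z h1 h2
    have e1 := hH.right (a z) (by rw [are]; exact mul_nonneg hl.le (by linarith))
    have e2 := hH.left (b z) (by
      rw [bre]
      exact mul_nonpos_of_nonneg_of_nonpos hl.le (by linarith))
    rw [are, aim] at e1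
    rw [bre, bim] at e2
    have e3 : ‖1 - (H (a z) - H (b z))‖ ≤ ‖1 - H (a z)‖ + ‖H (b z)‖ := by
      have : 1 - (H (a z) - H (b z)) = (1 - H (a z)) + H (b z) := by ring
      rw [this]
      exact norm_add_le _ _
    unfold Er
    have h3 : 0 ≤ C * Real.exp (lam * |z.im|) *
      (((1 + |lam * (z.re - t)|) ^ (2 * m - 2))⁻¹ +
        ((1 + |lam * (z.re - (t + V))|) ^ (2 * m - 2))⁻¹) := by positivity
    linarith
  · intro z h1
    unfold Er
    have h5 : 0 ≤ C * Real.exp (lam * |z.im|) *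
      ((1 + |lam * (z.re - t)|) ^ (2 * m - 2))⁻¹ := by positivity
    have h6 : 0 ≤ C * Real.exp (lam * |z.im|) *
      ((1 + |lam * (z.re - (t + V))|) ^ (2 * m - 2))⁻¹ := by positivity
    rcases h1 with h | h
    · have e1 := hH.left (a z) (by
        rw [are]; exact mul_nonpos_of_nonneg_of_nonpos hl.le (by linarith))
      have e2 := hH.left (b z) (by
        rw [bre]; exact mul_nonpos_of_nonneg_of_nonpos hl.le (by linarith))
      rw [are, aim] at e1
      rw [bre, bim] at e2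
      have e3 := norm_sub_le (H (a z)) (H (b z))
      linarith
    · have e1 := hH.right (a z) (by
        rw [are]; exact mul_nonneg hl.le (by linarith))
      have e2 := hH.right (b z) (by
        rw [bre]; exact mul_nonneg hl.le (by linarith))
      rw [are, aim] at e1
      rw [bre, bim] at e2
      have e3 := norm_sub_le (1 - H (b z)) (1 - H (a z))
      have e4 : (1 - H (b z)) - (1 - H (a z)) = H (a z) - H (b z) := by ring
      rw [e4] at e3
      linarith

variable {w : ℂ → ℂ} {C lam t V : ℝ} {p : ℕ}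

lemma Wnd.real (h : Wnd w C lam t V p) (x : ℝ) : w x = (((w x).re : ℝ) : ℂ) := by
  have h1 := h.conj (x : ℂ)
  rw [Complex.conj_ofReal] at h1
  apply Complex.ext
  · simp
  · rw [Complex.ofReal_im]
    exact Complex.conj_eq_iff_im.mp h1.symm

lemma Wnd.norm_real (h : Wnd w C lam t V p) (x : ℝ) : ‖w x‖ = (w x).re := by
  rw [h.real x, Complex.norm_real, Real.norm_eq_abs, abs_of_nonneg]
  · simp
  · exact h.lo x

lemma one_add_sq_le (x t : ℝ) : 1 + x ^ 2 ≤ 2 * (1 + t ^ 2) * (1 + (x - t) ^ 2) := by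
  nlinarith [sq_nonneg (x - 2 * t), sq_nonneg (t * (x - t))]

lemma inv_sq_shift {lam : ℝ} (hl : 0 < lam) (t : ℝ) {p : ℕ} (hp : 2 ≤ p) (x : ℝ) :
    ((1 + |lam * (x - t)|) ^ p)⁻¹ ≤ (2 * (1 + t ^ 2) * (1 + (lam⁻¹) ^ 2)) * (1 + x ^ 2)⁻¹ := by
  have h1 : (1 + |lam * (x - t)|) ^ 2 ≤ (1 + |lam * (x - t)|) ^ p :=
    pow_le_pow_right₀ (by linarith [abs_nonneg (lam * (x - t))]) hp
  have h2 : 1 + (lam * (x - t)) ^ 2 ≤ (1 + |lam * (x - t)|) ^ 2 := by
    have := abs_nonneg (lam * (x - t))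
    have h3 := sq_abs (lam * (x - t))
    nlinarith
  have h3 : 1 + (x - t) ^ 2 ≤ (1 + (lam⁻¹) ^ 2) * (1 + (lam * (x - t)) ^ 2) := by
    have e : (x - t) ^ 2 = (lam⁻¹) ^ 2 * (lam * (x - t)) ^ 2 := by
      field_simp
    have e2 : 0 ≤ (lam⁻¹) ^ 2 := by positivity
    have e3 : 0 ≤ (lam * (x - t)) ^ 2 := by positivity
    nlinarith
  have h4 := one_add_sq_le x t
  have h5 : 1 + x ^ 2 ≤ (2 * (1 + t ^ 2) * (1 + (lam⁻¹) ^ 2)) * (1 + |lam * (x - t)|) ^ p := by
    calc 1 + x ^ 2 ≤ 2 * (1 + t ^ 2) * (1 + (x - t) ^ 2) := h4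
      _ ≤ 2 * (1 + t ^ 2) * ((1 + (lam⁻¹) ^ 2) * (1 + |lam * (x - t)|) ^ p) := by
          refine mul_le_mul_of_nonneg_left (h3.trans ?_) (by positivity)
          exact mul_le_mul_of_nonneg_left (h2.trans h1) (by positivity)
      _ = _ := by ring
  rw [← div_eq_mul_inv, le_div_iff₀ (by positivity), inv_mul_le_iff₀ (by positivity), mul_comm]
  exact h5

/-- quadratic decay -/
lemma Wnd.decay (h : Wnd w C lam t V p) (hl : 0 < lam) (hp : 2 ≤ p) (hC : 0 ≤ C) :
    ∃ K : ℝ, 0 ≤ K ∧ ∀ z : ℂ, ‖w z‖ ≤ K * Real.exp (lam * |z.im|) * (1 + z.re ^ 2)⁻¹ := by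
  obtain ⟨A, hA⟩ : ∃ A : ℝ, A = C * (2 * (1 + t ^ 2) * (1 + (lam⁻¹) ^ 2) +
    2 * (1 + (t + V) ^ 2) * (1 + (lam⁻¹) ^ 2)) := ⟨_, rfl⟩
  have hA0 : 0 ≤ A := by rw [hA]; positivity
  have hEr : ∀ x : ℝ, C * Er p lam t V x ≤ A * (1 + x ^ 2)⁻¹ := by
    intro x
    rw [hA]
    unfold Er
    have h1 := inv_sq_shift hl t hp x
    have h2 := inv_sq_shift hl (t + V) hp x
    calc C * (((1 + |lam * (x - t)|) ^ p)⁻¹ + ((1 + |lam * (x - (t + V))|) ^ p)⁻¹) ≤
        C * ((2 * (1 + t ^ 2) * (1 + (lam⁻¹) ^ 2)) * (1 + x ^ 2)⁻¹ +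
          (2 * (1 + (t + V) ^ 2) * (1 + (lam⁻¹) ^ 2)) * (1 + x ^ 2)⁻¹) :=
          mul_le_mul_of_nonneg_left (add_le_add h1 h2) hC
      _ = _ := by ring
  refine ⟨A + (1 + (|t| + |t + V|) ^ 2), by positivity, fun z => ?_⟩
  have he : 1 ≤ Real.exp (lam * |z.im|) := Real.one_le_exp (by positivity)
  have hEz := mul_le_mul_of_nonneg_right (hEr z.re) (Real.exp_pos (lam * |z.im|)).le
  have hB : 0 ≤ (1 + (|t| + |t + V|) ^ 2) * Real.exp (lam * |z.im|) * (1 + z.re ^ 2)⁻¹ := by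
    positivity
  by_cases h1 : z.re ≤ t ∨ t + V ≤ z.re
  · have h2 := h.far z h1
    calc ‖w z‖ ≤ C * Real.exp (lam * |z.im|) * Er p lam t V z.re := h2
      _ = C * Er p lam t V z.re * Real.exp (lam * |z.im|) := by ring
      _ ≤ A * (1 + z.re ^ 2)⁻¹ * Real.exp (lam * |z.im|) := hEz
      _ ≤ _ := by linarith [hB]
  · push Not at h1
    have h2 := h.near z h1.1.le h1.2.le
    have h3 : ‖w z‖ ≤ 1 + ‖1 - w z‖ := by
      have := norm_sub_le (1 : ℂ) (1 - w z)
      rw [sub_sub_cancel, norm_one] at this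
      exact this
    have h4 : |z.re| ≤ |t| + |t + V| := by
      rw [abs_le]
      constructor
      · have := neg_abs_le t
        have := abs_nonneg (t + V)
        linarith [h1.1]
      · have := le_abs_self (t + V)
        have := abs_nonneg t
        linarith [h1.2]
    have h5 : z.re ^ 2 ≤ (|t| + |t + V|) ^ 2 := by
      rw [← sq_abs z.re]
      exact pow_le_pow_left₀ (abs_nonneg _) h4 2
    have h6 : 1 ≤ (1 + (|t| + |t + V|) ^ 2) * (1 + z.re ^ 2)⁻¹ := by
      rw [← div_eq_mul_inv, le_div_iff₀ (by positivity)]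
      linarith
    calc ‖w z‖ ≤ 1 + C * Real.exp (lam * |z.im|) * Er p lam t V z.re := by linarith
      _ = 1 + C * Er p lam t V z.re * Real.exp (lam * |z.im|) := by ring
      _ ≤ ((1 + (|t| + |t + V|) ^ 2) * (1 + z.re ^ 2)⁻¹) * Real.exp (lam * |z.im|) +
          A * (1 + z.re ^ 2)⁻¹ * Real.exp (lam * |z.im|) := by
          refine add_le_add ?_ hEz
          exact one_le_mul_of_one_le_of_one_le h6 he
      _ = _ := by ring

/-- the Fourier transform of the window -/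
noncomputable def ft (w : ℂ → ℂ) (ξ : ℝ) : ℂ := ∫ x : ℝ, w x * cexp (-(I * ξ * x))

lemma Wnd.integrable (h : Wnd w C lam t V p) (hl : 0 < lam) (hp : 2 ≤ p) (hC : 0 ≤ C) :
    Integrable fun x : ℝ => w x := by
  obtain ⟨K, hK, hd⟩ := h.decay hl hp hC
  refine (integrable_inv_one_add_sq.const_mul K).mono'
    (h.diff.continuous.comp Complex.continuous_ofReal).aestronglyMeasurable
    (Eventually.of_forall fun x => ?_)
  have := hd x
  simpa using this

/-- integrals along horizontal lines -/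
lemma Wnd.shift (h : Wnd w C lam t V p) (hl : 0 < lam) (hp : 2 ≤ p) (hC : 0 ≤ C) (ξ σ : ℝ) :
    ft w ξ = ∫ τ : ℝ, w (-I * pt σ τ) * cexp (-(ξ * pt σ τ)) := by
  obtain ⟨K, hK, hd⟩ := h.decay hl hp hC
  obtain ⟨f, hf⟩ : ∃ f : ℂ → ℂ, ∀ s, f s = w (-I * s) * cexp (-(ξ * s)) := ⟨_, fun _ => rfl⟩
  have hfd : Differentiable ℂ f := by
    have : f = fun s => w (-I * s) * cexp (-(ξ * s)) := funext hf
    rw [this]
    exact (h.diff.comp (by fun_prop)).mul (by fun_prop)
  have hre : ∀ s : ℂ, (-I * s).re = s.im := fun s => by simp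
  have him : ∀ s : ℂ, (-I * s).im = -s.re := fun s => by simp
  have hbd : ∀ (a b : ℝ) (z : ℂ), z ∈ strip a b → ‖f z‖ ≤
      (K * Real.exp ((lam + |ξ|) * (|a| + |b|))) * (1 + z.im ^ 2)⁻¹ := by
    intro a b z hz
    rw [hf, norm_mul]
    have h1 := hd (-I * z)
    rw [hre, him, abs_neg] at h1
    have h2 : ‖cexp (-(ξ * z))‖ ≤ Real.exp (|ξ| * |z.re|) := by
      rw [Complex.norm_exp]
      refine Real.exp_le_exp.mpr ?_
      simp only [Complex.neg_re, Complex.re_ofReal_mul]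
      rw [← abs_mul]
      exact neg_le_abs _
    have h3 : |z.re| ≤ |a| + |b| := by
      rw [abs_le]
      constructor
      · have := neg_abs_le a
        have := abs_nonneg b
        linarith [hz.1]
      · have := le_abs_self b
        have := abs_nonneg a
        linarith [hz.2]
    calc ‖w (-I * z)‖ * ‖cexp (-(ξ * z))‖ ≤
        (K * Real.exp (lam * |z.re|) * (1 + z.im ^ 2)⁻¹) * Real.exp (|ξ| * |z.re|) :=
          mul_le_mul h1 h2 (norm_nonneg _) (by positivity)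
      _ = K * (Real.exp (lam * |z.re|) * Real.exp (|ξ| * |z.re|)) * (1 + z.im ^ 2)⁻¹ := by ring
      _ = K * Real.exp ((lam + |ξ|) * |z.re|) * (1 + z.im ^ 2)⁻¹ := by
          rw [← Real.exp_add]; ring_nf
      _ ≤ _ := by
          gcongr
  have h0 : ft w ξ = ∫ τ : ℝ, f (pt 0 τ) := by
    unfold ft
    refine integral_congr_ae (Eventually.of_forall fun x => ?_)
    simp only
    rw [hf]
    have e1 : -I * pt 0 x = (x : ℂ) := by
      unfold Pool.Agent.R399.TW.pt
      push_cast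
      linear_combination (-(x : ℂ)) * Complex.I_sq
    have e2 : (ξ : ℂ) * pt 0 x = I * ξ * x := by
      unfold Pool.Agent.R399.TW.pt
      push_cast
      ring
    rw [e1, e2]
  have h1 : (fun τ : ℝ => w (-I * pt σ τ) * cexp (-(ξ * pt σ τ))) = fun τ => f (pt σ τ) := by
    funext τ
    rw [hf]
  rw [h0, h1]
  rcases le_total 0 σ with hs | hs
  · exact vshift2 hs hfd.continuous.continuousOn hfd.differentiableOn (hbd 0 σ)
  · exact (vshift2 hs hfd.continuous.continuousOn hfd.differentiableOn (hbd σ 0)).symm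

/-- **the Fourier transform has compact support** -/
theorem Wnd.ft_zero (h : Wnd w C lam t V p) (hl : 0 < lam) (hp : 2 ≤ p) (hC : 0 ≤ C) {ξ : ℝ}
    (hξ : lam < |ξ|) : ft w ξ = 0 := by
  obtain ⟨K, hK, hd⟩ := h.decay hl hp hC
  have hre : ∀ s : ℂ, (-I * s).re = s.im := fun s => by simp
  have him : ∀ s : ℂ, (-I * s).im = -s.re := fun s => by simp
  have hb : ∀ σ : ℝ, ‖ft w ξ‖ ≤ K * Real.pi * Real.exp (lam * |σ| - ξ * σ) := by
    intro σ
    rw [h.shift hl hp hC ξ σ]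
    have h1 : ∀ τ : ℝ, ‖w (-I * pt σ τ) * cexp (-(ξ * pt σ τ))‖ ≤
        (K * Real.exp (lam * |σ| - ξ * σ)) * (1 + τ ^ 2)⁻¹ := by
      intro τ
      rw [norm_mul, Complex.norm_exp]
      have h2 := hd (-I * pt σ τ)
      rw [hre, him, pt_re, pt_im, abs_neg] at h2
      have e1 : (-(↑ξ * pt σ τ)).re = -(ξ * σ) := by
        simp [pt_re]
      rw [e1]
      calc ‖w (-I * pt σ τ)‖ * Real.exp (-(ξ * σ)) ≤
          (K * Real.exp (lam * |σ|) * (1 + τ ^ 2)⁻¹) * Real.exp (-(ξ * σ)) :=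
            mul_le_mul_of_nonneg_right h2 (Real.exp_pos _).le
        _ = K * (Real.exp (lam * |σ|) * Real.exp (-(ξ * σ))) * (1 + τ ^ 2)⁻¹ := by ring
        _ = _ := by rw [← Real.exp_add, sub_eq_add_neg]
    have h2 := norm_integral_le_of_norm_le (integrable_inv_one_add_sq.const_mul
      (K * Real.exp (lam * |σ| - ξ * σ))) (Eventually.of_forall h1)
    rw [integral_const_mul, integral_univ_inv_one_add_sq] at h2
    linarith
  have hlim : ∀ g : ℝ → ℝ, Tendsto g atTop atTop →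
      (∀ r, 0 ≤ r → ∃ σ, lam * |σ| - ξ * σ = -(g r)) → ft w ξ = 0 := by
    intro g hg hσ
    have h1 : Tendsto (fun r : ℝ => K * Real.pi * Real.exp (-(g r))) atTop (𝓝 0) := by
      have h2 : Tendsto (fun r : ℝ => Real.exp (-(g r))) atTop (𝓝 0) :=
        Real.tendsto_exp_atBot.comp (tendsto_neg_atTop_atBot.comp hg)
      simpa using h2.const_mul (K * Real.pi)
    have h3 : ‖ft w ξ‖ ≤ 0 := by
      refine ge_of_tendsto h1 ?_
      filter_upwards [eventually_ge_atTop 0] with r hr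
      obtain ⟨σ, hσ'⟩ := hσ r hr
      rw [← hσ']
      exact hb σ
    exact norm_le_zero_iff.mp h3
  rcases le_total 0 ξ with hs | hs
  · rw [abs_of_nonneg hs] at hξ
    refine hlim (fun r => (ξ - lam) * r) (tendsto_id.const_mul_atTop (by linarith)) fun r hr =>
      ⟨r, ?_⟩
    rw [abs_of_nonneg hr]
    ring
  · rw [abs_of_nonpos hs] at hξ
    refine hlim (fun r => (-ξ - lam) * r) (tendsto_id.const_mul_atTop (by linarith)) fun r hr =>
      ⟨-r, ?_⟩
    rw [abs_neg, abs_of_nonneg hr]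
    ring

lemma Er_int (hl : 0 < lam) (hp : 2 ≤ p) (t V : ℝ) :
    Integrable (fun x : ℝ => Er p lam t V x) ∧ ∫ x : ℝ, Er p lam t V x ≤ 2 * Real.pi / lam := by
  have h1 : ∀ (c x : ℝ), ((1 + |lam * (x - c)|) ^ p)⁻¹ ≤ (1 + (lam * (x - c)) ^ 2)⁻¹ := by
    intro c x
    refine inv_anti₀ (by positivity) ?_
    have h2 : (1 + |lam * (x - c)|) ^ 2 ≤ (1 + |lam * (x - c)|) ^ p :=
      pow_le_pow_right₀ (by linarith [abs_nonneg (lam * (x - c))]) hp
    have h3 := abs_nonneg (lam * (x - c))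
    have h4 := sq_abs (lam * (x - c))
    nlinarith
  have h2 : ∀ c : ℝ, Integrable (fun x : ℝ => (1 + (lam * (x - c)) ^ 2)⁻¹) ∧
      ∫ x : ℝ, (1 + (lam * (x - c)) ^ 2)⁻¹ = Real.pi / lam := by
    intro c
    have e1 : Integrable (fun x : ℝ => (1 + (lam * x) ^ 2)⁻¹) :=
      integrable_inv_one_add_sq.comp_mul_left' hl.ne'
    refine ⟨e1.comp_sub_right c, ?_⟩
    rw [integral_sub_right_eq_self (fun x : ℝ => (1 + (lam * x) ^ 2)⁻¹) c]
    have := Measure.integral_comp_mul_left (fun x : ℝ => (1 + x ^ 2)⁻¹) lam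
    rw [this, integral_univ_inv_one_add_sq, abs_of_pos (by positivity), smul_eq_mul]
    field_simp
  have hc : ∀ c : ℝ, Continuous fun x : ℝ => ((1 + |lam * (x - c)|) ^ p)⁻¹ := by
    intro c
    refine Continuous.inv₀ (by fun_prop) fun x => ?_
    have : 0 < 1 + |lam * (x - c)| := by positivity
    positivity
  have h3 : ∀ c : ℝ, Integrable fun x : ℝ => ((1 + |lam * (x - c)|) ^ p)⁻¹ := by
    intro c
    refine (h2 c).1.mono' (hc c).aestronglyMeasurable (Eventually.of_forall fun x => ?_)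
    rw [Real.norm_eq_abs, abs_of_nonneg (by positivity)]
    exact h1 c x
  have h4 : ∀ c : ℝ, ∫ x : ℝ, ((1 + |lam * (x - c)|) ^ p)⁻¹ ≤ Real.pi / lam := by
    intro c
    rw [← (h2 c).2]
    exact integral_mono (h3 c) (h2 c).1 (h1 c)
  refine ⟨(h3 t).add (h3 (t + V)), ?_⟩
  unfold Er
  rw [integral_add (h3 t) (h3 (t + V))]
  have := h4 t
  have := h4 (t + V)
  have e : 2 * Real.pi / lam = Real.pi / lam + Real.pi / lam := by ring
  rw [e]
  linarith

/-- the window is close to the indicator function of `[t, t + V]` -/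
lemma Wnd.ind (h : Wnd w C lam t V p) (x : ℝ) :
    |(w x).re - (Icc t (t + V)).indicator (fun _ => (1 : ℝ)) x| ≤ C * Er p lam t V x := by
  by_cases hx : x ∈ Icc t (t + V)
  · rw [indicator_of_mem hx]
    have h1 := h.near x (by simpa using hx.1) (by simpa using hx.2)
    simp only [Complex.ofReal_im, abs_zero, mul_zero, Real.exp_zero, mul_one,
      Complex.ofReal_re] at h1
    refine le_trans ?_ h1
    have h2 := Complex.abs_re_le_norm (1 - w x)
    rw [Complex.sub_re, Complex.one_re, abs_sub_comm] at h2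
    exact h2
  · rw [indicator_of_notMem hx, sub_zero]
    have h1 := h.far x (by
      rw [mem_Icc, not_and_or, not_le, not_le] at hx
      rcases hx with h | h
      · left; simpa using h.le
      · right; simpa using h.le)
    simp only [Complex.ofReal_im, abs_zero, mul_zero, Real.exp_zero, mul_one,
      Complex.ofReal_re] at h1
    exact (Complex.abs_re_le_norm _).trans h1

/-- the mass of the window -/
theorem Wnd.mass (h : Wnd w C lam t V p) (hl : 0 < lam) (hp : 2 ≤ p) (hC : 0 ≤ C)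
    (hV : 0 ≤ V) : |(∫ x : ℝ, (w x).re) - V| ≤ C * (2 * Real.pi / lam) := by
  have h1 : Integrable fun x : ℝ => (w x).re := (h.integrable hl hp hC).re
  have h2 : Integrable ((Icc t (t + V)).indicator (fun _ => (1 : ℝ))) :=
    (integrable_indicator_iff measurableSet_Icc).mpr (by simp)
  have h3 : ∫ x : ℝ, (Icc t (t + V)).indicator (fun _ => (1 : ℝ)) x = V := by
    rw [integral_indicator measurableSet_Icc]
    simp [hV]
  have h4 : (∫ x : ℝ, (w x).re) - V =
      ∫ x : ℝ, ((w x).re - (Icc t (t + V)).indicator (fun _ => (1 : ℝ)) x) := by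
    rw [integral_sub h1 h2, h3]
  rw [h4]
  obtain ⟨e1, e2⟩ := Er_int (p := p) hl hp t V
  calc |∫ x : ℝ, ((w x).re - (Icc t (t + V)).indicator (fun _ => (1 : ℝ)) x)| ≤
      ∫ x : ℝ, C * Er p lam t V x := by
        rw [← Real.norm_eq_abs]
        refine norm_integral_le_of_norm_le (e1.const_mul C) (Eventually.of_forall fun x => ?_)
        rw [Real.norm_eq_abs]
        exact h.ind x
    _ ≤ _ := by
        rw [integral_const_mul]
        exact mul_le_mul_of_nonneg_left e2 hC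

end Pool.Agent.V8H15.LW
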